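import Pool.Agent.W500.CurveOct

/-! Forms over a field: vanishing at the triple points, and fat point membership. -/

set_option autoImplicit false
set_option maxRecDepth 100000

namespace Pool.Agent.W500.Curve

open Finset MvPolynomial

section field
variable {K : Type*} [Field K]

/-- exponent vector -/
noncomputable def mk3 (s : ℕ) (e : ℕ × ℕ) : Fin 3 →₀ ℕ :=
  Finsupp.equivFunOnFinite.symm ![e.1, e.2, s - e.1 - e.2]

lemma mk3_inj (s : ℕ) : Function.Injective (mk3 s) := by
  intro e f h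
  have h0 := DFunLike.congr_fun h 0
  have h1 := DFunLike.congr_fun h 1
  simp [mk3] at h0 h1
  exact Prod.ext h0 h1

lemma mk3_of_homog {s : ℕ} {g : MvPolynomial (Fin 3) K} (hg : g.IsHomogeneous s) (hs : s ≤ 8)
    (d : Fin 3 →₀ ℕ) (hd : coeff d g ≠ 0) : (d 0, d 1) ∈ P8 ∧ mk3 s (d 0, d 1) = d := by
  have h := hg hd
  have h' : d 0 + d 1 + d 2 = s := by
    rw [← h, Finsupp.weight_apply, Finsupp.sum_fintype _ _ (by simp)]
    simp [Fin.sum_univ_three]
  refine ⟨?_, ?_⟩
  · simp only [P8, Finset.mem_filter, Finset.mem_product, Finset.mem_range]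
    omega
  · ext i
    fin_cases i
    · simp [mk3]
    · simp [mk3]
    · simp [mk3]; omega

lemma eval_form {s : ℕ} {g : MvPolynomial (Fin 3) K} (hg : g.IsHomogeneous s) (hs : s ≤ 8)
    (X Y : K) : eval ![X, Y, 1] g = ∑ e ∈ P8, coeff (mk3 s e) g * (X ^ e.1 * Y ^ e.2) := by
  classical
  have h1 : eval ![X, Y, 1] g = ∑ d ∈ g.support, coeff d g * (X ^ d 0 * Y ^ d 1) := by
    rw [MvPolynomial.eval_eq']
    refine Finset.sum_congr rfl fun d _ => ?_
    simp [Fin.prod_univ_three]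
  have h2 : ∑ d ∈ g.support, coeff d g * (X ^ d 0 * Y ^ d 1)
      = ∑ d ∈ P8.image (mk3 s), coeff d g * (X ^ d 0 * Y ^ d 1) := by
    refine Finset.sum_subset ?_ ?_
    · intro d hd
      obtain ⟨h3, h4⟩ := mk3_of_homog hg hs d (mem_support_iff.mp hd)
      exact Finset.mem_image.mpr ⟨_, h3, h4⟩
    · intro d _ hd
      rw [notMem_support_iff.mp hd, zero_mul]
  rw [h1, h2, Finset.sum_image (fun a _ b _ h => mk3_inj s h)]
  refine Finset.sum_congr rfl fun e _ => ?_
  simp [mk3]

variable [CharZero K]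

theorem form_zero (φ : ℤ_[109] →+* K) (hφ : Function.Injective φ) (w : K) (hw : w ^ 2 + w + 1 = 0)
    (x y : ℕ → ℤ_[109]) (hx : ∀ q, (109 : ℤ_[109]) ^ 2 ∣ x q - xa q)
    (hy : ∀ q, (109 : ℤ_[109]) ^ 2 ∣ y q - ya q)
    {s : ℕ} {g : MvPolynomial (Fin 3) K} (hg : g.IsHomogeneous s) (hs : s ≤ 8)
    (hev : ∀ q < 15, ∀ v < 3, eval ![w ^ v * φ (x q), w ^ (2 * v) * φ (y q), 1] g = 0) : g = 0 := by
  classical
  have hw3 : w ^ 3 = 1 := by linear_combination (w - 1) * hw
  -- pieces
  let A : ℕ → ℕ → K := fun q χ => ∑ e ∈ P8.filter (fun e : ℕ × ℕ => (e.1 + 2 * e.2) % 3 = χ),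
    coeff (mk3 s e) g * (φ (x q) ^ e.1 * φ (y q) ^ e.2)
  have hA : ∀ q < 15, ∀ v < 3, A q 0 + (w ^ v) * A q 1 + (w ^ v) ^ 2 * A q 2 = 0 := by
    intro q hq v hv
    rw [← hev q hq v hv, eval_form hg hs]
    have hpt : ∀ χ, χ < 3 → (w ^ v) ^ χ * A q χ
        = ∑ e ∈ P8, if (e.1 + 2 * e.2) % 3 = χ then coeff (mk3 s e) g *
          ((w ^ v * φ (x q)) ^ e.1 * (w ^ (2 * v) * φ (y q)) ^ e.2) else 0 := by
      intro χ hχ
      rw [← Finset.sum_filter]
      simp only [A]
      rw [Finset.mul_sum]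
      refine Finset.sum_congr rfl fun e he => ?_
      have he2 := (Finset.mem_filter.mp he).2
      have : (w ^ v * φ (x q)) ^ e.1 * (w ^ (2 * v) * φ (y q)) ^ e.2
          = w ^ (v * (e.1 + 2 * e.2)) * (φ (x q) ^ e.1 * φ (y q) ^ e.2) := by
        rw [mul_pow, mul_pow, ← pow_mul, ← pow_mul,
          show v * (e.1 + 2 * e.2) = v * e.1 + 2 * v * e.2 by ring, pow_add]
        ring
      rw [this]
      have h5 : w ^ (v * (e.1 + 2 * e.2)) = (w ^ v) ^ χ := by
        rw [← pow_mul]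
        have h6 : e.1 + 2 * e.2 = χ + 3 * ((e.1 + 2 * e.2) / 3) := by omega
        rw [h6, mul_add, pow_add, show v * (3 * ((e.1 + 2 * e.2) / 3))
          = 3 * (v * ((e.1 + 2 * e.2) / 3)) by ring, pow_mul w 3, hw3, one_pow, mul_one]
      rw [h5]; ring
    have h0 := hpt 0 (by norm_num)
    have h1 := hpt 1 (by norm_num)
    have h2 := hpt 2 (by norm_num)
    rw [pow_zero, one_mul] at h0
    rw [pow_one] at h1
    rw [h0, h1, h2, ← Finset.sum_add_distrib, ← Finset.sum_add_distrib]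
    refine Finset.sum_congr rfl fun e _ => ?_
    have : (e.1 + 2 * e.2) % 3 < 3 := Nat.mod_lt _ (by norm_num)
    interval_cases h : (e.1 + 2 * e.2) % 3 <;> simp
  have hA0 : ∀ q < 15, ∀ χ < 3, A q χ = 0 := by
    intro q hq
    have h0 := hA q hq 0 (by norm_num)
    have h1 := hA q hq 1 (by norm_num)
    have h2 := hA q hq 2 (by norm_num)
    simp only [pow_zero, one_mul, one_pow, pow_one] at h0 h1
    have h2' : A q 0 + w ^ 2 * A q 1 + w * A q 2 = 0 := by
      rw [← h2]
      linear_combination (-(w * A q 2)) * hw3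
    obtain ⟨a, b, c⟩ := split3 w _ _ _ hw h0 h1 h2'
    intro χ hχ
    interval_cases χ
    · exact a
    · exact b
    · exact c
  -- coefficients
  have hco : ∀ χ : Fin 3, ∀ c : Fin 15, coeff (mk3 s (oc χ c)) g = 0 := by
    intro χ
    have hdet : ((Ev x y χ).map φ).det ≠ 0 := by
      have h1 := Ev_det x y hx hy χ χ.2
      rw [show (Ev x y χ).map φ = φ.mapMatrix (Ev x y χ) from rfl, ← RingHom.map_det]
      exact (map_ne_zero_iff φ hφ).mpr h1
    have hz := Matrix.eq_zero_of_mulVec_eq_zero (M := (Ev x y χ).map φ)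
      (v := fun c : Fin 15 => coeff (mk3 s (oc χ c)) g) hdet (by
      funext q
      have h1 := hA0 q q.2 χ χ.2
      simp only [A] at h1
      rw [← oc_image χ, Finset.sum_image (fun c _ d _ h => oc_inj χ c d h)] at h1
      rw [Pi.zero_apply, ← h1]
      simp only [Matrix.mulVec, dotProduct, Matrix.map_apply, Ev, map_mul, map_pow]
      refine Finset.sum_congr rfl fun c _ => ?_
      ring)
    exact fun c => congrFun hz c
  ext d
  rw [coeff_zero]
  by_contra hd
  obtain ⟨h3, h4⟩ := mk3_of_homog hg hs d hd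
  have h5 : (d 0, d 1) ∈ P8.filter (fun e : ℕ × ℕ => (e.1 + 2 * e.2) % 3
      = ((⟨(d 0 + 2 * d 1) % 3, Nat.mod_lt _ (by norm_num)⟩ : Fin 3) : ℕ)) := by
    rw [Finset.mem_filter]
    exact ⟨h3, rfl⟩
  rw [← oc_image, Finset.mem_image] at h5
  obtain ⟨c, _, hc⟩ := h5
  have h6 := hco ⟨(d 0 + 2 * d 1) % 3, Nat.mod_lt _ (by norm_num)⟩ c
  rw [hc, h4] at h6
  exact hd h6

end field

section fat

lemma tij (m : ℕ) : ti m + tj m ≤ 18 ∧ (ti m + 2 * tj m) % 3 = 0 := by
  rcases lt_or_ge m 64 with h | h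
  · have : ∀ m < 64, ti m + tj m ≤ 18 ∧ (ti m + 2 * tj m) % 3 = 0 := by decide +kernel
    exact this m h
  · unfold ti tj
    rw [List.getD_eq_default _ _ (by rw [lenT]; exact h)]
    simp

variable {S : Type*} [CommRing S]

lemma add_pow_ext (u v : S) (n : ℕ) (hn : n ≤ 18) :
    (u + v) ^ n = ∑ a ∈ range 19, (n.choose a : S) * (u ^ a * v ^ (n - a)) := by
  rw [add_pow]
  have h : range (n + 1) ⊆ range 19 := by
    intro a ha
    simp only [Finset.mem_range] at *
    omega
  rw [Finset.sum_subset h]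
  · refine Finset.sum_congr rfl fun a _ => by ring
  · intro a _ ha
    have : n < a := by
      simp only [Finset.mem_range] at ha
      omega
    rw [Nat.choose_eq_zero_of_lt this]
    simp

/-- expansion of the curve at a point -/
lemma curve_mem (I : Ideal S) (u v : S) (hu : u ∈ I) (hv : v ∈ I) (x y z : S) (c : ℕ → S)
    (hj : ∀ a b, a + b ≤ 2 → jet c x y a b = 0) :
    ∑ m ∈ range 64, c m * ((u + x * z) ^ ti m * (v + y * z) ^ tj m * z ^ (18 - ti m - tj m))
      ∈ I ^ 3 := by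
  have h1 : ∀ m, c m * ((u + x * z) ^ ti m * (v + y * z) ^ tj m * z ^ (18 - ti m - tj m))
      = ∑ a ∈ range 19, ∑ b ∈ range 19, (u ^ a * v ^ b * z ^ (18 - a - b)) * (c m * mon m a b x y) := by
    intro m
    obtain ⟨h2, _⟩ := tij m
    rw [add_pow_ext _ _ _ (by omega : ti m ≤ 18), add_pow_ext _ _ _ (by omega : tj m ≤ 18),
      Finset.sum_mul_sum, Finset.sum_mul, Finset.mul_sum]
    refine Finset.sum_congr rfl fun a _ => ?_
    rw [Finset.sum_mul, Finset.mul_sum]
    refine Finset.sum_congr rfl fun b _ => ?_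
    rcases lt_or_ge (ti m) a with h3 | h3
    · simp [mon, Nat.choose_eq_zero_of_lt h3]
    rcases lt_or_ge (tj m) b with h4 | h4
    · simp [mon, Nat.choose_eq_zero_of_lt h4]
    have h5 : z ^ (18 - a - b) = z ^ (ti m - a) * z ^ (tj m - b) * z ^ (18 - ti m - tj m) := by
      rw [← pow_add, ← pow_add]
      congr 1
      omega
    rw [h5, mon, mul_pow, mul_pow]
    push_cast
    ring
  rw [Finset.sum_congr rfl fun m _ => h1 m, Finset.sum_comm]
  refine Ideal.sum_mem _ fun a _ => ?_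
  rw [Finset.sum_comm]
  refine Ideal.sum_mem _ fun b _ => ?_
  rw [← Finset.mul_sum]
  rcases le_or_gt (a + b) 2 with h | h
  · have := hj a b h
    rw [jet] at this
    rw [this, mul_zero]
    exact Ideal.zero_mem _
  · apply Ideal.mul_mem_right
    apply Ideal.mul_mem_right
    have h6 : u ^ a * v ^ b ∈ I ^ (a + b) := by
      rw [pow_add]
      exact Ideal.mul_mem_mul (Ideal.pow_mem_pow hu a) (Ideal.pow_mem_pow hv b)
    exact Ideal.pow_le_pow_right h h6

/-- jets at the conjugate points -/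
lemma jet_conj (c : ℕ → S) (x y w : S) (hw : w ^ 3 = 1) (a b v : ℕ) (h : jet c x y a b = 0) :
    jet c (w ^ v * x) (w ^ (2 * v) * y) a b = 0 := by
  have hu : w ^ (2 * (v * (a + 2 * b))) * w ^ (v * (a + 2 * b)) = 1 := by
    rw [← pow_add, show 2 * (v * (a + 2 * b)) + v * (a + 2 * b) = 3 * (v * (a + 2 * b)) by ring,
      pow_mul, hw, one_pow]
  have key : w ^ (v * (a + 2 * b)) * jet c (w ^ v * x) (w ^ (2 * v) * y) a b = jet c x y a b := by
    unfold jet
    rw [Finset.mul_sum]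
    refine Finset.sum_congr rfl fun m _ => ?_
    rcases lt_or_ge (ti m) a with h3 | h3
    · simp [mon, Nat.choose_eq_zero_of_lt h3]
    rcases lt_or_ge (tj m) b with h4 | h4
    · simp [mon, Nat.choose_eq_zero_of_lt h4]
    obtain ⟨_, h2⟩ := tij m
    rw [mon, mon, mul_pow, mul_pow, ← pow_mul, ← pow_mul]
    have h5 : w ^ (v * (a + 2 * b)) * (w ^ (v * (ti m - a)) * w ^ (2 * v * (tj m - b))) = 1 := by
      rw [← pow_add, ← pow_add]
      have h6 : v * (a + 2 * b) + (v * (ti m - a) + 2 * v * (tj m - b)) = 3 * (v * ((ti m + 2 * tj m) / 3)) := by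
        have h7 : v * (a + 2 * b) + (v * (ti m - a) + 2 * v * (tj m - b)) = v * (ti m + 2 * tj m) := by
          have e1 : ti m = a + (ti m - a) := by omega
          have e2 : tj m = b + (tj m - b) := by omega
          conv_rhs => rw [e1, e2]
          ring
        rw [h7, show ti m + 2 * tj m = 3 * ((ti m + 2 * tj m) / 3) by omega]
        rw [Nat.mul_div_cancel_left _ (by norm_num)]
        ring
      rw [h6, pow_mul, hw, one_pow]
    linear_combination (c m * ((((ti m).choose a * (tj m).choose b : ℕ) : S) * x ^ (ti m - a) * y ^ (tj m - b))) * h5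
  have := congrArg (w ^ (2 * (v * (a + 2 * b))) * ·) key
  rw [← mul_assoc, hu, one_mul, h, mul_zero] at this
  exact this

end fat

end Pool.Agent.W500.Curve
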