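import Mathlib
import Pool.Agent.W384.Defs

set_option autoImplicit false

open UpperHalfPlane MeasureTheory Filter Topology
open scoped MatrixGroups BoundedContinuousFunction ContDiff ENNReal

namespace Pool.Agent.W500

open Pool.Agent.W384

theorem uu_eq (z w : ℍ) : uu z w = Real.cosh (dist z w) - 1 := by
  rw [UpperHalfPlane.cosh_dist]; unfold uu; ring

theorem uu_comm (z w : ℍ) : uu z w = uu w z := by rw [uu_eq, uu_eq, dist_comm]

theorem uu_smulR (g : SL(2, ℝ)) (z w : ℍ) : uu (g • z) (g • w) = uu z w := by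
  rw [uu_eq, uu_eq, dist_smul]

theorem smul_eq_smulR (g : SL(2, ℤ)) (z : ℍ) : g • z = (g : SL(2, ℝ)) • z := by
  ext1
  rw [coe_specialLinearGroup_apply, coe_specialLinearGroup_apply]
  simp

theorem uu_smul (g : SL(2, ℤ)) (z w : ℍ) : uu (g • z) (g • w) = uu z w := by
  rw [smul_eq_smulR, smul_eq_smulR, uu_smulR]

theorem continuous_uu : Continuous fun p : ℍ × ℍ => uu p.1 p.2 := by
  have : (fun p : ℍ × ℍ => uu p.1 p.2) = fun p => Real.cosh (dist p.1 p.2) - 1 := by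
    funext p; exact uu_eq _ _
  rw [this]
  fun_prop

theorem mp_smulR (g : SL(2, ℝ)) :
    MeasurePreserving (fun z : ℍ => g • z) (volume : Measure ℍ) volume := by
  have h := measurePreserving_smul (Matrix.SpecialLinearGroup.mapGL ℝ g : GL (Fin 2) ℝ)
    (volume : Measure ℍ)
  exact h

theorem mp_smul (g : SL(2, ℤ)) :
    MeasurePreserving (fun z : ℍ => g • z) (volume : Measure ℍ) volume := by
  have h := mp_smulR (g : SL(2, ℝ))
  have e : (fun z : ℍ => g • z) = fun z : ℍ => (g : SL(2, ℝ)) • z := by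
    funext z; exact smul_eq_smulR g z
  rw [e]; exact h

/-! ### The counting function and the weight -/

/-- The number of translates of `z` in the fundamental domain. -/
noncomputable def NN (z : ℍ) : ℝ≥0∞ :=
  ∑' γ : SL(2, ℤ), (ModularGroup.fd).indicator (fun _ => (1 : ℝ≥0∞)) (γ • z)

theorem NN_smul (δ : SL(2, ℤ)) (z : ℍ) : NN (δ • z) = NN z := by
  unfold NN
  rw [← (Equiv.mulRight δ).tsum_eq
    (fun γ : SL(2, ℤ) => (ModularGroup.fd).indicator (fun _ => (1 : ℝ≥0∞)) (γ • z))]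
  refine tsum_congr fun γ => ?_
  simp only [Equiv.coe_mulRight]
  rw [mul_smul]

theorem one_le_NN (z : ℍ) : 1 ≤ NN z := by
  obtain ⟨γ, hγ⟩ := ModularGroup.exists_smul_mem_fd z
  have h := ENNReal.le_tsum (f := fun γ : SL(2, ℤ) =>
    (ModularGroup.fd).indicator (fun _ => (1 : ℝ≥0∞)) (γ • z)) γ
  rw [Set.indicator_of_mem hγ] at h
  exact h

open ModularGroup in
theorem finite_fd {z : ℍ} (hz : z ∈ ModularGroup.fd) :
    {γ : SL(2, ℤ) | γ • z ∈ ModularGroup.fd}.Finite := by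
  refine Set.Finite.subset (Set.toFinite ({1, -1, T, -T, T⁻¹, -T⁻¹, S, -S, T * S, -(T * S),
    T⁻¹ * S * T⁻¹, -(T⁻¹ * S * T⁻¹), S * T⁻¹, -(S * T⁻¹), S * T, -(S * T), T * S * T,
    -(T * S * T), T⁻¹ * S, -(T⁻¹ * S)} : Set SL(2, ℤ))) ?_
  intro γ hγ
  have h := cases_of_mem_fd_smul_mem_fd hz hγ
  rcases h with h | ⟨h, -⟩ | ⟨h, -⟩ | ⟨h, -⟩ | ⟨h, -⟩ | ⟨h, -⟩ | ⟨h, -⟩ | ⟨h, -⟩ | ⟨h, -⟩ | ⟨h, -⟩ <;>
    rcases h with h | h <;> simp [h]

theorem NN_lt_top (z : ℍ) : NN z < ⊤ := by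
  obtain ⟨δ, hδ⟩ := ModularGroup.exists_smul_mem_fd z
  rw [← NN_smul δ z]
  have hf := finite_fd hδ
  unfold NN
  rw [tsum_eq_sum (s := hf.toFinset)]
  · refine ENNReal.sum_lt_top.2 fun γ hγ => ?_
    refine lt_of_le_of_lt (Set.indicator_le_self' (by simp) _) (by simp)
  · intro γ hγ
    refine Set.indicator_of_notMem ?_ _
    intro h
    exact hγ (hf.mem_toFinset.2 h)

/-- The weight in `ℝ≥0∞`. -/
noncomputable def wE (z : ℍ) : ℝ≥0∞ := (ModularGroup.fd).indicator (fun z => (NN z)⁻¹) z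

/-- The weight. -/
noncomputable def wR (z : ℍ) : ℝ := (wE z).toReal

instance : Countable SL(2, ℤ) := by
  have : Countable (Matrix (Fin 2) (Fin 2) ℤ) := inferInstanceAs (Countable (Fin 2 → Fin 2 → ℤ))
  unfold Matrix.SpecialLinearGroup
  infer_instance

theorem measurable_NN : Measurable NN := by
  unfold NN
  refine Measurable.tsum fun γ => ?_
  exact (measurable_const.indicator ModularGroup.isClosed_fd.measurableSet).comp
    (mp_smul γ).measurable

theorem measurable_wE : Measurable wE :=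
  measurable_NN.inv.indicator ModularGroup.isClosed_fd.measurableSet

theorem measurable_wR : Measurable wR := measurable_wE.ennreal_toReal

theorem wE_le_one (z : ℍ) : wE z ≤ 1 := by
  unfold wE
  refine (Set.indicator_le_self' (by simp) _).trans ?_
  exact ENNReal.inv_le_one.2 (one_le_NN z)

theorem wE_ne_top (z : ℍ) : wE z ≠ ⊤ := ne_top_of_le_ne_top ENNReal.one_ne_top (wE_le_one z)

theorem ofReal_wR (z : ℍ) : ENNReal.ofReal (wR z) = wE z := ENNReal.ofReal_toReal (wE_ne_top z)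

theorem wR_nonneg (z : ℍ) : 0 ≤ wR z := ENNReal.toReal_nonneg

theorem wR_le_one (z : ℍ) : wR z ≤ 1 := by
  have := ENNReal.toReal_mono ENNReal.one_ne_top (wE_le_one z)
  rw [ENNReal.toReal_one] at this
  exact this

theorem wR_pos {z : ℍ} (hz : z ∈ ModularGroup.fd) : 0 < wR z := by
  unfold wR wE
  rw [Set.indicator_of_mem hz]
  refine ENNReal.toReal_pos ?_ ?_
  · exact ENNReal.inv_ne_zero.2 (NN_lt_top z).ne
  · exact ENNReal.inv_ne_top.2 (zero_lt_one.trans_le (one_le_NN z)).ne'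

theorem wR_eq_zero {z : ℍ} (hz : z ∉ ModularGroup.fd) : wR z = 0 := by
  unfold wR wE
  rw [Set.indicator_of_notMem hz]; rfl

theorem tsum_wE (z : ℍ) : ∑' γ : SL(2, ℤ), wE (γ • z) = 1 := by
  have : ∀ γ : SL(2, ℤ), wE (γ • z) =
      (ModularGroup.fd).indicator (fun _ => (1 : ℝ≥0∞)) (γ • z) * (NN z)⁻¹ := by
    intro γ
    unfold wE
    by_cases h : γ • z ∈ ModularGroup.fd
    · rw [Set.indicator_of_mem h, Set.indicator_of_mem h, NN_smul, one_mul]
    · rw [Set.indicator_of_notMem h, Set.indicator_of_notMem h, zero_mul]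
  simp_rw [this]
  rw [ENNReal.tsum_mul_right]
  exact ENNReal.mul_inv_cancel (zero_lt_one.trans_le (one_le_NN z)).ne' (NN_lt_top z).ne

theorem hasSum_wR (z : ℍ) : HasSum (fun γ : SL(2, ℤ) => wR (γ • z)) 1 := by
  have h := ENNReal.hasSum_toReal (f := fun γ : SL(2, ℤ) => wE (γ • z))
    (by rw [tsum_wE]; exact ENNReal.one_ne_top)
  have h2 : ∑' γ : SL(2, ℤ), (wE (γ • z)).toReal = 1 := by
    rw [← ENNReal.tsum_toReal_eq fun γ => wE_ne_top _, tsum_wE, ENNReal.toReal_one]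
  rw [h2] at h
  exact h

theorem hasSum_wC (z : ℍ) : HasSum (fun γ : SL(2, ℤ) => (wR (γ • z) : ℂ)) 1 := by
  have := (Complex.hasSum_ofReal).2 (hasSum_wR z)
  simpa using this

/-! ### Unfolding -/

theorem unfold_aux (H : ℍ × ℍ → ℂ) (hH : Measurable H)
    (hinv : ∀ (γ : SL(2, ℤ)) (z w : ℍ), H (γ • z, γ • w) = H (z, w))
    (hint : Integrable (fun p : ℍ × ℍ => (wR p.1 : ℂ) * H p)
      ((volume : Measure ℍ).prod volume)) :
    ∫ p : ℍ × ℍ, (wR p.1 : ℂ) * H p ∂((volume : Measure ℍ).prod volume) =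
      ∫ p : ℍ × ℍ, (wR p.2 : ℂ) * H p ∂((volume : Measure ℍ).prod volume) := by
  have mC : Measurable fun z : ℍ => (wR z : ℂ) := Complex.measurable_ofReal.comp measurable_wR
  have ms : ∀ γ : SL(2, ℤ), Measurable fun z : ℍ => γ • z := fun γ => (mp_smul γ).measurable
  set F : SL(2, ℤ) → ℍ × ℍ → ℂ := fun γ p => (wR (γ • p.2) : ℂ) * ((wR p.1 : ℂ) * H p) with hF
  set F' : SL(2, ℤ) → ℍ × ℍ → ℂ :=
    fun γ p => (wR (γ⁻¹ • p.1) : ℂ) * ((wR p.2 : ℂ) * H p) with hF'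
  have mF : ∀ γ, Measurable (F γ) := fun γ =>
    (mC.comp ((ms γ).comp measurable_snd)).mul ((mC.comp measurable_fst).mul hH)
  have mF' : ∀ γ, Measurable (F' γ) := fun γ =>
    (mC.comp ((ms γ⁻¹).comp measurable_fst)).mul ((mC.comp measurable_snd).mul hH)
  have hT : ∀ γ : SL(2, ℤ), MeasurePreserving (Prod.map (fun z : ℍ => γ • z) fun z : ℍ => γ • z)
      ((volume : Measure ℍ).prod volume) ((volume : Measure ℍ).prod volume) := fun γ =>
    (mp_smul γ).prod (mp_smul γ)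
  have hFT : ∀ γ p, F' γ (Prod.map (fun z : ℍ => γ • z) (fun z : ℍ => γ • z) p) = F γ p := by
    intro γ p
    obtain ⟨z, w⟩ := p
    simp only [hF, hF', Prod.map_apply]
    rw [hinv, inv_smul_smul]
    ring
  have hsum : ∀ p, ∑' γ, F γ p = (wR p.1 : ℂ) * H p := by
    intro p
    have := ((hasSum_wC p.2).mul_right ((wR p.1 : ℂ) * H p)).tsum_eq
    rw [one_mul] at this
    exact this
  have hsum' : ∀ p, ∑' γ, F' γ p = (wR p.2 : ℂ) * H p := by
    intro p
    have h1 : HasSum (fun γ : SL(2, ℤ) => (wR (γ⁻¹ • p.1) : ℂ)) 1 :=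
      (Equiv.inv SL(2, ℤ)).hasSum_iff.2 (hasSum_wC p.1)
    have := (h1.mul_right ((wR p.2 : ℂ) * H p)).tsum_eq
    rw [one_mul] at this
    exact this
  have hn : ∀ γ p, ‖F γ p‖ₑ = wE (γ • p.2) * ‖(wR p.1 : ℂ) * H p‖ₑ := by
    intro γ p
    simp only [hF]
    rw [enorm_mul, ← ofReal_wR (γ • p.2)]
    congr 1
    rw [← ofReal_norm, Complex.norm_real, Real.norm_of_nonneg (wR_nonneg _)]
  have hfin : ∑' γ, ∫⁻ p, ‖F γ p‖ₑ ∂((volume : Measure ℍ).prod volume) ≠ ⊤ := by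
    rw [← lintegral_tsum fun γ => (mF γ).enorm.aemeasurable]
    have : ∀ p, ∑' γ, ‖F γ p‖ₑ = ‖(wR p.1 : ℂ) * H p‖ₑ := by
      intro p
      simp_rw [hn]
      rw [ENNReal.tsum_mul_right, tsum_wE, one_mul]
    simp_rw [this]
    exact hint.hasFiniteIntegral.ne
  have hfin' : ∑' γ, ∫⁻ p, ‖F' γ p‖ₑ ∂((volume : Measure ℍ).prod volume) ≠ ⊤ := by
    have : ∀ γ, ∫⁻ p, ‖F' γ p‖ₑ ∂((volume : Measure ℍ).prod volume) =
        ∫⁻ p, ‖F γ p‖ₑ ∂((volume : Measure ℍ).prod volume) := by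
      intro γ
      rw [← (hT γ).lintegral_comp (mF' γ).enorm]
      simp_rw [hFT]
    simp_rw [this]
    exact hfin
  have e1 := integral_tsum (fun γ => (mF γ).aestronglyMeasurable) hfin
  have e2 := integral_tsum (fun γ => (mF' γ).aestronglyMeasurable) hfin'
  simp_rw [hsum] at e1
  simp_rw [hsum'] at e2
  rw [e1, e2]
  refine tsum_congr fun γ => ?_
  rw [← (hT γ).map_eq, integral_map (hT γ).measurable.aemeasurable
    ((mF' γ).aestronglyMeasurable)]
  rw [(hT γ).map_eq]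
  simp_rw [hFT]

end Pool.Agent.W500
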