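import Mathlib
import Pool.Agent.W384.Defs
import Pool.Agent.W500.Unfold

set_option autoImplicit false

open UpperHalfPlane MeasureTheory Filter Topology
open scoped MatrixGroups BoundedContinuousFunction ContDiff ENNReal

namespace Pool.Agent.W500

open Pool.Agent.W384

theorem volume_fd_lt_top : (volume : Measure ℍ) ModularGroup.fd < ⊤ := by
  rw [volume_eq_lintegral]
  have hsub : (UpperHalfPlane.coe '' ModularGroup.fd) ⊆
      Complex.measurableEquivRealProd ⁻¹' (Set.Icc (-1 / 2 : ℝ) (1 / 2) ×ˢ Set.Ioi (1 / 2 : ℝ)) := by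
    rintro _ ⟨z, hz, rfl⟩
    have h1 := ModularGroup.three_le_four_mul_im_sq_of_mem_fd hz
    have h2 := hz.2
    have h3 := z.im_pos
    rw [Set.mem_preimage, Complex.measurableEquivRealProd_apply]
    refine ⟨?_, ?_⟩
    · have := abs_le.1 h2
      constructor
      · simpa [neg_div] using this.1
      · simpa using this.2
    · simp only [Set.mem_Ioi, coe_im]
      nlinarith
  refine lt_of_le_of_lt (lintegral_mono_set hsub) ?_
  have e : ∀ z : ℂ, (((1 / ‖z.im‖₊) ^ 2 : NNReal) : ℝ≥0∞) =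
      (fun p : ℝ × ℝ => (((1 / ‖p.2‖₊) ^ 2 : NNReal) : ℝ≥0∞))
        (Complex.measurableEquivRealProd z) := by
    intro z; rfl
  simp_rw [e]
  have hm : MeasurableSet (Set.Icc (-1 / 2 : ℝ) (1 / 2) ×ˢ Set.Ioi (1 / 2 : ℝ)) :=
    measurableSet_Icc.prod measurableSet_Ioi
  have hmf : Measurable fun y : ℝ => (((1 / ‖y‖₊) ^ 2 : NNReal) : ℝ≥0∞) := by
    fun_prop
  have hc := (Complex.volume_preserving_equiv_real_prod).setLIntegral_comp_preimage hm
    (hmf.comp measurable_snd)
  simp only [Function.comp_apply] at hc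
  rw [hc]
  rw [Measure.volume_eq_prod, ← Measure.prod_restrict]
  have h := lintegral_prod_mul (μ := (volume : Measure ℝ).restrict (Set.Icc (-1 / 2 : ℝ) (1 / 2)))
    (ν := (volume : Measure ℝ).restrict (Set.Ioi (1 / 2 : ℝ)))
    (f := fun _ : ℝ => (1 : ℝ≥0∞))
    (g := fun y : ℝ => (((1 / ‖y‖₊) ^ 2 : NNReal) : ℝ≥0∞)) aemeasurable_const hmf.aemeasurable
  simp only [one_mul] at h
  rw [h]
  refine ENNReal.mul_lt_top (by simp) ?_
  have hi := integrableOn_Ioi_rpow_of_lt (a := -2) (by norm_num) (c := 1 / 2) (by norm_num)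
  have := hi.lintegral_lt_top
  refine lt_of_le_of_lt (le_of_eq ?_) this
  refine setLIntegral_congr_fun measurableSet_Ioi fun y hy => ?_
  simp only [Set.mem_Ioi] at hy
  have hy0 : 0 < y := by linarith
  rw [Real.rpow_neg hy0.le, ENNReal.ofReal, ENNReal.coe_inj]
  ext
  rw [Real.coe_toNNReal _ (by positivity)]
  simp [Real.norm_of_nonneg hy0.le]

theorem integrable_wR : Integrable wR (volume : Measure ℍ) := by
  have h1 : Integrable ((ModularGroup.fd).indicator fun _ : ℍ => (1 : ℝ)) (volume : Measure ℍ) := by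
    rw [integrable_indicator_iff ModularGroup.isClosed_fd.measurableSet]
    exact integrableOn_const volume_fd_lt_top.ne
  refine h1.mono' measurable_wR.aestronglyMeasurable (ae_of_all _ fun z => ?_)
  rw [Real.norm_of_nonneg (wR_nonneg z)]
  by_cases hz : z ∈ ModularGroup.fd
  · rw [Set.indicator_of_mem hz]; exact wR_le_one z
  · rw [Set.indicator_of_notMem hz, wR_eq_zero hz]

/-! ### The kernel -/

theorem kernel_compact (Φ : ℝ → ℝ) (hΦ : HasCompactSupport Φ) (z : ℍ) :
    HasCompactSupport fun w : ℍ => Φ (uu z w) := by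
  obtain ⟨R, hR⟩ := hΦ.isCompact.isBounded.subset_closedBall 0
  refine HasCompactSupport.of_support_subset_isCompact (isCompact_closedBall z (R + 1)) ?_
  intro w hw
  have h1 : uu z w ∈ Metric.closedBall (0 : ℝ) R := hR (subset_tsupport _ hw)
  rw [mem_closedBall_zero_iff, Real.norm_eq_abs] at h1
  have h2 := le_of_abs_le h1
  rw [uu_eq] at h2
  rw [Metric.mem_closedBall, dist_comm]
  have h3 : dist z w ≤ Real.cosh (dist z w) := by
    have h4 : Real.sinh (dist z w) < Real.cosh (dist z w) := Real.sinh_lt_cosh _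
    have h5 := Real.self_le_sinh_iff.2 (dist_nonneg (x := z) (y := w))
    linarith
  linarith

theorem kernel_cont (Φ : ℝ → ℝ) (hc : Continuous Φ) :
    Continuous fun p : ℍ × ℍ => Φ (uu p.1 p.2) := hc.comp continuous_uu

theorem kernel_cont' (Φ : ℝ → ℝ) (hc : Continuous Φ) (z : ℍ) :
    Continuous fun w : ℍ => Φ (uu z w) :=
  (kernel_cont Φ hc).comp (Continuous.prodMk_right z)

theorem kernel_integrable (Φ : ℝ → ℝ) (hc : Continuous Φ) (hΦ : HasCompactSupport Φ) (z : ℍ) :
    Integrable (fun w : ℍ => Φ (uu z w)) (volume : Measure ℍ) :=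
  (kernel_cont' Φ hc z).integrable_of_hasCompactSupport (kernel_compact Φ hΦ z)

theorem kernel_norm (Φ : ℝ → ℝ) (z : ℍ) :
    ∫ w : ℍ, |Φ (uu z w)| = ∫ w : ℍ, |Φ (uu I w)| := by
  have he : MeasurableEmbedding (fun w : ℍ => z.toSL2R • w) :=
    (measurableEmbedding_const_smul z.toSL2R)
  rw [← (mp_smulR z.toSL2R).integral_comp he (fun w : ℍ => |Φ (uu z w)|)]
  congr 1
  funext w
  have : uu z (z.toSL2R • w) = uu I w := by
    calc uu z (z.toSL2R • w) = uu (z.toSL2R • I) (z.toSL2R • w) := by rw [toSL2R_smul_I]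
      _ = uu I w := uu_smulR _ _ _
  rw [this]

/-- Integrability of the weighted kernel. -/
theorem integrable_weighted (Φ : ℝ → ℝ) (hc : Continuous Φ) (hΦ : HasCompactSupport Φ)
    (a b : ℍ → ℂ) (ha : Measurable a) (hb : Measurable b) (A B : ℝ) (hA : ∀ z, ‖a z‖ ≤ A)
    (hB : ∀ z, ‖b z‖ ≤ B) :
    Integrable (fun p : ℍ × ℍ => (wR p.1 : ℂ) * ((Φ (uu p.1 p.2) : ℂ) * a p.2 * b p.1))
      ((volume : Measure ℍ).prod volume) := by
  have mC : Measurable fun z : ℍ => (wR z : ℂ) := Complex.measurable_ofReal.comp measurable_wR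
  have hA0 : 0 ≤ A := (norm_nonneg _).trans (hA I)
  have hB0 : 0 ≤ B := (norm_nonneg _).trans (hB I)
  have hm : Measurable (fun p : ℍ × ℍ => (wR p.1 : ℂ) *
      ((Φ (uu p.1 p.2) : ℂ) * a p.2 * b p.1)) := by
    refine (mC.comp measurable_fst).mul ((Measurable.mul ?_ (ha.comp measurable_snd)).mul
      (hb.comp measurable_fst))
    exact Complex.measurable_ofReal.comp (kernel_cont Φ hc).measurable
  rw [integrable_prod_iff hm.aestronglyMeasurable]
  constructor
  · refine ae_of_all _ fun z => ?_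
    have h1 : Integrable (fun w : ℍ => (Φ (uu z w) : ℂ)) (volume : Measure ℍ) :=
      (kernel_integrable Φ hc hΦ z).ofReal
    have h2 : Integrable (fun w : ℍ => (Φ (uu z w) : ℂ) * a w) (volume : Measure ℍ) :=
      Integrable.mul_bdd (c := A) h1 ha.aestronglyMeasurable (ae_of_all _ hA)
    exact (h2.mul_const (b z)).const_mul (wR z : ℂ)
  · have hK : ∀ z : ℍ, ∫ w : ℍ, |Φ (uu z w)| = ∫ w : ℍ, |Φ (uu I w)| := kernel_norm Φ
    refine Integrable.mono' (g := fun z => wR z * ((∫ w : ℍ, |Φ (uu I w)|) * A * B))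
      (integrable_wR.mul_const _) ?_ (ae_of_all _ fun z => ?_)
    · exact (hm.norm.aestronglyMeasurable).integral_prod_right'
    · rw [Real.norm_of_nonneg (integral_nonneg fun _ => norm_nonneg _)]
      calc ∫ w : ℍ, ‖(wR z : ℂ) * ((Φ (uu z w) : ℂ) * a w * b z)‖
          ≤ ∫ w : ℍ, wR z * (|Φ (uu z w)| * A * B) := by
            refine integral_mono_of_nonneg (ae_of_all _ fun _ => norm_nonneg _) ?_
              (ae_of_all _ fun w => ?_)
            · exact ((((kernel_integrable Φ hc hΦ z).abs).mul_const A).mul_const B).const_mul _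
            · change ‖(wR z : ℂ) * ((Φ (uu z w) : ℂ) * a w * b z)‖ ≤ wR z * (|Φ (uu z w)| * A * B)
              rw [norm_mul, norm_mul, norm_mul, Complex.norm_real, Complex.norm_real,
                Real.norm_of_nonneg (wR_nonneg z), Real.norm_eq_abs]
              gcongr
              · exact wR_nonneg z
              · exact hA w
              · exact hB z
        _ = wR z * ((∫ w : ℍ, |Φ (uu I w)|) * A * B) := by
            rw [integral_const_mul, integral_mul_const, integral_mul_const, hK]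

theorem kerOp_symm : ∃ φ : ℍ → ℝ, Measurable φ ∧ (∀ z, 0 ≤ φ z) ∧ Integrable φ ∧
    (∀ z ∈ ModularGroup.fd, 0 < φ z) ∧
    ∀ Φ : ℝ → ℝ, Continuous Φ → HasCompactSupport Φ →
    ∀ f g : ℍ →ᵇ ℂ, (∀ (γ : SL(2, ℤ)) z, f (γ • z) = f z) → (∀ (γ : SL(2, ℤ)) z, g (γ • z) = g z) →
      ∫ z : ℍ, (φ z : ℂ) * (kerOp Φ f z * starRingEnd ℂ (g z)) =
        ∫ z : ℍ, (φ z : ℂ) * (f z * starRingEnd ℂ (kerOp Φ g z)) := by
  refine ⟨wR, measurable_wR, wR_nonneg, integrable_wR, fun z hz => wR_pos hz, ?_⟩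
  intro Φ hc hΦ f g hf hg
  set H : ℍ × ℍ → ℂ := fun p => (Φ (uu p.1 p.2) : ℂ) * f p.2 * starRingEnd ℂ (g p.1) with hH
  have mf : Measurable fun z : ℍ => f z := f.continuous.measurable
  have mg : Measurable fun z : ℍ => starRingEnd ℂ (g z) :=
    (Complex.continuous_conj.comp g.continuous).measurable
  have mH : Measurable H := by
    refine Measurable.mul (Measurable.mul ?_ (mf.comp measurable_snd)) (mg.comp measurable_fst)
    exact Complex.measurable_ofReal.comp (kernel_cont Φ hc).measurable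
  have hinv : ∀ (γ : SL(2, ℤ)) (z w : ℍ), H (γ • z, γ • w) = H (z, w) := by
    intro γ z w
    simp only [hH]
    rw [uu_smul, hf, hg]
  have i1 : Integrable (fun p : ℍ × ℍ => (wR p.1 : ℂ) * H p)
      ((volume : Measure ℍ).prod volume) :=
    integrable_weighted Φ hc hΦ (fun z => f z) (fun z => starRingEnd ℂ (g z)) mf mg ‖f‖ ‖g‖
      (fun z => f.norm_coe_le_norm z) (fun z => by
        rw [RCLike.norm_conj]; exact g.norm_coe_le_norm z)
  have i2 : Integrable (fun p : ℍ × ℍ => (wR p.2 : ℂ) * H p)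
      ((volume : Measure ℍ).prod volume) := by
    have := integrable_weighted Φ hc hΦ (fun z => starRingEnd ℂ (g z)) (fun z => f z) mg mf ‖g‖ ‖f‖
      (fun z => by rw [RCLike.norm_conj]; exact g.norm_coe_le_norm z)
      (fun z => f.norm_coe_le_norm z)
    have h2 := this.swap
    refine h2.congr (ae_of_all _ fun p => ?_)
    obtain ⟨z, w⟩ := p
    simp only [hH, Function.comp_apply, Prod.swap_prod_mk]
    rw [uu_comm w z]
    ring
  have main := unfold_aux H mH hinv i1
  rw [integral_prod _ i1, integral_prod_symm _ i2] at main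
  have e1 : ∫ z : ℍ, (wR z : ℂ) * (kerOp Φ f z * starRingEnd ℂ (g z)) =
      ∫ z : ℍ, ∫ w : ℍ, (wR z : ℂ) * H (z, w) := by
    refine integral_congr_ae (ae_of_all _ fun z => ?_)
    simp only [hH]
    rw [integral_const_mul, integral_mul_const]
    rfl
  have e2 : ∫ z : ℍ, (wR z : ℂ) * (f z * starRingEnd ℂ (kerOp Φ g z)) =
      ∫ w : ℍ, ∫ z : ℍ, (wR w : ℂ) * H (z, w) := by
    refine integral_congr_ae (ae_of_all _ fun z => ?_)
    simp only [hH]
    rw [integral_const_mul]
    congr 1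
    unfold kerOp
    rw [← integral_conj, ← integral_const_mul]
    refine integral_congr_ae (ae_of_all _ fun w => ?_)
    simp only [map_mul, Complex.conj_ofReal]
    rw [uu_comm z w]
    ring
  rw [e1, e2]
  exact main

end Pool.Agent.W500
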