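import Pool.Agent.W500.CurveData

/-! Kernel checks for the numerical data. -/

set_option autoImplicit false
set_option maxRecDepth 100000

namespace Pool.Agent.W500.Curve

open Finset

/-! ### executable checks -/

/-- dot product of lists -/
def dot (l : List ℕ) : List ℕ → ℕ :=
  List.rec (motive := fun _ => List ℕ → ℕ) (fun _ => 0)
    (fun a _ ih bs => List.rec (motive := fun _ => ℕ) 0 (fun b bs' _ => Nat.add (Nat.mul a b) (ih bs')) bs) l

/-- all with index -/
def allI {α : Type} (f : ℕ → α → Bool) (l : List α) : ℕ → Bool :=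
  List.rec (motive := fun _ => ℕ → Bool) (fun _ => true)
    (fun a _ ih n => and (f n a) (ih (Nat.succ n))) l

def P2 : ℕ := nat_lit 11881
def P3 : ℕ := nat_lit 1295029

/-- jet orders -/
def JA (s : ℕ) : ℕ := [0, 1, 0, 2, 1, 0].getD s 0
def JB (s : ℕ) : ℕ := [0, 0, 1, 0, 1, 2].getD s 0

def chkRow (r : ℕ) (row : List ℕ × ℕ × ℕ) : Bool :=
  allI (fun c (col : List ℕ × List ℕ × List ℕ) =>
    Nat.beq ((dot row.1 col.1 + row.2.1 * col.2.1.getD (r / 6) 0 + row.2.2 * col.2.2.getD (r / 6) 0) % P2)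
      (bif Nat.beq r c then 109 else 0)) MD 0

theorem chk2 : allI chkRow JD 0 = true := by decide +kernel

/-- quick binomials -/
def w2 (i a : ℕ) : ℕ := Nat.rec (motive := fun _ => ℕ) 1 (fun b _ => Nat.rec (motive := fun _ => ℕ) i
  (fun _ _ => i * (i - 1) / 2) b) a

/-- sum over the list -/
def sumT (g : ℕ × ℕ × ℕ → ℕ) (l : List (ℕ × ℕ × ℕ)) : ℕ :=
  List.rec (motive := fun _ => ℕ) 0 (fun t _ ih => Nat.add (g t) ih) l

def term (a b x y : ℕ) (t : ℕ × ℕ × ℕ) : ℕ :=
  w2 t.1 a * w2 t.2.1 b * x ^ (t.1 - a) * y ^ (t.2.1 - b)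
def termX (a b x y : ℕ) (t : ℕ × ℕ × ℕ) : ℕ :=
  w2 t.1 a * w2 t.2.1 b * (t.1 - a) * x ^ (t.1 - a - 1) * y ^ (t.2.1 - b)
def termY (a b x y : ℕ) (t : ℕ × ℕ × ℕ) : ℕ :=
  w2 t.1 a * w2 t.2.1 b * (t.2.1 - b) * x ^ (t.1 - a) * y ^ (t.2.1 - b - 1)

/-- approximate coordinates -/
def xa (q : ℕ) : ℕ := XL.getD q 0
def ya (q : ℕ) : ℕ := YL.getD q 0

def chkJ (r : ℕ) (row : List ℕ × ℕ × ℕ) : Bool :=
  Nat.beq row.1.length 64 &&
  Nat.beq (sumT (fun t => t.2.2 * term (JA (r % 6)) (JB (r % 6)) (xa (r / 6)) (ya (r / 6)) t) T % P3) 0 &&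
  Nat.beq (sumT (fun t => t.2.2 * termX (JA (r % 6)) (JB (r % 6)) (xa (r / 6)) (ya (r / 6)) t) T % P2) row.2.1 &&
  Nat.beq (sumT (fun t => t.2.2 * termY (JA (r % 6)) (JB (r % 6)) (xa (r / 6)) (ya (r / 6)) t) T % P2) row.2.2 &&
  allI (fun m A => Nat.beq
    (term (JA (r % 6)) (JB (r % 6)) (xa (r / 6)) (ya (r / 6)) (T.getD m (0, 0, 0)) % P2) A) row.1 0

theorem chk1 : allI chkJ JD 0 = true := by decide +kernel

theorem lenJD : JD.length = 90 := by decide +kernel
theorem lenMD : MD.length = 90 := by decide +kernel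
theorem lenT : T.length = 64 := by decide +kernel

/-! ### soundness -/

lemma dot_eq (l : List ℕ) : ∀ l' : List ℕ,
    dot l l' = ∑ m ∈ range l.length, l.getD m 0 * l'.getD m 0 := by
  induction l with
  | nil => intro l'; simp [dot]
  | cons a l ih =>
    intro l'
    cases l' with
    | nil => simp [dot]
    | cons b l' =>
      have : dot (a :: l) (b :: l') = a * b + dot l l' := rfl
      rw [this, ih l', List.length_cons, Finset.sum_range_succ']
      simp [add_comm]

lemma allI_sound {α : Type} (f : ℕ → α → Bool) (d : α) (l : List α) : ∀ n, allI f l n = true →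
    ∀ i, i < l.length → f (n + i) (l.getD i d) = true := by
  induction l with
  | nil => intro n _ i hi; simp at hi
  | cons a l ih =>
    intro n h i hi
    have h' : (f n a && allI f l (n + 1)) = true := h
    rw [Bool.and_eq_true] at h'
    cases i with
    | zero => simpa using h'.1
    | succ i =>
      have := ih (n + 1) h'.2 i (by simpa using hi)
      simpa [add_assoc, add_comm 1 i] using this

lemma sumT_eq (g : ℕ × ℕ × ℕ → ℕ) (l : List (ℕ × ℕ × ℕ)) :
    sumT g l = ∑ m ∈ range l.length, g (l.getD m (0, 0, 0)) := by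
  induction l with
  | nil => simp [sumT]
  | cons a l ih =>
    have : sumT g (a :: l) = g a + sumT g l := rfl
    rw [this, ih, List.length_cons, Finset.sum_range_succ']
    simp [add_comm]

lemma w2_eq (i a : ℕ) (ha : a ≤ 2) : w2 i a = i.choose a := by
  interval_cases a
  · simp [w2]
  · simp [w2]
  · rw [Nat.choose_two_right]; rfl

/-- exponents and approximate coefficients -/
def ti (m : ℕ) : ℕ := (T.getD m (0, 0, 0)).1
def tj (m : ℕ) : ℕ := (T.getD m (0, 0, 0)).2.1
def tc (m : ℕ) : ℕ := (T.getD m (0, 0, 0)).2.2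

section generic
variable {R : Type*} [CommSemiring R]

/-- Hasse derivative of a monomial -/
def mon (m a b : ℕ) (x y : R) : R :=
  (((ti m).choose a * (tj m).choose b : ℕ) : R) * x ^ (ti m - a) * y ^ (tj m - b)
def monX (m a b : ℕ) (x y : R) : R :=
  (((ti m).choose a * (tj m).choose b * (ti m - a) : ℕ) : R) * x ^ (ti m - a - 1) * y ^ (tj m - b)
def monY (m a b : ℕ) (x y : R) : R :=
  (((ti m).choose a * (tj m).choose b * (tj m - b) : ℕ) : R) * x ^ (ti m - a) * y ^ (tj m - b - 1)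

/-- Hasse derivative of the curve with coefficients `c` -/
def jet (c : ℕ → R) (x y : R) (a b : ℕ) : R := ∑ m ∈ range 64, c m * mon m a b x y
def jetX (c : ℕ → R) (x y : R) (a b : ℕ) : R := ∑ m ∈ range 64, c m * monX m a b x y
def jetY (c : ℕ → R) (x y : R) (a b : ℕ) : R := ∑ m ∈ range 64, c m * monY m a b x y

end generic

lemma JA_le (s : ℕ) : JA s ≤ 2 := by
  unfold JA
  rcases lt_or_ge s 6 with h | h
  · interval_cases s <;> simp
  · rw [List.getD_eq_default _ _ (by simpa using h)]; simp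

lemma JB_le (s : ℕ) : JB s ≤ 2 := by
  unfold JB
  rcases lt_or_ge s 6 with h | h
  · interval_cases s <;> simp
  · rw [List.getD_eq_default _ _ (by simpa using h)]; simp

lemma term_eq (m a b x y : ℕ) (ha : a ≤ 2) (hb : b ≤ 2) :
    term a b x y (T.getD m (0, 0, 0)) = mon m a b x y := by
  simp [term, mon, w2_eq _ _ ha, w2_eq _ _ hb, ti, tj]
lemma termX_eq (m a b x y : ℕ) (ha : a ≤ 2) (hb : b ≤ 2) :
    termX a b x y (T.getD m (0, 0, 0)) = monX m a b x y := by
  simp [termX, monX, w2_eq _ _ ha, w2_eq _ _ hb, ti, tj]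
lemma termY_eq (m a b x y : ℕ) (ha : a ≤ 2) (hb : b ≤ 2) :
    termY a b x y (T.getD m (0, 0, 0)) = monY m a b x y := by
  simp [termY, monY, w2_eq _ _ ha, w2_eq _ _ hb, ti, tj]

/-- approximate inverse -/
def MC (c m : ℕ) : ℕ := (MD.getD c ([], [], [])).1.getD m 0
def MX (c m : ℕ) : ℕ := (MD.getD c ([], [], [])).2.1.getD m 0
def MY (c m : ℕ) : ℕ := (MD.getD c ([], [], [])).2.2.getD m 0

theorem resid (r : ℕ) (hr : r < 90) :
    P3 ∣ jet tc (xa (r / 6)) (ya (r / 6)) (JA (r % 6)) (JB (r % 6)) := by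
  have h := allI_sound chkJ ([], 0, 0) JD 0 chk1 r (by rw [lenJD]; exact hr)
  simp only [chkJ, zero_add, Bool.and_eq_true] at h
  have h2 := Nat.eq_of_beq_eq_true h.1.1.1.2
  rw [sumT_eq, lenT] at h2
  have h3 := Nat.dvd_of_mod_eq_zero h2
  convert h3 using 1
  unfold jet
  refine Finset.sum_congr rfl fun m _ => ?_
  rw [term_eq _ _ _ _ _ (JA_le _) (JB_le _)]; rfl

theorem jacM (r c : ℕ) (hr : r < 90) (hc : c < 90) :
    (∑ m ∈ range 64, mon m (JA (r % 6)) (JB (r % 6)) (xa (r / 6)) (ya (r / 6)) * MC c m)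
      + jetX tc (xa (r / 6)) (ya (r / 6)) (JA (r % 6)) (JB (r % 6)) * MX c (r / 6)
      + jetY tc (xa (r / 6)) (ya (r / 6)) (JA (r % 6)) (JB (r % 6)) * MY c (r / 6)
      ≡ (if r = c then 109 else 0) [MOD P2] := by
  have h := allI_sound chkJ ([], 0, 0) JD 0 chk1 r (by rw [lenJD]; exact hr)
  have g := allI_sound chkRow ([], 0, 0) JD 0 chk2 r (by rw [lenJD]; exact hr)
  simp only [chkJ, zero_add, Bool.and_eq_true] at h
  simp only [chkRow, zero_add] at g
  have g' := allI_sound _ ([], [], []) MD 0 g c (by rw [lenMD]; exact hc)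
  have hlen := Nat.eq_of_beq_eq_true h.1.1.1.1
  have hX := Nat.eq_of_beq_eq_true h.1.1.2
  have hY := Nat.eq_of_beq_eq_true h.1.2
  have hA := allI_sound _ 0 _ 0 h.2
  rw [sumT_eq, lenT] at hX hY
  have eX : jetX tc (xa (r / 6)) (ya (r / 6)) (JA (r % 6)) (JB (r % 6))
      ≡ (JD.getD r ([], 0, 0)).2.1 [MOD P2] := by
    rw [← hX]
    refine Nat.ModEq.trans ?_ (Nat.mod_modEq _ _).symm
    refine congrArg (· % P2) ?_
    unfold jetX
    refine Finset.sum_congr rfl fun m _ => ?_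
    rw [termX_eq _ _ _ _ _ (JA_le _) (JB_le _)]; rfl
  have eY : jetY tc (xa (r / 6)) (ya (r / 6)) (JA (r % 6)) (JB (r % 6))
      ≡ (JD.getD r ([], 0, 0)).2.2 [MOD P2] := by
    rw [← hY]
    refine Nat.ModEq.trans ?_ (Nat.mod_modEq _ _).symm
    refine congrArg (· % P2) ?_
    unfold jetY
    refine Finset.sum_congr rfl fun m _ => ?_
    rw [termY_eq _ _ _ _ _ (JA_le _) (JB_le _)]; rfl
  have eA : ∀ m < 64, mon m (JA (r % 6)) (JB (r % 6)) (xa (r / 6)) (ya (r / 6))
      ≡ (JD.getD r ([], 0, 0)).1.getD m 0 [MOD P2] := by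
    intro m hm
    have := Nat.eq_of_beq_eq_true (hA m (by rw [hlen]; exact hm))
    rw [zero_add, term_eq _ _ _ _ _ (JA_le _) (JB_le _)] at this
    rw [← this]
    exact (Nat.mod_modEq _ _).symm
  have e := Nat.eq_of_beq_eq_true g'
  rw [zero_add, dot_eq, hlen] at e
  have e2 : (bif Nat.beq r c then 109 else 0 : ℕ) = if r = c then 109 else 0 := by
    rcases eq_or_ne r c with hrc | hrc
    · simp [hrc]
    · have : Nat.beq r c = false := by
        rw [← Bool.not_eq_true, Nat.beq_eq]; exact hrc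
      simp [this, hrc]
  rw [e2] at e
  rw [← e]
  refine Nat.ModEq.trans ?_ (Nat.mod_modEq _ _).symm
  refine Nat.ModEq.add (Nat.ModEq.add ?_ ?_) ?_
  · apply Nat.ModEq.sum
    intro m hm
    exact (eA m (Finset.mem_range.mp hm)).mul_right _
  · exact eX.mul_right _
  · exact eY.mul_right _

end Pool.Agent.W500.Curve
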