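import Mathlib

/-! Numerical data: a 109-adic approximation (modulo `109^3`) of a plane curve of degree 18 with
45 triple points, symmetric under `(x, y) ↦ (ω x, ω² y)`; and approximate inverses of its Jacobian
and of the evaluation matrices of octics at the triple points. -/

set_option autoImplicit false
set_option maxRecDepth 100000

namespace Pool.Agent.W500.Curve

/-- triples (i, j, c): coefficient `c` of the monomial `x^i y^j` -/
def T : List (ℕ × ℕ × ℕ) := [(nat_lit 0, nat_lit 0, nat_lit 80170),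
  (nat_lit 0, nat_lit 3, nat_lit 698147),
  (nat_lit 0, nat_lit 6, nat_lit 885792),
  (nat_lit 0, nat_lit 9, nat_lit 1166784),
  (nat_lit 0, nat_lit 12, nat_lit 468741),
  (nat_lit 0, nat_lit 15, nat_lit 933650),
  (nat_lit 0, nat_lit 18, nat_lit 289550),
  (nat_lit 1, nat_lit 1, nat_lit 983598),
  (nat_lit 1, nat_lit 4, nat_lit 476913),
  (nat_lit 1, nat_lit 7, nat_lit 277513),
  (nat_lit 1, nat_lit 10, nat_lit 591940),
  (nat_lit 1, nat_lit 13, nat_lit 937689),
  (nat_lit 1, nat_lit 16, nat_lit 386667),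
  (nat_lit 2, nat_lit 2, nat_lit 1195070),
  (nat_lit 2, nat_lit 5, nat_lit 1111043),
  (nat_lit 2, nat_lit 8, nat_lit 913260),
  (nat_lit 2, nat_lit 11, nat_lit 690462),
  (nat_lit 2, nat_lit 14, nat_lit 949496),
  (nat_lit 3, nat_lit 0, nat_lit 110639),
  (nat_lit 3, nat_lit 3, nat_lit 251121),
  (nat_lit 3, nat_lit 6, nat_lit 455158),
  (nat_lit 3, nat_lit 9, nat_lit 1004196),
  (nat_lit 3, nat_lit 12, nat_lit 1275690),
  (nat_lit 3, nat_lit 15, nat_lit 142354),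
  (nat_lit 4, nat_lit 1, nat_lit 267343),
  (nat_lit 4, nat_lit 4, nat_lit 392473),
  (nat_lit 4, nat_lit 7, nat_lit 85113),
  (nat_lit 4, nat_lit 10, nat_lit 1267249),
  (nat_lit 4, nat_lit 13, nat_lit 536389),
  (nat_lit 5, nat_lit 2, nat_lit 198551),
  (nat_lit 5, nat_lit 5, nat_lit 599943),
  (nat_lit 5, nat_lit 8, nat_lit 877555),
  (nat_lit 5, nat_lit 11, nat_lit 597429),
  (nat_lit 6, nat_lit 0, nat_lit 87924),
  (nat_lit 6, nat_lit 3, nat_lit 1069616),
  (nat_lit 6, nat_lit 6, nat_lit 301507),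
  (nat_lit 6, nat_lit 9, nat_lit 186608),
  (nat_lit 6, nat_lit 12, nat_lit 1225487),
  (nat_lit 7, nat_lit 1, nat_lit 565654),
  (nat_lit 7, nat_lit 4, nat_lit 153516),
  (nat_lit 7, nat_lit 7, nat_lit 1162703),
  (nat_lit 7, nat_lit 10, nat_lit 422266),
  (nat_lit 8, nat_lit 2, nat_lit 378819),
  (nat_lit 8, nat_lit 5, nat_lit 276022),
  (nat_lit 8, nat_lit 8, nat_lit 507177),
  (nat_lit 9, nat_lit 0, nat_lit 92366),
  (nat_lit 9, nat_lit 3, nat_lit 166676),
  (nat_lit 9, nat_lit 6, nat_lit 1192678),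
  (nat_lit 9, nat_lit 9, nat_lit 433057),
  (nat_lit 10, nat_lit 1, nat_lit 272014),
  (nat_lit 10, nat_lit 4, nat_lit 948227),
  (nat_lit 10, nat_lit 7, nat_lit 585439),
  (nat_lit 11, nat_lit 2, nat_lit 58493),
  (nat_lit 11, nat_lit 5, nat_lit 277514),
  (nat_lit 12, nat_lit 0, nat_lit 653706),
  (nat_lit 12, nat_lit 3, nat_lit 800342),
  (nat_lit 12, nat_lit 6, nat_lit 888132),
  (nat_lit 13, nat_lit 1, nat_lit 428584),
  (nat_lit 13, nat_lit 4, nat_lit 291793),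
  (nat_lit 14, nat_lit 2, nat_lit 1042992),
  (nat_lit 15, nat_lit 0, nat_lit 665274),
  (nat_lit 15, nat_lit 3, nat_lit 1124117),
  (nat_lit 16, nat_lit 1, nat_lit 124213),
  (nat_lit 18, nat_lit 0, nat_lit 692195)]

/-- first coordinates of the points -/
def XL : List ℕ := [nat_lit 511583, nat_lit 416250, nat_lit 1166765, nat_lit 1239148, nat_lit 272652, nat_lit 610208, nat_lit 650721, nat_lit 1265316, nat_lit 421493, nat_lit 82212, nat_lit 680874, nat_lit 560387, nat_lit 804871, nat_lit 631368, nat_lit 382046]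

/-- second coordinates of the points -/
def YL : List ℕ := [nat_lit 1104309, nat_lit 601042, nat_lit 810269, nat_lit 1126621, nat_lit 1051881, nat_lit 394217, nat_lit 295511, nat_lit 660718, nat_lit 73607, nat_lit 1041370, nat_lit 472208, nat_lit 93330, nat_lit 314616, nat_lit 189788, nat_lit 1189060]

/-- rows of the Jacobian modulo `109^2` -/
def JD : List (List ℕ × ℕ × ℕ) := [
  ([nat_lit 1, nat_lit 7707, nat_lit 4730, nat_lit 3202, nat_lit 977, nat_lit 9066, nat_lit 11382, nat_lit 2797, nat_lit 4345, nat_lit 6257, nat_lit 9601, nat_lit 39, nat_lit 3548, nat_lit 5511, nat_lit 10583, nat_lit 116, nat_lit 2937, nat_lit 2154, nat_lit 7411, nat_lit 4610, nat_lit 5080, nat_lit 3665, nat_lit 5018, nat_lit 1071, nat_lit 8103, nat_lit 3285, nat_lit 10965, nat_lit 9583, nat_lit 3885, nat_lit 7024, nat_lit 4132, nat_lit 4244, nat_lit 115, nat_lit 8939, nat_lit 6835, nat_lit 8872, nat_lit 1349, nat_lit 868, nat_lit 4759, nat_lit 966,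 nat_lit 7456, nat_lit 6876, nat_lit 4203, nat_lit 4915, nat_lit 3277, nat_lit 10354, nat_lit 5482, nat_lit 938, nat_lit 5518, nat_lit 6141, nat_lit 6664, nat_lit 9766, nat_lit 8332, nat_lit 9800, nat_lit 5996, nat_lit 5963, nat_lit 1133, nat_lit 6721, nat_lit 9468, nat_lit 2895, nat_lit 1416, nat_lit 6354, nat_lit 4179, nat_lit 3053], nat_lit 0, nat_lit 0),
  ([nat_lit 0, nat_lit 0, nat_lit 0, nat_lit 0, nat_lit 0, nat_lit 0, nat_lit 0, nat_lit 11257, nat_lit 2637, nat_lit 6849, nat_lit 9841, nat_lit 8164, nat_lit 10053, nat_lit 2358, nat_lit 7057, nat_lit 8962, nat_lit 5881, nat_lit 10733, nat_lit 8637, nat_lit 7997, nat_lit 6132, nat_lit 8587, nat_lit 2839, nat_lit 7252, nat_lit 861, nat_lit 6129, nat_lit 9228, nat_lit 530, nat_lit 9527, nat_lit 1408, nat_lit 4103, nat_lit 6480, nat_lit 5517, nat_lit 11720, nat_lit 6678, nat_lit 10735, nat_lit 7242, nat_lit 9037, nat_lit 7295, nat_lit 1673, nat_lit 2926, nat_lit 544, nat_lit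 5072, nat_lit 1414, nat_lit 2821, nat_lit 10215, nat_lit 3499, nat_lit 8804, nat_lit 37, nat_lit 11799, nat_lit 9600, nat_lit 4213, nat_lit 1964, nat_lit 154, nat_lit 8725, nat_lit 8996, nat_lit 6537, nat_lit 1262, nat_lit 7576, nat_lit 1246, nat_lit 2746, nat_lit 3361, nat_lit 1046, nat_lit 2896], nat_lit 0, nat_lit 0),
  ([nat_lit 0, nat_lit 3790, nat_lit 183, nat_lit 6694, nat_lit 8435, nat_lit 3552, nat_lit 1728, nat_lit 700, nat_lit 3704, nat_lit 9050, nat_lit 6434, nat_lit 3712, nat_lit 4174, nat_lit 6951, nat_lit 11701, nat_lit 2131, nat_lit 4118, nat_lit 2008, nat_lit 0, nat_lit 1006, nat_lit 1779, nat_lit 6059, nat_lit 5844, nat_lit 7457, nat_lit 7584, nat_lit 5234, nat_lit 1305, nat_lit 3921, nat_lit 5117, nat_lit 9726, nat_lit 8573, nat_lit 2992, nat_lit 8090, nat_lit 0, nat_lit 6079, nat_lit 8140, nat_lit 4950, nat_lit 3639, nat_lit 7894, nat_lit 9590, nat_lit 221, nat_lit 9486, nat_lit 9240, nat_lit 6796, nat_lit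 3766, nat_lit 0, nat_lit 10598, nat_lit 5703, nat_lit 7803, nat_lit 390, nat_lit 11229, nat_lit 10134, nat_lit 7437, nat_lit 1597, nat_lit 0, nat_lit 8368, nat_lit 4216, nat_lit 3207, nat_lit 3595, nat_lit 11529, nat_lit 0, nat_lit 8309, nat_lit 5077, nat_lit 0], nat_lit 0, nat_lit 0),
  ([nat_lit 0, nat_lit 0, nat_lit 0, nat_lit 0, nat_lit 0, nat_lit 0, nat_lit 0, nat_lit 0, nat_lit 0, nat_lit 0, nat_lit 0, nat_lit 0, nat_lit 0, nat_lit 9184, nat_lit 5971, nat_lit 3384, nat_lit 1693, nat_lit 2613, nat_lit 2100, nat_lit 2778, nat_lit 484, nat_lit 11435, nat_lit 8168, nat_lit 5238, nat_lit 8972, nat_lit 11665, nat_lit 10509, nat_lit 86, nat_lit 9347, nat_lit 11274, nat_lit 2965, nat_lit 4092, nat_lit 4870, nat_lit 6831, nat_lit 1806, nat_lit 6191, nat_lit 11822, nat_lit 8646, nat_lit 7075, nat_lit 5116, nat_lit 7854, nat_lit 8964, nat_lit 5253, nat_lit 6304, nat_lit 3519, nat_lit 10921, nat_lit 3143, nat_lit 9623, nat_lit 3259,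 nat_lit 5923, nat_lit 1759, nat_lit 392, nat_lit 8161, nat_lit 10694, nat_lit 1978, nat_lit 1123, nat_lit 5593, nat_lit 4899, nat_lit 10656, nat_lit 368, nat_lit 4067, nat_lit 2291, nat_lit 2642, nat_lit 4516], nat_lit 11514, nat_lit 1599),
  ([nat_lit 0, nat_lit 0, nat_lit 0, nat_lit 0, nat_lit 0, nat_lit 0, nat_lit 0, nat_lit 1, nat_lit 7066, nat_lit 9348, nat_lit 8258, nat_lit 820, nat_lit 2484, nat_lit 11188, nat_lit 7807, nat_lit 5064, nat_lit 9245, nat_lit 1092, nat_lit 0, nat_lit 2075, nat_lit 398, nat_lit 3132, nat_lit 10684, nat_lit 1882, nat_lit 5882, nat_lit 2474, nat_lit 11549, nat_lit 4028, nat_lit 11435, nat_lit 9744, nat_lit 10839, nat_lit 10884, nat_lit 4301, nat_lit 0, nat_lit 7622, nat_lit 6180, nat_lit 3437, nat_lit 8280, nat_lit 3168, nat_lit 1284, nat_lit 7012, nat_lit 11263, nat_lit 4858, nat_lit 2997, nat_lit 1944, nat_lit 0, nat_lit 6552, nat_lit 4028, nat_lit 4055, nat_lit 8492, nat_lit 5422, nat_lit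 6255, nat_lit 4411, nat_lit 10090, nat_lit 0, nat_lit 2927, nat_lit 4621, nat_lit 6662, nat_lit 1170, nat_lit 9973, nat_lit 0, nat_lit 11465, nat_lit 10775, nat_lit 0], nat_lit 3198, nat_lit 2007),
  ([nat_lit 0, nat_lit 10009, nat_lit 3912, nat_lit 8944, nat_lit 7932, nat_lit 1788, nat_lit 5460, nat_lit 0, nat_lit 7074, nat_lit 8753, nat_lit 11549, nat_lit 3620, nat_lit 2406, nat_lit 2879, nat_lit 6855, nat_lit 9708, nat_lit 10896, nat_lit 10870, nat_lit 0, nat_lit 3616, nat_lit 2192, nat_lit 11766, nat_lit 8745, nat_lit 3553, nat_lit 0, nat_lit 6442, nat_lit 10104, nat_lit 10796, nat_lit 522, nat_lit 9874, nat_lit 11130, nat_lit 6533, nat_lit 6980, nat_lit 0, nat_lit 6521, nat_lit 3585, nat_lit 3167, nat_lit 10221, nat_lit 0, nat_lit 3804, nat_lit 6682, nat_lit 2502, nat_lit 1135, nat_lit 6528, nat_lit 988, nat_lit 0, nat_lit 7104, nat_lit 2519, nat_lit 5662, nat_lit 0, nat_lit 9712, nat_lit 294, nat_lit 11618, nat_lit 11457,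 nat_lit 0, nat_lit 3033, nat_lit 3258, nat_lit 0, nat_lit 534, nat_lit 11272, nat_lit 0, nat_lit 10592, nat_lit 0, nat_lit 0], nat_lit 6944, nat_lit 912),
  ([nat_lit 1, nat_lit 3333, nat_lit 154, nat_lit 2399, nat_lit 11835, nat_lit 1135, nat_lit 4797, nat_lit 2716, nat_lit 10987, nat_lit 2429, nat_lit 4896, nat_lit 5755, nat_lit 5481, nat_lit 10436, nat_lit 7501, nat_lit 3209, nat_lit 2697, nat_lit 7065, nat_lit 9160, nat_lit 7991, nat_lit 8682, nat_lit 6871, nat_lit 6356, nat_lit 725, nat_lit 11627, nat_lit 8850, nat_lit 8408, nat_lit 8466, nat_lit 11684, nat_lit 11115, nat_lit 1337, nat_lit 846, nat_lit 3921, nat_lit 1978, nat_lit 10600, nat_lit 7587, nat_lit 4703, nat_lit 4060, nat_lit 2036, nat_lit 1937, nat_lit 4638, nat_lit 1273, nat_lit 5111, nat_lit 9490, nat_lit 2948, nat_lit 11836, nat_lit 4468, nat_lit 4951, nat_lit 10855, nat_lit 8471, nat_lit 4587, nat_lit 9505, nat_lit 5620, nat_lit 7004, nat_lit 3635, nat_lit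 8716, nat_lit 1383, nat_lit 11430, nat_lit 5704, nat_lit 10708, nat_lit 6038, nat_lit 10121, nat_lit 3428, nat_lit 2025], nat_lit 0, nat_lit 0),
  ([nat_lit 0, nat_lit 0, nat_lit 0, nat_lit 0, nat_lit 0, nat_lit 0, nat_lit 0, nat_lit 6992, nat_lit 5695, nat_lit 7478, nat_lit 9717, nat_lit 11036, nat_lit 11293, nat_lit 8868, nat_lit 8997, nat_lit 11238, nat_lit 7342, nat_lit 7907, nat_lit 5792, nat_lit 9992, nat_lit 893, nat_lit 6119, nat_lit 6831, nat_lit 3727, nat_lit 8758, nat_lit 10678, nat_lit 6179, nat_lit 4834, nat_lit 1086, nat_lit 7148, nat_lit 2879, nat_lit 7740, nat_lit 3769, nat_lit 229, nat_lit 2873, nat_lit 11504, nat_lit 2845, nat_lit 1347, nat_lit 4844, nat_lit 10654, nat_lit 9354, nat_lit 1138, nat_lit 6311, nat_lit 5193, nat_lit 9533, nat_lit 9876, nat_lit 6338, nat_lit 136, nat_lit 1810, nat_lit 2065, nat_lit 3546, nat_lit 9104, nat_lit 3155, nat_lit 930, nat_lit 2968, nat_lit 7352, nat_lit 5594, nat_lit 8231,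 nat_lit 694, nat_lit 2308, nat_lit 3940, nat_lit 3515, nat_lit 762, nat_lit 2235], nat_lit 0, nat_lit 0),
  ([nat_lit 0, nat_lit 5128, nat_lit 1611, nat_lit 4817, nat_lit 9067, nat_lit 8660, nat_lit 3421, nat_lit 415, nat_lit 8115, nat_lit 7773, nat_lit 11453, nat_lit 1331, nat_lit 3846, nat_lit 8771, nat_lit 10267, nat_lit 8962, nat_lit 2079, nat_lit 3416, nat_lit 0, nat_lit 6887, nat_lit 558, nat_lit 9567, nat_lit 5530, nat_lit 8044, nat_lit 11361, nat_lit 5864, nat_lit 9728, nat_lit 250, nat_lit 2054, nat_lit 3038, nat_lit 7605, nat_lit 6091, nat_lit 10278, nat_lit 0, nat_lit 8691, nat_lit 2450, nat_lit 11345, nat_lit 6097, nat_lit 1081, nat_lit 239, nat_lit 980, nat_lit 8848, nat_lit 2778, nat_lit 3497, nat_lit 384, nat_lit 0, nat_lit 6860, nat_lit 10672, nat_lit 8974, nat_lit 5087, nat_lit 3136, nat_lit 6645, nat_lit 9259, nat_lit 1344, nat_lit 0, nat_lit 10872, nat_lit 10533, nat_lit 11519, nat_lit 9383, nat_lit 5862,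 nat_lit 0, nat_lit 978, nat_lit 10760, nat_lit 0], nat_lit 0, nat_lit 0),
  ([nat_lit 0, nat_lit 0, nat_lit 0, nat_lit 0, nat_lit 0, nat_lit 0, nat_lit 0, nat_lit 0, nat_lit 0, nat_lit 0, nat_lit 0, nat_lit 0, nat_lit 0, nat_lit 9630, nat_lit 6209, nat_lit 9776, nat_lit 5706, nat_lit 8498, nat_lit 1245, nat_lit 3116, nat_lit 1634, nat_lit 4624, nat_lit 2135, nat_lit 11117, nat_lit 2551, nat_lit 7568, nat_lit 781, nat_lit 1134, nat_lit 1464, nat_lit 3155, nat_lit 930, nat_lit 10630, nat_lit 648, nat_lit 4081, nat_lit 10109, nat_lit 10662, nat_lit 375, nat_lit 2370, nat_lit 8137, nat_lit 8179, nat_lit 5593, nat_lit 180, nat_lit 9830, nat_lit 7473, nat_lit 4933, nat_lit 3273, nat_lit 2151, nat_lit 5040, nat_lit 10467, nat_lit 3100, nat_lit 7711, nat_lit 2160, nat_lit 10917, nat_lit 6739, nat_lit 3074, nat_lit 4220, nat_lit 10037, nat_lit 4671, nat_lit 4333, nat_lit 8997, nat_lit 9514, nat_lit 11654, nat_lit 7171, nat_lit 6702],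 nat_lit 188, nat_lit 6918),
  ([nat_lit 0, nat_lit 0, nat_lit 0, nat_lit 0, nat_lit 0, nat_lit 0, nat_lit 0, nat_lit 1, nat_lit 1451, nat_lit 1078, nat_lit 228, nat_lit 11283, nat_lit 6279, nat_lit 10864, nat_lit 2941, nat_lit 3221, nat_lit 783, nat_lit 6687, nat_lit 0, nat_lit 10757, nat_lit 4327, nat_lit 3476, nat_lit 2044, nat_lit 9019, nat_lit 997, nat_lit 9046, nat_lit 5476, nat_lit 1577, nat_lit 9725, nat_lit 9341, nat_lit 7392, nat_lit 3652, nat_lit 2271, nat_lit 0, nat_lit 9974, nat_lit 608, nat_lit 10041, nat_lit 9049, nat_lit 1965, nat_lit 11656, nat_lit 3452, nat_lit 8423, nat_lit 8814, nat_lit 6194, nat_lit 11688, nat_lit 0, nat_lit 7306, nat_lit 1577, nat_lit 1168, nat_lit 11431, nat_lit 505, nat_lit 2021, nat_lit 8147, nat_lit 2784, nat_lit 0, nat_lit 343, nat_lit 5286, nat_lit 11612, nat_lit 1754, nat_lit 11134, nat_lit 0, nat_lit 6620, nat_lit 1560, nat_lit 0], nat_lit 1955, nat_lit 5979),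
  ([nat_lit 0, nat_lit 9095, nat_lit 2258, nat_lit 7826, nat_lit 11629, nat_lit 6323, nat_lit 5084, nat_lit 0, nat_lit 2842, nat_lit 5361, nat_lit 3354, nat_lit 1194, nat_lit 11061, nat_lit 5891, nat_lit 1624, nat_lit 414, nat_lit 9213, nat_lit 5230, nat_lit 0, nat_lit 628, nat_lit 10340, nat_lit 8087, nat_lit 8475, nat_lit 10686, nat_lit 0, nat_lit 1449, nat_lit 2587, nat_lit 10255, nat_lit 6520, nat_lit 9939, nat_lit 828, nat_lit 2201, nat_lit 337, nat_lit 0, nat_lit 2076, nat_lit 10949, nat_lit 10766, nat_lit 546, nat_lit 0, nat_lit 1763, nat_lit 6206, nat_lit 4614, nat_lit 9018, nat_lit 4402, nat_lit 10984, nat_lit 0, nat_lit 6560, nat_lit 5319, nat_lit 4260, nat_lit 0, nat_lit 2801, nat_lit 8256, nat_lit 8168, nat_lit 10087, nat_lit 0, nat_lit 7383, nat_lit 9940, nat_lit 0, nat_lit 6081, nat_lit 4223, nat_lit 0, nat_lit 1628, nat_lit 0, nat_lit 0], nat_lit 8930, nat_lit 6679),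
  ([nat_lit 1, nat_lit 7989, nat_lit 11270, nat_lit 1812, nat_lit 5010, nat_lit 9682, nat_lit 4188, nat_lit 3505, nat_lit 9809, nat_lit 8906, nat_lit 6606, nat_lit 11813, nat_lit 3274, nat_lit 71, nat_lit 8812, nat_lit 4143, nat_lit 9842, nat_lit 11161, nat_lit 3352, nat_lit 11235, nat_lit 7341, nat_lit 2633, nat_lit 5667, nat_lit 7053, nat_lit 10332, nat_lit 5041, nat_lit 7840, nat_lit 9009, nat_lit 9684, nat_lit 372, nat_lit 1658, nat_lit 10328, nat_lit 8728, nat_lit 8359, nat_lit 8831, nat_lit 1481, nat_lit 10114, nat_lit 9946, nat_lit 11630, nat_lit 2650, nat_lit 10789, nat_lit 8547, nat_lit 11320, nat_lit 9189, nat_lit 10103, nat_lit 3970, nat_lit 5941, nat_lit 9935, nat_lit 5635, nat_lit 2199, nat_lit 7693, nat_lit 10845, nat_lit 8607, nat_lit 5976, nat_lit 720, nat_lit 1676, nat_lit 11558, nat_lit 4828, nat_lit 5166, nat_lit 3596, nat_lit 1597, nat_lit 10120, nat_lit 1534, nat_lit 6694], nat_lit 0, nat_lit 0),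
  ([nat_lit 0, nat_lit 0, nat_lit 0, nat_lit 0, nat_lit 0, nat_lit 0, nat_lit 0, nat_lit 2361, nat_lit 6882, nat_lit 6911, nat_lit 972, nat_lit 7015, nat_lit 158, nat_lit 377, nat_lit 5960, nat_lit 7273, nat_lit 5907, nat_lit 11572, nat_lit 3940, nat_lit 3891, nat_lit 4503, nat_lit 10680, nat_lit 5059, nat_lit 9070, nat_lit 5304, nat_lit 6010, nat_lit 2769, nat_lit 11000, nat_lit 7124, nat_lit 10795, nat_lit 8957, nat_lit 10091, nat_lit 4414, nat_lit 2297, nat_lit 6469, nat_lit 10372, nat_lit 3814, nat_lit 7162, nat_lit 8806, nat_lit 3733, nat_lit 1627, nat_lit 289, nat_lit 11512, nat_lit 10428, nat_lit 11601, nat_lit 984, nat_lit 7835, nat_lit 4707, nat_lit 858, nat_lit 2491, nat_lit 11805, nat_lit 10648, nat_lit 10143, nat_lit 4007, nat_lit 1854, nat_lit 7880, nat_lit 7782, nat_lit 300, nat_lit 8619, nat_lit 11001, nat_lit 9967, nat_lit 11782, nat_lit 8435, nat_lit 7143], nat_lit 0, nat_lit 0),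
  ([nat_lit 0, nat_lit 6396, nat_lit 6807, nat_lit 2679, nat_lit 10427, nat_lit 4515, nat_lit 1919, nat_lit 2427, nat_lit 9925, nat_lit 3715, nat_lit 5659, nat_lit 5686, nat_lit 9060, nat_lit 11559, nat_lit 8357, nat_lit 2822, nat_lit 10699, nat_lit 6291, nat_lit 0, nat_lit 6068, nat_lit 5544, nat_lit 9853, nat_lit 9283, nat_lit 9767, nat_lit 8700, nat_lit 1800, nat_lit 1392, nat_lit 6892, nat_lit 2348, nat_lit 1827, nat_lit 9147, nat_lit 2068, nat_lit 6190, nat_lit 0, nat_lit 11545, nat_lit 1604, nat_lit 9957, nat_lit 277, nat_lit 6426, nat_lit 9933, nat_lit 8632, nat_lit 5320, nat_lit 5389, nat_lit 7764, nat_lit 5313, nat_lit 0, nat_lit 2423, nat_lit 6396, nat_lit 2135, nat_lit 11580, nat_lit 4854, nat_lit 4229, nat_lit 4808, nat_lit 5538, nat_lit 0, nat_lit 7173, nat_lit 6068, nat_lit 933, nat_lit 5519, nat_lit 5780, nat_lit 0, nat_lit 8633, nat_lit 2713, nat_lit 0], nat_lit 0, nat_lit 0),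
  ([nat_lit 0, nat_lit 0, nat_lit 0, nat_lit 0, nat_lit 0, nat_lit 0, nat_lit 0, nat_lit 0, nat_lit 0, nat_lit 0, nat_lit 0, nat_lit 0, nat_lit 0, nat_lit 2132, nat_lit 7075, nat_lit 4258, nat_lit 1859, nat_lit 301, nat_lit 7281, nat_lit 10414, nat_lit 6684, nat_lit 5262, nat_lit 3140, nat_lit 4669, nat_lit 10915, nat_lit 5276, nat_lit 8057, nat_lit 7996, nat_lit 7788, nat_lit 425, nat_lit 9240, nat_lit 1707, nat_lit 9716, nat_lit 11690, nat_lit 6750, nat_lit 9772, nat_lit 10338, nat_lit 5451, nat_lit 1362, nat_lit 9903, nat_lit 11369, nat_lit 8577, nat_lit 8745, nat_lit 3525, nat_lit 3255, nat_lit 5597, nat_lit 6230, nat_lit 1961, nat_lit 7271, nat_lit 8383, nat_lit 10471, nat_lit 10579, nat_lit 858, nat_lit 11106, nat_lit 3896, nat_lit 8805, nat_lit 7625, nat_lit 9297, nat_lit 5602, nat_lit 3723, nat_lit 2917, nat_lit 5272, nat_lit 2251, nat_lit 11135], nat_lit 7793, nat_lit 9059),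
  ([nat_lit 0, nat_lit 0, nat_lit 0, nat_lit 0, nat_lit 0, nat_lit 0, nat_lit 0, nat_lit 1, nat_lit 8194, nat_lit 7604, nat_lit 6239, nat_lit 5725, nat_lit 459, nat_lit 2139, nat_lit 3042, nat_lit 11805, nat_lit 2760, nat_lit 9977, nat_lit 0, nat_lit 639, nat_lit 4163, nat_lit 4932, nat_lit 9763, nat_lit 3243, nat_lit 1527, nat_lit 1545, nat_lit 3571, nat_lit 10272, nat_lit 9540, nat_lit 8272, nat_lit 7215, nat_lit 4694, nat_lit 8374, nat_lit 0, nat_lit 6696, nat_lit 283, nat_lit 11186, nat_lit 10604, nat_lit 10989, nat_lit 9648, nat_lit 1283, nat_lit 7001, nat_lit 7865, nat_lit 10952, nat_lit 1398, nat_lit 0, nat_lit 8615, nat_lit 9085, nat_lit 10435, nat_lit 4057, nat_lit 20, nat_lit 6352, nat_lit 854, nat_lit 7280, nat_lit 0, nat_lit 946, nat_lit 2556, nat_lit 9360, nat_lit 3985, nat_lit 4493, nat_lit 0, nat_lit 7367, nat_lit 1790, nat_lit 0], nat_lit 6237, nat_lit 2243),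
  ([nat_lit 0, nat_lit 7083, nat_lit 8182, nat_lit 11176, nat_lit 4747, nat_lit 11834, nat_lit 412, nat_lit 0, nat_lit 1131, nat_lit 3175, nat_lit 3249, nat_lit 4634, nat_lit 5222, nat_lit 9234, nat_lit 1089, nat_lit 6385, nat_lit 5704, nat_lit 6924, nat_lit 0, nat_lit 3978, nat_lit 4716, nat_lit 1159, nat_lit 3285, nat_lit 8790, nat_lit 0, nat_lit 1073, nat_lit 9105, nat_lit 7652, nat_lit 4701, nat_lit 2363, nat_lit 2861, nat_lit 4839, nat_lit 3279, nat_lit 0, nat_lit 3774, nat_lit 6302, nat_lit 11762, nat_lit 9514, nat_lit 0, nat_lit 8634, nat_lit 9552, nat_lit 10306, nat_lit 8030, nat_lit 2105, nat_lit 2763, nat_lit 0, nat_lit 9064, nat_lit 11767, nat_lit 5066, nat_lit 0, nat_lit 10933, nat_lit 10890, nat_lit 6095, nat_lit 10527, nat_lit 0, nat_lit 2811, nat_lit 9945, nat_lit 0, nat_lit 6412, nat_lit 7001, nat_lit 0, nat_lit 839, nat_lit 0, nat_lit 0], nat_lit 7062, nat_lit 7576),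
  ([nat_lit 1, nat_lit 3461, nat_lit 2473, nat_lit 4733, nat_lit 8895, nat_lit 1924, nat_lit 5604, nat_lit 9920, nat_lit 8911, nat_lit 9776, nat_lit 9529, nat_lit 10094, nat_lit 5194, nat_lit 7958, nat_lit 2480, nat_lit 5198, nat_lit 2444, nat_lit 11293, nat_lit 4255, nat_lit 5996, nat_lit 7930, nat_lit 620, nat_lit 7240, nat_lit 611, nat_lit 8288, nat_lit 4034, nat_lit 1499, nat_lit 7923, nat_lit 155, nat_lit 440, nat_lit 2072, nat_lit 6949, nat_lit 3345, nat_lit 10262, nat_lit 4473, nat_lit 110, nat_lit 518, nat_lit 10648, nat_lit 2632, nat_lit 8506, nat_lit 10029, nat_lit 5968, nat_lit 6883, nat_lit 658, nat_lit 8067, nat_lit 2135, nat_lit 11134, nat_lit 4691, nat_lit 6105, nat_lit 7258, nat_lit 3504, nat_lit 8724, nat_lit 500, nat_lit 7755, nat_lit 7341, nat_lit 5623, nat_lit 125, nat_lit 4071, nat_lit 10746, nat_lit 801, nat_lit 806, nat_lit 9412, nat_lit 11488, nat_lit 7802], nat_lit 0, nat_lit 0),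
  ([nat_lit 0, nat_lit 0, nat_lit 0, nat_lit 0, nat_lit 0, nat_lit 0, nat_lit 0, nat_lit 9807, nat_lit 9891, nat_lit 3590, nat_lit 9345, nat_lit 2963, nat_lit 1640, nat_lit 7624, nat_lit 10844, nat_lit 10886, nat_lit 1795, nat_lit 10613, nat_lit 8793, nat_lit 5332, nat_lit 2859, nat_lit 10007, nat_lit 1112, nat_lit 11069, nat_lit 10852, nat_lit 2931, nat_lit 9698, nat_lit 953, nat_lit 7296, nat_lit 594, nat_lit 421, nat_lit 7599, nat_lit 7486, nat_lit 1892, nat_lit 1781, nat_lit 9683, nat_lit 8443, nat_lit 5844, nat_lit 4024, nat_lit 2532, nat_lit 6955, nat_lit 349, nat_lit 4412, nat_lit 2847, nat_lit 4118, nat_lit 4594, nat_lit 3056, nat_lit 2726, nat_lit 1172, nat_lit 587, nat_lit 11837, nat_lit 2169, nat_lit 1485, nat_lit 6993, nat_lit 4300, nat_lit 7288, nat_lit 405, nat_lit 9418, nat_lit 6115, nat_lit 10394, nat_lit 11581, nat_lit 7228, nat_lit 9708, nat_lit 849], nat_lit 0, nat_lit 0),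
  ([nat_lit 0, nat_lit 1662, nat_lit 3556, nat_lit 9781, nat_lit 4096, nat_lit 5749, nat_lit 10194, nat_lit 3524, nat_lit 2870, nat_lit 6910, nat_lit 5442, nat_lit 3202, nat_lit 9286, nat_lit 8356, nat_lit 4405, nat_lit 1435, nat_lit 1866, nat_lit 5469, nat_lit 0, nat_lit 2615, nat_lit 6267, nat_lit 10893, nat_lit 10934, nat_lit 10897, nat_lit 798, nat_lit 10063, nat_lit 8456, nat_lit 11522, nat_lit 8884, nat_lit 6828, nat_lit 6938, nat_lit 10972, nat_lit 3322, nat_lit 0, nat_lit 6209, nat_lit 5121, nat_lit 1934, nat_lit 10055, nat_lit 9405, nat_lit 10822, nat_lit 4612, nat_lit 5104, nat_lit 4095, nat_lit 8786, nat_lit 5411, nat_lit 0, nat_lit 7832, nat_lit 101, nat_lit 7518, nat_lit 3067, nat_lit 8735, nat_lit 8529, nat_lit 6679, nat_lit 6804, nat_lit 0, nat_lit 10836, nat_lit 2039, nat_lit 4747, nat_lit 3657, nat_lit 11674, nat_lit 0, nat_lit 8900, nat_lit 785, nat_lit 0], nat_lit 0, nat_lit 0),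
  ([nat_lit 0, nat_lit 0, nat_lit 0, nat_lit 0, nat_lit 0, nat_lit 0, nat_lit 0, nat_lit 0, nat_lit 0, nat_lit 0, nat_lit 0, nat_lit 0, nat_lit 0, nat_lit 554, nat_lit 4553, nat_lit 3727, nat_lit 8262, nat_lit 9096, nat_lit 10572, nat_lit 8093, nat_lit 6356, nat_lit 6385, nat_lit 11706, nat_lit 256, nat_lit 1306, nat_lit 5286, nat_lit 9987, nat_lit 3178, nat_lit 9133, nat_lit 796, nat_lit 10445, nat_lit 8143, nat_lit 1191, nat_lit 89, nat_lit 11004, nat_lit 6239, nat_lit 5402, nat_lit 7509, nat_lit 408, nat_lit 10130, nat_lit 10980, nat_lit 6342, nat_lit 2506, nat_lit 136, nat_lit 7337, nat_lit 5912, nat_lit 2350, nat_lit 6746, nat_lit 1741, nat_lit 3030, nat_lit 7788, nat_lit 8160, nat_lit 4975, nat_lit 2906, nat_lit 445, nat_lit 7496, nat_lit 7433, nat_lit 10980, nat_lit 6342, nat_lit 7905, nat_lit 11314, nat_lit 9859, nat_lit 11342, nat_lit 1295], nat_lit 7375, nat_lit 290),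
  ([nat_lit 0, nat_lit 0, nat_lit 0, nat_lit 0, nat_lit 0, nat_lit 0, nat_lit 0, nat_lit 1, nat_lit 1963, nat_lit 5430, nat_lit 11687, nat_lit 8706, nat_lit 7022, nat_lit 4037, nat_lit 5943, nat_lit 1963, nat_lit 7661, nat_lit 9369, nat_lit 0, nat_lit 336, nat_lit 8997, nat_lit 9655, nat_lit 4817, nat_lit 9183, nat_lit 5139, nat_lit 888, nat_lit 8182, nat_lit 1038, nat_lit 8169, nat_lit 11594, nat_lit 5802, nat_lit 555, nat_lit 8049, nat_lit 0, nat_lit 7920, nat_lit 3306, nat_lit 6935, nat_lit 3220, nat_lit 548, nat_lit 6434, nat_lit 5390, nat_lit 617, nat_lit 6469, nat_lit 7572, nat_lit 282, nat_lit 0, nat_lit 7626, nat_lit 11770, nat_lit 11853, nat_lit 9469, nat_lit 5763, nat_lit 7583, nat_lit 5223, nat_lit 2624, nat_lit 0, nat_lit 6119, nat_lit 11834, nat_lit 385, nat_lit 7252, nat_lit 7059, nat_lit 0, nat_lit 402, nat_lit 1015, nat_lit 0], nat_lit 580, nat_lit 11538),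
  ([nat_lit 0, nat_lit 5659, nat_lit 5793, nat_lit 10430, nat_lit 10839, nat_lit 2209, nat_lit 1419, nat_lit 0, nat_lit 10991, nat_lit 6933, nat_lit 7315, nat_lit 10600, nat_lit 7087, nat_lit 2931, nat_lit 1932, nat_lit 2922, nat_lit 9207, nat_lit 2048, nat_lit 0, nat_lit 8139, nat_lit 8021, nat_lit 4115, nat_lit 9784, nat_lit 1424, nat_lit 0, nat_lit 3089, nat_lit 11273, nat_lit 8986, nat_lit 2724, nat_lit 8236, nat_lit 10889, nat_lit 5584, nat_lit 4128, nat_lit 0, nat_lit 10211, nat_lit 7123, nat_lit 8612, nat_lit 11777, nat_lit 0, nat_lit 3309, nat_lit 3018, nat_lit 2372, nat_lit 7111, nat_lit 8676, nat_lit 9801, nat_lit 0, nat_lit 10869, nat_lit 11815, nat_lit 3056, nat_lit 0, nat_lit 810, nat_lit 10110, nat_lit 8279, nat_lit 2113, nat_lit 0, nat_lit 6743, nat_lit 4314, nat_lit 0, nat_lit 1060, nat_lit 11861, nat_lit 0, nat_lit 10731, nat_lit 0, nat_lit 0], nat_lit 5769, nat_lit 8648),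
  ([nat_lit 1, nat_lit 6901, nat_lit 4753, nat_lit 8893, nat_lit 5228, nat_lit 7712, nat_lit 5513, nat_lit 3404, nat_lit 2267, nat_lit 9171, nat_lit 10865, nat_lit 10255, nat_lit 6519, nat_lit 3241, nat_lit 6099, nat_lit 6697, nat_lit 10788, nat_lit 1642, nat_lit 4188, nat_lit 6796, nat_lit 4889, nat_lit 8830, nat_lit 10062, nat_lit 5298, nat_lit 10633, nat_lit 1277, nat_lit 8756, nat_lit 10271, nat_lit 10006, nat_lit 5206, nat_lit 10343, nat_lit 7876, nat_lit 8582, nat_lit 2988, nat_lit 6653, nat_lit 4169, nat_lit 6368, nat_lit 9630, nat_lit 1016, nat_lit 1626, nat_lit 5362, nat_lit 5728, nat_lit 1093, nat_lit 10239, nat_lit 3032, nat_lit 3051, nat_lit 1819, nat_lit 6583, nat_lit 8220, nat_lit 1610, nat_lit 1875, nat_lit 966, nat_lit 3299, nat_lit 2403, nat_lit 5513, nat_lit 2251, nat_lit 5684, nat_lit 6153, nat_lit 11040, nat_lit 10490, nat_lit 3661, nat_lit 5555, nat_lit 10756, nat_lit 5778], nat_lit 0, nat_lit 0),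
  ([nat_lit 0, nat_lit 0, nat_lit 0, nat_lit 0, nat_lit 0, nat_lit 0, nat_lit 0, nat_lit 6353, nat_lit 1163, nat_lit 6188, nat_lit 3074, nat_lit 6089, nat_lit 8973, nat_lit 4384, nat_lit 4958, nat_lit 9759, nat_lit 5351, nat_lit 1103, nat_lit 3149, nat_lit 900, nat_lit 9018, nat_lit 540, nat_lit 7787, nat_lit 324, nat_lit 7339, nat_lit 9617, nat_lit 11532, nat_lit 3394, nat_lit 4543, nat_lit 4177, nat_lit 2171, nat_lit 130, nat_lit 6055, nat_lit 204, nat_lit 5846, nat_lit 7251, nat_lit 8260, nat_lit 9103, nat_lit 2244, nat_lit 4901, nat_lit 8475, nat_lit 7693, nat_lit 2358, nat_lit 7469, nat_lit 3791, nat_lit 10261, nat_lit 401, nat_lit 10909, nat_lit 4993, nat_lit 3396, nat_lit 6464, nat_lit 6790, nat_lit 10441, nat_lit 6957, nat_lit 7242, nat_lit 5556, nat_lit 1969, nat_lit 9475, nat_lit 5832, nat_lit 9385, nat_lit 11480, nat_lit 972, nat_lit 8527, nat_lit 11633], nat_lit 0, nat_lit 0),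
  ([nat_lit 0, nat_lit 2556, nat_lit 3223, nat_lit 6977, nat_lit 8620, nat_lit 6977, nat_lit 7758, nat_lit 11270, nat_lit 4976, nat_lit 11691, nat_lit 7464, nat_lit 9972, nat_lit 4314, nat_lit 10543, nat_lit 938, nat_lit 11046, nat_lit 8842, nat_lit 8034, nat_lit 0, nat_lit 11628, nat_lit 1108, nat_lit 4297, nat_lit 6082, nat_lit 4297, nat_lit 7428, nat_lit 214, nat_lit 307, nat_lit 321, nat_lit 1021, nat_lit 4288, nat_lit 7614, nat_lit 7915, nat_lit 9100, nat_lit 0, nat_lit 9726, nat_lit 6714, nat_lit 8002, nat_lit 10433, nat_lit 4006, nat_lit 5157, nat_lit 2568, nat_lit 1795, nat_lit 5953, nat_lit 10709, nat_lit 30, nat_lit 0, nat_lit 4420, nat_lit 7786, nat_lit 7956, nat_lit 1156, nat_lit 9739, nat_lit 2479, nat_lit 4826, nat_lit 10398, nat_lit 0, nat_lit 362, nat_lit 6304, nat_lit 5761, nat_lit 11340, nat_lit 1707, nat_lit 0, nat_lit 7169, nat_lit 8638, nat_lit 0], nat_lit 0, nat_lit 0),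
  ([nat_lit 0, nat_lit 0, nat_lit 0, nat_lit 0, nat_lit 0, nat_lit 0, nat_lit 0, nat_lit 0, nat_lit 0, nat_lit 0, nat_lit 0, nat_lit 0, nat_lit 0, nat_lit 852, nat_lit 10438, nat_lit 10016, nat_lit 8639, nat_lit 10762, nat_lit 10048, nat_lit 3732, nat_lit 8405, nat_lit 11744, nat_lit 5043, nat_lit 2294, nat_lit 7867, nat_lit 5878, nat_lit 2344, nat_lit 5903, nat_lit 8535, nat_lit 3117, nat_lit 5807, nat_lit 11375, nat_lit 1108, nat_lit 4491, nat_lit 6743, nat_lit 7447, nat_lit 6422, nat_lit 2092, nat_lit 9381, nat_lit 10593, nat_lit 10381, nat_lit 8732, nat_lit 7609, nat_lit 7570, nat_lit 11694, nat_lit 1644, nat_lit 10770, nat_lit 8115, nat_lit 6462, nat_lit 9192, nat_lit 1333, nat_lit 3139, nat_lit 5787, nat_lit 4046, nat_lit 5010, nat_lit 300, nat_lit 3006, nat_lit 9999, nat_lit 10132, nat_lit 3060, nat_lit 10855, nat_lit 650, nat_lit 7372, nat_lit 2823], nat_lit 5953, nat_lit 2832),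
  ([nat_lit 0, nat_lit 0, nat_lit 0, nat_lit 0, nat_lit 0, nat_lit 0, nat_lit 0, nat_lit 1, nat_lit 3842, nat_lit 9509, nat_lit 5763, nat_lit 8559, nat_lit 4582, nat_lit 1735, nat_lit 10789, nat_lit 4164, nat_lit 1410, nat_lit 1996, nat_lit 0, nat_lit 5407, nat_lit 2853, nat_lit 2604, nat_lit 8176, nat_lit 2604, nat_lit 4871, nat_lit 1807, nat_lit 6201, nat_lit 8651, nat_lit 460, nat_lit 11282, nat_lit 8163, nat_lit 5691, nat_lit 6498, nat_lit 0, nat_lit 10541, nat_lit 4037, nat_lit 9469, nat_lit 92, nat_lit 9035, nat_lit 8069, nat_lit 2304, nat_lit 6163, nat_lit 4375, nat_lit 5635, nat_lit 10500, nat_lit 0, nat_lit 5749, nat_lit 6380, nat_lit 7972, nat_lit 6748, nat_lit 1474, nat_lit 9332, nat_lit 11658, nat_lit 8077, nat_lit 0, nat_lit 11835, nat_lit 6682, nat_lit 383, nat_lit 10123, nat_lit 5950, nat_lit 0, nat_lit 8691, nat_lit 11052, nat_lit 0], nat_lit 5664, nat_lit 5227),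
  ([nat_lit 0, nat_lit 7178, nat_lit 5564, nat_lit 8910, nat_lit 907, nat_lit 9652, nat_lit 6554, nat_lit 0, nat_lit 1271, nat_lit 4535, nat_lit 11660, nat_lit 6712, nat_lit 6775, nat_lit 5010, nat_lit 3000, nat_lit 1001, nat_lit 9900, nat_lit 2546, nat_lit 0, nat_lit 2534, nat_lit 3391, nat_lit 8740, nat_lit 8477, nat_lit 3414, nat_lit 0, nat_lit 260, nat_lit 6742, nat_lit 1170, nat_lit 11291, nat_lit 34, nat_lit 5783, nat_lit 10076, nat_lit 8391, nat_lit 0, nat_lit 2659, nat_lit 3713, nat_lit 9640, nat_lit 1248, nat_lit 0, nat_lit 7709, nat_lit 6240, nat_lit 4988, nat_lit 11701, nat_lit 5726, nat_lit 8857, nat_lit 0, nat_lit 3395, nat_lit 9696, nat_lit 682, nat_lit 0, nat_lit 4615, nat_lit 6801, nat_lit 6544, nat_lit 4630, nat_lit 0, nat_lit 8584, nat_lit 9471, nat_lit 0, nat_lit 9114, nat_lit 8686, nat_lit 0, nat_lit 9767, nat_lit 0, nat_lit 0], nat_lit 8554, nat_lit 4075),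
  ([nat_lit 1, nat_lit 5555, nat_lit 3068, nat_lit 5386, nat_lit 2872, nat_lit 9658, nat_lit 7475, nat_lit 9637, nat_lit 9630, nat_lit 6388, nat_lit 8674, nat_lit 6615, nat_lit 10273, nat_lit 9873, nat_lit 1819, nat_lit 5695, nat_lit 8503, nat_lit 7190, nat_lit 1117, nat_lit 3053, nat_lit 5228, nat_lit 4376, nat_lit 154, nat_lit 38, nat_lit 343, nat_lit 4405, nat_lit 6796, nat_lit 5843, nat_lit 10854, nat_lit 2573, nat_lit 172, nat_lit 4980, nat_lit 4932, nat_lit 184, nat_lit 354, nat_lit 6105, nat_lit 4901, nat_lit 5684, nat_lit 2939, nat_lit 1651, nat_lit 11054, nat_lit 3962, nat_lit 10720, nat_lit 2028, nat_lit 2352, nat_lit 3551, nat_lit 3345, nat_lit 11472, nat_lit 9157, nat_lit 3707, nat_lit 2612, nat_lit 2959, nat_lit 10073, nat_lit 7886, nat_lit 10094, nat_lit 5731, nat_lit 6506, nat_lit 6131, nat_lit 6759, nat_lit 234, nat_lit 11810, nat_lit 9549, nat_lit 4871, nat_lit 3860], nat_lit 0, nat_lit 0),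
  ([nat_lit 0, nat_lit 0, nat_lit 0, nat_lit 0, nat_lit 0, nat_lit 0, nat_lit 0, nat_lit 2144, nat_lit 5158, nat_lit 7599, nat_lit 11133, nat_lit 3210, nat_lit 10050, nat_lit 1338, nat_lit 6965, nat_lit 6039, nat_lit 6582, nat_lit 5173, nat_lit 11729, nat_lit 11072, nat_lit 8904, nat_lit 1117, nat_lit 3053, nat_lit 5228, nat_lit 3306, nat_lit 8685, nat_lit 8315, nat_lit 8378, nat_lit 1913, nat_lit 5731, nat_lit 6506, nat_lit 10709, nat_lit 328, nat_lit 4981, nat_lit 10487, nat_lit 2742, nat_lit 368, nat_lit 708, nat_lit 5080, nat_lit 2025, nat_lit 9449, nat_lit 10818, nat_lit 10526, nat_lit 5529, nat_lit 1210, nat_lit 11144, nat_lit 4910, nat_lit 8155, nat_lit 10653, nat_lit 11873, nat_lit 3084, nat_lit 11099, nat_lit 5490, nat_lit 10304, nat_lit 3334, nat_lit 9772, nat_lit 11052, nat_lit 9769, nat_lit 6268, nat_lit 3287, nat_lit 3686, nat_lit 4767, nat_lit 21, nat_lit 5347], nat_lit 0, nat_lit 0),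
  ([nat_lit 0, nat_lit 8248, nat_lit 9008, nat_lit 6883, nat_lit 2676, nat_lit 11472, nat_lit 6236, nat_lit 4277, nat_lit 10702, nat_lit 841, nat_lit 10392, nat_lit 5432, nat_lit 11869, nat_lit 4520, nat_lit 4177, nat_lit 8932, nat_lit 8971, nat_lit 4192, nat_lit 0, nat_lit 5241, nat_lit 10610, nat_lit 1304, nat_lit 6961, nat_lit 6506, nat_lit 1247, nat_lit 1848, nat_lit 798, nat_lit 127, nat_lit 8234, nat_lit 11296, nat_lit 8357, nat_lit 8885, nat_lit 4924, nat_lit 0, nat_lit 8745, nat_lit 6013, nat_lit 7086, nat_lit 5263, nat_lit 2822, nat_lit 8803, nat_lit 291, nat_lit 11168, nat_lit 10, nat_lit 8184, nat_lit 3910, nat_lit 0, nat_lit 1983, nat_lit 3756, nat_lit 2316, nat_lit 3709, nat_lit 7364, nat_lit 4260, nat_lit 11170, nat_lit 5039, nat_lit 0, nat_lit 5145, nat_lit 1459, nat_lit 8365, nat_lit 3936, nat_lit 1840, nat_lit 0, nat_lit 8442, nat_lit 5239, nat_lit 0], nat_lit 0, nat_lit 0),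
  ([nat_lit 0, nat_lit 0, nat_lit 0, nat_lit 0, nat_lit 0, nat_lit 0, nat_lit 0, nat_lit 0, nat_lit 0, nat_lit 0, nat_lit 0, nat_lit 0, nat_lit 0, nat_lit 10670, nat_lit 9422, nat_lit 3405, nat_lit 223, nat_lit 3141, nat_lit 950, nat_lit 2086, nat_lit 3755, nat_lit 7870, nat_lit 7651, nat_lit 2968, nat_lit 1679, nat_lit 260, nat_lit 6699, nat_lit 1653, nat_lit 10283, nat_lit 5589, nat_lit 1842, nat_lit 2769, nat_lit 7781, nat_lit 6824, nat_lit 6930, nat_lit 1710, nat_lit 6131, nat_lit 6759, nat_lit 11679, nat_lit 6585, nat_lit 9957, nat_lit 5080, nat_lit 10334, nat_lit 8259, nat_lit 6204, nat_lit 6544, nat_lit 7941, nat_lit 9983, nat_lit 6938, nat_lit 225, nat_lit 2370, nat_lit 1202, nat_lit 712, nat_lit 10668, nat_lit 7174, nat_lit 2696, nat_lit 6220, nat_lit 7914, nat_lit 2570, nat_lit 1612, nat_lit 11012, nat_lit 8272, nat_lit 3471, nat_lit 5540], nat_lit 1944, nat_lit 10357),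
  ([nat_lit 0, nat_lit 0, nat_lit 0, nat_lit 0, nat_lit 0, nat_lit 0, nat_lit 0, nat_lit 1, nat_lit 10339, nat_lit 9595, nat_lit 6336, nat_lit 1693, nat_lit 75, nat_lit 2905, nat_lit 1252, nat_lit 7160, nat_lit 732, nat_lit 7005, nat_lit 0, nat_lit 5690, nat_lit 8980, nat_lit 11193, nat_lit 9083, nat_lit 2763, nat_lit 4468, nat_lit 1324, nat_lit 3812, nat_lit 8706, nat_lit 8008, nat_lit 3430, nat_lit 3196, nat_lit 10458, nat_lit 578, nat_lit 0, nat_lit 10671, nat_lit 6192, nat_lit 7538, nat_lit 10555, nat_lit 1288, nat_lit 9912, nat_lit 2120, nat_lit 10402, nat_lit 11381, nat_lit 6635, nat_lit 6477, nat_lit 0, nat_lit 4296, nat_lit 2583, nat_lit 416, nat_lit 11748, nat_lit 3109, nat_lit 7013, nat_lit 10268, nat_lit 1088, nat_lit 0, nat_lit 6198, nat_lit 9385, nat_lit 531, nat_lit 987, nat_lit 5334, nat_lit 0, nat_lit 10530, nat_lit 10745, nat_lit 0], nat_lit 8833, nat_lit 7318),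
  ([nat_lit 0, nat_lit 6432, nat_lit 6084, nat_lit 301, nat_lit 10037, nat_lit 4382, nat_lit 5001, nat_lit 0, nat_lit 4014, nat_lit 7787, nat_lit 11127, nat_lit 7197, nat_lit 1474, nat_lit 7870, nat_lit 5224, nat_lit 11818, nat_lit 4637, nat_lit 1520, nat_lit 0, nat_lit 8420, nat_lit 11777, nat_lit 3549, nat_lit 7546, nat_lit 11603, nat_lit 0, nat_lit 4501, nat_lit 1187, nat_lit 1333, nat_lit 7493, nat_lit 10731, nat_lit 1637, nat_lit 915, nat_lit 11294, nat_lit 0, nat_lit 7269, nat_lit 2642, nat_lit 7860, nat_lit 5253, nat_lit 0, nat_lit 1954, nat_lit 7088, nat_lit 3836, nat_lit 10479, nat_lit 10736, nat_lit 289, nat_lit 0, nat_lit 4750, nat_lit 4626, nat_lit 11442, nat_lit 0, nat_lit 8395, nat_lit 4550, nat_lit 2258, nat_lit 4183, nat_lit 0, nat_lit 6824, nat_lit 10888, nat_lit 0, nat_lit 3106, nat_lit 3414, nat_lit 0, nat_lit 6687, nat_lit 0, nat_lit 0], nat_lit 3659, nat_lit 890),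
  ([nat_lit 1, nat_lit 7832, nat_lit 10502, nat_lit 11382, nat_lit 681, nat_lit 10904, nat_lit 11381, nat_lit 4688, nat_lit 4126, nat_lit 10393, nat_lit 1245, nat_lit 8420, nat_lit 5890, nat_lit 9375, nat_lit 420, nat_lit 10284, nat_lit 2989, nat_lit 4278, nat_lit 2432, nat_lit 2181, nat_lit 8595, nat_lit 10175, nat_lit 4733, nat_lit 136, nat_lit 7337, nat_lit 6868, nat_lit 4889, nat_lit 10066, nat_lit 6477, nat_lit 361, nat_lit 11555, nat_lit 1183, nat_lit 9957, nat_lit 9767, nat_lit 5266, nat_lit 4361, nat_lit 9358, nat_lit 9848, nat_lit 10203, nat_lit 10171, nat_lit 9048, nat_lit 5652, nat_lit 10639, nat_lit 3195, nat_lit 1854, nat_lit 3225, nat_lit 11075, nat_lit 8100, nat_lit 6541, nat_lit 6168, nat_lit 11511, nat_lit 1124, nat_lit 9111, nat_lit 66, nat_lit 1740, nat_lit 173, nat_lit 502, nat_lit 6754, nat_lit 3116, nat_lit 11768, nat_lit 2044, nat_lit 4901, nat_lit 6186, nat_lit 4750], nat_lit 0, nat_lit 0),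
  ([nat_lit 0, nat_lit 0, nat_lit 0, nat_lit 0, nat_lit 0, nat_lit 0, nat_lit 0, nat_lit 10367, nat_lit 11471, nat_lit 8631, nat_lit 6983, nat_lit 2613, nat_lit 5934, nat_lit 2531, nat_lit 5284, nat_lit 2765, nat_lit 8298, nat_lit 866, nat_lit 4821, nat_lit 254, nat_lit 5201, nat_lit 6164, nat_lit 3945, nat_lit 6640, nat_lit 4248, nat_lit 3536, nat_lit 11222, nat_lit 6947, nat_lit 5805, nat_lit 2585, nat_lit 496, nat_lit 11466, nat_lit 5114, nat_lit 8131, nat_lit 11713, nat_lit 3015, nat_lit 5933, nat_lit 665, nat_lit 8487, nat_lit 7870, nat_lit 11093, nat_lit 6504, nat_lit 7426, nat_lit 2937, nat_lit 968, nat_lit 6912, nat_lit 4948, nat_lit 8795, nat_lit 8283, nat_lit 4410, nat_lit 1053, nat_lit 1682, nat_lit 1254, nat_lit 7622, nat_lit 5746, nat_lit 9325, nat_lit 893, nat_lit 6243, nat_lit 4861, nat_lit 8266, nat_lit 2770, nat_lit 11815, nat_lit 6152, nat_lit 4888], nat_lit 0, nat_lit 0),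
  ([nat_lit 0, nat_lit 9370, nat_lit 5687, nat_lit 4013, nat_lit 10055, nat_lit 4365, nat_lit 10804, nat_lit 9147, nat_lit 11258, nat_lit 3601, nat_lit 3272, nat_lit 9376, nat_lit 1931, nat_lit 5214, nat_lit 8568, nat_lit 3477, nat_lit 6782, nat_lit 86, nat_lit 0, nat_lit 82, nat_lit 1300, nat_lit 5315, nat_lit 2662, nat_lit 5947, nat_lit 4272, nat_lit 5632, nat_lit 1335, nat_lit 9115, nat_lit 2793, nat_lit 3421, nat_lit 9983, nat_lit 8673, nat_lit 2996, nat_lit 0, nat_lit 9328, nat_lit 1254, nat_lit 11433, nat_lit 10720, nat_lit 5510, nat_lit 10112, nat_lit 3207, nat_lit 9615, nat_lit 3172, nat_lit 5773, nat_lit 3961, nat_lit 0, nat_lit 4867, nat_lit 8192, nat_lit 3516, nat_lit 10433, nat_lit 10595, nat_lit 5488, nat_lit 3535, nat_lit 8475, nat_lit 0, nat_lit 3068, nat_lit 10388, nat_lit 7121, nat_lit 9032, nat_lit 7157, nat_lit 0, nat_lit 108, nat_lit 7655, nat_lit 0], nat_lit 0, nat_lit 0),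
  ([nat_lit 0, nat_lit 0, nat_lit 0, nat_lit 0, nat_lit 0, nat_lit 0, nat_lit 0, nat_lit 0, nat_lit 0, nat_lit 0, nat_lit 0, nat_lit 0, nat_lit 0, nat_lit 11044, nat_lit 2928, nat_lit 1766, nat_lit 1828, nat_lit 291, nat_lit 3679, nat_lit 2503, nat_lit 11727, nat_lit 5734, nat_lit 10389, nat_lit 5560, nat_lit 3761, nat_lit 3153, nat_lit 5578, nat_lit 459, nat_lit 6826, nat_lit 8194, nat_lit 6127, nat_lit 11186, nat_lit 10139, nat_lit 4675, nat_lit 9239, nat_lit 4558, nat_lit 7732, nat_lit 11448, nat_lit 6218, nat_lit 11038, nat_lit 3460, nat_lit 10040, nat_lit 11815, nat_lit 5852, nat_lit 7847, nat_lit 8264, nat_lit 7841, nat_lit 9704, nat_lit 10852, nat_lit 84, nat_lit 4433, nat_lit 2974, nat_lit 2101, nat_lit 11728, nat_lit 11361, nat_lit 2543, nat_lit 4220, nat_lit 7174, nat_lit 1519, nat_lit 1975, nat_lit 11083, nat_lit 11351, nat_lit 1704, nat_lit 6877], nat_lit 2693, nat_lit 3616),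
  ([nat_lit 0, nat_lit 0, nat_lit 0, nat_lit 0, nat_lit 0, nat_lit 0, nat_lit 0, nat_lit 1, nat_lit 7566, nat_lit 2228, nat_lit 6891, nat_lit 8853, nat_lit 8130, nat_lit 6871, nat_lit 5617, nat_lit 11835, nat_lit 3628, nat_lit 10021, nat_lit 0, nat_lit 1208, nat_lit 7560, nat_lit 4405, nat_lit 675, nat_lit 2414, nat_lit 9728, nat_lit 11134, nat_lit 3040, nat_lit 3046, nat_lit 8496, nat_lit 2084, nat_lit 5366, nat_lit 5464, nat_lit 7104, nat_lit 0, nat_lit 6498, nat_lit 145, nat_lit 4477, nat_lit 4044, nat_lit 8964, nat_lit 4876, nat_lit 11712, nat_lit 1605, nat_lit 8795, nat_lit 2886, nat_lit 8784, nat_lit 0, nat_lit 2109, nat_lit 6196, nat_lit 7602, nat_lit 8488, nat_lit 3403, nat_lit 8593, nat_lit 5005, nat_lit 3412, nat_lit 0, nat_lit 7209, nat_lit 4752, nat_lit 10739, nat_lit 8996, nat_lit 10897, nat_lit 0, nat_lit 6796, nat_lit 8942, nat_lit 0], nat_lit 7232, nat_lit 2481),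
  ([nat_lit 0, nat_lit 7339, nat_lit 5731, nat_lit 1810, nat_lit 9400, nat_lit 1102, nat_lit 4946, nat_lit 0, nat_lit 7593, nat_lit 7958, nat_lit 8748, nat_lit 2835, nat_lit 4436, nat_lit 1607, nat_lit 4807, nat_lit 4979, nat_lit 10038, nat_lit 855, nat_lit 0, nat_lit 3186, nat_lit 1379, nat_lit 5950, nat_lit 1756, nat_lit 6839, nat_lit 0, nat_lit 3102, nat_lit 11588, nat_lit 8146, nat_lit 3740, nat_lit 11256, nat_lit 11601, nat_lit 2189, nat_lit 8842, nat_lit 0, nat_lit 1940, nat_lit 3286, nat_lit 11223, nat_lit 5313, nat_lit 0, nat_lit 11510, nat_lit 284, nat_lit 5445, nat_lit 768, nat_lit 8138, nat_lit 960, nat_lit 0, nat_lit 1323, nat_lit 7520, nat_lit 3679, nat_lit 0, nat_lit 684, nat_lit 1590, nat_lit 2459, nat_lit 9751, nat_lit 0, nat_lit 9666, nat_lit 3781, nat_lit 0, nat_lit 148, nat_lit 4145, nat_lit 0, nat_lit 7094, nat_lit 0, nat_lit 0], nat_lit 7181, nat_lit 468),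
  ([nat_lit 1, nat_lit 855, nat_lit 6284, nat_lit 2608, nat_lit 8093, nat_lit 4773, nat_lit 5732, nat_lit 965, nat_lit 5286, nat_lit 4750, nat_lit 9829, nat_lit 3928, nat_lit 7998, nat_lit 4507, nat_lit 4041, nat_lit 9565, nat_lit 3947, nat_lit 481, nat_lit 6268, nat_lit 809, nat_lit 2597, nat_lit 10569, nat_lit 6935, nat_lit 806, nat_lit 1191, nat_lit 8420, nat_lit 11095, nat_lit 5187, nat_lit 3272, nat_lit 8739, nat_lit 10577, nat_lit 1894, nat_lit 3554, nat_lit 9238, nat_lit 9506, nat_lit 1026, nat_lit 9917, nat_lit 7882, nat_lit 3920, nat_lit 1158, nat_lit 3967, nat_lit 5700, nat_lit 4642, nat_lit 656, nat_lit 2473, nat_lit 7671, nat_lit 393, nat_lit 3347, nat_lit 10245, nat_lit 652, nat_lit 10934, nat_lit 10104, nat_lit 11368, nat_lit 982, nat_lit 11302, nat_lit 3957, nat_lit 9031, nat_lit 11553, nat_lit 4704, nat_lit 4267, nat_lit 6414, nat_lit 6829, nat_lit 11390, nat_lit 9529], nat_lit 0, nat_lit 0),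
  ([nat_lit 0, nat_lit 0, nat_lit 0, nat_lit 0, nat_lit 0, nat_lit 0, nat_lit 0, nat_lit 7263, nat_lit 7983, nat_lit 5771, nat_lit 3590, nat_lit 4152, nat_lit 9422, nat_lit 9891, nat_lit 9414, nat_lit 5533, nat_lit 2077, nat_lit 5566, nat_lit 3301, nat_lit 6558, nat_lit 11139, nat_lit 7164, nat_lit 6505, nat_lit 1467, nat_lit 9730, nat_lit 2450, nat_lit 3694, nat_lit 9905, nat_lit 9503, nat_lit 4325, nat_lit 2884, nat_lit 6453, nat_lit 4531, nat_lit 11694, nat_lit 6449, nat_lit 1111, nat_lit 11306, nat_lit 7377, nat_lit 1347, nat_lit 11109, nat_lit 5276, nat_lit 8081, nat_lit 8910, nat_lit 2329, nat_lit 7168, nat_lit 214, nat_lit 4755, nat_lit 2223, nat_lit 11586, nat_lit 8997, nat_lit 5428, nat_lit 7350, nat_lit 3932, nat_lit 11418, nat_lit 2359, nat_lit 9056, nat_lit 8349, nat_lit 7761, nat_lit 6057, nat_lit 10152, nat_lit 7810, nat_lit 428, nat_lit 3577, nat_lit 4032], nat_lit 0, nat_lit 0),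
  ([nat_lit 0, nat_lit 10468, nat_lit 7494, nat_lit 11207, nat_lit 3905, nat_lit 6208, nat_lit 1192, nat_lit 5930, nat_lit 11614, nat_lit 1485, nat_lit 11304, nat_lit 6179, nat_lit 6044, nat_lit 3497, nat_lit 7629, nat_lit 4954, nat_lit 11267, nat_lit 4753, nat_lit 0, nat_lit 6542, nat_lit 6799, nat_lit 5004, nat_lit 1680, nat_lit 1469, nat_lit 5472, nat_lit 1665, nat_lit 5157, nat_lit 7069, nat_lit 9793, nat_lit 10632, nat_lit 9428, nat_lit 6619, nat_lit 892, nat_lit 0, nat_lit 3925, nat_lit 10866, nat_lit 11113, nat_lit 3674, nat_lit 9930, nat_lit 4702, nat_lit 7756, nat_lit 4243, nat_lit 847, nat_lit 10491, nat_lit 11321, nat_lit 0, nat_lit 8230, nat_lit 6196, nat_lit 9862, nat_lit 8562, nat_lit 7256, nat_lit 9437, nat_lit 10070, nat_lit 8134, nat_lit 0, nat_lit 10219, nat_lit 9420, nat_lit 139, nat_lit 140, nat_lit 6888, nat_lit 0, nat_lit 2221, nat_lit 3939, nat_lit 0], nat_lit 0, nat_lit 0),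
  ([nat_lit 0, nat_lit 0, nat_lit 0, nat_lit 0, nat_lit 0, nat_lit 0, nat_lit 0, nat_lit 0, nat_lit 0, nat_lit 0, nat_lit 0, nat_lit 0, nat_lit 0, nat_lit 11410, nat_lit 1249, nat_lit 10486, nat_lit 7256, nat_lit 1998, nat_lit 5909, nat_lit 2770, nat_lit 4031, nat_lit 1015, nat_lit 512, nat_lit 10044, nat_lit 10491, nat_lit 11531, nat_lit 9656, nat_lit 10466, nat_lit 2037, nat_lit 2005, nat_lit 3411, nat_lit 5560, nat_lit 1400, nat_lit 10794, nat_lit 9214, nat_lit 867, nat_lit 4663, nat_lit 6730, nat_lit 4707, nat_lit 8707, nat_lit 6979, nat_lit 2783, nat_lit 8911, nat_lit 3184, nat_lit 1571, nat_lit 1050, nat_lit 6675, nat_lit 4245, nat_lit 5770, nat_lit 1236, nat_lit 11252, nat_lit 8731, nat_lit 4351, nat_lit 1352, nat_lit 6685, nat_lit 914, nat_lit 9205, nat_lit 657, nat_lit 3328, nat_lit 8991, nat_lit 2714, nat_lit 3675, nat_lit 9326, nat_lit 8617], nat_lit 4461, nat_lit 7160),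
  ([nat_lit 0, nat_lit 0, nat_lit 0, nat_lit 0, nat_lit 0, nat_lit 0, nat_lit 0, nat_lit 1, nat_lit 3420, nat_lit 8345, nat_lit 2318, nat_lit 10161, nat_lit 5082, nat_lit 3860, nat_lit 5336, nat_lit 4714, nat_lit 2380, nat_lit 3055, nat_lit 0, nat_lit 4920, nat_lit 1452, nat_lit 8754, nat_lit 11401, nat_lit 9764, nat_lit 1310, nat_lit 1063, nat_lit 1430, nat_lit 6925, nat_lit 4190, nat_lit 29, nat_lit 8523, nat_lit 4203, nat_lit 141, nat_lit 0, nat_lit 2849, nat_lit 580, nat_lit 7228, nat_lit 6387, nat_lit 5261, nat_lit 4786, nat_lit 2750, nat_lit 5092, nat_lit 3315, nat_lit 10677, nat_lit 4387, nat_lit 0, nat_lit 6524, nat_lit 11662, nat_lit 10217, nat_lit 5424, nat_lit 3839, nat_lit 8551, nat_lit 2463, nat_lit 7320, nat_lit 0, nat_lit 5294, nat_lit 11299, nat_lit 4354, nat_lit 3787, nat_lit 2697, nat_lit 0, nat_lit 1919, nat_lit 7576, nat_lit 0], nat_lit 2439, nat_lit 10302),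
  ([nat_lit 0, nat_lit 9908, nat_lit 935, nat_lit 5779, nat_lit 11201, nat_lit 8244, nat_lit 3965, nat_lit 0, nat_lit 5911, nat_lit 3799, nat_lit 11623, nat_lit 9717, nat_lit 1292, nat_lit 9021, nat_lit 9979, nat_lit 8916, nat_lit 649, nat_lit 3262, nat_lit 0, nat_lit 1357, nat_lit 3247, nat_lit 9484, nat_lit 3039, nat_lit 2923, nat_lit 0, nat_lit 5190, nat_lit 2608, nat_lit 10553, nat_lit 4150, nat_lit 1949, nat_lit 6788, nat_lit 9145, nat_lit 4630, nat_lit 0, nat_lit 10761, nat_lit 43, nat_lit 5069, nat_lit 3209, nat_lit 0, nat_lit 742, nat_lit 10569, nat_lit 4677, nat_lit 2664, nat_lit 1323, nat_lit 6916, nat_lit 0, nat_lit 1511, nat_lit 8142, nat_lit 2698, nat_lit 0, nat_lit 5385, nat_lit 9917, nat_lit 5147, nat_lit 11507, nat_lit 0, nat_lit 1791, nat_lit 5161, nat_lit 0, nat_lit 11140, nat_lit 4481, nat_lit 0, nat_lit 10324, nat_lit 0, nat_lit 0], nat_lit 5151, nat_lit 5567),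
  ([nat_lit 1, nat_lit 7262, nat_lit 8766, nat_lit 294, nat_lit 8329, nat_lit 10908, nat_lit 3269, nat_lit 3713, nat_lit 5817, nat_lit 6099, nat_lit 10451, nat_lit 11215, nat_lit 10956, nat_lit 4409, nat_lit 10744, nat_lit 401, nat_lit 1217, nat_lit 10271, nat_lit 417, nat_lit 10480, nat_lit 7955, nat_lit 3788, nat_lit 3941, nat_lit 10094, nat_lit 3791, nat_lit 1965, nat_lit 749, nat_lit 9621, nat_lit 7422, nat_lit 8879, nat_lit 1111, nat_lit 883, nat_lit 8487, nat_lit 7555, nat_lit 9833, nat_lit 2436, nat_lit 11304, nat_lit 3819, nat_lit 674, nat_lit 11497, nat_lit 3427, nat_lit 8060, nat_lit 7552, nat_lit 11809, nat_lit 11781, nat_lit 1970, nat_lit 1416, nat_lit 5927, nat_lit 8892, nat_lit 7795, nat_lit 6206, nat_lit 3339, nat_lit 719, nat_lit 5619, nat_lit 1701, nat_lit 8303, nat_lit 311, nat_lit 7002, nat_lit 9725, nat_lit 2798, nat_lit 8338, nat_lit 4980, nat_lit 8989, nat_lit 7694], nat_lit 0, nat_lit 0),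
  ([nat_lit 0, nat_lit 0, nat_lit 0, nat_lit 0, nat_lit 0, nat_lit 0, nat_lit 0, nat_lit 2321, nat_lit 7844, nat_lit 5614, nat_lit 5157, nat_lit 1222, nat_lit 10938, nat_lit 8296, nat_lit 8882, nat_lit 11016, nat_lit 3419, nat_lit 9369, nat_lit 4769, nat_lit 11244, nat_lit 7696, nat_lit 128, nat_lit 2818, nat_lit 5234, nat_lit 10103, nat_lit 2811, nat_lit 1924, nat_lit 32, nat_lit 6645, nat_lit 11093, nat_lit 4186, nat_lit 7134, nat_lit 5948, nat_lit 9092, nat_lit 3387, nat_lit 2724, nat_lit 11704, nat_lit 9655, nat_lit 3474, nat_lit 4825, nat_lit 2081, nat_lit 11471, nat_lit 4139, nat_lit 10369, nat_lit 9781, nat_lit 7928, nat_lit 9691, nat_lit 4879, nat_lit 2156, nat_lit 5612, nat_lit 2514, nat_lit 7452, nat_lit 7395, nat_lit 370, nat_lit 117, nat_lit 6103, nat_lit 3856, nat_lit 10234, nat_lit 3653, nat_lit 1838, nat_lit 10492, nat_lit 51, nat_lit 9227, nat_lit 1171], nat_lit 0, nat_lit 0),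
  ([nat_lit 0, nat_lit 2963, nat_lit 1630, nat_lit 5376, nat_lit 3355, nat_lit 9950, nat_lit 742, nat_lit 5658, nat_lit 3711, nat_lit 11495, nat_lit 1120, nat_lit 11263, nat_lit 1990, nat_lit 5092, nat_lit 11080, nat_lit 10101, nat_lit 231, nat_lit 8329, nat_lit 0, nat_lit 11828, nat_lit 2493, nat_lit 8164, nat_lit 8958, nat_lit 2681, nat_lit 6948, nat_lit 2957, nat_lit 5372, nat_lit 3681, nat_lit 3676, nat_lit 8546, nat_lit 10532, nat_lit 6243, nat_lit 1279, nat_lit 0, nat_lit 1661, nat_lit 5934, nat_lit 6422, nat_lit 4852, nat_lit 10233, nat_lit 9326, nat_lit 6496, nat_lit 2328, nat_lit 11263, nat_lit 7755, nat_lit 1392, nat_lit 0, nat_lit 3539, nat_lit 3230, nat_lit 4749, nat_lit 1882, nat_lit 3855, nat_lit 11845, nat_lit 3676, nat_lit 2203, nat_lit 0, nat_lit 2519, nat_lit 4357, nat_lit 648, nat_lit 3600, nat_lit 243, nat_lit 0, nat_lit 4895, nat_lit 8834, nat_lit 0], nat_lit 0, nat_lit 0),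
  ([nat_lit 0, nat_lit 0, nat_lit 0, nat_lit 0, nat_lit 0, nat_lit 0, nat_lit 0, nat_lit 0, nat_lit 0, nat_lit 0, nat_lit 0, nat_lit 0, nat_lit 0, nat_lit 4948, nat_lit 4232, nat_lit 8518, nat_lit 5230, nat_lit 8584, nat_lit 5093, nat_lit 11694, nat_lit 8321, nat_lit 336, nat_lit 4427, nat_lit 10769, nat_lit 3395, nat_lit 1415, nat_lit 10546, nat_lit 126, nat_lit 175, nat_lit 7744, nat_lit 4155, nat_lit 7751, nat_lit 7465, nat_lit 9172, nat_lit 2178, nat_lit 3025, nat_lit 11462, nat_lit 10639, nat_lit 6566, nat_lit 3839, nat_lit 5992, nat_lit 5682, nat_lit 7582, nat_lit 3930, nat_lit 1498, nat_lit 77, nat_lit 767, nat_lit 9646, nat_lit 10757, nat_lit 9857, nat_lit 10390, nat_lit 7830, nat_lit 9437, nat_lit 1886, nat_lit 5402, nat_lit 10143, nat_lit 8147, nat_lit 792, nat_lit 1100, nat_lit 9084, nat_lit 8635, nat_lit 11333, nat_lit 2699, nat_lit 9049], nat_lit 10011, nat_lit 8647),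
  ([nat_lit 0, nat_lit 0, nat_lit 0, nat_lit 0, nat_lit 0, nat_lit 0, nat_lit 0, nat_lit 1, nat_lit 5286, nat_lit 1957, nat_lit 2940, nat_lit 1348, nat_lit 8194, nat_lit 2971, nat_lit 10646, nat_lit 2536, nat_lit 4183, nat_lit 5114, nat_lit 0, nat_lit 4038, nat_lit 3296, nat_lit 10827, nat_lit 8169, nat_lit 10717, nat_lit 1668, nat_lit 1346, nat_lit 8882, nat_lit 8948, nat_lit 2955, nat_lit 2267, nat_lit 1601, nat_lit 6198, nat_lit 6391, nat_lit 0, nat_lit 5369, nat_lit 4353, nat_lit 158, nat_lit 5133, nat_lit 5361, nat_lit 2061, nat_lit 554, nat_lit 7134, nat_lit 10784, nat_lit 8402, nat_lit 5470, nat_lit 0, nat_lit 1927, nat_lit 7993, nat_lit 3781, nat_lit 7819, nat_lit 9116, nat_lit 10936, nat_lit 5156, nat_lit 8662, nat_lit 0, nat_lit 2122, nat_lit 614, nat_lit 10232, nat_lit 4040, nat_lit 5960, nat_lit 0, nat_lit 7100, nat_lit 2717, nat_lit 0], nat_lit 5413, nat_lit 9451),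
  ([nat_lit 0, nat_lit 6963, nat_lit 10731, nat_lit 127, nat_lit 7694, nat_lit 9500, nat_lit 10174, nat_lit 0, nat_lit 1126, nat_lit 10094, nat_lit 10240, nat_lit 2650, nat_lit 3733, nat_lit 5550, nat_lit 1837, nat_lit 8464, nat_lit 6307, nat_lit 10233, nat_lit 0, nat_lit 4607, nat_lit 7571, nat_lit 5435, nat_lit 528, nat_lit 5127, nat_lit 0, nat_lit 6183, nat_lit 3324, nat_lit 4801, nat_lit 117, nat_lit 9436, nat_lit 5645, nat_lit 831, nat_lit 4318, nat_lit 0, nat_lit 8278, nat_lit 8642, nat_lit 9005, nat_lit 6318, nat_lit 0, nat_lit 134, nat_lit 7912, nat_lit 6009, nat_lit 2201, nat_lit 1527, nat_lit 1978, nat_lit 0, nat_lit 6436, nat_lit 3771, nat_lit 689, nat_lit 0, nat_lit 8354, nat_lit 8267, nat_lit 2980, nat_lit 7066, nat_lit 0, nat_lit 10587, nat_lit 4215, nat_lit 0, nat_lit 2485, nat_lit 7036, nat_lit 0, nat_lit 6928, nat_lit 0, nat_lit 0], nat_lit 10666, nat_lit 10917),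
  ([nat_lit 1, nat_lit 10837, nat_lit 8765, nat_lit 9591, nat_lit 2679, nat_lit 7040, nat_lit 4579, nat_lit 2636, nat_lit 4408, nat_lit 7876, nat_lit 10989, nat_lit 4530, nat_lit 11199, nat_lit 9992, nat_lit 11751, nat_lit 5029, nat_lit 1126, nat_lit 675, nat_lit 354, nat_lit 10616, nat_lit 1869, nat_lit 9129, nat_lit 9767, nat_lit 9031, nat_lit 6426, nat_lit 4021, nat_lit 7950, nat_lit 5019, nat_lit 11566, nat_lit 8511, nat_lit 1504, nat_lit 9997, nat_lit 6531, nat_lit 6506, nat_lit 3668, nat_lit 8171, nat_lit 34, nat_lit 147, nat_lit 5533, nat_lit 9595, nat_lit 10384, nat_lit 6457, nat_lit 7001, nat_lit 9652, nat_lit 10281, nat_lit 10091, nat_lit 3443, nat_lit 5451, nat_lit 155, nat_lit 10198, nat_lit 10545, nat_lit 4707, nat_lit 7106, nat_lit 6961, nat_lit 7914, nat_lit 6960, nat_lit 4932, nat_lit 10149, nat_lit 2296, nat_lit 8633, nat_lit 9521, nat_lit 4473, nat_lit 4684, nat_lit 8111], nat_lit 0, nat_lit 0),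
  ([nat_lit 0, nat_lit 0, nat_lit 0, nat_lit 0, nat_lit 0, nat_lit 0, nat_lit 0, nat_lit 7723, nat_lit 4387, nat_lit 6038, nat_lit 5139, nat_lit 5096, nat_lit 2464, nat_lit 11350, nat_lit 7838, nat_lit 3137, nat_lit 4128, nat_lit 3171, nat_lit 3445, nat_lit 3363, nat_lit 5804, nat_lit 11815, nat_lit 9499, nat_lit 3679, nat_lit 5248, nat_lit 10110, nat_lit 7369, nat_lit 5652, nat_lit 4169, nat_lit 5305, nat_lit 10007, nat_lit 7972, nat_lit 5813, nat_lit 3455, nat_lit 4804, nat_lit 10287, nat_lit 796, nat_lit 646, nat_lit 7623, nat_lit 1858, nat_lit 8732, nat_lit 8400, nat_lit 10740, nat_lit 3104, nat_lit 2937, nat_lit 4931, nat_lit 8390, nat_lit 9018, nat_lit 6841, nat_lit 5616, nat_lit 6110, nat_lit 1257, nat_lit 55, nat_lit 1985, nat_lit 10637, nat_lit 3707, nat_lit 3098, nat_lit 3930, nat_lit 7906, nat_lit 1018, nat_lit 7937, nat_lit 6710, nat_lit 10546, nat_lit 2186], nat_lit 0, nat_lit 0),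
  ([nat_lit 0, nat_lit 6327, nat_lit 896, nat_lit 10703, nat_lit 198, nat_lit 2992, nat_lit 1266, nat_lit 10926, nat_lit 7945, nat_lit 3067, nat_lit 8460, nat_lit 7015, nat_lit 11255, nat_lit 2784, nat_lit 4932, nat_lit 4625, nat_lit 8232, nat_lit 3238, nat_lit 0, nat_lit 6130, nat_lit 8278, nat_lit 10704, nat_lit 10687, nat_lit 1759, nat_lit 6479, nat_lit 8614, nat_lit 4547, nat_lit 828, nat_lit 181, nat_lit 11294, nat_lit 11302, nat_lit 9553, nat_lit 3283, nat_lit 0, nat_lit 7678, nat_lit 7686, nat_lit 11058, nat_lit 5040, nat_lit 533, nat_lit 7820, nat_lit 5703, nat_lit 7968, nat_lit 6060, nat_lit 8892, nat_lit 7558, nat_lit 0, nat_lit 9144, nat_lit 95, nat_lit 5683, nat_lit 10467, nat_lit 7, nat_lit 10973, nat_lit 6660, nat_lit 11184, nat_lit 0, nat_lit 5344, nat_lit 9868, nat_lit 10327, nat_lit 2478, nat_lit 5202, nat_lit 0, nat_lit 2697, nat_lit 8291, nat_lit 0], nat_lit 0, nat_lit 0),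
  ([nat_lit 0, nat_lit 0, nat_lit 0, nat_lit 0, nat_lit 0, nat_lit 0, nat_lit 0, nat_lit 0, nat_lit 0, nat_lit 0, nat_lit 0, nat_lit 0, nat_lit 0, nat_lit 2109, nat_lit 8070, nat_lit 10430, nat_lit 5957, nat_lit 6536, nat_lit 9016, nat_lit 8929, nat_lit 4709, nat_lit 2538, nat_lit 11672, nat_lit 4338, nat_lit 8352, nat_lit 1166, nat_lit 6439, nat_lit 2330, nat_lit 3085, nat_lit 4592, nat_lit 5876, nat_lit 7933, nat_lit 10886, nat_lit 2137, nat_lit 2600, nat_lit 6349, nat_lit 1242, nat_lit 10262, nat_lit 11658, nat_lit 7073, nat_lit 5770, nat_lit 11668, nat_lit 8296, nat_lit 225, nat_lit 2720, nat_lit 7307, nat_lit 10975, nat_lit 7265, nat_lit 7299, nat_lit 5659, nat_lit 8742, nat_lit 9841, nat_lit 1306, nat_lit 2851, nat_lit 1724, nat_lit 6056, nat_lit 10109, nat_lit 10239, nat_lit 3384, nat_lit 3688, nat_lit 3164, nat_lit 11583, nat_lit 3214, nat_lit 9137], nat_lit 5853, nat_lit 3203),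
  ([nat_lit 0, nat_lit 0, nat_lit 0, nat_lit 0, nat_lit 0, nat_lit 0, nat_lit 0, nat_lit 1, nat_lit 7705, nat_lit 1950, nat_lit 862, nat_lit 11065, nat_lit 5711, nat_lit 10544, nat_lit 8437, nat_lit 7206, nat_lit 4138, nat_lit 8030, nat_lit 0, nat_lit 6761, nat_lit 9541, nat_lit 5092, nat_lit 4893, nat_lit 6613, nat_lit 1416, nat_lit 3522, nat_lit 4808, nat_lit 8730, nat_lit 8882, nat_lit 4855, nat_lit 5477, nat_lit 9094, nat_lit 2782, nat_lit 0, nat_lit 10626, nat_lit 6620, nat_lit 5193, nat_lit 6873, nat_lit 9899, nat_lit 7656, nat_lit 8306, nat_lit 2380, nat_lit 5361, nat_lit 3608, nat_lit 11121, nat_lit 0, nat_lit 10812, nat_lit 10325, nat_lit 1091, nat_lit 5862, nat_lit 7029, nat_lit 1378, nat_lit 10498, nat_lit 9687, nat_lit 0, nat_lit 6315, nat_lit 2190, nat_lit 7834, nat_lit 5490, nat_lit 10909, nat_lit 0, nat_lit 8293, nat_lit 9764, nat_lit 0], nat_lit 6406, nat_lit 4660),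
  ([nat_lit 0, nat_lit 11288, nat_lit 6400, nat_lit 3510, nat_lit 6506, nat_lit 435, nat_lit 8681, nat_lit 0, nat_lit 10288, nat_lit 11013, nat_lit 5237, nat_lit 6539, nat_lit 164, nat_lit 9069, nat_lit 11210, nat_lit 10607, nat_lit 10671, nat_lit 10913, nat_lit 0, nat_lit 3936, nat_lit 8210, nat_lit 6916, nat_lit 10091, nat_lit 11418, nat_lit 0, nat_lit 6366, nat_lit 1634, nat_lit 462, nat_lit 9892, nat_lit 2556, nat_lit 86, nat_lit 482, nat_lit 11257, nat_lit 0, nat_lit 3267, nat_lit 7376, nat_lit 778, nat_lit 7914, nat_lit 0, nat_lit 8055, nat_lit 8148, nat_lit 9095, nat_lit 1868, nat_lit 6682, nat_lit 4294, nat_lit 0, nat_lit 4061, nat_lit 9165, nat_lit 2149, nat_lit 0, nat_lit 30, nat_lit 9190, nat_lit 7817, nat_lit 1109, nat_lit 0, nat_lit 11874, nat_lit 897, nat_lit 0, nat_lit 10620, nat_lit 10826, nat_lit 0, nat_lit 9403, nat_lit 0, nat_lit 0], nat_lit 2330, nat_lit 2976),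
  ([nat_lit 1, nat_lit 4948, nat_lit 7844, nat_lit 8766, nat_lit 8518, nat_lit 5157, nat_lit 8329, nat_lit 8830, nat_lit 4403, nat_lit 8171, nat_lit 10946, nat_lit 7210, nat_lit 8318, nat_lit 5778, nat_lit 3858, nat_lit 8498, nat_lit 1245, nat_lit 5902, nat_lit 10753, nat_lit 2726, nat_lit 3313, nat_lit 8825, nat_lit 3425, nat_lit 4594, nat_lit 7919, nat_lit 11555, nat_lit 2768, nat_lit 9152, nat_lit 5605, nat_lit 5085, nat_lit 8503, nat_lit 2223, nat_lit 9479, nat_lit 1117, nat_lit 2251, nat_lit 5451, nat_lit 1678, nat_lit 9806, nat_lit 1880, nat_lit 11298, nat_lit 2399, nat_lit 1133, nat_lit 2643, nat_lit 8464, nat_lit 11228, nat_lit 11291, nat_lit 3406, nat_lit 5630, nat_lit 8176, nat_lit 6059, nat_lit 4169, nat_lit 2796, nat_lit 827, nat_lit 4932, nat_lit 184, nat_lit 7476, nat_lit 5695, nat_lit 8904, nat_lit 2244, nat_lit 5743, nat_lit 6306, nat_lit 2582, nat_lit 7614, nat_lit 3551], nat_lit 0, nat_lit 0),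
  ([nat_lit 0, nat_lit 0, nat_lit 0, nat_lit 0, nat_lit 0, nat_lit 0, nat_lit 0, nat_lit 8849, nat_lit 3367, nat_lit 2754, nat_lit 11166, nat_lit 2718, nat_lit 11253, nat_lit 2547, nat_lit 8696, nat_lit 6707, nat_lit 2603, nat_lit 640, nat_lit 10691, nat_lit 4856, nat_lit 4106, nat_lit 11859, nat_lit 9954, nat_lit 5647, nat_lit 5353, nat_lit 3895, nat_lit 1478, nat_lit 6329, nat_lit 9457, nat_lit 5465, nat_lit 11545, nat_lit 812, nat_lit 1998, nat_lit 11415, nat_lit 11027, nat_lit 4044, nat_lit 2108, nat_lit 10747, nat_lit 7268, nat_lit 10158, nat_lit 5154, nat_lit 5366, nat_lit 9879, nat_lit 2858, nat_lit 2994, nat_lit 4326, nat_lit 7367, nat_lit 1008, nat_lit 9445, nat_lit 7895, nat_lit 11613, nat_lit 4608, nat_lit 4161, nat_lit 10736, nat_lit 4484, nat_lit 5005, nat_lit 4736, nat_lit 6747, nat_lit 10427, nat_lit 1380, nat_lit 10133, nat_lit 264, nat_lit 7197, nat_lit 4150], nat_lit 0, nat_lit 0),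
  ([nat_lit 0, nat_lit 3271, nat_lit 5972, nat_lit 8054, nat_lit 7051, nat_lit 7165, nat_lit 8924, nat_lit 3657, nat_lit 292, nat_lit 9656, nat_lit 11359, nat_lit 2234, nat_lit 4627, nat_lit 9385, nat_lit 3199, nat_lit 5056, nat_lit 3001, nat_lit 6791, nat_lit 0, nat_lit 5303, nat_lit 111, nat_lit 4053, nat_lit 6742, nat_lit 8841, nat_lit 9492, nat_lit 3292, nat_lit 2909, nat_lit 6647, nat_lit 10701, nat_lit 11572, nat_lit 3352, nat_lit 11593, nat_lit 957, nat_lit 0, nat_lit 6240, nat_lit 5483, nat_lit 2401, nat_lit 10745, nat_lit 9686, nat_lit 5377, nat_lit 9685, nat_lit 10976, nat_lit 4003, nat_lit 8983, nat_lit 4077, nat_lit 0, nat_lit 6713, nat_lit 5177, nat_lit 540, nat_lit 4712, nat_lit 5935, nat_lit 5840, nat_lit 11277, nat_lit 1669, nat_lit 0, nat_lit 7814, nat_lit 5796, nat_lit 7552, nat_lit 6204, nat_lit 4095, nat_lit 0, nat_lit 1510, nat_lit 21, nat_lit 0], nat_lit 0, nat_lit 0),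
  ([nat_lit 0, nat_lit 0, nat_lit 0, nat_lit 0, nat_lit 0, nat_lit 0, nat_lit 0, nat_lit 0, nat_lit 0, nat_lit 0, nat_lit 0, nat_lit 0, nat_lit 0, nat_lit 9011, nat_lit 8916, nat_lit 2215, nat_lit 5538, nat_lit 4438, nat_lit 10971, nat_lit 219, nat_lit 2441, nat_lit 6972, nat_lit 6913, nat_lit 125, nat_lit 4393, nat_lit 6215, nat_lit 3792, nat_lit 2717, nat_lit 6305, nat_lit 9756, nat_lit 185, nat_lit 543, nat_lit 1658, nat_lit 11689, nat_lit 464, nat_lit 2839, nat_lit 4030, nat_lit 4122, nat_lit 2696, nat_lit 9326, nat_lit 11125, nat_lit 1827, nat_lit 10716, nat_lit 9746, nat_lit 10110, nat_lit 4147, nat_lit 869, nat_lit 10771, nat_lit 8623, nat_lit 960, nat_lit 9561, nat_lit 9567, nat_lit 8222, nat_lit 1912, nat_lit 2086, nat_lit 8820, nat_lit 2447, nat_lit 206, nat_lit 9403, nat_lit 3365, nat_lit 8814, nat_lit 8402, nat_lit 8080, nat_lit 3213], nat_lit 1964, nat_lit 2857),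
  ([nat_lit 0, nat_lit 0, nat_lit 0, nat_lit 0, nat_lit 0, nat_lit 0, nat_lit 0, nat_lit 1, nat_lit 7911, nat_lit 7384, nat_lit 4493, nat_lit 3805, nat_lit 11226, nat_lit 11558, nat_lit 8387, nat_lit 45, nat_lit 3192, nat_lit 11784, nat_lit 0, nat_lit 4478, nat_lit 10039, nat_lit 3707, nat_lit 9177, nat_lit 4208, nat_lit 7369, nat_lit 7973, nat_lit 9597, nat_lit 8451, nat_lit 11766, nat_lit 7904, nat_lit 3731, nat_lit 3791, nat_lit 4358, nat_lit 0, nat_lit 8363, nat_lit 9083, nat_lit 1232, nat_lit 5271, nat_lit 7819, nat_lit 3623, nat_lit 5717, nat_lit 10531, nat_lit 6318, nat_lit 442, nat_lit 10964, nat_lit 0, nat_lit 75, nat_lit 5578, nat_lit 6512, nat_lit 5981, nat_lit 5549, nat_lit 2027, nat_lit 2607, nat_lit 3556, nat_lit 0, nat_lit 6010, nat_lit 10555, nat_lit 2392, nat_lit 8560, nat_lit 11692, nat_lit 0, nat_lit 8934, nat_lit 5848, nat_lit 0], nat_lit 5714, nat_lit 6293),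
  ([nat_lit 0, nat_lit 2785, nat_lit 2981, nat_lit 4096, nat_lit 334, nat_lit 246, nat_lit 10845, nat_lit 0, nat_lit 7641, nat_lit 8141, nat_lit 2395, nat_lit 6469, nat_lit 2757, nat_lit 7524, nat_lit 8266, nat_lit 6640, nat_lit 3557, nat_lit 4913, nat_lit 0, nat_lit 6985, nat_lit 11636, nat_lit 1421, nat_lit 3440, nat_lit 7656, nat_lit 0, nat_lit 6558, nat_lit 965, nat_lit 7308, nat_lit 9783, nat_lit 7843, nat_lit 2537, nat_lit 6991, nat_lit 3482, nat_lit 0, nat_lit 9904, nat_lit 3097, nat_lit 1047, nat_lit 4767, nat_lit 0, nat_lit 4439, nat_lit 4532, nat_lit 1990, nat_lit 4441, nat_lit 1585, nat_lit 3136, nat_lit 0, nat_lit 8309, nat_lit 11479, nat_lit 7084, nat_lit 0, nat_lit 6590, nat_lit 8615, nat_lit 4334, nat_lit 6151, nat_lit 0, nat_lit 1557, nat_lit 1978, nat_lit 0, nat_lit 3986, nat_lit 6220, nat_lit 0, nat_lit 2092, nat_lit 0, nat_lit 0], nat_lit 9087, nat_lit 5121),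
  ([nat_lit 1, nat_lit 9401, nat_lit 7923, nat_lit 2134, nat_lit 6606, nat_lit 1019, nat_lit 3533, nat_lit 8207, nat_lit 10674, nat_lit 11229, nat_lit 1144, nat_lit 2439, nat_lit 10590, nat_lit 1460, nat_lit 2905, nat_lit 7367, nat_lit 2818, nat_lit 9269, nat_lit 55, nat_lit 6172, nat_lit 8049, nat_lit 10441, nat_lit 6900, nat_lit 8521, nat_lit 11788, nat_lit 4901, nat_lit 11664, nat_lit 3515, nat_lit 3454, nat_lit 9014, nat_lit 5322, nat_lit 1231, nat_lit 537, nat_lit 3025, nat_lit 6792, nat_lit 3098, nat_lit 3967, nat_lit 11189, nat_lit 6766, nat_lit 8173, nat_lit 11827, nat_lit 3229, nat_lit 8649, nat_lit 7566, nat_lit 8300, nat_lit 41, nat_lit 5249, nat_lit 4056, nat_lit 4327, nat_lit 3819, nat_lit 9918, nat_lit 8911, nat_lit 455, nat_lit 295, nat_lit 2255, nat_lit 3551, nat_lit 9222, nat_lit 8068, nat_lit 10845, nat_lit 1263, nat_lit 5215, nat_lit 5209, nat_lit 4143, nat_lit 1681], nat_lit 0, nat_lit 0),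
  ([nat_lit 0, nat_lit 0, nat_lit 0, nat_lit 0, nat_lit 0, nat_lit 0, nat_lit 0, nat_lit 10163, nat_lit 7242, nat_lit 3912, nat_lit 5017, nat_lit 9128, nat_lit 7746, nat_lit 6242, nat_lit 783, nat_lit 6644, nat_lit 1827, nat_lit 7582, nat_lit 10891, nat_lit 7714, nat_lit 9571, nat_lit 2158, nat_lit 6491, nat_lit 1075, nat_lit 2232, nat_lit 1186, nat_lit 5208, nat_lit 10688, nat_lit 271, nat_lit 2843, nat_lit 6674, nat_lit 10594, nat_lit 7652, nat_lit 9910, nat_lit 4989, nat_lit 7282, nat_lit 11641, nat_lit 1150, nat_lit 972, nat_lit 1283, nat_lit 2268, nat_lit 6954, nat_lit 683, nat_lit 5143, nat_lit 5554, nat_lit 9667, nat_lit 1698, nat_lit 6715, nat_lit 3962, nat_lit 8480, nat_lit 10851, nat_lit 11866, nat_lit 5613, nat_lit 4292, nat_lit 3974, nat_lit 5710, nat_lit 1352, nat_lit 389, nat_lit 9522, nat_lit 837, nat_lit 5890, nat_lit 6430, nat_lit 6226, nat_lit 8548], nat_lit 0, nat_lit 0),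
  ([nat_lit 0, nat_lit 3227, nat_lit 9668, nat_lit 10708, nat_lit 5514, nat_lit 3359, nat_lit 7418, nat_lit 1980, nat_lit 9574, nat_lit 8578, nat_lit 4364, nat_lit 9449, nat_lit 1243, nat_lit 5185, nat_lit 2986, nat_lit 8790, nat_lit 1863, nat_lit 6190, nat_lit 0, nat_lit 11151, nat_lit 8976, nat_lit 6771, nat_lit 6245, nat_lit 6530, nat_lit 1971, nat_lit 3806, nat_lit 8431, nat_lit 2400, nat_lit 8812, nat_lit 31, nat_lit 9777, nat_lit 8210, nat_lit 7417, nat_lit 0, nat_lit 7374, nat_lit 6559, nat_lit 4094, nat_lit 10807, nat_lit 1476, nat_lit 7353, nat_lit 346, nat_lit 1309, nat_lit 1705, nat_lit 3090, nat_lit 72, nat_lit 0, nat_lit 1616, nat_lit 4315, nat_lit 11312, nat_lit 9894, nat_lit 461, nat_lit 7149, nat_lit 10608, nat_lit 3616, nat_lit 0, nat_lit 5713, nat_lit 11586, nat_lit 9525, nat_lit 1593, nat_lit 1271, nat_lit 0, nat_lit 5309, nat_lit 1111, nat_lit 0], nat_lit 0, nat_lit 0),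
  ([nat_lit 0, nat_lit 0, nat_lit 0, nat_lit 0, nat_lit 0, nat_lit 0, nat_lit 0, nat_lit 0, nat_lit 0, nat_lit 0, nat_lit 0, nat_lit 0, nat_lit 0, nat_lit 5036, nat_lit 9532, nat_lit 3830, nat_lit 6400, nat_lit 1016, nat_lit 5940, nat_lit 1240, nat_lit 1979, nat_lit 10814, nat_lit 8578, nat_lit 5431, nat_lit 3674, nat_lit 1207, nat_lit 652, nat_lit 10737, nat_lit 9442, nat_lit 1527, nat_lit 3079, nat_lit 3563, nat_lit 3224, nat_lit 5803, nat_lit 8332, nat_lit 9580, nat_lit 3600, nat_lit 6512, nat_lit 6266, nat_lit 668, nat_lit 6700, nat_lit 5519, nat_lit 9419, nat_lit 10807, nat_lit 2176, nat_lit 5612, nat_lit 6772, nat_lit 5174, nat_lit 11841, nat_lit 8660, nat_lit 4048, nat_lit 405, nat_lit 9825, nat_lit 1931, nat_lit 11430, nat_lit 1666, nat_lit 2908, nat_lit 9758, nat_lit 1757, nat_lit 3000, nat_lit 2121, nat_lit 3203, nat_lit 4974, nat_lit 3649], nat_lit 6444, nat_lit 4974),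
  ([nat_lit 0, nat_lit 0, nat_lit 0, nat_lit 0, nat_lit 0, nat_lit 0, nat_lit 0, nat_lit 1, nat_lit 1961, nat_lit 7937, nat_lit 9459, nat_lit 2711, nat_lit 4423, nat_lit 9066, nat_lit 11692, nat_lit 1449, nat_lit 1406, nat_lit 8887, nat_lit 0, nat_lit 1259, nat_lit 4766, nat_lit 8813, nat_lit 6400, nat_lit 1270, nat_lit 220, nat_lit 3704, nat_lit 11514, nat_lit 1805, nat_lit 2370, nat_lit 10951, nat_lit 3715, nat_lit 3201, nat_lit 3229, nat_lit 0, nat_lit 7799, nat_lit 1496, nat_lit 7069, nat_lit 3021, nat_lit 9294, nat_lit 80, nat_lit 9230, nat_lit 4427, nat_lit 1327, nat_lit 6133, nat_lit 8425, nat_lit 0, nat_lit 7784, nat_lit 4610, nat_lit 6964, nat_lit 410, nat_lit 7983, nat_lit 10657, nat_lit 851, nat_lit 10845, nat_lit 0, nat_lit 4499, nat_lit 9359, nat_lit 5553, nat_lit 6437, nat_lit 165, nat_lit 0, nat_lit 9311, nat_lit 273, nat_lit 0], nat_lit 9948, nat_lit 11601),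
  ([nat_lit 0, nat_lit 6727, nat_lit 1701, nat_lit 10141, nat_lit 10335, nat_lit 7960, nat_lit 8919, nat_lit 0, nat_lit 6845, nat_lit 2281, nat_lit 6918, nat_lit 11848, nat_lit 3442, nat_lit 11551, nat_lit 9872, nat_lit 2202, nat_lit 11841, nat_lit 10758, nat_lit 0, nat_lit 1674, nat_lit 10388, nat_lit 11229, nat_lit 10018, nat_lit 10084, nat_lit 0, nat_lit 8164, nat_lit 6645, nat_lit 298, nat_lit 10066, nat_lit 5612, nat_lit 8315, nat_lit 2300, nat_lit 9681, nat_lit 0, nat_lit 8903, nat_lit 1052, nat_lit 11664, nat_lit 4464, nat_lit 0, nat_lit 9423, nat_lit 9045, nat_lit 4509, nat_lit 11635, nat_lit 5847, nat_lit 7690, nat_lit 0, nat_lit 2544, nat_lit 10336, nat_lit 11827, nat_lit 0, nat_lit 7382, nat_lit 10354, nat_lit 10232, nat_lit 798, nat_lit 0, nat_lit 9229, nat_lit 10073, nat_lit 0, nat_lit 2056, nat_lit 4353, nat_lit 0, nat_lit 8593, nat_lit 0, nat_lit 0], nat_lit 11741, nat_lit 7399),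
  ([nat_lit 1, nat_lit 10214, nat_lit 10616, nat_lit 5818, nat_lit 8171, nat_lit 6450, nat_lit 155, nat_lit 4990, nat_lit 10251, nat_lit 8342, nat_lit 6537, nat_lit 9579, nat_lit 11752, nat_lit 9405, nat_lit 4785, nat_lit 7437, nat_lit 6285, nat_lit 1947, nat_lit 10569, nat_lit 1000, nat_lit 8221, nat_lit 6267, nat_lit 8191, nat_lit 8753, nat_lit 11432, nat_lit 11861, nat_lit 9578, nat_lit 1538, nat_lit 2450, nat_lit 4999, nat_lit 7129, nat_lit 8838, nat_lit 11375, nat_lit 10480, nat_lit 6791, nat_lit 1996, nat_lit 11229, nat_lit 5713, nat_lit 6919, nat_lit 2478, nat_lit 3762, nat_lit 1914, nat_lit 11505, nat_lit 8980, nat_lit 400, nat_lit 8438, nat_lit 958, nat_lit 6949, nat_lit 11873, nat_lit 11237, nat_lit 4258, nat_lit 6752, nat_lit 6191, nat_lit 4192, nat_lit 2436, nat_lit 2490, nat_lit 7520, nat_lit 1377, nat_lit 9455, nat_lit 4012, nat_lit 11838, nat_lit 395, nat_lit 11169, nat_lit 8892], nat_lit 0, nat_lit 0),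
  ([nat_lit 0, nat_lit 0, nat_lit 0, nat_lit 0, nat_lit 0, nat_lit 0, nat_lit 0, nat_lit 5710, nat_lit 9992, nat_lit 498, nat_lit 1504, nat_lit 11604, nat_lit 10281, nat_lit 4524, nat_lit 2927, nat_lit 3782, nat_lit 4217, nat_lit 3813, nat_lit 11139, nat_lit 1290, nat_lit 31, nat_lit 7728, nat_lit 8309, nat_lit 2143, nat_lit 9683, nat_lit 4718, nat_lit 316, nat_lit 7873, nat_lit 4214, nat_lit 649, nat_lit 11169, nat_lit 10685, nat_lit 9605, nat_lit 10405, nat_lit 1125, nat_lit 1823, nat_lit 2595, nat_lit 10700, nat_lit 9064, nat_lit 2944, nat_lit 11086, nat_lit 6474, nat_lit 1558, nat_lit 4753, nat_lit 1376, nat_lit 5804, nat_lit 7747, nat_lit 398, nat_lit 1870, nat_lit 11488, nat_lit 1676, nat_lit 10024, nat_lit 5165, nat_lit 3670, nat_lit 1164, nat_lit 8096, nat_lit 784, nat_lit 7341, nat_lit 11864, nat_lit 11796, nat_lit 3881, nat_lit 5518, nat_lit 4131, nat_lit 1340], nat_lit 0, nat_lit 0),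
  ([nat_lit 0, nat_lit 7908, nat_lit 10548, nat_lit 546, nat_lit 10167, nat_lit 1307, nat_lit 8802, nat_lit 8844, nat_lit 5492, nat_lit 5932, nat_lit 1572, nat_lit 5542, nat_lit 2380, nat_lit 11052, nat_lit 3427, nat_lit 747, nat_lit 3102, nat_lit 758, nat_lit 0, nat_lit 8698, nat_lit 2389, nat_lit 8389, nat_lit 3259, nat_lit 7961, nat_lit 4409, nat_lit 6263, nat_lit 11152, nat_lit 4830, nat_lit 68, nat_lit 6477, nat_lit 6675, nat_lit 6059, nat_lit 5359, nat_lit 0, nat_lit 5865, nat_lit 2216, nat_lit 7319, nat_lit 1352, nat_lit 1439, nat_lit 4596, nat_lit 5968, nat_lit 7494, nat_lit 8972, nat_lit 10578, nat_lit 10862, nat_lit 0, nat_lit 4008, nat_lit 3453, nat_lit 9201, nat_lit 1111, nat_lit 5596, nat_lit 11444, nat_lit 2807, nat_lit 10553, nat_lit 0, nat_lit 4787, nat_lit 8206, nat_lit 3731, nat_lit 506, nat_lit 326, nat_lit 0, nat_lit 4505, nat_lit 11781, nat_lit 0], nat_lit 0, nat_lit 0),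
  ([nat_lit 0, nat_lit 0, nat_lit 0, nat_lit 0, nat_lit 0, nat_lit 0, nat_lit 0, nat_lit 0, nat_lit 0, nat_lit 0, nat_lit 0, nat_lit 0, nat_lit 0, nat_lit 2636, nat_lit 1758, nat_lit 4021, nat_lit 9758, nat_lit 10384, nat_lit 2770, nat_lit 4119, nat_lit 845, nat_lit 5224, nat_lit 365, nat_lit 9357, nat_lit 9394, nat_lit 11241, nat_lit 9471, nat_lit 1692, nat_lit 7114, nat_lit 1271, nat_lit 7942, nat_lit 8001, nat_lit 4696, nat_lit 6730, nat_lit 8635, nat_lit 5227, nat_lit 7245, nat_lit 5562, nat_lit 2663, nat_lit 4273, nat_lit 5509, nat_lit 510, nat_lit 7216, nat_lit 6381, nat_lit 8249, nat_lit 4280, nat_lit 5721, nat_lit 3536, nat_lit 10345, nat_lit 11774, nat_lit 154, nat_lit 4664, nat_lit 2194, nat_lit 1950, nat_lit 2040, nat_lit 9167, nat_lit 9458, nat_lit 2544, nat_lit 669, nat_lit 6594, nat_lit 11563, nat_lit 7342, nat_lit 7679, nat_lit 8462], nat_lit 4744, nat_lit 4543),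
  ([nat_lit 0, nat_lit 0, nat_lit 0, nat_lit 0, nat_lit 0, nat_lit 0, nat_lit 0, nat_lit 1, nat_lit 5213, nat_lit 3026, nat_lit 10656, nat_lit 11175, nat_lit 8152, nat_lit 8079, nat_lit 7462, nat_lit 2781, nat_lit 1242, nat_lit 6830, nat_lit 0, nat_lit 1478, nat_lit 2963, nat_lit 10703, nat_lit 521, nat_lit 4448, nat_lit 6633, nat_lit 4119, nat_lit 4449, nat_lit 1179, nat_lit 10097, nat_lit 7391, nat_lit 11381, nat_lit 2928, nat_lit 1423, nat_lit 0, nat_lit 6815, nat_lit 7143, nat_lit 2012, nat_lit 11092, nat_lit 2074, nat_lit 52, nat_lit 2756, nat_lit 1884, nat_lit 3775, nat_lit 4072, nat_lit 3148, nat_lit 0, nat_lit 1729, nat_lit 9680, nat_lit 8638, nat_lit 1213, nat_lit 2677, nat_lit 11190, nat_lit 9594, nat_lit 8451, nat_lit 0, nat_lit 9018, nat_lit 4799, nat_lit 7906, nat_lit 10670, nat_lit 2913, nat_lit 0, nat_lit 2325, nat_lit 11193, nat_lit 0], nat_lit 9086, nat_lit 10053),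
  ([nat_lit 0, nat_lit 5249, nat_lit 7308, nat_lit 6047, nat_lit 4216, nat_lit 6558, nat_lit 4701, nat_lit 0, nat_lit 1691, nat_lit 1031, nat_lit 1928, nat_lit 10010, nat_lit 3041, nat_lit 3713, nat_lit 4300, nat_lit 8210, nat_lit 10989, nat_lit 6499, nat_lit 0, nat_lit 4292, nat_lit 11752, nat_lit 2844, nat_lit 5154, nat_lit 9629, nat_lit 0, nat_lit 3155, nat_lit 1762, nat_lit 1117, nat_lit 7266, nat_lit 11635, nat_lit 1875, nat_lit 4547, nat_lit 5966, nat_lit 0, nat_lit 490, nat_lit 2914, nat_lit 11187, nat_lit 10122, nat_lit 0, nat_lit 7109, nat_lit 5051, nat_lit 7740, nat_lit 1965, nat_lit 11248, nat_lit 10479, nat_lit 0, nat_lit 10575, nat_lit 2514, nat_lit 7572, nat_lit 0, nat_lit 11458, nat_lit 2686, nat_lit 97, nat_lit 10707, nat_lit 0, nat_lit 2608, nat_lit 4550, nat_lit 0, nat_lit 8450, nat_lit 3427, nat_lit 0, nat_lit 32, nat_lit 0, nat_lit 0], nat_lit 10967, nat_lit 8445),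
  ([nat_lit 1, nat_lit 9148, nat_lit 8021, nat_lit 10933, nat_lit 826, nat_lit 11813, nat_lit 7629, nat_lit 6864, nat_lit 787, nat_lit 11471, nat_lit 3716, nat_lit 2427, nat_lit 8488, nat_lit 6331, nat_lit 7994, nat_lit 1557, nat_lit 9998, nat_lit 1766, nat_lit 11135, nat_lit 7167, nat_lit 4358, nat_lit 6229, nat_lit 1616, nat_lit 3204, nat_lit 167, nat_lit 6948, nat_lit 8835, nat_lit 8018, nat_lit 7251, nat_lit 5712, nat_lit 738, nat_lit 2816, nat_lit 2760, nat_lit 9990, nat_lit 11749, nat_lit 4326, nat_lit 10518, nat_lit 6326, nat_lit 6109, nat_lit 8789, nat_lit 3045, nat_lit 6596, nat_lit 4127, nat_lit 7859, nat_lit 2201, nat_lit 8728, nat_lit 3424, nat_lit 4436, nat_lit 6913, nat_lit 4990, nat_lit 1718, nat_lit 9582, nat_lit 10318, nat_lit 6400, nat_lit 11581, nat_lit 111, nat_lit 5543, nat_lit 8094, nat_lit 1520, nat_lit 1660, nat_lit 9942, nat_lit 361, nat_lit 9305, nat_lit 8893], nat_lit 0, nat_lit 0),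
  ([nat_lit 0, nat_lit 0, nat_lit 0, nat_lit 0, nat_lit 0, nat_lit 0, nat_lit 0, nat_lit 11573, nat_lit 10094, nat_lit 780, nat_lit 6840, nat_lit 6974, nat_lit 9063, nat_lit 1412, nat_lit 2329, nat_lit 3059, nat_lit 3977, nat_lit 1974, nat_lit 5127, nat_lit 7489, nat_lit 3526, nat_lit 10814, nat_lit 5266, nat_lit 7794, nat_lit 4235, nat_lit 9720, nat_lit 1156, nat_lit 998, nat_lit 5096, nat_lit 4202, nat_lit 4861, nat_lit 9726, nat_lit 8520, nat_lit 1880, nat_lit 6433, nat_lit 2491, nat_lit 11791, nat_lit 8350, nat_lit 1813, nat_lit 11329, nat_lit 11610, nat_lit 4021, nat_lit 651, nat_lit 2967, nat_lit 5912, nat_lit 11098, nat_lit 1359, nat_lit 4606, nat_lit 5662, nat_lit 4463, nat_lit 4408, nat_lit 270, nat_lit 543, nat_lit 1106, nat_lit 6559, nat_lit 2682, nat_lit 671, nat_lit 1219, nat_lit 7034, nat_lit 5050, nat_lit 8388, nat_lit 5926, nat_lit 3068, nat_lit 6983], nat_lit 0, nat_lit 0),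
  ([nat_lit 0, nat_lit 11329, nat_lit 11339, nat_lit 182, nat_lit 2128, nat_lit 1392, nat_lit 11358, nat_lit 1675, nat_lit 9402, nat_lit 8110, nat_lit 5897, nat_lit 10197, nat_lit 7274, nat_lit 4665, nat_lit 9051, nat_lit 6903, nat_lit 8978, nat_lit 3160, nat_lit 0, nat_lit 7838, nat_lit 378, nat_lit 6800, nat_lit 4566, nat_lit 7096, nat_lit 9836, nat_lit 7779, nat_lit 9250, nat_lit 8689, nat_lit 8759, nat_lit 1043, nat_lit 8243, nat_lit 6716, nat_lit 3296, nat_lit 0, nat_lit 10185, nat_lit 3156, nat_lit 387, nat_lit 3611, nat_lit 4802, nat_lit 6675, nat_lit 2361, nat_lit 5032, nat_lit 6068, nat_lit 5080, nat_lit 3646, nat_lit 0, nat_lit 5830, nat_lit 9943, nat_lit 8323, nat_lit 5770, nat_lit 10470, nat_lit 8963, nat_lit 11814, nat_lit 359, nat_lit 0, nat_lit 11147, nat_lit 8147, nat_lit 8383, nat_lit 7078, nat_lit 2458, nat_lit 0, nat_lit 1038, nat_lit 7569, nat_lit 0], nat_lit 0, nat_lit 0),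
  ([nat_lit 0, nat_lit 0, nat_lit 0, nat_lit 0, nat_lit 0, nat_lit 0, nat_lit 0, nat_lit 0, nat_lit 0, nat_lit 0, nat_lit 0, nat_lit 0, nat_lit 0, nat_lit 11697, nat_lit 3870, nat_lit 9261, nat_lit 8098, nat_lit 2469, nat_lit 5025, nat_lit 1111, nat_lit 5173, nat_lit 581, nat_lit 4181, nat_lit 2849, nat_lit 2114, nat_lit 8485, nat_lit 2207, nat_lit 3817, nat_lit 11538, nat_lit 6325, nat_lit 630, nat_lit 955, nat_lit 3805, nat_lit 4968, nat_lit 2439, nat_lit 11335, nat_lit 7093, nat_lit 4623, nat_lit 5011, nat_lit 3730, nat_lit 11689, nat_lit 1972, nat_lit 12, nat_lit 2847, nat_lit 1204, nat_lit 6538, nat_lit 670, nat_lit 10445, nat_lit 3858, nat_lit 5839, nat_lit 10077, nat_lit 11598, nat_lit 7875, nat_lit 5997, nat_lit 628, nat_lit 6421, nat_lit 11525, nat_lit 9268, nat_lit 848, nat_lit 9418, nat_lit 1021, nat_lit 1642, nat_lit 4908, nat_lit 5600], nat_lit 7683, nat_lit 10528),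
  ([nat_lit 0, nat_lit 0, nat_lit 0, nat_lit 0, nat_lit 0, nat_lit 0, nat_lit 0, nat_lit 1, nat_lit 949, nat_lit 8623, nat_lit 2401, nat_lit 10738, nat_lit 10793, nat_lit 3694, nat_lit 7870, nat_lit 5321, nat_lit 10466, nat_lit 8551, nat_lit 0, nat_lit 9455, nat_lit 1320, nat_lit 6396, nat_lit 3498, nat_lit 8184, nat_lit 8897, nat_lit 7743, nat_lit 3214, nat_lit 11540, nat_lit 865, nat_lit 1670, nat_lit 7366, nat_lit 8851, nat_lit 1393, nat_lit 0, nat_lit 7768, nat_lit 2806, nat_lit 9492, nat_lit 8624, nat_lit 10525, nat_lit 8185, nat_lit 9997, nat_lit 11519, nat_lit 2696, nat_lit 7011, nat_lit 4784, nat_lit 0, nat_lit 4500, nat_lit 8551, nat_lit 66, nat_lit 4113, nat_lit 6269, nat_lit 1614, nat_lit 2851, nat_lit 11323, nat_lit 0, nat_lit 3137, nat_lit 9322, nat_lit 7981, nat_lit 5772, nat_lit 893, nat_lit 0, nat_lit 3414, nat_lit 4619, nat_lit 0], nat_lit 9175, nat_lit 6391),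
  ([nat_lit 0, nat_lit 10957, nat_lit 8838, nat_lit 4318, nat_lit 11843, nat_lit 7529, nat_lit 8443, nat_lit 0, nat_lit 4236, nat_lit 6633, nat_lit 3482, nat_lit 650, nat_lit 11511, nat_lit 1709, nat_lit 9122, nat_lit 5187, nat_lit 240, nat_lit 1322, nat_lit 0, nat_lit 206, nat_lit 807, nat_lit 10404, nat_lit 4586, nat_lit 3079, nat_lit 0, nat_lit 290, nat_lit 6159, nat_lit 4367, nat_lit 2221, nat_lit 8234, nat_lit 2801, nat_lit 3704, nat_lit 11056, nat_lit 0, nat_lit 777, nat_lit 3909, nat_lit 8790, nat_lit 572, nat_lit 0, nat_lit 9399, nat_lit 3333, nat_lit 9493, nat_lit 11794, nat_lit 1510, nat_lit 5089, nat_lit 0, nat_lit 2527, nat_lit 6612, nat_lit 972, nat_lit 0, nat_lit 10017, nat_lit 8592, nat_lit 5497, nat_lit 2235, nat_lit 0, nat_lit 3937, nat_lit 9944, nat_lit 0, nat_lit 467, nat_lit 10064, nat_lit 0, nat_lit 9486, nat_lit 0, nat_lit 0], nat_lit 9136, nat_lit 2345),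
  ([nat_lit 1, nat_lit 5454, nat_lit 7973, nat_lit 282, nat_lit 5379, nat_lit 2877, nat_lit 8238, nat_lit 9571, nat_lit 7001, nat_lit 9801, nat_lit 2035, nat_lit 2036, nat_lit 7490, nat_lit 1531, nat_lit 9612, nat_lit 4876, nat_lit 4026, nat_lit 1716, nat_lit 5560, nat_lit 3928, nat_lit 1869, nat_lit 11509, nat_lit 2763, nat_lit 4294, nat_lit 11642, nat_lit 3404, nat_lit 7294, nat_lit 3888, nat_lit 9448, nat_lit 5564, nat_lit 1982, nat_lit 9999, nat_lit 756, nat_lit 11119, nat_lit 2402, nat_lit 7646, nat_lit 10855, nat_lit 147, nat_lit 1832, nat_lit 11688, nat_lit 4787, nat_lit 5741, nat_lit 9597, nat_lit 6233, nat_lit 3241, nat_lit 4797, nat_lit 876, nat_lit 1542, nat_lit 10201, nat_lit 3903, nat_lit 8091, nat_lit 2280, nat_lit 1749, nat_lit 10484, nat_lit 10356, nat_lit 11231, nat_lit 7319, nat_lit 5974, nat_lit 4494, nat_lit 5782, nat_lit 4034, nat_lit 9705, nat_lit 8045, nat_lit 9593], nat_lit 0, nat_lit 0),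
  ([nat_lit 0, nat_lit 0, nat_lit 0, nat_lit 0, nat_lit 0, nat_lit 0, nat_lit 0, nat_lit 960, nat_lit 8200, nat_lit 2716, nat_lit 9338, nat_lit 7486, nat_lit 5528, nat_lit 8294, nat_lit 4509, nat_lit 10297, nat_lit 10232, nat_lit 271, nat_lit 11121, nat_lit 1429, nat_lit 11711, nat_lit 11419, nat_lit 10905, nat_lit 11465, nat_lit 243, nat_lit 6531, nat_lit 836, nat_lit 9121, nat_lit 187, nat_lit 5257, nat_lit 2825, nat_lit 9774, nat_lit 9230, nat_lit 8072, nat_lit 5583, nat_lit 10560, nat_lit 7033, nat_lit 6114, nat_lit 71, nat_lit 7042, nat_lit 7676, nat_lit 8141, nat_lit 2656, nat_lit 2885, nat_lit 4346, nat_lit 2734, nat_lit 581, nat_lit 8428, nat_lit 10604, nat_lit 444, nat_lit 9733, nat_lit 11355, nat_lit 491, nat_lit 4689, nat_lit 6988, nat_lit 10185, nat_lit 5315, nat_lit 1362, nat_lit 2723, nat_lit 10643, nat_lit 8953, nat_lit 10633, nat_lit 2825, nat_lit 8629], nat_lit 0, nat_lit 0),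
  ([nat_lit 0, nat_lit 8408, nat_lit 5025, nat_lit 1265, nat_lit 3186, nat_lit 2087, nat_lit 600, nat_lit 1854, nat_lit 3940, nat_lit 1965, nat_lit 640, nat_lit 11067, nat_lit 2105, nat_lit 721, nat_lit 5248, nat_lit 4397, nat_lit 1457, nat_lit 11609, nat_lit 0, nat_lit 8626, nat_lit 6769, nat_lit 11729, nat_lit 11470, nat_lit 7864, nat_lit 7413, nat_lit 9717, nat_lit 6761, nat_lit 5981, nat_lit 821, nat_lit 4863, nat_lit 11025, nat_lit 8103, nat_lit 9959, nat_lit 0, nat_lit 8844, nat_lit 8513, nat_lit 10312, nat_lit 7873, nat_lit 1091, nat_lit 3613, nat_lit 11557, nat_lit 11322, nat_lit 9005, nat_lit 4921, nat_lit 11809, nat_lit 0, nat_lit 9062, nat_lit 10257, nat_lit 8895, nat_lit 6650, nat_lit 9390, nat_lit 4472, nat_lit 1266, nat_lit 10698, nat_lit 0, nat_lit 9280, nat_lit 120, nat_lit 328, nat_lit 3286, nat_lit 5408, nat_lit 0, nat_lit 9498, nat_lit 5887, nat_lit 0], nat_lit 0, nat_lit 0),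
  ([nat_lit 0, nat_lit 0, nat_lit 0, nat_lit 0, nat_lit 0, nat_lit 0, nat_lit 0, nat_lit 0, nat_lit 0, nat_lit 0, nat_lit 0, nat_lit 0, nat_lit 0, nat_lit 6763, nat_lit 6778, nat_lit 5421, nat_lit 6206, nat_lit 10436, nat_lit 5562, nat_lit 2955, nat_lit 5934, nat_lit 192, nat_lit 1640, nat_lit 10048, nat_lit 2163, nat_lit 11050, nat_lit 6268, nat_lit 4035, nat_lit 3278, nat_lit 1031, nat_lit 3361, nat_lit 10392, nat_lit 5598, nat_lit 4266, nat_lit 3766, nat_lit 9396, nat_lit 3031, nat_lit 4603, nat_lit 9478, nat_lit 10662, nat_lit 4934, nat_lit 11452, nat_lit 11258, nat_lit 124, nat_lit 10960, nat_lit 3633, nat_lit 8755, nat_lit 31, nat_lit 2740, nat_lit 6576, nat_lit 8646, nat_lit 11476, nat_lit 3763, nat_lit 4915, nat_lit 11184, nat_lit 482, nat_lit 3127, nat_lit 1850, nat_lit 2931, nat_lit 4270, nat_lit 10678, nat_lit 9031, nat_lit 3693, nat_lit 9636], nat_lit 1577, nat_lit 248),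
  ([nat_lit 0, nat_lit 0, nat_lit 0, nat_lit 0, nat_lit 0, nat_lit 0, nat_lit 0, nat_lit 1, nat_lit 9935, nat_lit 8287, nat_lit 2820, nat_lit 10522, nat_lit 10389, nat_lit 2641, nat_lit 10605, nat_lit 2363, nat_lit 9127, nat_lit 9484, nat_lit 0, nat_lit 1898, nat_lit 6682, nat_lit 961, nat_lit 2364, nat_lit 5934, nat_lit 10359, nat_lit 3443, nat_lit 4808, nat_lit 8882, nat_lit 1104, nat_lit 9491, nat_lit 1933, nat_lit 6616, nat_lit 11863, nat_lit 0, nat_lit 5104, nat_lit 66, nat_lit 5301, nat_lit 6908, nat_lit 6547, nat_lit 7851, nat_lit 6343, nat_lit 11347, nat_lit 5550, nat_lit 4161, nat_lit 9343, nat_lit 0, nat_lit 9618, nat_lit 3914, nat_lit 1139, nat_lit 446, nat_lit 11278, nat_lit 1011, nat_lit 2699, nat_lit 5408, nat_lit 0, nat_lit 3559, nat_lit 6345, nat_lit 3937, nat_lit 1843, nat_lit 938, nat_lit 0, nat_lit 10689, nat_lit 5139, nat_lit 0], nat_lit 496, nat_lit 11806),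
  ([nat_lit 0, nat_lit 2880, nat_lit 4190, nat_lit 2728, nat_lit 10377, nat_lit 1884, nat_lit 2233, nat_lit 0, nat_lit 1120, nat_lit 5761, nat_lit 3, nat_lit 6975, nat_lit 4379, nat_lit 3707, nat_lit 803, nat_lit 6334, nat_lit 3411, nat_lit 9998, nat_lit 0, nat_lit 9093, nat_lit 9640, nat_lit 7524, nat_lit 1984, nat_lit 7879, nat_lit 0, nat_lit 1556, nat_lit 11865, nat_lit 4799, nat_lit 1416, nat_lit 9266, nat_lit 9305, nat_lit 1756, nat_lit 3084, nat_lit 0, nat_lit 3425, nat_lit 3209, nat_lit 439, nat_lit 5472, nat_lit 0, nat_lit 1992, nat_lit 6088, nat_lit 9595, nat_lit 2944, nat_lit 5926, nat_lit 9059, nat_lit 0, nat_lit 9638, nat_lit 8659, nat_lit 5235, nat_lit 0, nat_lit 2428, nat_lit 311, nat_lit 8503, nat_lit 2547, nat_lit 0, nat_lit 3970, nat_lit 2228, nat_lit 0, nat_lit 2864, nat_lit 2181, nat_lit 0, nat_lit 10183, nat_lit 0, nat_lit 0], nat_lit 5903, nat_lit 4745)]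

/-- columns of the approximate inverse -/
def MD : List (List ℕ × List ℕ × List ℕ) := [
  ([nat_lit 0, nat_lit 2498, nat_lit 7494, nat_lit 2503, nat_lit 5251, nat_lit 10204, nat_lit 11639, nat_lit 405, nat_lit 10226, nat_lit 5837, nat_lit 11651, nat_lit 9108, nat_lit 659, nat_lit 6890, nat_lit 2441, nat_lit 10569, nat_lit 7588, nat_lit 4576, nat_lit 7150, nat_lit 4315, nat_lit 9315, nat_lit 2566, nat_lit 6334, nat_lit 7953, nat_lit 1459, nat_lit 139, nat_lit 8905, nat_lit 11731, nat_lit 1998, nat_lit 10220, nat_lit 10507, nat_lit 3082, nat_lit 10391, nat_lit 6211, nat_lit 10936, nat_lit 3085, nat_lit 166, nat_lit 3660, nat_lit 5041, nat_lit 11100, nat_lit 8601, nat_lit 171, nat_lit 2682, nat_lit 6252, nat_lit 888, nat_lit 11496, nat_lit 4031, nat_lit 11649, nat_lit 5350, nat_lit 6753, nat_lit 11485, nat_lit 9642, nat_lit 6685, nat_lit 8791, nat_lit 11120, nat_lit 7029, nat_lit 718, nat_lit 3819, nat_lit 3801, nat_lit 10263,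 nat_lit 7005, nat_lit 8583, nat_lit 9558, nat_lit 8463],
   [nat_lit 0, nat_lit 0, nat_lit 5967, nat_lit 11554, nat_lit 8720, nat_lit 5804, nat_lit 776, nat_lit 2092, nat_lit 9956, nat_lit 5881, nat_lit 6842, nat_lit 3924, nat_lit 10259, nat_lit 10130, nat_lit 4703],
   [nat_lit 0, nat_lit 11101, nat_lit 10403, nat_lit 6664, nat_lit 8518, nat_lit 848, nat_lit 6648, nat_lit 5718, nat_lit 9156, nat_lit 3477, nat_lit 9737, nat_lit 5839, nat_lit 9032, nat_lit 2618, nat_lit 10944]),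
  ([nat_lit 0, nat_lit 5510, nat_lit 8137, nat_lit 608, nat_lit 11500, nat_lit 5512, nat_lit 1359, nat_lit 2096, nat_lit 5547, nat_lit 5813, nat_lit 5203, nat_lit 3590, nat_lit 9050, nat_lit 11546, nat_lit 8070, nat_lit 8020, nat_lit 6929, nat_lit 8479, nat_lit 9631, nat_lit 7603, nat_lit 8641, nat_lit 842, nat_lit 7005, nat_lit 2570, nat_lit 9203, nat_lit 5904, nat_lit 4253, nat_lit 9175, nat_lit 1068, nat_lit 10819, nat_lit 7525, nat_lit 2961, nat_lit 7172, nat_lit 1067, nat_lit 7281, nat_lit 2614, nat_lit 1364, nat_lit 10262, nat_lit 365, nat_lit 10693, nat_lit 5553, nat_lit 4964, nat_lit 7626, nat_lit 67, nat_lit 1274, nat_lit 96, nat_lit 304, nat_lit 493, nat_lit 2120, nat_lit 11224, nat_lit 787, nat_lit 7769, nat_lit 10987, nat_lit 5340, nat_lit 4056, nat_lit 6768, nat_lit 10437, nat_lit 1681, nat_lit 10303, nat_lit 5046, nat_lit 2132, nat_lit 3493, nat_lit 4732, nat_lit 3530],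
   [nat_lit 0, nat_lit 0, nat_lit 4147, nat_lit 11445, nat_lit 4033, nat_lit 7123, nat_lit 8815, nat_lit 1604, nat_lit 6584, nat_lit 8063, nat_lit 5871, nat_lit 1090, nat_lit 10014, nat_lit 8912, nat_lit 4217],
   [nat_lit 0, nat_lit 6835, nat_lit 8073, nat_lit 10146, nat_lit 10321, nat_lit 10515, nat_lit 6801, nat_lit 6570, nat_lit 10900, nat_lit 7449, nat_lit 741, nat_lit 10305, nat_lit 11000, nat_lit 5255, nat_lit 4321]),
  ([nat_lit 0, nat_lit 8675, nat_lit 301, nat_lit 4885, nat_lit 1730, nat_lit 4477, nat_lit 10017, nat_lit 10636, nat_lit 5023, nat_lit 3897, nat_lit 11603, nat_lit 10224, nat_lit 5039, nat_lit 8726, nat_lit 4575, nat_lit 3032, nat_lit 5567, nat_lit 1298, nat_lit 1851, nat_lit 11329, nat_lit 9951, nat_lit 10432, nat_lit 6055, nat_lit 7283, nat_lit 10347, nat_lit 5382, nat_lit 8119, nat_lit 7425, nat_lit 6502, nat_lit 2159, nat_lit 9698, nat_lit 10069, nat_lit 5303, nat_lit 8165, nat_lit 6175, nat_lit 4089,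 nat_lit 11512, nat_lit 4457, nat_lit 7874, nat_lit 3289, nat_lit 7907, nat_lit 10447, nat_lit 7742, nat_lit 11531, nat_lit 4549, nat_lit 7340, nat_lit 9473, nat_lit 8650, nat_lit 11708, nat_lit 10766, nat_lit 5432, nat_lit 2212, nat_lit 1488, nat_lit 5914, nat_lit 10583, nat_lit 6914, nat_lit 5116, nat_lit 5906, nat_lit 4508, nat_lit 2919, nat_lit 4723, nat_lit 7708, nat_lit 8550, nat_lit 1113],
   [nat_lit 0, nat_lit 0, nat_lit 3457, nat_lit 2507, nat_lit 4033, nat_lit 6784, nat_lit 6714, nat_lit 3593, nat_lit 1711, nat_lit 6188, nat_lit 7505, nat_lit 5014, nat_lit 2572, nat_lit 1273, nat_lit 1606],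
   [nat_lit 0, nat_lit 4929, nat_lit 3946, nat_lit 1601, nat_lit 516, nat_lit 10671, nat_lit 8606, nat_lit 1667, nat_lit 2725, nat_lit 11390, nat_lit 4322, nat_lit 10447, nat_lit 1560, nat_lit 8512, nat_lit 3926]),
  ([nat_lit 0, nat_lit 9939, nat_lit 2894, nat_lit 2637, nat_lit 1944, nat_lit 3109, nat_lit 9718, nat_lit 10654, nat_lit 6536, nat_lit 7424, nat_lit 9546, nat_lit 11370, nat_lit 3162, nat_lit 9880, nat_lit 10320, nat_lit 3509, nat_lit 3436, nat_lit 7695, nat_lit 558, nat_lit 1953, nat_lit 6550, nat_lit 9037, nat_lit 8330, nat_lit 2419, nat_lit 52, nat_lit 6001, nat_lit 4615, nat_lit 515, nat_lit 5261, nat_lit 7930, nat_lit 9448, nat_lit 10688, nat_lit 3626, nat_lit 6496, nat_lit 4498, nat_lit 6503, nat_lit 10301, nat_lit 9125, nat_lit 8006, nat_lit 10722, nat_lit 870, nat_lit 4852, nat_lit 9300, nat_lit 7507, nat_lit 5257, nat_lit 11368, nat_lit 9439, nat_lit 6559, nat_lit 743, nat_lit 8174, nat_lit 880, nat_lit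 8839, nat_lit 2754, nat_lit 1344, nat_lit 10617, nat_lit 10976, nat_lit 1517, nat_lit 7173, nat_lit 564, nat_lit 6042, nat_lit 5107, nat_lit 11156, nat_lit 9280, nat_lit 8298],
   [nat_lit 0, nat_lit 0, nat_lit 147, nat_lit 10682, nat_lit 436, nat_lit 5390, nat_lit 1376, nat_lit 6348, nat_lit 11605, nat_lit 7629, nat_lit 5336, nat_lit 981, nat_lit 1594, nat_lit 4424, nat_lit 6238],
   [nat_lit 0, nat_lit 8019, nat_lit 3127, nat_lit 8505, nat_lit 2968, nat_lit 7647, nat_lit 9679, nat_lit 119, nat_lit 8938, nat_lit 2374, nat_lit 5588, nat_lit 1800, nat_lit 4139, nat_lit 5058, nat_lit 641]),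
  ([nat_lit 0, nat_lit 531, nat_lit 6498, nat_lit 9174, nat_lit 2040, nat_lit 1715, nat_lit 1198, nat_lit 2701, nat_lit 2379, nat_lit 5725, nat_lit 1035, nat_lit 5666, nat_lit 3956, nat_lit 11723, nat_lit 8690, nat_lit 454, nat_lit 10326, nat_lit 4260, nat_lit 9463, nat_lit 7124, nat_lit 1628, nat_lit 2950, nat_lit 11827, nat_lit 8411, nat_lit 10166, nat_lit 4661, nat_lit 11430, nat_lit 3727, nat_lit 4961, nat_lit 7093, nat_lit 11851, nat_lit 3680, nat_lit 1800, nat_lit 10364, nat_lit 4525, nat_lit 6337, nat_lit 2305, nat_lit 7728, nat_lit 2767, nat_lit 1062, nat_lit 2770, nat_lit 9967, nat_lit 4499, nat_lit 5874, nat_lit 37, nat_lit 5275, nat_lit 9928, nat_lit 3442, nat_lit 8625, nat_lit 7816, nat_lit 2218, nat_lit 11220, nat_lit 274, nat_lit 5730, nat_lit 5659, nat_lit 9626, nat_lit 5489, nat_lit 5432, nat_lit 3769, nat_lit 4229, nat_lit 6682, nat_lit 1652, nat_lit 11489, nat_lit 2955],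
   [nat_lit 0, nat_lit 0, nat_lit 4922, nat_lit 8066, nat_lit 109, nat_lit 151, nat_lit 868, nat_lit 1486, nat_lit 2831, nat_lit 11086, nat_lit 9323, nat_lit 654, nat_lit 214, nat_lit 1394, nat_lit 5051],
   [nat_lit 0, nat_lit 7652, nat_lit 5779, nat_lit 7290, nat_lit 1563, nat_lit 3051, nat_lit 9542, nat_lit 7950, nat_lit 3924, nat_lit 4355, nat_lit 6596, nat_lit 6697, nat_lit 1648, nat_lit 5986, nat_lit 7868]),
  ([nat_lit 0, nat_lit 6056, nat_lit 10429, nat_lit 10043, nat_lit 7586, nat_lit 10131, nat_lit 4450, nat_lit 11207, nat_lit 1710, nat_lit 5552, nat_lit 3860, nat_lit 3014, nat_lit 7693, nat_lit 6808, nat_lit 7714, nat_lit 2740, nat_lit 10022, nat_lit 4095, nat_lit 11065, nat_lit 2921, nat_lit 7715, nat_lit 10488, nat_lit 6168, nat_lit 9062, nat_lit 1423, nat_lit 1904, nat_lit 6800, nat_lit 8574, nat_lit 2917, nat_lit 10071, nat_lit 3027, nat_lit 8444, nat_lit 9457, nat_lit 1915, nat_lit 4770, nat_lit 11294, nat_lit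 1176, nat_lit 1426, nat_lit 10390, nat_lit 2738, nat_lit 9575, nat_lit 5163, nat_lit 3513, nat_lit 9364, nat_lit 3755, nat_lit 5940, nat_lit 7583, nat_lit 2069, nat_lit 2228, nat_lit 2335, nat_lit 4973, nat_lit 2919, nat_lit 2263, nat_lit 7936, nat_lit 9421, nat_lit 11219, nat_lit 9570, nat_lit 2274, nat_lit 761, nat_lit 7975, nat_lit 8584, nat_lit 5882, nat_lit 7921, nat_lit 3062],
   [nat_lit 0, nat_lit 0, nat_lit 2394, nat_lit 5886, nat_lit 2943, nat_lit 9954, nat_lit 6464, nat_lit 1311, nat_lit 9535, nat_lit 6586, nat_lit 4481, nat_lit 10246, nat_lit 7990, nat_lit 9264, nat_lit 9096],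
   [nat_lit 0, nat_lit 9683, nat_lit 10611, nat_lit 7165, nat_lit 6698, nat_lit 3578, nat_lit 7661, nat_lit 6080, nat_lit 3706, nat_lit 8516, nat_lit 83, nat_lit 3855, nat_lit 9512, nat_lit 1682, nat_lit 11716]),
  ([nat_lit 0, nat_lit 415, nat_lit 11382, nat_lit 7112, nat_lit 2297, nat_lit 4807, nat_lit 9536, nat_lit 2035, nat_lit 1225, nat_lit 2865, nat_lit 3351, nat_lit 869, nat_lit 7678, nat_lit 7066, nat_lit 8893, nat_lit 3406, nat_lit 2736, nat_lit 11404, nat_lit 1278, nat_lit 3056, nat_lit 1134, nat_lit 9330, nat_lit 7004, nat_lit 5477, nat_lit 643, nat_lit 3231, nat_lit 1667, nat_lit 9569, nat_lit 84, nat_lit 666, nat_lit 8675, nat_lit 5193, nat_lit 9567, nat_lit 3883, nat_lit 11311, nat_lit 11522, nat_lit 5583, nat_lit 11810, nat_lit 1262, nat_lit 6062, nat_lit 10586, nat_lit 2252, nat_lit 2770, nat_lit 3252, nat_lit 3707, nat_lit 7967, nat_lit 10859, nat_lit 10177, nat_lit 10049, nat_lit 6056, nat_lit 11393, nat_lit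 6584, nat_lit 6624, nat_lit 10230, nat_lit 10505, nat_lit 1250, nat_lit 10141, nat_lit 8584, nat_lit 8106, nat_lit 9341, nat_lit 8606, nat_lit 4767, nat_lit 11511, nat_lit 3397],
   [nat_lit 0, nat_lit 0, nat_lit 3895, nat_lit 3815, nat_lit 1199, nat_lit 281, nat_lit 10349, nat_lit 9968, nat_lit 4083, nat_lit 5620, nat_lit 1831, nat_lit 545, nat_lit 4572, nat_lit 10920, nat_lit 5015],
   [nat_lit 0, nat_lit 8426, nat_lit 3, nat_lit 6466, nat_lit 11010, nat_lit 5721, nat_lit 7119, nat_lit 262, nat_lit 10246, nat_lit 7895, nat_lit 520, nat_lit 8356, nat_lit 7922, nat_lit 10614, nat_lit 1338]),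
  ([nat_lit 0, nat_lit 5250, nat_lit 381, nat_lit 7529, nat_lit 10317, nat_lit 302, nat_lit 10948, nat_lit 2787, nat_lit 3201, nat_lit 11107, nat_lit 678, nat_lit 1186, nat_lit 7838, nat_lit 10745, nat_lit 3402, nat_lit 10908, nat_lit 5425, nat_lit 10904, nat_lit 10225, nat_lit 6194, nat_lit 9601, nat_lit 1844, nat_lit 8478, nat_lit 4477, nat_lit 8963, nat_lit 3101, nat_lit 66, nat_lit 3243, nat_lit 7667, nat_lit 11388, nat_lit 3947, nat_lit 10949, nat_lit 582, nat_lit 1966, nat_lit 3416, nat_lit 5275, nat_lit 3483, nat_lit 201, nat_lit 9756, nat_lit 3633, nat_lit 6451, nat_lit 5108, nat_lit 10877, nat_lit 5045, nat_lit 9451, nat_lit 5675, nat_lit 4255, nat_lit 900, nat_lit 7176, nat_lit 1427, nat_lit 5043, nat_lit 5023, nat_lit 10501, nat_lit 1711, nat_lit 6536, nat_lit 2946, nat_lit 2052, nat_lit 3371, nat_lit 10056, nat_lit 5525, nat_lit 814, nat_lit 9866, nat_lit 10423, nat_lit 732],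
   [nat_lit 0, nat_lit 0, nat_lit 710, nat_lit 10355, nat_lit 3379, nat_lit 8121, nat_lit 4661, nat_lit 285, nat_lit 9300, nat_lit 228, nat_lit 4519, nat_lit 8938, nat_lit 11855, nat_lit 4047, nat_lit 3565],
   [nat_lit 0, nat_lit 5811, nat_lit 8297, nat_lit 3785, nat_lit 2911, nat_lit 6806, nat_lit 3490, nat_lit 7530, nat_lit 6213, nat_lit 7543, nat_lit 2435, nat_lit 2928, nat_lit 5698, nat_lit 977, nat_lit 2855]),
  ([nat_lit 0, nat_lit 3560, nat_lit 5557, nat_lit 9297, nat_lit 1810, nat_lit 4914, nat_lit 2154, nat_lit 3954, nat_lit 7463, nat_lit 10529, nat_lit 7726, nat_lit 493, nat_lit 5846, nat_lit 8100, nat_lit 10556, nat_lit 6681, nat_lit 10800, nat_lit 7864, nat_lit 461, nat_lit 9516, nat_lit 1671, nat_lit 4542, nat_lit 4700, nat_lit 3847, nat_lit 2389, nat_lit 3357, nat_lit 4188, nat_lit 2181, nat_lit 11048, nat_lit 2606, nat_lit 8485, nat_lit 4883, nat_lit 148, nat_lit 4703, nat_lit 10503, nat_lit 1916, nat_lit 6956,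 nat_lit 10614, nat_lit 3272, nat_lit 8755, nat_lit 9890, nat_lit 10513, nat_lit 6666, nat_lit 11460, nat_lit 1943, nat_lit 5369, nat_lit 4812, nat_lit 5235, nat_lit 9411, nat_lit 3201, nat_lit 443, nat_lit 4723, nat_lit 8977, nat_lit 5536, nat_lit 9685, nat_lit 7642, nat_lit 9080, nat_lit 295, nat_lit 10685, nat_lit 10764, nat_lit 7398, nat_lit 7854, nat_lit 4959, nat_lit 8051],
   [nat_lit 0, nat_lit 0, nat_lit 6328, nat_lit 2725, nat_lit 3052, nat_lit 5888, nat_lit 3166, nat_lit 8334, nat_lit 6353, nat_lit 11267, nat_lit 1290, nat_lit 5014, nat_lit 8289, nat_lit 8885, nat_lit 4014],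
   [nat_lit 0, nat_lit 6676, nat_lit 9426, nat_lit 6747, nat_lit 6739, nat_lit 1609, nat_lit 11235, nat_lit 6794, nat_lit 8938, nat_lit 742, nat_lit 1347, nat_lit 9314, nat_lit 10475, nat_lit 10121, nat_lit 4335]),
  ([nat_lit 0, nat_lit 1942, nat_lit 6153, nat_lit 2813, nat_lit 3724, nat_lit 4303, nat_lit 9248, nat_lit 6350, nat_lit 3056, nat_lit 5983, nat_lit 9638, nat_lit 8577, nat_lit 11880, nat_lit 3527, nat_lit 8537, nat_lit 2377, nat_lit 3431, nat_lit 2333, nat_lit 11214, nat_lit 8184, nat_lit 4677, nat_lit 2953, nat_lit 8892, nat_lit 524, nat_lit 2564, nat_lit 1847, nat_lit 1707, nat_lit 2210, nat_lit 6838, nat_lit 4714, nat_lit 9627, nat_lit 1084, nat_lit 1824, nat_lit 9309, nat_lit 734, nat_lit 5705, nat_lit 6703, nat_lit 2429, nat_lit 7363, nat_lit 5519, nat_lit 7196, nat_lit 1034, nat_lit 74, nat_lit 6336, nat_lit 2591, nat_lit 8470, nat_lit 1788, nat_lit 4232, nat_lit 7432, nat_lit 7195, nat_lit 1191, nat_lit 10672,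 nat_lit 516, nat_lit 4869, nat_lit 4861, nat_lit 7118, nat_lit 9383, nat_lit 130, nat_lit 11317, nat_lit 1697, nat_lit 16, nat_lit 2251, nat_lit 9468, nat_lit 9469],
   [nat_lit 0, nat_lit 0, nat_lit 1488, nat_lit 11772, nat_lit 1090, nat_lit 1259, nat_lit 2766, nat_lit 9784, nat_lit 1039, nat_lit 873, nat_lit 4692, nat_lit 654, nat_lit 3856, nat_lit 2443, nat_lit 6079],
   [nat_lit 0, nat_lit 3535, nat_lit 5048, nat_lit 433, nat_lit 7060, nat_lit 7068, nat_lit 3074, nat_lit 11326, nat_lit 10573, nat_lit 3948, nat_lit 80, nat_lit 1361, nat_lit 1856, nat_lit 1155, nat_lit 6880]),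
  ([nat_lit 0, nat_lit 10764, nat_lit 7440, nat_lit 11433, nat_lit 9540, nat_lit 7068, nat_lit 3416, nat_lit 6556, nat_lit 4954, nat_lit 6720, nat_lit 10319, nat_lit 2690, nat_lit 2086, nat_lit 8353, nat_lit 10375, nat_lit 7291, nat_lit 7504, nat_lit 2501, nat_lit 5972, nat_lit 9239, nat_lit 5600, nat_lit 613, nat_lit 9846, nat_lit 10125, nat_lit 3614, nat_lit 2706, nat_lit 8621, nat_lit 6853, nat_lit 2833, nat_lit 5263, nat_lit 7977, nat_lit 11862, nat_lit 10136, nat_lit 5880, nat_lit 8937, nat_lit 4459, nat_lit 8346, nat_lit 2151, nat_lit 2915, nat_lit 2017, nat_lit 8036, nat_lit 9451, nat_lit 9463, nat_lit 10472, nat_lit 920, nat_lit 11489, nat_lit 7079, nat_lit 3773, nat_lit 11145, nat_lit 1947, nat_lit 665, nat_lit 10287, nat_lit 11117, nat_lit 4355, nat_lit 4039, nat_lit 10296, nat_lit 6514, nat_lit 2192, nat_lit 7915, nat_lit 7681, nat_lit 414, nat_lit 8200, nat_lit 4476, nat_lit 6532],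
   [nat_lit 0, nat_lit 0, nat_lit 4821, nat_lit 5559, nat_lit 218, nat_lit 1825, nat_lit 9631, nat_lit 281, nat_lit 7850, nat_lit 4018, nat_lit 3849, nat_lit 11336, nat_lit 4072, nat_lit 9898, nat_lit 702],
   [nat_lit 0, nat_lit 7470, nat_lit 1888, nat_lit 6367, nat_lit 3972, nat_lit 7231, nat_lit 7409, nat_lit 6363, nat_lit 9047, nat_lit 8360, nat_lit 2833, nat_lit 7053, nat_lit 3988, nat_lit 6982, nat_lit 6563]),
  ([nat_lit 0, nat_lit 4663, nat_lit 3743, nat_lit 5076, nat_lit 6736, nat_lit 3267, nat_lit 5495, nat_lit 5113, nat_lit 11101, nat_lit 3539, nat_lit 7925, nat_lit 10990, nat_lit 1067, nat_lit 10598, nat_lit 9307, nat_lit 2024, nat_lit 5774, nat_lit 10931, nat_lit 4497, nat_lit 6093, nat_lit 1296, nat_lit 5680, nat_lit 10932, nat_lit 11834, nat_lit 657, nat_lit 11089, nat_lit 7869, nat_lit 2107, nat_lit 5546, nat_lit 2801, nat_lit 5383, nat_lit 1824, nat_lit 9252, nat_lit 1666, nat_lit 4129, nat_lit 3140, nat_lit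 11052, nat_lit 8779, nat_lit 8901, nat_lit 497, nat_lit 2444, nat_lit 4598, nat_lit 3664, nat_lit 5772, nat_lit 5202, nat_lit 2098, nat_lit 1230, nat_lit 653, nat_lit 2967, nat_lit 11032, nat_lit 8645, nat_lit 2713, nat_lit 2494, nat_lit 4622, nat_lit 1713, nat_lit 3266, nat_lit 10126, nat_lit 2336, nat_lit 7847, nat_lit 2952, nat_lit 8870, nat_lit 1524, nat_lit 8157, nat_lit 8507],
   [nat_lit 0, nat_lit 0, nat_lit 1415, nat_lit 1962, nat_lit 6976, nat_lit 1271, nat_lit 3559, nat_lit 6051, nat_lit 6348, nat_lit 11795, nat_lit 11342, nat_lit 4142, nat_lit 8246, nat_lit 11172, nat_lit 9453],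
   [nat_lit 0, nat_lit 10891, nat_lit 2744, nat_lit 3310, nat_lit 5965, nat_lit 3315, nat_lit 2141, nat_lit 6637, nat_lit 11009, nat_lit 2841, nat_lit 9906, nat_lit 783, nat_lit 5846, nat_lit 78, nat_lit 735]),
  ([nat_lit 0, nat_lit 8121, nat_lit 2345, nat_lit 11639, nat_lit 7635, nat_lit 8904, nat_lit 5633, nat_lit 3084, nat_lit 1733, nat_lit 6573, nat_lit 4397, nat_lit 2001, nat_lit 2101, nat_lit 8749, nat_lit 8106, nat_lit 3028, nat_lit 7923, nat_lit 5002, nat_lit 2897, nat_lit 7142, nat_lit 191, nat_lit 10600, nat_lit 4977, nat_lit 1829, nat_lit 2868, nat_lit 4540, nat_lit 11465, nat_lit 5640, nat_lit 6320, nat_lit 2460, nat_lit 7779, nat_lit 11734, nat_lit 11879, nat_lit 1187, nat_lit 5666, nat_lit 10880, nat_lit 3721, nat_lit 7572, nat_lit 1361, nat_lit 11010, nat_lit 5826, nat_lit 2988, nat_lit 11514, nat_lit 5357, nat_lit 2930, nat_lit 10007, nat_lit 9253, nat_lit 5039, nat_lit 163, nat_lit 2259, nat_lit 10377, nat_lit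 8693, nat_lit 5993, nat_lit 11108, nat_lit 6552, nat_lit 8275, nat_lit 8450, nat_lit 4820, nat_lit 1115, nat_lit 5661, nat_lit 5515, nat_lit 9751, nat_lit 11023, nat_lit 9903],
   [nat_lit 0, nat_lit 0, nat_lit 11277, nat_lit 6540, nat_lit 2725, nat_lit 4195, nat_lit 6836, nat_lit 6121, nat_lit 3819, nat_lit 1169, nat_lit 3665, nat_lit 6322, nat_lit 6400, nat_lit 11839, nat_lit 6200],
   [nat_lit 0, nat_lit 7, nat_lit 9008, nat_lit 9137, nat_lit 1404, nat_lit 8685, nat_lit 5117, nat_lit 8802, nat_lit 7630, nat_lit 1460, nat_lit 7519, nat_lit 3969, nat_lit 1327, nat_lit 2519, nat_lit 1899]),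
  ([nat_lit 0, nat_lit 1650, nat_lit 4078, nat_lit 9417, nat_lit 6145, nat_lit 10643, nat_lit 1784, nat_lit 3358, nat_lit 1196, nat_lit 881, nat_lit 6996, nat_lit 80, nat_lit 246, nat_lit 8500, nat_lit 7195, nat_lit 1787, nat_lit 3994, nat_lit 3237, nat_lit 364, nat_lit 4326, nat_lit 1697, nat_lit 6042, nat_lit 4013, nat_lit 7019, nat_lit 5489, nat_lit 1476, nat_lit 2017, nat_lit 8861, nat_lit 10731, nat_lit 8836, nat_lit 328, nat_lit 9651, nat_lit 2120, nat_lit 6398, nat_lit 11385, nat_lit 1798, nat_lit 10151, nat_lit 2620, nat_lit 4533, nat_lit 6243, nat_lit 1470, nat_lit 5601, nat_lit 10790, nat_lit 3532, nat_lit 11382, nat_lit 351, nat_lit 2910, nat_lit 9034, nat_lit 1184, nat_lit 7929, nat_lit 8944, nat_lit 10308, nat_lit 9968, nat_lit 9074, nat_lit 6573, nat_lit 10848, nat_lit 11193, nat_lit 11729, nat_lit 11105, nat_lit 10581, nat_lit 2277, nat_lit 628, nat_lit 5652, nat_lit 9875],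
   [nat_lit 0, nat_lit 0, nat_lit 11419, nat_lit 6213, nat_lit 8829, nat_lit 2898, nat_lit 3539, nat_lit 292, nat_lit 4044, nat_lit 844, nat_lit 5746, nat_lit 9156, nat_lit 8662, nat_lit 2337, nat_lit 3425],
   [nat_lit 0, nat_lit 11328, nat_lit 11583, nat_lit 5970, nat_lit 1027, nat_lit 7343, nat_lit 7341, nat_lit 1697, nat_lit 3815, nat_lit 5977, nat_lit 4627, nat_lit 1895, nat_lit 3731, nat_lit 4829, nat_lit 7157]),
  ([nat_lit 0, nat_lit 3597, nat_lit 5232, nat_lit 5232, nat_lit 5886, nat_lit 2616, nat_lit 9374, nat_lit 10355, nat_lit 10682, nat_lit 5014, nat_lit 218, nat_lit 6322, nat_lit 1417, nat_lit 10791, nat_lit 11772, nat_lit 4469, nat_lit 11227, nat_lit 2725, nat_lit 9592, nat_lit 11445, nat_lit 109, nat_lit 5995, nat_lit 11227, nat_lit 4360, nat_lit 7303, nat_lit 3488, nat_lit 7521, nat_lit 5995, nat_lit 8829, nat_lit 5777, nat_lit 1635, nat_lit 1090, nat_lit 4796, nat_lit 7957, nat_lit 4687, nat_lit 10791, nat_lit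 1526, nat_lit 1744, nat_lit 10246, nat_lit 763, nat_lit 7739, nat_lit 6213, nat_lit 10573, nat_lit 6976, nat_lit 4796, nat_lit 3161, nat_lit 4033, nat_lit 10791, nat_lit 1417, nat_lit 4251, nat_lit 2507, nat_lit 10464, nat_lit 10464, nat_lit 8393, nat_lit 6758, nat_lit 4905, nat_lit 11009, nat_lit 9810, nat_lit 2616, nat_lit 5777, nat_lit 5995, nat_lit 4251, nat_lit 3052, nat_lit 5886],
   [nat_lit 0, nat_lit 0, nat_lit 4578, nat_lit 3815, nat_lit 9483, nat_lit 8502, nat_lit 9810, nat_lit 872, nat_lit 11663, nat_lit 11227, nat_lit 8502, nat_lit 1526, nat_lit 8502, nat_lit 10137, nat_lit 6540],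
   [nat_lit 0, nat_lit 7630, nat_lit 9156, nat_lit 4578, nat_lit 5450, nat_lit 2834, nat_lit 9810, nat_lit 5123, nat_lit 7412, nat_lit 5014, nat_lit 10900, nat_lit 3052, nat_lit 4578, nat_lit 8829, nat_lit 981]),
  ([nat_lit 0, nat_lit 3965, nat_lit 7208, nat_lit 4681, nat_lit 4988, nat_lit 2226, nat_lit 8030, nat_lit 9818, nat_lit 8690, nat_lit 7284, nat_lit 1399, nat_lit 8321, nat_lit 2678, nat_lit 4667, nat_lit 11128, nat_lit 9804, nat_lit 6368, nat_lit 7627, nat_lit 8654, nat_lit 4129, nat_lit 7160, nat_lit 7119, nat_lit 2525, nat_lit 5117, nat_lit 9546, nat_lit 2879, nat_lit 2839, nat_lit 5770, nat_lit 1253, nat_lit 288, nat_lit 6550, nat_lit 1789, nat_lit 2016, nat_lit 7518, nat_lit 9319, nat_lit 6644, nat_lit 2538, nat_lit 803, nat_lit 5327, nat_lit 736, nat_lit 2928, nat_lit 3799, nat_lit 11326, nat_lit 7198, nat_lit 2095, nat_lit 3510, nat_lit 7191, nat_lit 7827, nat_lit 5082, nat_lit 2990, nat_lit 11396, nat_lit 11847,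 nat_lit 11172, nat_lit 8990, nat_lit 3927, nat_lit 5911, nat_lit 3366, nat_lit 6110, nat_lit 4993, nat_lit 2260, nat_lit 11652, nat_lit 3882, nat_lit 7688, nat_lit 3811],
   [nat_lit 0, nat_lit 0, nat_lit 10313, nat_lit 1744, nat_lit 10791, nat_lit 10014, nat_lit 11846, nat_lit 8479, nat_lit 4797, nat_lit 4734, nat_lit 8192, nat_lit 2834, nat_lit 9121, nat_lit 7892, nat_lit 2204],
   [nat_lit 0, nat_lit 1664, nat_lit 6394, nat_lit 10323, nat_lit 11033, nat_lit 7594, nat_lit 3105, nat_lit 3127, nat_lit 3815, nat_lit 1455, nat_lit 3542, nat_lit 11538, nat_lit 1776, nat_lit 8178, nat_lit 2791]),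
  ([nat_lit 0, nat_lit 2678, nat_lit 77, nat_lit 11303, nat_lit 2473, nat_lit 6139, nat_lit 5034, nat_lit 5930, nat_lit 5285, nat_lit 1258, nat_lit 10, nat_lit 9087, nat_lit 7535, nat_lit 3269, nat_lit 4088, nat_lit 9777, nat_lit 5158, nat_lit 7995, nat_lit 1599, nat_lit 10229, nat_lit 3083, nat_lit 10106, nat_lit 9691, nat_lit 1820, nat_lit 11083, nat_lit 2373, nat_lit 4878, nat_lit 9935, nat_lit 6183, nat_lit 5726, nat_lit 2671, nat_lit 8259, nat_lit 4439, nat_lit 1455, nat_lit 3022, nat_lit 5695, nat_lit 10362, nat_lit 7632, nat_lit 3520, nat_lit 1432, nat_lit 6730, nat_lit 4163, nat_lit 599, nat_lit 9614, nat_lit 3947, nat_lit 2955, nat_lit 5597, nat_lit 7351, nat_lit 5497, nat_lit 11758, nat_lit 5126, nat_lit 11040, nat_lit 7273, nat_lit 4319, nat_lit 8028, nat_lit 2590, nat_lit 92, nat_lit 6464, nat_lit 3645, nat_lit 6980, nat_lit 975, nat_lit 9361, nat_lit 5660, nat_lit 9352],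
   [nat_lit 0, nat_lit 0, nat_lit 314, nat_lit 9592, nat_lit 5886, nat_lit 11477, nat_lit 3677, nat_lit 8103, nat_lit 9979, nat_lit 9469, nat_lit 9740, nat_lit 3706, nat_lit 6511, nat_lit 10706, nat_lit 10487],
   [nat_lit 0, nat_lit 2721, nat_lit 6827, nat_lit 5492, nat_lit 5582, nat_lit 2636, nat_lit 3071, nat_lit 10604, nat_lit 3161, nat_lit 8384, nat_lit 951, nat_lit 5144, nat_lit 7588, nat_lit 1706, nat_lit 7884]),
  ([nat_lit 0, nat_lit 3739, nat_lit 9473, nat_lit 10515, nat_lit 11230, nat_lit 1353, nat_lit 7827, nat_lit 7889, nat_lit 5378, nat_lit 9263, nat_lit 8328, nat_lit 4209, nat_lit 1980, nat_lit 11179, nat_lit 1768, nat_lit 8553, nat_lit 1789, nat_lit 4876, nat_lit 10480, nat_lit 9539, nat_lit 8355, nat_lit 6905, nat_lit 5842, nat_lit 6809, nat_lit 5514, nat_lit 11117, nat_lit 6225, nat_lit 4692, nat_lit 11858, nat_lit 6708, nat_lit 5038, nat_lit 8501, nat_lit 11313, nat_lit 11743, nat_lit 2702, nat_lit 2277, nat_lit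 8620, nat_lit 4347, nat_lit 8730, nat_lit 9222, nat_lit 8793, nat_lit 4823, nat_lit 9350, nat_lit 8250, nat_lit 777, nat_lit 1557, nat_lit 8582, nat_lit 5574, nat_lit 8469, nat_lit 9247, nat_lit 6030, nat_lit 10099, nat_lit 4773, nat_lit 6425, nat_lit 3844, nat_lit 6491, nat_lit 10084, nat_lit 10631, nat_lit 5901, nat_lit 3135, nat_lit 4072, nat_lit 4281, nat_lit 8772, nat_lit 11043],
   [nat_lit 0, nat_lit 0, nat_lit 3736, nat_lit 8938, nat_lit 9265, nat_lit 10474, nat_lit 1660, nat_lit 6899, nat_lit 3316, nat_lit 6304, nat_lit 8630, nat_lit 11554, nat_lit 7001, nat_lit 7583, nat_lit 5791],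
   [nat_lit 0, nat_lit 11035, nat_lit 2004, nat_lit 4305, nat_lit 7971, nat_lit 11533, nat_lit 5490, nat_lit 1052, nat_lit 9156, nat_lit 5672, nat_lit 10223, nat_lit 4387, nat_lit 5723, nat_lit 9294, nat_lit 5107]),
  ([nat_lit 0, nat_lit 8318, nat_lit 7732, nat_lit 875, nat_lit 10804, nat_lit 6844, nat_lit 8411, nat_lit 8062, nat_lit 1650, nat_lit 8893, nat_lit 11018, nat_lit 6576, nat_lit 8471, nat_lit 4806, nat_lit 2175, nat_lit 8287, nat_lit 4882, nat_lit 2890, nat_lit 3848, nat_lit 8454, nat_lit 1870, nat_lit 9684, nat_lit 318, nat_lit 9813, nat_lit 1331, nat_lit 1122, nat_lit 5066, nat_lit 5835, nat_lit 2698, nat_lit 10211, nat_lit 2393, nat_lit 8861, nat_lit 9129, nat_lit 928, nat_lit 5750, nat_lit 11393, nat_lit 2219, nat_lit 852, nat_lit 5348, nat_lit 3011, nat_lit 1697, nat_lit 6657, nat_lit 6654, nat_lit 1415, nat_lit 11324, nat_lit 3477, nat_lit 165, nat_lit 9330, nat_lit 6724, nat_lit 8206, nat_lit 733, nat_lit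 11789, nat_lit 11745, nat_lit 4661, nat_lit 10081, nat_lit 4729, nat_lit 1914, nat_lit 2613, nat_lit 3553, nat_lit 69, nat_lit 3330, nat_lit 8523, nat_lit 1061, nat_lit 111],
   [nat_lit 0, nat_lit 0, nat_lit 9831, nat_lit 654, nat_lit 10573, nat_lit 2405, nat_lit 8247, nat_lit 8023, nat_lit 7684, nat_lit 5590, nat_lit 2444, nat_lit 7630, nat_lit 6503, nat_lit 4338, nat_lit 6310],
   [nat_lit 0, nat_lit 10068, nat_lit 2689, nat_lit 125, nat_lit 3585, nat_lit 781, nat_lit 8203, nat_lit 5685, nat_lit 4360, nat_lit 4232, nat_lit 4987, nat_lit 1316, nat_lit 6306, nat_lit 5721, nat_lit 10322]),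
  ([nat_lit 0, nat_lit 3237, nat_lit 7095, nat_lit 1039, nat_lit 10679, nat_lit 8021, nat_lit 130, nat_lit 5082, nat_lit 10427, nat_lit 8831, nat_lit 3444, nat_lit 7890, nat_lit 8375, nat_lit 266, nat_lit 10549, nat_lit 10195, nat_lit 11836, nat_lit 4171, nat_lit 11211, nat_lit 3759, nat_lit 6905, nat_lit 6066, nat_lit 2115, nat_lit 4418, nat_lit 9637, nat_lit 1418, nat_lit 969, nat_lit 2284, nat_lit 350, nat_lit 7244, nat_lit 10767, nat_lit 1091, nat_lit 11577, nat_lit 8095, nat_lit 7762, nat_lit 2628, nat_lit 3915, nat_lit 4700, nat_lit 9691, nat_lit 6474, nat_lit 8102, nat_lit 7930, nat_lit 4493, nat_lit 361, nat_lit 8924, nat_lit 6727, nat_lit 4825, nat_lit 1838, nat_lit 6573, nat_lit 8847, nat_lit 6941, nat_lit 1673, nat_lit 132, nat_lit 6001, nat_lit 298, nat_lit 5717, nat_lit 598, nat_lit 2885, nat_lit 4890, nat_lit 3732, nat_lit 10534, nat_lit 10325, nat_lit 2237, nat_lit 620],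
   [nat_lit 0, nat_lit 0, nat_lit 6183, nat_lit 9156, nat_lit 9592, nat_lit 7947, nat_lit 1719, nat_lit 186, nat_lit 8674, nat_lit 6340, nat_lit 1071, nat_lit 4687, nat_lit 3136, nat_lit 9094, nat_lit 9033],
   [nat_lit 0, nat_lit 8476, nat_lit 3119, nat_lit 2017, nat_lit 4455, nat_lit 5907, nat_lit 11405, nat_lit 147, nat_lit 5995, nat_lit 759, nat_lit 10487, nat_lit 1826, nat_lit 10082, nat_lit 6184, nat_lit 9717]),
  ([nat_lit 0, nat_lit 5265, nat_lit 4023, nat_lit 6809, nat_lit 4472, nat_lit 7893, nat_lit 10334, nat_lit 7453, nat_lit 255, nat_lit 652, nat_lit 6693, nat_lit 10640, nat_lit 6449, nat_lit 4312, nat_lit 9616, nat_lit 7245, nat_lit 2661, nat_lit 8364, nat_lit 5575, nat_lit 1364, nat_lit 7156, nat_lit 11156, nat_lit 7477, nat_lit 10188, nat_lit 9547, nat_lit 9482, nat_lit 4808, nat_lit 1967, nat_lit 1176, nat_lit 3329, nat_lit 1441, nat_lit 7738, nat_lit 6626, nat_lit 5530, nat_lit 7825, nat_lit 969, nat_lit 10909,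 nat_lit 750, nat_lit 2408, nat_lit 10748, nat_lit 9992, nat_lit 27, nat_lit 8478, nat_lit 3018, nat_lit 9170, nat_lit 8969, nat_lit 4331, nat_lit 5247, nat_lit 6616, nat_lit 9901, nat_lit 4940, nat_lit 4649, nat_lit 2593, nat_lit 10349, nat_lit 6460, nat_lit 3003, nat_lit 8340, nat_lit 5508, nat_lit 4157, nat_lit 1936, nat_lit 584, nat_lit 8859, nat_lit 10952, nat_lit 579],
   [nat_lit 0, nat_lit 0, nat_lit 4281, nat_lit 5123, nat_lit 1090, nat_lit 882, nat_lit 3949, nat_lit 7444, nat_lit 7676, nat_lit 4887, nat_lit 10592, nat_lit 327, nat_lit 8636, nat_lit 716, nat_lit 1104],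
   [nat_lit 0, nat_lit 5803, nat_lit 5601, nat_lit 10954, nat_lit 4592, nat_lit 6410, nat_lit 10613, nat_lit 3995, nat_lit 3597, nat_lit 9596, nat_lit 1176, nat_lit 5477, nat_lit 600, nat_lit 10275, nat_lit 9031]),
  ([nat_lit 0, nat_lit 4512, nat_lit 11138, nat_lit 5239, nat_lit 10676, nat_lit 2962, nat_lit 2549, nat_lit 4496, nat_lit 5703, nat_lit 10795, nat_lit 9613, nat_lit 7823, nat_lit 8793, nat_lit 4347, nat_lit 9326, nat_lit 10689, nat_lit 5687, nat_lit 5399, nat_lit 949, nat_lit 7736, nat_lit 3019, nat_lit 9843, nat_lit 5320, nat_lit 10253, nat_lit 8374, nat_lit 438, nat_lit 4881, nat_lit 7511, nat_lit 3316, nat_lit 972, nat_lit 6383, nat_lit 4144, nat_lit 9202, nat_lit 1693, nat_lit 9747, nat_lit 5038, nat_lit 4996, nat_lit 3950, nat_lit 5430, nat_lit 6735, nat_lit 10754, nat_lit 8666, nat_lit 11602, nat_lit 10532, nat_lit 1934, nat_lit 9966, nat_lit 7361, nat_lit 10543, nat_lit 3009, nat_lit 1235, nat_lit 11702, nat_lit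 2692, nat_lit 7240, nat_lit 6879, nat_lit 10733, nat_lit 5548, nat_lit 11224, nat_lit 8931, nat_lit 2041, nat_lit 2232, nat_lit 3846, nat_lit 7897, nat_lit 1640, nat_lit 368],
   [nat_lit 0, nat_lit 0, nat_lit 10404, nat_lit 11663, nat_lit 11663, nat_lit 4667, nat_lit 11722, nat_lit 4950, nat_lit 1325, nat_lit 3088, nat_lit 10426, nat_lit 1417, nat_lit 5945, nat_lit 1838, nat_lit 1607],
   [nat_lit 0, nat_lit 1365, nat_lit 3949, nat_lit 6541, nat_lit 9346, nat_lit 3639, nat_lit 7986, nat_lit 5199, nat_lit 11772, nat_lit 3480, nat_lit 3752, nat_lit 6377, nat_lit 1525, nat_lit 4847, nat_lit 10496]),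
  ([nat_lit 0, nat_lit 9068, nat_lit 4205, nat_lit 10982, nat_lit 1191, nat_lit 6311, nat_lit 7577, nat_lit 3306, nat_lit 11746, nat_lit 9888, nat_lit 8966, nat_lit 2946, nat_lit 4748, nat_lit 4597, nat_lit 11054, nat_lit 10328, nat_lit 5984, nat_lit 9197, nat_lit 1665, nat_lit 5773, nat_lit 1591, nat_lit 11598, nat_lit 3024, nat_lit 1826, nat_lit 883, nat_lit 6252, nat_lit 9778, nat_lit 9397, nat_lit 134, nat_lit 11433, nat_lit 7130, nat_lit 7233, nat_lit 7982, nat_lit 8216, nat_lit 788, nat_lit 11368, nat_lit 11094, nat_lit 11625, nat_lit 9965, nat_lit 3203, nat_lit 8489, nat_lit 5051, nat_lit 4969, nat_lit 8738, nat_lit 10354, nat_lit 3914, nat_lit 11813, nat_lit 8244, nat_lit 960, nat_lit 702, nat_lit 11279, nat_lit 1155, nat_lit 5366, nat_lit 7537, nat_lit 8352, nat_lit 7906, nat_lit 2503, nat_lit 3951, nat_lit 8789, nat_lit 7772, nat_lit 9815, nat_lit 2863, nat_lit 8436, nat_lit 1835],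
   [nat_lit 0, nat_lit 0, nat_lit 10166, nat_lit 4905, nat_lit 7630, nat_lit 1027, nat_lit 660, nat_lit 3439, nat_lit 6381, nat_lit 7133, nat_lit 9178, nat_lit 9810, nat_lit 878, nat_lit 11425, nat_lit 9918],
   [nat_lit 0, nat_lit 8905, nat_lit 869, nat_lit 10538, nat_lit 435, nat_lit 5070, nat_lit 9667, nat_lit 8458, nat_lit 3815, nat_lit 5730, nat_lit 8636, nat_lit 1999, nat_lit 7120, nat_lit 504, nat_lit 1714]),
  ([nat_lit 0, nat_lit 3599, nat_lit 2949, nat_lit 6662, nat_lit 4271, nat_lit 9783, nat_lit 1604, nat_lit 9611, nat_lit 10529, nat_lit 10051, nat_lit 8650, nat_lit 9966, nat_lit 7859, nat_lit 9163, nat_lit 6591, nat_lit 8297, nat_lit 4660, nat_lit 5947, nat_lit 8754, nat_lit 4043, nat_lit 9157, nat_lit 11335, nat_lit 8899, nat_lit 5790, nat_lit 7875, nat_lit 7696, nat_lit 4549, nat_lit 8390, nat_lit 1518, nat_lit 3082, nat_lit 4520, nat_lit 11184, nat_lit 5660, nat_lit 2459, nat_lit 11764, nat_lit 1991, nat_lit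 11832, nat_lit 6853, nat_lit 9150, nat_lit 2947, nat_lit 4665, nat_lit 5085, nat_lit 6816, nat_lit 10855, nat_lit 3981, nat_lit 3731, nat_lit 11288, nat_lit 9692, nat_lit 6974, nat_lit 2278, nat_lit 4884, nat_lit 10247, nat_lit 319, nat_lit 8244, nat_lit 3645, nat_lit 6395, nat_lit 337, nat_lit 9470, nat_lit 2389, nat_lit 4877, nat_lit 10288, nat_lit 11863, nat_lit 1582, nat_lit 4296],
   [nat_lit 0, nat_lit 0, nat_lit 11427, nat_lit 10573, nat_lit 4687, nat_lit 7733, nat_lit 9250, nat_lit 11295, nat_lit 10044, nat_lit 4022, nat_lit 9101, nat_lit 11118, nat_lit 8705, nat_lit 4410, nat_lit 5071],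
   [nat_lit 0, nat_lit 6895, nat_lit 10199, nat_lit 4066, nat_lit 10957, nat_lit 1931, nat_lit 11094, nat_lit 9811, nat_lit 8284, nat_lit 11181, nat_lit 4025, nat_lit 834, nat_lit 6180, nat_lit 11384, nat_lit 620]),
  ([nat_lit 0, nat_lit 8419, nat_lit 1059, nat_lit 7363, nat_lit 3094, nat_lit 1175, nat_lit 10715, nat_lit 1010, nat_lit 10219, nat_lit 9782, nat_lit 11407, nat_lit 7914, nat_lit 1015, nat_lit 2271, nat_lit 7094, nat_lit 10088, nat_lit 11639, nat_lit 1665, nat_lit 6982, nat_lit 10049, nat_lit 3392, nat_lit 2494, nat_lit 1673, nat_lit 2785, nat_lit 5801, nat_lit 8161, nat_lit 4201, nat_lit 10207, nat_lit 4474, nat_lit 5186, nat_lit 4042, nat_lit 11104, nat_lit 7635, nat_lit 684, nat_lit 9924, nat_lit 3211, nat_lit 3505, nat_lit 9410, nat_lit 358, nat_lit 4194, nat_lit 1022, nat_lit 4302, nat_lit 6204, nat_lit 8462, nat_lit 9025, nat_lit 2941, nat_lit 7333, nat_lit 6641, nat_lit 6623, nat_lit 7051, nat_lit 9973, nat_lit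 2193, nat_lit 4583, nat_lit 2968, nat_lit 2477, nat_lit 10650, nat_lit 8523, nat_lit 6044, nat_lit 3262, nat_lit 3015, nat_lit 5996, nat_lit 10666, nat_lit 10647, nat_lit 8324],
   [nat_lit 0, nat_lit 0, nat_lit 9794, nat_lit 2507, nat_lit 11336, nat_lit 11367, nat_lit 11577, nat_lit 5789, nat_lit 6639, nat_lit 1601, nat_lit 7133, nat_lit 3270, nat_lit 786, nat_lit 11441, nat_lit 10006],
   [nat_lit 0, nat_lit 2762, nat_lit 3095, nat_lit 647, nat_lit 10660, nat_lit 6900, nat_lit 1868, nat_lit 11240, nat_lit 218, nat_lit 6705, nat_lit 659, nat_lit 2340, nat_lit 5457, nat_lit 6183, nat_lit 5117]),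
  ([nat_lit 0, nat_lit 10362, nat_lit 130, nat_lit 5005, nat_lit 2795, nat_lit 8571, nat_lit 9538, nat_lit 5898, nat_lit 9002, nat_lit 11689, nat_lit 4878, nat_lit 328, nat_lit 11320, nat_lit 4003, nat_lit 7318, nat_lit 10019, nat_lit 9443, nat_lit 11822, nat_lit 6986, nat_lit 10499, nat_lit 8669, nat_lit 4629, nat_lit 11581, nat_lit 10455, nat_lit 9850, nat_lit 2411, nat_lit 1152, nat_lit 5712, nat_lit 9455, nat_lit 2939, nat_lit 10261, nat_lit 5463, nat_lit 6403, nat_lit 50, nat_lit 11308, nat_lit 10293, nat_lit 8603, nat_lit 5728, nat_lit 8481, nat_lit 6336, nat_lit 10060, nat_lit 9241, nat_lit 8923, nat_lit 9707, nat_lit 7993, nat_lit 2213, nat_lit 8334, nat_lit 3402, nat_lit 9040, nat_lit 997, nat_lit 3578, nat_lit 4200, nat_lit 10109, nat_lit 623, nat_lit 8234, nat_lit 8485, nat_lit 35, nat_lit 10582, nat_lit 6454, nat_lit 120, nat_lit 5270, nat_lit 4624, nat_lit 8807, nat_lit 9368],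
   [nat_lit 0, nat_lit 0, nat_lit 10401, nat_lit 10464, nat_lit 9919, nat_lit 8481, nat_lit 5343, nat_lit 4816, nat_lit 8231, nat_lit 7319, nat_lit 80, nat_lit 109, nat_lit 8831, nat_lit 1047, nat_lit 10718],
   [nat_lit 0, nat_lit 2605, nat_lit 653, nat_lit 1587, nat_lit 10500, nat_lit 9538, nat_lit 4167, nat_lit 1257, nat_lit 7194, nat_lit 4090, nat_lit 9455, nat_lit 2047, nat_lit 11166, nat_lit 8670, nat_lit 6639]),
  ([nat_lit 0, nat_lit 10331, nat_lit 3307, nat_lit 10526, nat_lit 10333, nat_lit 6210, nat_lit 6040, nat_lit 8710, nat_lit 5433, nat_lit 6373, nat_lit 11413, nat_lit 4668, nat_lit 2920, nat_lit 6020, nat_lit 2004, nat_lit 934, nat_lit 10788, nat_lit 7552, nat_lit 8312, nat_lit 11107, nat_lit 10561, nat_lit 7097, nat_lit 9406, nat_lit 5730, nat_lit 8941, nat_lit 6838, nat_lit 7106, nat_lit 3633, nat_lit 641, nat_lit 1493, nat_lit 260, nat_lit 9781, nat_lit 3584, nat_lit 7770, nat_lit 2603, nat_lit 3358, nat_lit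 3313, nat_lit 931, nat_lit 9119, nat_lit 2895, nat_lit 918, nat_lit 9939, nat_lit 9441, nat_lit 9696, nat_lit 3240, nat_lit 2861, nat_lit 9187, nat_lit 9046, nat_lit 9943, nat_lit 6018, nat_lit 3958, nat_lit 5438, nat_lit 6309, nat_lit 10290, nat_lit 10651, nat_lit 11877, nat_lit 5548, nat_lit 3099, nat_lit 4250, nat_lit 6658, nat_lit 3529, nat_lit 1197, nat_lit 9356, nat_lit 11014],
   [nat_lit 0, nat_lit 0, nat_lit 3704, nat_lit 11227, nat_lit 10028, nat_lit 3778, nat_lit 2142, nat_lit 11065, nat_lit 1988, nat_lit 8307, nat_lit 1096, nat_lit 7521, nat_lit 8682, nat_lit 9428, nat_lit 515],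
   [nat_lit 0, nat_lit 5441, nat_lit 4815, nat_lit 1893, nat_lit 3676, nat_lit 154, nat_lit 9662, nat_lit 8708, nat_lit 11336, nat_lit 6002, nat_lit 4783, nat_lit 8631, nat_lit 9879, nat_lit 5855, nat_lit 2261]),
  ([nat_lit 0, nat_lit 7736, nat_lit 4024, nat_lit 7229, nat_lit 2804, nat_lit 6635, nat_lit 4570, nat_lit 1225, nat_lit 175, nat_lit 7759, nat_lit 10569, nat_lit 11211, nat_lit 4180, nat_lit 4622, nat_lit 1613, nat_lit 253, nat_lit 4673, nat_lit 5304, nat_lit 4091, nat_lit 4454, nat_lit 1252, nat_lit 6160, nat_lit 6980, nat_lit 362, nat_lit 3175, nat_lit 8403, nat_lit 6638, nat_lit 5945, nat_lit 3936, nat_lit 282, nat_lit 4338, nat_lit 9929, nat_lit 9386, nat_lit 3778, nat_lit 993, nat_lit 11347, nat_lit 7758, nat_lit 2855, nat_lit 7312, nat_lit 11657, nat_lit 3412, nat_lit 5398, nat_lit 10050, nat_lit 11785, nat_lit 3457, nat_lit 11244, nat_lit 9991, nat_lit 2466, nat_lit 330, nat_lit 10971, nat_lit 7825, nat_lit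 8882, nat_lit 5026, nat_lit 9325, nat_lit 9956, nat_lit 9973, nat_lit 3582, nat_lit 9230, nat_lit 11731, nat_lit 7454, nat_lit 10946, nat_lit 7875, nat_lit 3949, nat_lit 8816],
   [nat_lit 0, nat_lit 0, nat_lit 8093, nat_lit 9265, nat_lit 763, nat_lit 1644, nat_lit 9451, nat_lit 4476, nat_lit 4554, nat_lit 5412, nat_lit 8094, nat_lit 5014, nat_lit 77, nat_lit 9953, nat_lit 5855],
   [nat_lit 0, nat_lit 8896, nat_lit 6665, nat_lit 9270, nat_lit 11087, nat_lit 5660, nat_lit 8429, nat_lit 10517, nat_lit 8502, nat_lit 10097, nat_lit 1320, nat_lit 7469, nat_lit 2829, nat_lit 9411, nat_lit 4956]),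
  ([nat_lit 0, nat_lit 6647, nat_lit 11112, nat_lit 641, nat_lit 4885, nat_lit 10055, nat_lit 5699, nat_lit 9028, nat_lit 2987, nat_lit 522, nat_lit 6392, nat_lit 4858, nat_lit 1079, nat_lit 6315, nat_lit 5399, nat_lit 3911, nat_lit 8747, nat_lit 3427, nat_lit 8250, nat_lit 2497, nat_lit 7520, nat_lit 5342, nat_lit 1347, nat_lit 7944, nat_lit 8366, nat_lit 7237, nat_lit 4607, nat_lit 3709, nat_lit 4586, nat_lit 10652, nat_lit 11176, nat_lit 4294, nat_lit 4259, nat_lit 6370, nat_lit 2624, nat_lit 7383, nat_lit 2338, nat_lit 7317, nat_lit 4366, nat_lit 2830, nat_lit 5690, nat_lit 10938, nat_lit 10297, nat_lit 8002, nat_lit 7137, nat_lit 4335, nat_lit 10512, nat_lit 881, nat_lit 6651, nat_lit 1101, nat_lit 11357, nat_lit 4686, nat_lit 9273, nat_lit 8106, nat_lit 2786, nat_lit 7557, nat_lit 5876, nat_lit 2411, nat_lit 11018, nat_lit 7876, nat_lit 10858, nat_lit 3724, nat_lit 4740, nat_lit 5732],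
   [nat_lit 0, nat_lit 0, nat_lit 11790, nat_lit 10137, nat_lit 8393, nat_lit 8508, nat_lit 5029, nat_lit 10069, nat_lit 10993, nat_lit 9276, nat_lit 9974, nat_lit 7303, nat_lit 2740, nat_lit 8234, nat_lit 815],
   [nat_lit 0, nat_lit 3024, nat_lit 3099, nat_lit 1057, nat_lit 1142, nat_lit 10386, nat_lit 7545, nat_lit 5776, nat_lit 5668, nat_lit 8112, nat_lit 2842, nat_lit 4398, nat_lit 7009, nat_lit 6383, nat_lit 5702]),
  ([nat_lit 0, nat_lit 5460, nat_lit 1120, nat_lit 4752, nat_lit 6095, nat_lit 3571, nat_lit 7366, nat_lit 7616, nat_lit 1088, nat_lit 8726, nat_lit 3792, nat_lit 11789, nat_lit 11391, nat_lit 2869, nat_lit 3307, nat_lit 283, nat_lit 10111, nat_lit 4665, nat_lit 10634, nat_lit 2775, nat_lit 11450, nat_lit 7407, nat_lit 5037, nat_lit 3880, nat_lit 11253, nat_lit 5126, nat_lit 3997, nat_lit 639, nat_lit 505, nat_lit 4401, nat_lit 10065, nat_lit 7960, nat_lit 2140, nat_lit 1831, nat_lit 10315, nat_lit 7339, nat_lit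 8584, nat_lit 1456, nat_lit 4657, nat_lit 3835, nat_lit 9264, nat_lit 6132, nat_lit 1380, nat_lit 10130, nat_lit 3773, nat_lit 4594, nat_lit 4883, nat_lit 5623, nat_lit 11217, nat_lit 1471, nat_lit 6217, nat_lit 1858, nat_lit 832, nat_lit 5359, nat_lit 11794, nat_lit 2327, nat_lit 9642, nat_lit 3750, nat_lit 2462, nat_lit 1059, nat_lit 9802, nat_lit 1436, nat_lit 2351, nat_lit 4367],
   [nat_lit 0, nat_lit 0, nat_lit 8630, nat_lit 8720, nat_lit 6976, nat_lit 7709, nat_lit 11370, nat_lit 5899, nat_lit 5094, nat_lit 8120, nat_lit 8772, nat_lit 11009, nat_lit 10934, nat_lit 11368, nat_lit 11621],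
   [nat_lit 0, nat_lit 3846, nat_lit 7831, nat_lit 9430, nat_lit 3991, nat_lit 7693, nat_lit 8818, nat_lit 8289, nat_lit 7303, nat_lit 8054, nat_lit 9225, nat_lit 3189, nat_lit 9645, nat_lit 5690, nat_lit 2773]),
  ([nat_lit 0, nat_lit 7538, nat_lit 5174, nat_lit 1909, nat_lit 10525, nat_lit 9962, nat_lit 9056, nat_lit 2396, nat_lit 9327, nat_lit 8970, nat_lit 4419, nat_lit 3179, nat_lit 1129, nat_lit 10251, nat_lit 2995, nat_lit 4307, nat_lit 3967, nat_lit 6241, nat_lit 9663, nat_lit 10985, nat_lit 2243, nat_lit 2553, nat_lit 6481, nat_lit 9212, nat_lit 6715, nat_lit 8627, nat_lit 2860, nat_lit 9403, nat_lit 6254, nat_lit 3961, nat_lit 8009, nat_lit 3395, nat_lit 368, nat_lit 7549, nat_lit 8216, nat_lit 955, nat_lit 10211, nat_lit 8492, nat_lit 5290, nat_lit 797, nat_lit 6462, nat_lit 4800, nat_lit 4308, nat_lit 8937, nat_lit 2392, nat_lit 8333, nat_lit 9293, nat_lit 196, nat_lit 7504, nat_lit 4212, nat_lit 5435, nat_lit 10527,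 nat_lit 5709, nat_lit 10015, nat_lit 1389, nat_lit 4926, nat_lit 3573, nat_lit 2451, nat_lit 3684, nat_lit 5430, nat_lit 10821, nat_lit 1918, nat_lit 1457, nat_lit 1309],
   [nat_lit 0, nat_lit 0, nat_lit 9657, nat_lit 5559, nat_lit 7303, nat_lit 2238, nat_lit 2979, nat_lit 9843, nat_lit 1117, nat_lit 9880, nat_lit 3511, nat_lit 7303, nat_lit 8538, nat_lit 3695, nat_lit 4136],
   [nat_lit 0, nat_lit 11247, nat_lit 1726, nat_lit 10145, nat_lit 3700, nat_lit 2516, nat_lit 8298, nat_lit 4968, nat_lit 1417, nat_lit 1898, nat_lit 9088, nat_lit 6653, nat_lit 10347, nat_lit 1934, nat_lit 4507]),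
  ([nat_lit 0, nat_lit 11685, nat_lit 5734, nat_lit 1015, nat_lit 1964, nat_lit 9622, nat_lit 7725, nat_lit 5332, nat_lit 715, nat_lit 4504, nat_lit 8495, nat_lit 3678, nat_lit 8732, nat_lit 3238, nat_lit 2196, nat_lit 10607, nat_lit 11257, nat_lit 780, nat_lit 9203, nat_lit 5451, nat_lit 6769, nat_lit 11434, nat_lit 7855, nat_lit 797, nat_lit 3676, nat_lit 4977, nat_lit 7093, nat_lit 9777, nat_lit 21, nat_lit 5235, nat_lit 4812, nat_lit 10427, nat_lit 8741, nat_lit 6230, nat_lit 5035, nat_lit 10783, nat_lit 8072, nat_lit 4206, nat_lit 4294, nat_lit 9309, nat_lit 85, nat_lit 8738, nat_lit 2491, nat_lit 8007, nat_lit 9347, nat_lit 5943, nat_lit 9500, nat_lit 8294, nat_lit 8698, nat_lit 7618, nat_lit 9688, nat_lit 10475, nat_lit 7215, nat_lit 977, nat_lit 5542, nat_lit 2438, nat_lit 2399, nat_lit 1383, nat_lit 4697, nat_lit 11246, nat_lit 680, nat_lit 6887, nat_lit 8682, nat_lit 168],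
   [nat_lit 0, nat_lit 0, nat_lit 10375, nat_lit 7303, nat_lit 4578, nat_lit 2114, nat_lit 5939, nat_lit 1402, nat_lit 9441, nat_lit 3040, nat_lit 10513, nat_lit 763, nat_lit 3323, nat_lit 2185, nat_lit 3243],
   [nat_lit 0, nat_lit 11426, nat_lit 6786, nat_lit 8211, nat_lit 10655, nat_lit 3583, nat_lit 4641, nat_lit 9167, nat_lit 10028, nat_lit 3636, nat_lit 3945, nat_lit 4705, nat_lit 11736, nat_lit 6196, nat_lit 3877]),
  ([nat_lit 0, nat_lit 2477, nat_lit 455, nat_lit 4492, nat_lit 5041, nat_lit 6073, nat_lit 1664, nat_lit 11487, nat_lit 10579, nat_lit 4233, nat_lit 7263, nat_lit 3110, nat_lit 10953, nat_lit 1966, nat_lit 6429, nat_lit 568, nat_lit 9125, nat_lit 2900, nat_lit 4286, nat_lit 5300, nat_lit 11212, nat_lit 11351, nat_lit 8869, nat_lit 3075, nat_lit 6462, nat_lit 1190, nat_lit 5231, nat_lit 7348, nat_lit 2300, nat_lit 2384, nat_lit 5012, nat_lit 7294, nat_lit 7641, nat_lit 1701, nat_lit 10584, nat_lit 9702, nat_lit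 10109, nat_lit 2608, nat_lit 1943, nat_lit 10622, nat_lit 875, nat_lit 243, nat_lit 10357, nat_lit 4272, nat_lit 11026, nat_lit 61, nat_lit 4862, nat_lit 7438, nat_lit 8750, nat_lit 6814, nat_lit 3694, nat_lit 4454, nat_lit 8404, nat_lit 9974, nat_lit 1569, nat_lit 11549, nat_lit 10314, nat_lit 2593, nat_lit 8092, nat_lit 7941, nat_lit 9180, nat_lit 11061, nat_lit 6027, nat_lit 306],
   [nat_lit 0, nat_lit 0, nat_lit 9099, nat_lit 3379, nat_lit 9919, nat_lit 3578, nat_lit 6220, nat_lit 8790, nat_lit 1177, nat_lit 2999, nat_lit 62, nat_lit 1962, nat_lit 3931, nat_lit 9387, nat_lit 4704],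
   [nat_lit 0, nat_lit 4703, nat_lit 3866, nat_lit 11059, nat_lit 5140, nat_lit 3081, nat_lit 10388, nat_lit 2601, nat_lit 6322, nat_lit 3742, nat_lit 4262, nat_lit 5257, nat_lit 7362, nat_lit 1133, nat_lit 183]),
  ([nat_lit 0, nat_lit 6380, nat_lit 6932, nat_lit 1249, nat_lit 1888, nat_lit 307, nat_lit 5423, nat_lit 1205, nat_lit 9297, nat_lit 8188, nat_lit 6145, nat_lit 10846, nat_lit 5878, nat_lit 7397, nat_lit 9218, nat_lit 4519, nat_lit 3795, nat_lit 10598, nat_lit 2839, nat_lit 6285, nat_lit 3299, nat_lit 1061, nat_lit 2793, nat_lit 922, nat_lit 9067, nat_lit 6492, nat_lit 4391, nat_lit 8197, nat_lit 7071, nat_lit 4467, nat_lit 389, nat_lit 11070, nat_lit 2275, nat_lit 5693, nat_lit 422, nat_lit 6945, nat_lit 2830, nat_lit 9404, nat_lit 8764, nat_lit 7855, nat_lit 11679, nat_lit 5329, nat_lit 1246, nat_lit 5780, nat_lit 1326, nat_lit 7701, nat_lit 9835, nat_lit 8459, nat_lit 7790, nat_lit 5785, nat_lit 372, nat_lit 7332,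 nat_lit 2057, nat_lit 8432, nat_lit 7496, nat_lit 3861, nat_lit 5195, nat_lit 3765, nat_lit 3554, nat_lit 8017, nat_lit 5687, nat_lit 9179, nat_lit 7728, nat_lit 8717],
   [nat_lit 0, nat_lit 0, nat_lit 4928, nat_lit 1526, nat_lit 5777, nat_lit 5167, nat_lit 2181, nat_lit 6768, nat_lit 4933, nat_lit 10145, nat_lit 5381, nat_lit 9919, nat_lit 2399, nat_lit 1123, nat_lit 7539],
   [nat_lit 0, nat_lit 3101, nat_lit 2234, nat_lit 11530, nat_lit 1108, nat_lit 2807, nat_lit 503, nat_lit 792, nat_lit 2071, nat_lit 1936, nat_lit 7616, nat_lit 9362, nat_lit 10597, nat_lit 3354, nat_lit 3701]),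
  ([nat_lit 0, nat_lit 10358, nat_lit 8729, nat_lit 3998, nat_lit 11475, nat_lit 450, nat_lit 5240, nat_lit 3353, nat_lit 10725, nat_lit 5539, nat_lit 5563, nat_lit 10480, nat_lit 1379, nat_lit 9875, nat_lit 10377, nat_lit 1709, nat_lit 5137, nat_lit 364, nat_lit 4084, nat_lit 4375, nat_lit 8667, nat_lit 162, nat_lit 7190, nat_lit 5415, nat_lit 2493, nat_lit 2279, nat_lit 4153, nat_lit 6481, nat_lit 3476, nat_lit 4187, nat_lit 1112, nat_lit 6203, nat_lit 4457, nat_lit 9738, nat_lit 4566, nat_lit 2169, nat_lit 3142, nat_lit 6083, nat_lit 6422, nat_lit 6328, nat_lit 10540, nat_lit 3322, nat_lit 3684, nat_lit 6963, nat_lit 8097, nat_lit 10011, nat_lit 11591, nat_lit 2221, nat_lit 3485, nat_lit 3526, nat_lit 3293, nat_lit 7032, nat_lit 9362, nat_lit 11276, nat_lit 8356, nat_lit 164, nat_lit 5138, nat_lit 1997, nat_lit 11595, nat_lit 11403, nat_lit 9110, nat_lit 6295, nat_lit 956, nat_lit 5463],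
   [nat_lit 0, nat_lit 0, nat_lit 954, nat_lit 1308, nat_lit 6649, nat_lit 3479, nat_lit 2539, nat_lit 7405, nat_lit 9398, nat_lit 474, nat_lit 844, nat_lit 8502, nat_lit 9515, nat_lit 2691, nat_lit 4936],
   [nat_lit 0, nat_lit 11705, nat_lit 4126, nat_lit 10786, nat_lit 1121, nat_lit 2515, nat_lit 1163, nat_lit 11610, nat_lit 6867, nat_lit 4618, nat_lit 9035, nat_lit 1687, nat_lit 8180, nat_lit 6503, nat_lit 3219]),
  ([nat_lit 0, nat_lit 6307, nat_lit 11836, nat_lit 7151, nat_lit 831, nat_lit 3527, nat_lit 5955, nat_lit 6452, nat_lit 10794, nat_lit 4787, nat_lit 6084, nat_lit 29, nat_lit 9673, nat_lit 5452, nat_lit 9809, nat_lit 6715, nat_lit 3854, nat_lit 5810, nat_lit 4868, nat_lit 7228, nat_lit 3535, nat_lit 11725, nat_lit 1437, nat_lit 66, nat_lit 5520, nat_lit 4846, nat_lit 10082, nat_lit 5200, nat_lit 11614, nat_lit 6969, nat_lit 8610, nat_lit 8988, nat_lit 6709, nat_lit 6464, nat_lit 6164, nat_lit 5832, nat_lit 4455,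 nat_lit 2503, nat_lit 7457, nat_lit 1387, nat_lit 9212, nat_lit 8242, nat_lit 3053, nat_lit 6496, nat_lit 5404, nat_lit 4881, nat_lit 9080, nat_lit 6662, nat_lit 7645, nat_lit 1445, nat_lit 9150, nat_lit 11710, nat_lit 5946, nat_lit 5423, nat_lit 9995, nat_lit 10843, nat_lit 3413, nat_lit 10398, nat_lit 7316, nat_lit 8821, nat_lit 10149, nat_lit 4059, nat_lit 6120, nat_lit 2660],
   [nat_lit 0, nat_lit 0, nat_lit 7002, nat_lit 5341, nat_lit 2398, nat_lit 8329, nat_lit 8996, nat_lit 1670, nat_lit 1951, nat_lit 4824, nat_lit 7988, nat_lit 5014, nat_lit 9759, nat_lit 1369, nat_lit 9328],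
   [nat_lit 0, nat_lit 6330, nat_lit 10108, nat_lit 7655, nat_lit 4641, nat_lit 1922, nat_lit 9881, nat_lit 701, nat_lit 1308, nat_lit 6994, nat_lit 7581, nat_lit 4536, nat_lit 4444, nat_lit 7379, nat_lit 6141]),
  ([nat_lit 0, nat_lit 9682, nat_lit 8445, nat_lit 3201, nat_lit 682, nat_lit 9249, nat_lit 4927, nat_lit 6414, nat_lit 9138, nat_lit 8229, nat_lit 9821, nat_lit 3641, nat_lit 931, nat_lit 10888, nat_lit 11451, nat_lit 9741, nat_lit 10557, nat_lit 10811, nat_lit 3056, nat_lit 11677, nat_lit 3097, nat_lit 11073, nat_lit 8055, nat_lit 10177, nat_lit 11788, nat_lit 3079, nat_lit 1965, nat_lit 8476, nat_lit 4000, nat_lit 8217, nat_lit 2513, nat_lit 6785, nat_lit 9341, nat_lit 10811, nat_lit 11630, nat_lit 4139, nat_lit 10766, nat_lit 8417, nat_lit 8014, nat_lit 11080, nat_lit 209, nat_lit 7446, nat_lit 11548, nat_lit 8766, nat_lit 2892, nat_lit 11044, nat_lit 6451, nat_lit 5154, nat_lit 11682, nat_lit 4410, nat_lit 8865,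 nat_lit 2552, nat_lit 6398, nat_lit 11716, nat_lit 3359, nat_lit 2631, nat_lit 7099, nat_lit 723, nat_lit 7661, nat_lit 4844, nat_lit 2544, nat_lit 716, nat_lit 8079, nat_lit 5295],
   [nat_lit 0, nat_lit 0, nat_lit 1915, nat_lit 2398, nat_lit 7630, nat_lit 9431, nat_lit 9244, nat_lit 11671, nat_lit 4862, nat_lit 11822, nat_lit 3193, nat_lit 5232, nat_lit 197, nat_lit 7155, nat_lit 2456],
   [nat_lit 0, nat_lit 6056, nat_lit 11837, nat_lit 68, nat_lit 8560, nat_lit 6998, nat_lit 5787, nat_lit 7566, nat_lit 6431, nat_lit 1636, nat_lit 4654, nat_lit 11806, nat_lit 8216, nat_lit 3904, nat_lit 5228]),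
  ([nat_lit 0, nat_lit 10576, nat_lit 10146, nat_lit 1055, nat_lit 8096, nat_lit 7862, nat_lit 7747, nat_lit 4661, nat_lit 2441, nat_lit 8046, nat_lit 9814, nat_lit 8627, nat_lit 5194, nat_lit 4534, nat_lit 2856, nat_lit 1491, nat_lit 9388, nat_lit 10501, nat_lit 11714, nat_lit 560, nat_lit 10302, nat_lit 5939, nat_lit 4901, nat_lit 837, nat_lit 4455, nat_lit 3042, nat_lit 10475, nat_lit 8879, nat_lit 4457, nat_lit 4732, nat_lit 2093, nat_lit 10890, nat_lit 10343, nat_lit 5160, nat_lit 8599, nat_lit 2823, nat_lit 7284, nat_lit 11097, nat_lit 6422, nat_lit 3930, nat_lit 1275, nat_lit 7791, nat_lit 8044, nat_lit 2167, nat_lit 7879, nat_lit 4016, nat_lit 4833, nat_lit 9633, nat_lit 9589, nat_lit 583, nat_lit 2857, nat_lit 8231, nat_lit 7073, nat_lit 1248, nat_lit 6067, nat_lit 6268, nat_lit 8844, nat_lit 2978, nat_lit 1458, nat_lit 1266, nat_lit 499, nat_lit 9565, nat_lit 6406, nat_lit 558],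
   [nat_lit 0, nat_lit 0, nat_lit 6295, nat_lit 10682, nat_lit 7739, nat_lit 11763, nat_lit 2539, nat_lit 4135, nat_lit 1768, nat_lit 11701, nat_lit 3787, nat_lit 9919, nat_lit 1449, nat_lit 9231, nat_lit 5372],
   [nat_lit 0, nat_lit 1023, nat_lit 529, nat_lit 8279, nat_lit 9405, nat_lit 2733, nat_lit 2907, nat_lit 8122, nat_lit 6976, nat_lit 5381, nat_lit 5111, nat_lit 4521, nat_lit 6654, nat_lit 6503, nat_lit 9323]),
  ([nat_lit 0, nat_lit 459, nat_lit 2685, nat_lit 1621, nat_lit 12, nat_lit 3886, nat_lit 4821, nat_lit 8012, nat_lit 10939, nat_lit 6096, nat_lit 6062, nat_lit 922, nat_lit 5413, nat_lit 4059, nat_lit 7399, nat_lit 7725, nat_lit 507, nat_lit 211, nat_lit 173, nat_lit 9598, nat_lit 6606, nat_lit 3422, nat_lit 1568, nat_lit 2275, nat_lit 1564, nat_lit 1631, nat_lit 375, nat_lit 10484, nat_lit 2306, nat_lit 8847, nat_lit 6963, nat_lit 9479, nat_lit 7974, nat_lit 5225, nat_lit 11680, nat_lit 4094, nat_lit 10064,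 nat_lit 6924, nat_lit 803, nat_lit 3970, nat_lit 2799, nat_lit 4795, nat_lit 122, nat_lit 191, nat_lit 6487, nat_lit 8953, nat_lit 6860, nat_lit 11614, nat_lit 9460, nat_lit 146, nat_lit 3301, nat_lit 284, nat_lit 4159, nat_lit 7933, nat_lit 8182, nat_lit 7870, nat_lit 660, nat_lit 10260, nat_lit 1368, nat_lit 7090, nat_lit 7132, nat_lit 229, nat_lit 8710, nat_lit 1771],
   [nat_lit 0, nat_lit 0, nat_lit 10257, nat_lit 3815, nat_lit 4796, nat_lit 9959, nat_lit 9365, nat_lit 9066, nat_lit 3345, nat_lit 5923, nat_lit 6289, nat_lit 2180, nat_lit 1735, nat_lit 2646, nat_lit 10956],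
   [nat_lit 0, nat_lit 10677, nat_lit 2348, nat_lit 5012, nat_lit 2236, nat_lit 3404, nat_lit 10733, nat_lit 2246, nat_lit 5886, nat_lit 8409, nat_lit 5576, nat_lit 6975, nat_lit 1746, nat_lit 1315, nat_lit 10727]),
  ([nat_lit 0, nat_lit 10039, nat_lit 3085, nat_lit 8083, nat_lit 11119, nat_lit 8408, nat_lit 3590, nat_lit 6481, nat_lit 9023, nat_lit 6939, nat_lit 3866, nat_lit 4564, nat_lit 4148, nat_lit 2164, nat_lit 9491, nat_lit 10699, nat_lit 10261, nat_lit 11835, nat_lit 11741, nat_lit 10083, nat_lit 10088, nat_lit 8115, nat_lit 5072, nat_lit 2088, nat_lit 3582, nat_lit 4832, nat_lit 3928, nat_lit 1346, nat_lit 7477, nat_lit 11501, nat_lit 226, nat_lit 2543, nat_lit 8022, nat_lit 2788, nat_lit 11510, nat_lit 3484, nat_lit 5453, nat_lit 2975, nat_lit 10758, nat_lit 7216, nat_lit 7400, nat_lit 5023, nat_lit 4461, nat_lit 9181, nat_lit 2657, nat_lit 1936, nat_lit 8129, nat_lit 7308, nat_lit 11107, nat_lit 11330, nat_lit 5389,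 nat_lit 11287, nat_lit 4752, nat_lit 6211, nat_lit 10292, nat_lit 5252, nat_lit 1472, nat_lit 11864, nat_lit 11668, nat_lit 5841, nat_lit 5245, nat_lit 5242, nat_lit 1725, nat_lit 9894],
   [nat_lit 0, nat_lit 0, nat_lit 4915, nat_lit 1526, nat_lit 10682, nat_lit 5199, nat_lit 11635, nat_lit 2663, nat_lit 197, nat_lit 2501, nat_lit 9998, nat_lit 0, nat_lit 2043, nat_lit 7687, nat_lit 8979],
   [nat_lit 0, nat_lit 10945, nat_lit 1976, nat_lit 9174, nat_lit 10614, nat_lit 11547, nat_lit 3247, nat_lit 1150, nat_lit 8502, nat_lit 4543, nat_lit 1155, nat_lit 8947, nat_lit 7503, nat_lit 9311, nat_lit 358]),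
  ([nat_lit 0, nat_lit 6929, nat_lit 1276, nat_lit 10649, nat_lit 3563, nat_lit 8646, nat_lit 10593, nat_lit 4949, nat_lit 3759, nat_lit 8670, nat_lit 228, nat_lit 3201, nat_lit 10042, nat_lit 10681, nat_lit 9429, nat_lit 4872, nat_lit 5049, nat_lit 7668, nat_lit 8357, nat_lit 8376, nat_lit 3410, nat_lit 7381, nat_lit 4786, nat_lit 621, nat_lit 11410, nat_lit 5534, nat_lit 2807, nat_lit 8082, nat_lit 4221, nat_lit 9105, nat_lit 3652, nat_lit 193, nat_lit 9453, nat_lit 6360, nat_lit 9671, nat_lit 6567, nat_lit 8945, nat_lit 3599, nat_lit 3302, nat_lit 11569, nat_lit 4659, nat_lit 8305, nat_lit 3324, nat_lit 8415, nat_lit 3402, nat_lit 4263, nat_lit 2981, nat_lit 8114, nat_lit 10729, nat_lit 10232, nat_lit 3600, nat_lit 10168, nat_lit 1823, nat_lit 11731, nat_lit 398, nat_lit 4225, nat_lit 4125, nat_lit 251, nat_lit 2446, nat_lit 10904, nat_lit 6425, nat_lit 2276, nat_lit 9475, nat_lit 8371],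
   [nat_lit 0, nat_lit 0, nat_lit 1513, nat_lit 7521, nat_lit 5123, nat_lit 2212, nat_lit 952, nat_lit 11700, nat_lit 11069, nat_lit 1512, nat_lit 9631, nat_lit 0, nat_lit 9672, nat_lit 9507, nat_lit 2312],
   [nat_lit 0, nat_lit 541, nat_lit 178, nat_lit 10615, nat_lit 6127, nat_lit 1437, nat_lit 9720, nat_lit 10277, nat_lit 7957, nat_lit 9801, nat_lit 5311, nat_lit 5580, nat_lit 4536, nat_lit 9990, nat_lit 7993]),
  ([nat_lit 0, nat_lit 6669, nat_lit 7581, nat_lit 9068, nat_lit 10228, nat_lit 10194, nat_lit 7320, nat_lit 5967, nat_lit 4465, nat_lit 4154, nat_lit 2025, nat_lit 2323, nat_lit 11337, nat_lit 4975, nat_lit 3235, nat_lit 9504, nat_lit 602, nat_lit 6823, nat_lit 3719, nat_lit 6858, nat_lit 1209, nat_lit 3805, nat_lit 3425, nat_lit 10049, nat_lit 11606, nat_lit 1314, nat_lit 10392, nat_lit 9562, nat_lit 7005, nat_lit 1608, nat_lit 3671, nat_lit 6873, nat_lit 9076, nat_lit 3335, nat_lit 5697, nat_lit 10645, nat_lit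 10192, nat_lit 1168, nat_lit 4627, nat_lit 7234, nat_lit 3704, nat_lit 8885, nat_lit 7011, nat_lit 8924, nat_lit 11143, nat_lit 8316, nat_lit 2245, nat_lit 5469, nat_lit 4776, nat_lit 7084, nat_lit 8837, nat_lit 3389, nat_lit 8531, nat_lit 2107, nat_lit 10726, nat_lit 2038, nat_lit 7403, nat_lit 197, nat_lit 10156, nat_lit 4298, nat_lit 2818, nat_lit 1455, nat_lit 11460, nat_lit 4156],
   [nat_lit 0, nat_lit 0, nat_lit 7341, nat_lit 8175, nat_lit 9701, nat_lit 9641, nat_lit 3556, nat_lit 1988, nat_lit 10297, nat_lit 11553, nat_lit 7843, nat_lit 0, nat_lit 1485, nat_lit 7367, nat_lit 4276],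
   [nat_lit 0, nat_lit 2460, nat_lit 10648, nat_lit 9704, nat_lit 10489, nat_lit 6666, nat_lit 6627, nat_lit 7640, nat_lit 1417, nat_lit 4663, nat_lit 1991, nat_lit 9539, nat_lit 10897, nat_lit 4622, nat_lit 4238]),
  ([nat_lit 0, nat_lit 11793, nat_lit 3115, nat_lit 7712, nat_lit 10456, nat_lit 6311, nat_lit 3653, nat_lit 6031, nat_lit 192, nat_lit 8798, nat_lit 4606, nat_lit 7088, nat_lit 10416, nat_lit 4270, nat_lit 1135, nat_lit 3679, nat_lit 1733, nat_lit 11595, nat_lit 6243, nat_lit 6427, nat_lit 3553, nat_lit 7238, nat_lit 8910, nat_lit 3352, nat_lit 1210, nat_lit 5053, nat_lit 4219, nat_lit 11359, nat_lit 1442, nat_lit 6964, nat_lit 6476, nat_lit 8977, nat_lit 5693, nat_lit 3638, nat_lit 10816, nat_lit 7117, nat_lit 3028, nat_lit 11080, nat_lit 6259, nat_lit 9198, nat_lit 205, nat_lit 5923, nat_lit 1372, nat_lit 10046, nat_lit 1852, nat_lit 5658, nat_lit 368, nat_lit 1813, nat_lit 5865, nat_lit 5062, nat_lit 11606, nat_lit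 7368, nat_lit 679, nat_lit 125, nat_lit 5191, nat_lit 10631, nat_lit 868, nat_lit 2534, nat_lit 11405, nat_lit 1559, nat_lit 7635, nat_lit 11147, nat_lit 8327, nat_lit 11427],
   [nat_lit 0, nat_lit 0, nat_lit 4825, nat_lit 7412, nat_lit 10246, nat_lit 7894, nat_lit 3712, nat_lit 10088, nat_lit 9651, nat_lit 11166, nat_lit 10268, nat_lit 11118, nat_lit 1423, nat_lit 7392, nat_lit 8174],
   [nat_lit 0, nat_lit 10649, nat_lit 10570, nat_lit 292, nat_lit 4359, nat_lit 8231, nat_lit 5634, nat_lit 10638, nat_lit 9156, nat_lit 1697, nat_lit 9072, nat_lit 1890, nat_lit 10826, nat_lit 11404, nat_lit 4657]),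
  ([nat_lit 0, nat_lit 4902, nat_lit 2280, nat_lit 689, nat_lit 9126, nat_lit 9578, nat_lit 6314, nat_lit 6784, nat_lit 9658, nat_lit 11574, nat_lit 6536, nat_lit 7396, nat_lit 801, nat_lit 10508, nat_lit 1068, nat_lit 9627, nat_lit 2711, nat_lit 9228, nat_lit 603, nat_lit 6852, nat_lit 8337, nat_lit 8558, nat_lit 6217, nat_lit 689, nat_lit 4483, nat_lit 8948, nat_lit 11107, nat_lit 7580, nat_lit 4917, nat_lit 2135, nat_lit 7717, nat_lit 8621, nat_lit 9931, nat_lit 10536, nat_lit 8405, nat_lit 1646, nat_lit 9502, nat_lit 2637, nat_lit 5677, nat_lit 9804, nat_lit 10715, nat_lit 7687, nat_lit 11467, nat_lit 8079, nat_lit 7054, nat_lit 5467, nat_lit 8247, nat_lit 1485, nat_lit 10031, nat_lit 4976, nat_lit 4882, nat_lit 3214, nat_lit 4263, nat_lit 10197, nat_lit 5378, nat_lit 490, nat_lit 5326, nat_lit 5088, nat_lit 4755, nat_lit 9525, nat_lit 1136, nat_lit 1880, nat_lit 2641, nat_lit 1622],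
   [nat_lit 0, nat_lit 0, nat_lit 5804, nat_lit 8284, nat_lit 5995, nat_lit 554, nat_lit 9124, nat_lit 7310, nat_lit 4227, nat_lit 7919, nat_lit 5805, nat_lit 4905, nat_lit 11631, nat_lit 10171, nat_lit 9343],
   [nat_lit 0, nat_lit 5735, nat_lit 3722, nat_lit 11450, nat_lit 5637, nat_lit 2281, nat_lit 10173, nat_lit 10626, nat_lit 8175, nat_lit 3339, nat_lit 11566, nat_lit 2891, nat_lit 7843, nat_lit 6904, nat_lit 487]),
  ([nat_lit 0, nat_lit 9697, nat_lit 860, nat_lit 7604, nat_lit 396, nat_lit 6485, nat_lit 6929, nat_lit 4431, nat_lit 6192, nat_lit 8129, nat_lit 1775, nat_lit 9171, nat_lit 10769, nat_lit 10123, nat_lit 1969, nat_lit 7822, nat_lit 7684, nat_lit 1077, nat_lit 10178, nat_lit 6956, nat_lit 6647, nat_lit 5234, nat_lit 9343, nat_lit 11310, nat_lit 3216, nat_lit 9242, nat_lit 2565, nat_lit 8072, nat_lit 5466, nat_lit 10622, nat_lit 443, nat_lit 7716, nat_lit 9717, nat_lit 4020, nat_lit 3831, nat_lit 487, nat_lit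 4349, nat_lit 9511, nat_lit 11021, nat_lit 5551, nat_lit 589, nat_lit 5635, nat_lit 8604, nat_lit 9791, nat_lit 6644, nat_lit 5618, nat_lit 5110, nat_lit 999, nat_lit 11558, nat_lit 4491, nat_lit 3421, nat_lit 1633, nat_lit 5139, nat_lit 5094, nat_lit 4482, nat_lit 399, nat_lit 10226, nat_lit 4386, nat_lit 7975, nat_lit 11719, nat_lit 9944, nat_lit 9846, nat_lit 11115, nat_lit 10592],
   [nat_lit 0, nat_lit 0, nat_lit 11045, nat_lit 3924, nat_lit 8720, nat_lit 8514, nat_lit 11257, nat_lit 1499, nat_lit 5636, nat_lit 4709, nat_lit 110, nat_lit 10900, nat_lit 4717, nat_lit 5459, nat_lit 6208],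
   [nat_lit 0, nat_lit 6048, nat_lit 7615, nat_lit 11270, nat_lit 10023, nat_lit 6493, nat_lit 9749, nat_lit 3050, nat_lit 5995, nat_lit 8703, nat_lit 6120, nat_lit 9232, nat_lit 10857, nat_lit 11022, nat_lit 1158]),
  ([nat_lit 0, nat_lit 10728, nat_lit 10057, nat_lit 4986, nat_lit 4275, nat_lit 6246, nat_lit 11822, nat_lit 5560, nat_lit 7926, nat_lit 8268, nat_lit 4058, nat_lit 6858, nat_lit 10172, nat_lit 10516, nat_lit 8040, nat_lit 11199, nat_lit 905, nat_lit 6744, nat_lit 4706, nat_lit 8405, nat_lit 1876, nat_lit 4446, nat_lit 3899, nat_lit 6294, nat_lit 9559, nat_lit 5006, nat_lit 10669, nat_lit 9414, nat_lit 10171, nat_lit 6685, nat_lit 10874, nat_lit 2717, nat_lit 8318, nat_lit 6853, nat_lit 4939, nat_lit 449, nat_lit 6394, nat_lit 223, nat_lit 189, nat_lit 4125, nat_lit 11593, nat_lit 9045, nat_lit 3078, nat_lit 2889, nat_lit 11230, nat_lit 1774, nat_lit 1839, nat_lit 10693, nat_lit 11508, nat_lit 74, nat_lit 8237,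 nat_lit 1113, nat_lit 6683, nat_lit 3876, nat_lit 2085, nat_lit 1788, nat_lit 4917, nat_lit 682, nat_lit 11347, nat_lit 10474, nat_lit 1947, nat_lit 2965, nat_lit 9681, nat_lit 8338],
   [nat_lit 0, nat_lit 0, nat_lit 1984, nat_lit 5014, nat_lit 7521, nat_lit 1388, nat_lit 2271, nat_lit 8867, nat_lit 8870, nat_lit 10647, nat_lit 8109, nat_lit 2398, nat_lit 8375, nat_lit 3984, nat_lit 5126],
   [nat_lit 0, nat_lit 2170, nat_lit 7748, nat_lit 323, nat_lit 3709, nat_lit 5391, nat_lit 3045, nat_lit 11032, nat_lit 5886, nat_lit 10278, nat_lit 2323, nat_lit 3486, nat_lit 8506, nat_lit 6445, nat_lit 1071]),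
  ([nat_lit 0, nat_lit 10248, nat_lit 2404, nat_lit 776, nat_lit 10702, nat_lit 11309, nat_lit 5419, nat_lit 1218, nat_lit 1591, nat_lit 10051, nat_lit 9086, nat_lit 810, nat_lit 7750, nat_lit 9381, nat_lit 4411, nat_lit 13, nat_lit 4878, nat_lit 9871, nat_lit 6356, nat_lit 11564, nat_lit 10138, nat_lit 3051, nat_lit 11406, nat_lit 1866, nat_lit 3842, nat_lit 3772, nat_lit 3786, nat_lit 5883, nat_lit 5224, nat_lit 3409, nat_lit 10733, nat_lit 7805, nat_lit 5660, nat_lit 61, nat_lit 864, nat_lit 5479, nat_lit 4965, nat_lit 4891, nat_lit 2174, nat_lit 113, nat_lit 9134, nat_lit 507, nat_lit 4854, nat_lit 2680, nat_lit 7033, nat_lit 1987, nat_lit 11724, nat_lit 5005, nat_lit 8282, nat_lit 8709, nat_lit 3031, nat_lit 7522, nat_lit 10238, nat_lit 832, nat_lit 3427, nat_lit 1708, nat_lit 4697, nat_lit 11868, nat_lit 5550, nat_lit 10218, nat_lit 11269, nat_lit 4560, nat_lit 3108, nat_lit 8656],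
   [nat_lit 0, nat_lit 0, nat_lit 9683, nat_lit 218, nat_lit 327, nat_lit 1193, nat_lit 9904, nat_lit 7262, nat_lit 9935, nat_lit 7619, nat_lit 490, nat_lit 9919, nat_lit 7070, nat_lit 377, nat_lit 9867],
   [nat_lit 0, nat_lit 4279, nat_lit 3441, nat_lit 7990, nat_lit 6706, nat_lit 2040, nat_lit 4663, nat_lit 6541, nat_lit 4905, nat_lit 2243, nat_lit 10565, nat_lit 1815, nat_lit 5308, nat_lit 3100, nat_lit 8359]),
  ([nat_lit 0, nat_lit 9501, nat_lit 11063, nat_lit 9818, nat_lit 5630, nat_lit 847, nat_lit 6370, nat_lit 3223, nat_lit 4727, nat_lit 425, nat_lit 7109, nat_lit 5655, nat_lit 862, nat_lit 2788, nat_lit 3293, nat_lit 2951, nat_lit 2373, nat_lit 7089, nat_lit 5211, nat_lit 11208, nat_lit 8293, nat_lit 3479, nat_lit 10985, nat_lit 7747, nat_lit 4821, nat_lit 812, nat_lit 3990, nat_lit 4769, nat_lit 9629, nat_lit 1578, nat_lit 786, nat_lit 1466, nat_lit 1672, nat_lit 1966, nat_lit 6032, nat_lit 8109, nat_lit 10241, nat_lit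 5324, nat_lit 6377, nat_lit 1889, nat_lit 6124, nat_lit 8160, nat_lit 8806, nat_lit 2429, nat_lit 4437, nat_lit 11452, nat_lit 4, nat_lit 7440, nat_lit 2816, nat_lit 4697, nat_lit 10820, nat_lit 8511, nat_lit 7231, nat_lit 10649, nat_lit 5664, nat_lit 7524, nat_lit 8810, nat_lit 8930, nat_lit 464, nat_lit 2691, nat_lit 3648, nat_lit 1473, nat_lit 4537, nat_lit 4547],
   [nat_lit 0, nat_lit 0, nat_lit 56, nat_lit 1962, nat_lit 2943, nat_lit 9429, nat_lit 2699, nat_lit 1702, nat_lit 9736, nat_lit 6768, nat_lit 4301, nat_lit 6104, nat_lit 955, nat_lit 2412, nat_lit 6181],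
   [nat_lit 0, nat_lit 8972, nat_lit 8842, nat_lit 7818, nat_lit 1494, nat_lit 11602, nat_lit 1092, nat_lit 5568, nat_lit 8502, nat_lit 10159, nat_lit 10174, nat_lit 8051, nat_lit 4935, nat_lit 2721, nat_lit 8414]),
  ([nat_lit 0, nat_lit 11341, nat_lit 1323, nat_lit 2376, nat_lit 7462, nat_lit 5219, nat_lit 10441, nat_lit 8168, nat_lit 4032, nat_lit 4908, nat_lit 7237, nat_lit 4968, nat_lit 11527, nat_lit 8247, nat_lit 727, nat_lit 850, nat_lit 8162, nat_lit 3368, nat_lit 7715, nat_lit 5257, nat_lit 1365, nat_lit 8554, nat_lit 1810, nat_lit 9352, nat_lit 1103, nat_lit 10084, nat_lit 11536, nat_lit 3208, nat_lit 2378, nat_lit 947, nat_lit 5632, nat_lit 9648, nat_lit 10989, nat_lit 8164, nat_lit 4340, nat_lit 2525, nat_lit 5491, nat_lit 2036, nat_lit 5980, nat_lit 2626, nat_lit 817, nat_lit 5573, nat_lit 2325, nat_lit 6155, nat_lit 7500, nat_lit 8183, nat_lit 9908, nat_lit 4283, nat_lit 11331, nat_lit 10709, nat_lit 5779, nat_lit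 10739, nat_lit 3686, nat_lit 4151, nat_lit 11020, nat_lit 8957, nat_lit 6674, nat_lit 7979, nat_lit 9406, nat_lit 4726, nat_lit 2612, nat_lit 8021, nat_lit 2538, nat_lit 4854],
   [nat_lit 0, nat_lit 0, nat_lit 9656, nat_lit 5232, nat_lit 9919, nat_lit 9250, nat_lit 8519, nat_lit 8127, nat_lit 11049, nat_lit 4060, nat_lit 11253, nat_lit 8611, nat_lit 7756, nat_lit 4049, nat_lit 10988],
   [nat_lit 0, nat_lit 1923, nat_lit 11491, nat_lit 5260, nat_lit 415, nat_lit 2266, nat_lit 1030, nat_lit 275, nat_lit 981, nat_lit 7951, nat_lit 3686, nat_lit 7753, nat_lit 408, nat_lit 7314, nat_lit 569]),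
  ([nat_lit 0, nat_lit 6870, nat_lit 10473, nat_lit 5960, nat_lit 10494, nat_lit 9061, nat_lit 2297, nat_lit 6405, nat_lit 9853, nat_lit 4776, nat_lit 5999, nat_lit 6883, nat_lit 10426, nat_lit 2354, nat_lit 4600, nat_lit 2690, nat_lit 3066, nat_lit 2217, nat_lit 11060, nat_lit 8190, nat_lit 11392, nat_lit 598, nat_lit 650, nat_lit 8140, nat_lit 10559, nat_lit 4459, nat_lit 5679, nat_lit 10405, nat_lit 9253, nat_lit 590, nat_lit 3292, nat_lit 9037, nat_lit 9035, nat_lit 10501, nat_lit 5438, nat_lit 98, nat_lit 5867, nat_lit 8263, nat_lit 3043, nat_lit 8508, nat_lit 11412, nat_lit 3649, nat_lit 5864, nat_lit 9034, nat_lit 685, nat_lit 7068, nat_lit 2435, nat_lit 11813, nat_lit 6973, nat_lit 1019, nat_lit 9724, nat_lit 5506, nat_lit 2822, nat_lit 9096, nat_lit 3887, nat_lit 7031, nat_lit 10479, nat_lit 4286, nat_lit 4074, nat_lit 7261, nat_lit 3224, nat_lit 7494, nat_lit 6842, nat_lit 4155],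
   [nat_lit 0, nat_lit 0, nat_lit 2698, nat_lit 11445, nat_lit 327, nat_lit 10346, nat_lit 3520, nat_lit 11002, nat_lit 4166, nat_lit 10066, nat_lit 8038, nat_lit 2071, nat_lit 11041, nat_lit 10975, nat_lit 10386],
   [nat_lit 0, nat_lit 9089, nat_lit 6742, nat_lit 9805, nat_lit 10168, nat_lit 5785, nat_lit 8684, nat_lit 5397, nat_lit 5341, nat_lit 3310, nat_lit 2168, nat_lit 8554, nat_lit 8289, nat_lit 1816, nat_lit 2674]),
  ([nat_lit 0, nat_lit 2958, nat_lit 7021, nat_lit 7019, nat_lit 11377, nat_lit 7373, nat_lit 6144, nat_lit 6519, nat_lit 7518, nat_lit 11018, nat_lit 8304, nat_lit 3568, nat_lit 3298, nat_lit 9590, nat_lit 11119, nat_lit 5166, nat_lit 1705, nat_lit 3128, nat_lit 6577, nat_lit 3999, nat_lit 6602, nat_lit 8331, nat_lit 9136, nat_lit 806, nat_lit 7887, nat_lit 5509, nat_lit 11282, nat_lit 6027, nat_lit 8660, nat_lit 10362, nat_lit 10792, nat_lit 5291, nat_lit 11494, nat_lit 3891, nat_lit 267, nat_lit 10409,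 nat_lit 5246, nat_lit 2511, nat_lit 7476, nat_lit 7769, nat_lit 4522, nat_lit 11596, nat_lit 7956, nat_lit 7674, nat_lit 1681, nat_lit 896, nat_lit 11521, nat_lit 7399, nat_lit 6525, nat_lit 11853, nat_lit 10797, nat_lit 1370, nat_lit 6044, nat_lit 11145, nat_lit 9625, nat_lit 4199, nat_lit 11520, nat_lit 5407, nat_lit 5219, nat_lit 3387, nat_lit 4457, nat_lit 4007, nat_lit 11102, nat_lit 8022],
   [nat_lit 0, nat_lit 0, nat_lit 628, nat_lit 4469, nat_lit 1199, nat_lit 5405, nat_lit 4629, nat_lit 7159, nat_lit 9276, nat_lit 2043, nat_lit 8580, nat_lit 5123, nat_lit 8226, nat_lit 1356, nat_lit 6477],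
   [nat_lit 0, nat_lit 973, nat_lit 1119, nat_lit 10439, nat_lit 11164, nat_lit 3310, nat_lit 8104, nat_lit 5621, nat_lit 7630, nat_lit 4887, nat_lit 2011, nat_lit 2767, nat_lit 1551, nat_lit 8099, nat_lit 11408]),
  ([nat_lit 0, nat_lit 6435, nat_lit 6443, nat_lit 8746, nat_lit 5599, nat_lit 1254, nat_lit 6478, nat_lit 5161, nat_lit 8305, nat_lit 8548, nat_lit 950, nat_lit 5544, nat_lit 8851, nat_lit 5791, nat_lit 3263, nat_lit 9945, nat_lit 2889, nat_lit 9496, nat_lit 940, nat_lit 6342, nat_lit 6760, nat_lit 6865, nat_lit 3410, nat_lit 6893, nat_lit 8447, nat_lit 11032, nat_lit 5501, nat_lit 4245, nat_lit 7941, nat_lit 3439, nat_lit 4244, nat_lit 9615, nat_lit 7832, nat_lit 11458, nat_lit 11865, nat_lit 7797, nat_lit 11456, nat_lit 9673, nat_lit 3367, nat_lit 10908, nat_lit 10529, nat_lit 3412, nat_lit 8291, nat_lit 5251, nat_lit 3820, nat_lit 595, nat_lit 7752, nat_lit 6958, nat_lit 5010, nat_lit 3793, nat_lit 10095, nat_lit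 5670, nat_lit 4453, nat_lit 1773, nat_lit 10015, nat_lit 7994, nat_lit 6015, nat_lit 10983, nat_lit 7830, nat_lit 7465, nat_lit 8804, nat_lit 1926, nat_lit 984, nat_lit 4450],
   [nat_lit 0, nat_lit 0, nat_lit 6940, nat_lit 8284, nat_lit 11772, nat_lit 9580, nat_lit 9889, nat_lit 7003, nat_lit 4610, nat_lit 7172, nat_lit 3378, nat_lit 7739, nat_lit 7273, nat_lit 6313, nat_lit 8398],
   [nat_lit 0, nat_lit 3544, nat_lit 9934, nat_lit 3990, nat_lit 550, nat_lit 7241, nat_lit 8018, nat_lit 111, nat_lit 1308, nat_lit 6666, nat_lit 5543, nat_lit 2104, nat_lit 11379, nat_lit 2712, nat_lit 804]),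
  ([nat_lit 0, nat_lit 6539, nat_lit 5011, nat_lit 4735, nat_lit 11762, nat_lit 9987, nat_lit 10207, nat_lit 372, nat_lit 5799, nat_lit 6910, nat_lit 8646, nat_lit 10386, nat_lit 8442, nat_lit 10733, nat_lit 6460, nat_lit 1465, nat_lit 6608, nat_lit 4057, nat_lit 10556, nat_lit 540, nat_lit 3869, nat_lit 7576, nat_lit 2145, nat_lit 2228, nat_lit 2439, nat_lit 7706, nat_lit 6718, nat_lit 8994, nat_lit 4037, nat_lit 8487, nat_lit 9185, nat_lit 5090, nat_lit 1094, nat_lit 9507, nat_lit 3056, nat_lit 7779, nat_lit 9889, nat_lit 5893, nat_lit 10358, nat_lit 7628, nat_lit 8731, nat_lit 1763, nat_lit 8473, nat_lit 6944, nat_lit 7002, nat_lit 5165, nat_lit 4493, nat_lit 1694, nat_lit 5451, nat_lit 278, nat_lit 8458, nat_lit 10082, nat_lit 4909, nat_lit 5906, nat_lit 11857, nat_lit 5795, nat_lit 3592, nat_lit 5184, nat_lit 1476, nat_lit 11786, nat_lit 5538, nat_lit 445, nat_lit 2152, nat_lit 5482],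
   [nat_lit 0, nat_lit 0, nat_lit 5132, nat_lit 9810, nat_lit 8938, nat_lit 11775, nat_lit 280, nat_lit 4980, nat_lit 2608, nat_lit 8344, nat_lit 8257, nat_lit 6976, nat_lit 934, nat_lit 6079, nat_lit 11798],
   [nat_lit 0, nat_lit 313, nat_lit 3566, nat_lit 10175, nat_lit 1879, nat_lit 7046, nat_lit 1211, nat_lit 2561, nat_lit 10355, nat_lit 9942, nat_lit 10577, nat_lit 2090, nat_lit 834, nat_lit 4772, nat_lit 889]),
  ([nat_lit 0, nat_lit 727, nat_lit 11010, nat_lit 5434, nat_lit 1384, nat_lit 4955, nat_lit 6989, nat_lit 11648, nat_lit 1446, nat_lit 3401, nat_lit 6274, nat_lit 9400, nat_lit 5252, nat_lit 10556, nat_lit 4641, nat_lit 6524, nat_lit 2121, nat_lit 4134, nat_lit 2331, nat_lit 10393, nat_lit 4124, nat_lit 3942, nat_lit 2010, nat_lit 10230, nat_lit 2784, nat_lit 6224, nat_lit 3138, nat_lit 4523, nat_lit 2869, nat_lit 5128, nat_lit 7693, nat_lit 7096, nat_lit 3850, nat_lit 10238, nat_lit 3196, nat_lit 7871, nat_lit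 4697, nat_lit 1451, nat_lit 7629, nat_lit 7231, nat_lit 8680, nat_lit 7551, nat_lit 10183, nat_lit 11492, nat_lit 9220, nat_lit 2929, nat_lit 7949, nat_lit 6157, nat_lit 3197, nat_lit 11643, nat_lit 6264, nat_lit 2053, nat_lit 10499, nat_lit 11184, nat_lit 10363, nat_lit 1193, nat_lit 1455, nat_lit 7101, nat_lit 10190, nat_lit 2902, nat_lit 11670, nat_lit 1414, nat_lit 5423, nat_lit 8128],
   [nat_lit 0, nat_lit 0, nat_lit 3812, nat_lit 8611, nat_lit 981, nat_lit 11117, nat_lit 5829, nat_lit 6079, nat_lit 9413, nat_lit 4994, nat_lit 8402, nat_lit 1635, nat_lit 5611, nat_lit 7275, nat_lit 3661],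
   [nat_lit 0, nat_lit 4946, nat_lit 5751, nat_lit 4965, nat_lit 3007, nat_lit 122, nat_lit 8280, nat_lit 4560, nat_lit 654, nat_lit 5079, nat_lit 689, nat_lit 7442, nat_lit 11167, nat_lit 4804, nat_lit 5735]),
  ([nat_lit 0, nat_lit 2107, nat_lit 7411, nat_lit 9826, nat_lit 11260, nat_lit 822, nat_lit 8598, nat_lit 6882, nat_lit 8909, nat_lit 6845, nat_lit 6043, nat_lit 10111, nat_lit 10008, nat_lit 1107, nat_lit 9856, nat_lit 11134, nat_lit 5400, nat_lit 1316, nat_lit 3991, nat_lit 6720, nat_lit 890, nat_lit 4669, nat_lit 4530, nat_lit 10044, nat_lit 3211, nat_lit 11107, nat_lit 11359, nat_lit 11391, nat_lit 9230, nat_lit 9914, nat_lit 7022, nat_lit 4022, nat_lit 11410, nat_lit 5022, nat_lit 946, nat_lit 6953, nat_lit 2061, nat_lit 8141, nat_lit 5233, nat_lit 3015, nat_lit 5599, nat_lit 9453, nat_lit 3987, nat_lit 3005, nat_lit 808, nat_lit 3611, nat_lit 10799, nat_lit 10520, nat_lit 10319, nat_lit 6560, nat_lit 8887, nat_lit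 6994, nat_lit 10974, nat_lit 6038, nat_lit 4352, nat_lit 224, nat_lit 9445, nat_lit 2164, nat_lit 7795, nat_lit 6145, nat_lit 8931, nat_lit 439, nat_lit 11145, nat_lit 2118],
   [nat_lit 0, nat_lit 0, nat_lit 10903, nat_lit 9374, nat_lit 4142, nat_lit 4906, nat_lit 57, nat_lit 1878, nat_lit 7264, nat_lit 565, nat_lit 6204, nat_lit 981, nat_lit 11393, nat_lit 246, nat_lit 11599],
   [nat_lit 0, nat_lit 9987, nat_lit 8419, nat_lit 6807, nat_lit 10727, nat_lit 2385, nat_lit 7307, nat_lit 5250, nat_lit 3706, nat_lit 10399, nat_lit 3017, nat_lit 4548, nat_lit 6491, nat_lit 537, nat_lit 7563]),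
  ([nat_lit 0, nat_lit 1499, nat_lit 11800, nat_lit 2059, nat_lit 7578, nat_lit 201, nat_lit 10501, nat_lit 6556, nat_lit 6262, nat_lit 5957, nat_lit 4215, nat_lit 4107, nat_lit 2740, nat_lit 5955, nat_lit 3944, nat_lit 2277, nat_lit 10120, nat_lit 3155, nat_lit 7280, nat_lit 2699, nat_lit 5927, nat_lit 8788, nat_lit 11372, nat_lit 3694, nat_lit 9936, nat_lit 3033, nat_lit 9820, nat_lit 8270, nat_lit 8719, nat_lit 7443, nat_lit 9721, nat_lit 8701, nat_lit 217, nat_lit 9695, nat_lit 8719, nat_lit 8710, nat_lit 2460, nat_lit 9018, nat_lit 3133, nat_lit 5178, nat_lit 9998, nat_lit 2693, nat_lit 4994, nat_lit 3387, nat_lit 10294, nat_lit 2442, nat_lit 5662, nat_lit 10531, nat_lit 1335, nat_lit 10667, nat_lit 2954, nat_lit 8870, nat_lit 11880, nat_lit 8715, nat_lit 6219, nat_lit 268, nat_lit 11419, nat_lit 4590, nat_lit 2683, nat_lit 1904, nat_lit 5537, nat_lit 2859, nat_lit 5130, nat_lit 537],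
   [nat_lit 0, nat_lit 0, nat_lit 7001, nat_lit 2943, nat_lit 4469, nat_lit 953, nat_lit 1674, nat_lit 6494, nat_lit 8831, nat_lit 7070, nat_lit 6138, nat_lit 6322, nat_lit 5053, nat_lit 11097, nat_lit 11820],
   [nat_lit 0, nat_lit 9977, nat_lit 11480, nat_lit 4078, nat_lit 484, nat_lit 255, nat_lit 11769, nat_lit 9088, nat_lit 6322, nat_lit 839, nat_lit 11662, nat_lit 9342, nat_lit 5732, nat_lit 4366, nat_lit 7653]),
  ([nat_lit 0, nat_lit 11657, nat_lit 9356, nat_lit 5193, nat_lit 2556, nat_lit 5095, nat_lit 6633, nat_lit 1142, nat_lit 9288, nat_lit 6253, nat_lit 2608, nat_lit 77, nat_lit 9777, nat_lit 1178, nat_lit 10202, nat_lit 179, nat_lit 8910, nat_lit 3741, nat_lit 8073, nat_lit 7491, nat_lit 5992, nat_lit 10903, nat_lit 2297, nat_lit 2904, nat_lit 11691, nat_lit 4598, nat_lit 3248, nat_lit 11018, nat_lit 8526, nat_lit 8303, nat_lit 6605, nat_lit 4489, nat_lit 10924, nat_lit 8537, nat_lit 2422, nat_lit 458, nat_lit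 4725, nat_lit 478, nat_lit 3724, nat_lit 3912, nat_lit 10203, nat_lit 1858, nat_lit 10181, nat_lit 1443, nat_lit 6260, nat_lit 2214, nat_lit 8428, nat_lit 8202, nat_lit 9598, nat_lit 7118, nat_lit 7911, nat_lit 6319, nat_lit 9180, nat_lit 1973, nat_lit 10647, nat_lit 7956, nat_lit 10325, nat_lit 6579, nat_lit 463, nat_lit 4226, nat_lit 10992, nat_lit 6594, nat_lit 9097, nat_lit 2481],
   [nat_lit 0, nat_lit 0, nat_lit 1798, nat_lit 11554, nat_lit 10791, nat_lit 4596, nat_lit 9419, nat_lit 10587, nat_lit 6274, nat_lit 11696, nat_lit 9757, nat_lit 10464, nat_lit 7675, nat_lit 5300, nat_lit 10293],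
   [nat_lit 0, nat_lit 9072, nat_lit 11477, nat_lit 11128, nat_lit 8767, nat_lit 2927, nat_lit 11735, nat_lit 3485, nat_lit 6758, nat_lit 5697, nat_lit 6673, nat_lit 5128, nat_lit 317, nat_lit 5088, nat_lit 3590]),
  ([nat_lit 0, nat_lit 6390, nat_lit 5327, nat_lit 11015, nat_lit 9073, nat_lit 5513, nat_lit 2107, nat_lit 11873, nat_lit 4935, nat_lit 7649, nat_lit 781, nat_lit 3996, nat_lit 8985, nat_lit 3617, nat_lit 4677, nat_lit 10034, nat_lit 5840, nat_lit 6216, nat_lit 11293, nat_lit 9714, nat_lit 9735, nat_lit 7051, nat_lit 2162, nat_lit 6764, nat_lit 10728, nat_lit 10092, nat_lit 4791, nat_lit 10580, nat_lit 2780, nat_lit 11157, nat_lit 10236, nat_lit 5296, nat_lit 1036, nat_lit 1638, nat_lit 2780, nat_lit 7962, nat_lit 2367, nat_lit 6609, nat_lit 123, nat_lit 6240, nat_lit 3503, nat_lit 10371, nat_lit 8403, nat_lit 6318, nat_lit 11312, nat_lit 1722, nat_lit 3818, nat_lit 8850, nat_lit 10832, nat_lit 1152, nat_lit 4627,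 nat_lit 4503, nat_lit 9429, nat_lit 5943, nat_lit 5338, nat_lit 1937, nat_lit 8624, nat_lit 10131, nat_lit 2637, nat_lit 8967, nat_lit 7532, nat_lit 8544, nat_lit 7463, nat_lit 9596],
   [nat_lit 0, nat_lit 0, nat_lit 696, nat_lit 5014, nat_lit 1853, nat_lit 9061, nat_lit 9627, nat_lit 2094, nat_lit 3487, nat_lit 9000, nat_lit 9902, nat_lit 2398, nat_lit 7229, nat_lit 3444, nat_lit 85],
   [nat_lit 0, nat_lit 2478, nat_lit 364, nat_lit 1994, nat_lit 6843, nat_lit 10936, nat_lit 4307, nat_lit 8318, nat_lit 327, nat_lit 11189, nat_lit 11827, nat_lit 7646, nat_lit 5309, nat_lit 324, nat_lit 1787]),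
  ([nat_lit 0, nat_lit 6100, nat_lit 3040, nat_lit 1609, nat_lit 5519, nat_lit 3106, nat_lit 5730, nat_lit 4213, nat_lit 7500, nat_lit 6930, nat_lit 6026, nat_lit 4484, nat_lit 4338, nat_lit 3583, nat_lit 9708, nat_lit 5860, nat_lit 1689, nat_lit 5655, nat_lit 6690, nat_lit 8046, nat_lit 10353, nat_lit 4035, nat_lit 4983, nat_lit 8149, nat_lit 5723, nat_lit 2048, nat_lit 167, nat_lit 6437, nat_lit 3286, nat_lit 7025, nat_lit 9381, nat_lit 3029, nat_lit 6883, nat_lit 1731, nat_lit 3286, nat_lit 3975, nat_lit 5439, nat_lit 8094, nat_lit 5026, nat_lit 4897, nat_lit 1243, nat_lit 2147, nat_lit 4898, nat_lit 8374, nat_lit 7080, nat_lit 10959, nat_lit 205, nat_lit 11572, nat_lit 10359, nat_lit 11140, nat_lit 9307, nat_lit 9263, nat_lit 2196, nat_lit 11307, nat_lit 7643, nat_lit 9119, nat_lit 8809, nat_lit 9727, nat_lit 2852, nat_lit 10847, nat_lit 7655, nat_lit 3415, nat_lit 6864, nat_lit 1872],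
   [nat_lit 0, nat_lit 0, nat_lit 1780, nat_lit 5995, nat_lit 11772, nat_lit 5898, nat_lit 1883, nat_lit 11091, nat_lit 9669, nat_lit 22, nat_lit 10029, nat_lit 5450, nat_lit 8314, nat_lit 10037, nat_lit 4246],
   [nat_lit 0, nat_lit 10844, nat_lit 4345, nat_lit 10289, nat_lit 6644, nat_lit 3114, nat_lit 11493, nat_lit 652, nat_lit 10464, nat_lit 10338, nat_lit 7646, nat_lit 9995, nat_lit 9549, nat_lit 1648, nat_lit 7916]),
  ([nat_lit 0, nat_lit 3636, nat_lit 5240, nat_lit 5431, nat_lit 9982, nat_lit 8793, nat_lit 11440, nat_lit 3041, nat_lit 11677, nat_lit 4754, nat_lit 7573, nat_lit 7729, nat_lit 7790, nat_lit 4769, nat_lit 11731, nat_lit 2597, nat_lit 1817, nat_lit 1462, nat_lit 3715, nat_lit 5427, nat_lit 4870, nat_lit 9300, nat_lit 929, nat_lit 1071, nat_lit 9083, nat_lit 7282, nat_lit 7010, nat_lit 11877, nat_lit 6602, nat_lit 7888, nat_lit 68, nat_lit 6628, nat_lit 4204, nat_lit 4078, nat_lit 6602, nat_lit 6070, nat_lit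 1715, nat_lit 8011, nat_lit 5224, nat_lit 4220, nat_lit 9490, nat_lit 6671, nat_lit 6254, nat_lit 7243, nat_lit 948, nat_lit 1850, nat_lit 1135, nat_lit 1187, nat_lit 5193, nat_lit 1693, nat_lit 4005, nat_lit 9557, nat_lit 11289, nat_lit 8703, nat_lit 5514, nat_lit 1805, nat_lit 958, nat_lit 2853, nat_lit 3040, nat_lit 11662, nat_lit 6160, nat_lit 7606, nat_lit 1201, nat_lit 5728],
   [nat_lit 0, nat_lit 0, nat_lit 8696, nat_lit 3924, nat_lit 4033, nat_lit 8603, nat_lit 4340, nat_lit 8956, nat_lit 3691, nat_lit 5290, nat_lit 11190, nat_lit 327, nat_lit 4013, nat_lit 3700, nat_lit 10758],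
   [nat_lit 0, nat_lit 5560, nat_lit 10147, nat_lit 5385, nat_lit 5199, nat_lit 1303, nat_lit 6835, nat_lit 7377, nat_lit 4905, nat_lit 1065, nat_lit 11616, nat_lit 1439, nat_lit 9112, nat_lit 1590, nat_lit 2389]),
  ([nat_lit 0, nat_lit 4345, nat_lit 3770, nat_lit 7042, nat_lit 8025, nat_lit 6034, nat_lit 6173, nat_lit 6997, nat_lit 10140, nat_lit 11218, nat_lit 9027, nat_lit 8967, nat_lit 8256, nat_lit 8940, nat_lit 5340, nat_lit 1265, nat_lit 2546, nat_lit 5701, nat_lit 2579, nat_lit 9408, nat_lit 9639, nat_lit 607, nat_lit 6342, nat_lit 3227, nat_lit 1160, nat_lit 4846, nat_lit 1798, nat_lit 3783, nat_lit 6491, nat_lit 9367, nat_lit 10463, nat_lit 3211, nat_lit 714, nat_lit 8426, nat_lit 3003, nat_lit 11500, nat_lit 5872, nat_lit 9479, nat_lit 10509, nat_lit 2804, nat_lit 8776, nat_lit 4863, nat_lit 764, nat_lit 8131, nat_lit 7257, nat_lit 8151, nat_lit 9843, nat_lit 4373, nat_lit 3067, nat_lit 8421, nat_lit 8605, nat_lit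 6587, nat_lit 10633, nat_lit 4224, nat_lit 5308, nat_lit 8663, nat_lit 361, nat_lit 6365, nat_lit 5899, nat_lit 6423, nat_lit 8623, nat_lit 3078, nat_lit 5902, nat_lit 4513],
   [nat_lit 0, nat_lit 0, nat_lit 9945, nat_lit 4469, nat_lit 2398, nat_lit 481, nat_lit 2238, nat_lit 1125, nat_lit 3695, nat_lit 11582, nat_lit 7116, nat_lit 8611, nat_lit 10195, nat_lit 6928, nat_lit 8674],
   [nat_lit 0, nat_lit 3714, nat_lit 3895, nat_lit 3731, nat_lit 7802, nat_lit 11405, nat_lit 10317, nat_lit 374, nat_lit 8720, nat_lit 127, nat_lit 1259, nat_lit 1266, nat_lit 11747, nat_lit 6180, nat_lit 8103]),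
  ([nat_lit 0, nat_lit 10328, nat_lit 246, nat_lit 11106, nat_lit 5616, nat_lit 10447, nat_lit 7231, nat_lit 11134, nat_lit 3646, nat_lit 9009, nat_lit 11736, nat_lit 7704, nat_lit 2195, nat_lit 6064, nat_lit 11683, nat_lit 10125, nat_lit 3471, nat_lit 11112, nat_lit 3574, nat_lit 10438, nat_lit 2984, nat_lit 1703, nat_lit 5704, nat_lit 3803, nat_lit 3505, nat_lit 6630, nat_lit 3498, nat_lit 9687, nat_lit 7193, nat_lit 8860, nat_lit 8740, nat_lit 308, nat_lit 2288, nat_lit 4136, nat_lit 3814, nat_lit 9909, nat_lit 3550, nat_lit 9890, nat_lit 299, nat_lit 10519, nat_lit 4330, nat_lit 11849, nat_lit 4231, nat_lit 3605, nat_lit 4953, nat_lit 11707, nat_lit 9150, nat_lit 11730, nat_lit 5586, nat_lit 3691, nat_lit 11, nat_lit 11159, nat_lit 11444, nat_lit 2720, nat_lit 10797, nat_lit 5282, nat_lit 6078, nat_lit 4154, nat_lit 5190, nat_lit 487, nat_lit 6954, nat_lit 4167, nat_lit 6983, nat_lit 4788],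
   [nat_lit 0, nat_lit 0, nat_lit 3840, nat_lit 3815, nat_lit 1199, nat_lit 1825, nat_lit 10394, nat_lit 5295, nat_lit 8395, nat_lit 5435, nat_lit 5593, nat_lit 5995, nat_lit 9740, nat_lit 9680, nat_lit 4299],
   [nat_lit 0, nat_lit 7906, nat_lit 4831, nat_lit 1026, nat_lit 3863, nat_lit 2217, nat_lit 5447, nat_lit 1567, nat_lit 2725, nat_lit 5635, nat_lit 5122, nat_lit 8143, nat_lit 4206, nat_lit 5783, nat_lit 1331]),
  ([nat_lit 0, nat_lit 9190, nat_lit 1955, nat_lit 4254, nat_lit 6989, nat_lit 8152, nat_lit 4051, nat_lit 6536, nat_lit 10261, nat_lit 64, nat_lit 4042, nat_lit 8865, nat_lit 296, nat_lit 4479, nat_lit 11222, nat_lit 9050, nat_lit 2266, nat_lit 1473, nat_lit 5592, nat_lit 4748, nat_lit 6230, nat_lit 2708, nat_lit 5986, nat_lit 1747, nat_lit 4492, nat_lit 10605, nat_lit 5611, nat_lit 6816, nat_lit 8366, nat_lit 6178, nat_lit 2175, nat_lit 5264, nat_lit 10328, nat_lit 5288, nat_lit 11309, nat_lit 11611, nat_lit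 3636, nat_lit 11861, nat_lit 6111, nat_lit 1703, nat_lit 8673, nat_lit 11453, nat_lit 9815, nat_lit 2287, nat_lit 1296, nat_lit 10235, nat_lit 5070, nat_lit 8349, nat_lit 729, nat_lit 5808, nat_lit 6183, nat_lit 2742, nat_lit 1281, nat_lit 5206, nat_lit 271, nat_lit 10179, nat_lit 1587, nat_lit 4357, nat_lit 11510, nat_lit 1050, nat_lit 10306, nat_lit 566, nat_lit 4113, nat_lit 6542],
   [nat_lit 0, nat_lit 0, nat_lit 1002, nat_lit 11554, nat_lit 6431, nat_lit 7201, nat_lit 11626, nat_lit 8241, nat_lit 1798, nat_lit 6353, nat_lit 3861, nat_lit 10246, nat_lit 72, nat_lit 5101, nat_lit 11324],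
   [nat_lit 0, nat_lit 5817, nat_lit 5741, nat_lit 8954, nat_lit 2495, nat_lit 1326, nat_lit 246, nat_lit 7538, nat_lit 3161, nat_lit 4668, nat_lit 11745, nat_lit 5022, nat_lit 10339, nat_lit 8119, nat_lit 3346]),
  ([nat_lit 0, nat_lit 8709, nat_lit 6071, nat_lit 11428, nat_lit 435, nat_lit 11757, nat_lit 10253, nat_lit 7580, nat_lit 1659, nat_lit 4288, nat_lit 4200, nat_lit 5791, nat_lit 10458, nat_lit 7319, nat_lit 8058, nat_lit 2490, nat_lit 2819, nat_lit 264, nat_lit 1993, nat_lit 10518, nat_lit 8660, nat_lit 3875, nat_lit 11169, nat_lit 2817, nat_lit 2304, nat_lit 7812, nat_lit 8716, nat_lit 11843, nat_lit 2769, nat_lit 5285, nat_lit 6205, nat_lit 10755, nat_lit 5603, nat_lit 3098, nat_lit 5385, nat_lit 7416, nat_lit 7627, nat_lit 77, nat_lit 5810, nat_lit 5755, nat_lit 6988, nat_lit 2716, nat_lit 10254, nat_lit 3572, nat_lit 7153, nat_lit 5912, nat_lit 7022, nat_lit 3374, nat_lit 11783, nat_lit 6655, nat_lit 6928, nat_lit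 3973, nat_lit 1352, nat_lit 4035, nat_lit 11072, nat_lit 3577, nat_lit 4414, nat_lit 3614, nat_lit 8824, nat_lit 4514, nat_lit 11105, nat_lit 5004, nat_lit 11682, nat_lit 1878],
   [nat_lit 0, nat_lit 0, nat_lit 1843, nat_lit 545, nat_lit 4142, nat_lit 5374, nat_lit 7440, nat_lit 9981, nat_lit 9395, nat_lit 7963, nat_lit 2973, nat_lit 0, nat_lit 8857, nat_lit 3540, nat_lit 10641],
   [nat_lit 0, nat_lit 11182, nat_lit 8379, nat_lit 1835, nat_lit 11513, nat_lit 7746, nat_lit 3402, nat_lit 8769, nat_lit 5232, nat_lit 4395, nat_lit 9636, nat_lit 9147, nat_lit 9719, nat_lit 826, nat_lit 3784]),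
  ([nat_lit 0, nat_lit 1879, nat_lit 4438, nat_lit 2894, nat_lit 10833, nat_lit 2156, nat_lit 7227, nat_lit 8095, nat_lit 4115, nat_lit 2479, nat_lit 943, nat_lit 2791, nat_lit 8645, nat_lit 11100, nat_lit 1317, nat_lit 9979, nat_lit 9241, nat_lit 4608, nat_lit 224, nat_lit 6452, nat_lit 4264, nat_lit 3911, nat_lit 7014, nat_lit 8126, nat_lit 1332, nat_lit 6744, nat_lit 11722, nat_lit 2577, nat_lit 5128, nat_lit 5840, nat_lit 7857, nat_lit 1948, nat_lit 4910, nat_lit 4390, nat_lit 2185, nat_lit 11713, nat_lit 4595, nat_lit 1344, nat_lit 7443, nat_lit 6483, nat_lit 10723, nat_lit 5283, nat_lit 1844, nat_lit 7263, nat_lit 1722, nat_lit 4903, nat_lit 5916, nat_lit 3807, nat_lit 4770, nat_lit 9231, nat_lit 1035, nat_lit 11022, nat_lit 5237, nat_lit 9944, nat_lit 6401, nat_lit 4110, nat_lit 1438, nat_lit 6916, nat_lit 646, nat_lit 9664, nat_lit 6977, nat_lit 9576, nat_lit 1927, nat_lit 1457],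
   [nat_lit 0, nat_lit 0, nat_lit 11647, nat_lit 872, nat_lit 4251, nat_lit 1993, nat_lit 1331, nat_lit 10040, nat_lit 4132, nat_lit 1819, nat_lit 1138, nat_lit 0, nat_lit 1222, nat_lit 1304, nat_lit 9679],
   [nat_lit 0, nat_lit 8321, nat_lit 8000, nat_lit 7187, nat_lit 8698, nat_lit 5592, nat_lit 7536, nat_lit 11567, nat_lit 5995, nat_lit 8667, nat_lit 11777, nat_lit 8444, nat_lit 6547, nat_lit 9017, nat_lit 6643]),
  ([nat_lit 0, nat_lit 5219, nat_lit 10316, nat_lit 11851, nat_lit 2704, nat_lit 7860, nat_lit 10829, nat_lit 3964, nat_lit 10968, nat_lit 7208, nat_lit 9720, nat_lit 9668, nat_lit 2817, nat_lit 7094, nat_lit 10841, nat_lit 2368, nat_lit 10258, nat_lit 4345, nat_lit 3594, nat_lit 9745, nat_lit 9858, nat_lit 3876, nat_lit 4123, nat_lit 9235, nat_lit 2277, nat_lit 3822, nat_lit 2859, nat_lit 4325, nat_lit 8445, nat_lit 350, nat_lit 7571, nat_lit 6220, nat_lit 8554, nat_lit 4454, nat_lit 3976, nat_lit 3245, nat_lit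 10183, nat_lit 9683, nat_lit 1565, nat_lit 3135, nat_lit 10062, nat_lit 11038, nat_lit 5400, nat_lit 9285, nat_lit 5352, nat_lit 6214, nat_lit 3691, nat_lit 3056, nat_lit 9278, nat_lit 126, nat_lit 3134, nat_lit 6479, nat_lit 2450, nat_lit 2549, nat_lit 7972, nat_lit 5902, nat_lit 371, nat_lit 7006, nat_lit 10577, nat_lit 3997, nat_lit 7030, nat_lit 5131, nat_lit 11081, nat_lit 10117],
   [nat_lit 0, nat_lit 0, nat_lit 10036, nat_lit 11445, nat_lit 3815, nat_lit 4290, nat_lit 3640, nat_lit 2392, nat_lit 11559, nat_lit 3832, nat_lit 1938, nat_lit 0, nat_lit 9635, nat_lit 4798, nat_lit 7314],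
   [nat_lit 0, nat_lit 4832, nat_lit 2758, nat_lit 5944, nat_lit 1864, nat_lit 5706, nat_lit 5497, nat_lit 266, nat_lit 2943, nat_lit 8474, nat_lit 8772, nat_lit 3517, nat_lit 10951, nat_lit 6664, nat_lit 10794]),
  ([nat_lit 0, nat_lit 2134, nat_lit 4331, nat_lit 1009, nat_lit 3355, nat_lit 4109, nat_lit 8779, nat_lit 10245, nat_lit 10168, nat_lit 9826, nat_lit 1828, nat_lit 7748, nat_lit 2363, nat_lit 10630, nat_lit 5912, nat_lit 7985, nat_lit 8469, nat_lit 2957, nat_lit 2379, nat_lit 7182, nat_lit 5209, nat_lit 8416, nat_lit 461, nat_lit 9838, nat_lit 8099, nat_lit 5567, nat_lit 11567, nat_lit 9552, nat_lit 2582, nat_lit 4433, nat_lit 8419, nat_lit 6003, nat_lit 6724, nat_lit 1758, nat_lit 9994, nat_lit 9470, nat_lit 2108, nat_lit 3919, nat_lit 5370, nat_lit 1870, nat_lit 2468, nat_lit 8068, nat_lit 6187, nat_lit 7139, nat_lit 4139, nat_lit 1605, nat_lit 10478, nat_lit 7292, nat_lit 7676, nat_lit 1888, nat_lit 4952, nat_lit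 7062, nat_lit 6833, nat_lit 7242, nat_lit 7616, nat_lit 5188, nat_lit 8054, nat_lit 2915, nat_lit 5984, nat_lit 2497, nat_lit 9934, nat_lit 6954, nat_lit 3399, nat_lit 4306],
   [nat_lit 0, nat_lit 0, nat_lit 5864, nat_lit 6431, nat_lit 9047, nat_lit 6569, nat_lit 2961, nat_lit 5085, nat_lit 2248, nat_lit 3523, nat_lit 10966, nat_lit 10573, nat_lit 7103, nat_lit 4736, nat_lit 1741],
   [nat_lit 0, nat_lit 11019, nat_lit 1844, nat_lit 11776, nat_lit 9807, nat_lit 3438, nat_lit 8073, nat_lit 9569, nat_lit 654, nat_lit 1821, nat_lit 11302, nat_lit 10575, nat_lit 6427, nat_lit 5000, nat_lit 7758]),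
  ([nat_lit 0, nat_lit 5507, nat_lit 7147, nat_lit 6420, nat_lit 7437, nat_lit 2991, nat_lit 6147, nat_lit 6046, nat_lit 7793, nat_lit 928, nat_lit 9014, nat_lit 740, nat_lit 1785, nat_lit 7993, nat_lit 11209, nat_lit 970, nat_lit 1792, nat_lit 6698, nat_lit 10016, nat_lit 11730, nat_lit 5642, nat_lit 11253, nat_lit 578, nat_lit 4567, nat_lit 2786, nat_lit 3298, nat_lit 7076, nat_lit 9234, nat_lit 10454, nat_lit 6087, nat_lit 854, nat_lit 3625, nat_lit 5113, nat_lit 6044, nat_lit 4241, nat_lit 8838, nat_lit 7269, nat_lit 7340, nat_lit 6369, nat_lit 8180, nat_lit 10273, nat_lit 4803, nat_lit 4814, nat_lit 10544, nat_lit 9091, nat_lit 549, nat_lit 8878, nat_lit 779, nat_lit 10625, nat_lit 286, nat_lit 3925, nat_lit 1827, nat_lit 10236, nat_lit 3547, nat_lit 9216, nat_lit 7258, nat_lit 1375, nat_lit 2300, nat_lit 5248, nat_lit 3889, nat_lit 2614, nat_lit 3738, nat_lit 7700, nat_lit 7441],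
   [nat_lit 0, nat_lit 0, nat_lit 6572, nat_lit 5886, nat_lit 327, nat_lit 9203, nat_lit 2679, nat_lit 6080, nat_lit 5361, nat_lit 3774, nat_lit 2956, nat_lit 2507, nat_lit 826, nat_lit 8, nat_lit 7456],
   [nat_lit 0, nat_lit 1670, nat_lit 2857, nat_lit 10042, nat_lit 7565, nat_lit 9526, nat_lit 5856, nat_lit 7822, nat_lit 8829, nat_lit 5120, nat_lit 5222, nat_lit 11016, nat_lit 6090, nat_lit 4093, nat_lit 1320]),
  ([nat_lit 0, nat_lit 3281, nat_lit 3412, nat_lit 7211, nat_lit 1745, nat_lit 124, nat_lit 9367, nat_lit 6372, nat_lit 10985, nat_lit 3887, nat_lit 5719, nat_lit 6199, nat_lit 10797, nat_lit 7941, nat_lit 9055, nat_lit 5031, nat_lit 669, nat_lit 9328, nat_lit 1495, nat_lit 3979, nat_lit 11832, nat_lit 4845, nat_lit 7906, nat_lit 7211, nat_lit 9250, nat_lit 6249, nat_lit 3601, nat_lit 1782, nat_lit 6496, nat_lit 8558, nat_lit 1316, nat_lit 8211, nat_lit 4316, nat_lit 9655, nat_lit 5733, nat_lit 5010, nat_lit 10467,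 nat_lit 5155, nat_lit 1711, nat_lit 1657, nat_lit 2277, nat_lit 1099, nat_lit 11764, nat_lit 11688, nat_lit 695, nat_lit 2917, nat_lit 2134, nat_lit 11232, nat_lit 3477, nat_lit 8496, nat_lit 375, nat_lit 3875, nat_lit 1373, nat_lit 3595, nat_lit 8330, nat_lit 8304, nat_lit 3107, nat_lit 10011, nat_lit 11777, nat_lit 11727, nat_lit 10368, nat_lit 2844, nat_lit 8592, nat_lit 9022],
   [nat_lit 0, nat_lit 0, nat_lit 2844, nat_lit 0, nat_lit 11009, nat_lit 8687, nat_lit 7166, nat_lit 919, nat_lit 3358, nat_lit 11439, nat_lit 11633, nat_lit 7194, nat_lit 2370, nat_lit 10957, nat_lit 9960],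
   [nat_lit 0, nat_lit 590, nat_lit 1322, nat_lit 3833, nat_lit 9524, nat_lit 5988, nat_lit 8152, nat_lit 4202, nat_lit 10137, nat_lit 2799, nat_lit 4752, nat_lit 772, nat_lit 7939, nat_lit 11709, nat_lit 9078]),
  ([nat_lit 0, nat_lit 4217, nat_lit 4258, nat_lit 4030, nat_lit 3693, nat_lit 1549, nat_lit 6631, nat_lit 10577, nat_lit 9577, nat_lit 5168, nat_lit 2389, nat_lit 4433, nat_lit 3628, nat_lit 6530, nat_lit 11232, nat_lit 2613, nat_lit 11141, nat_lit 7465, nat_lit 10540, nat_lit 4735, nat_lit 1509, nat_lit 3287, nat_lit 3824, nat_lit 6537, nat_lit 11531, nat_lit 4437, nat_lit 1801, nat_lit 6591, nat_lit 8093, nat_lit 2106, nat_lit 8398, nat_lit 4546, nat_lit 8965, nat_lit 8555, nat_lit 10818, nat_lit 4848, nat_lit 1923, nat_lit 5034, nat_lit 1410, nat_lit 11159, nat_lit 9857, nat_lit 9257, nat_lit 431, nat_lit 6324, nat_lit 4481, nat_lit 10693, nat_lit 8773, nat_lit 4295, nat_lit 8645, nat_lit 3348, nat_lit 11693, nat_lit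 10229, nat_lit 6785, nat_lit 8528, nat_lit 8885, nat_lit 4427, nat_lit 1792, nat_lit 221, nat_lit 7129, nat_lit 694, nat_lit 6153, nat_lit 2050, nat_lit 3408, nat_lit 7192],
   [nat_lit 0, nat_lit 0, nat_lit 11315, nat_lit 6322, nat_lit 1744, nat_lit 10893, nat_lit 4724, nat_lit 806, nat_lit 4088, nat_lit 6945, nat_lit 3333, nat_lit 8393, nat_lit 6141, nat_lit 6126, nat_lit 1211],
   [nat_lit 0, nat_lit 1595, nat_lit 1998, nat_lit 11102, nat_lit 10367, nat_lit 7503, nat_lit 3569, nat_lit 7940, nat_lit 3706, nat_lit 1000, nat_lit 3624, nat_lit 7186, nat_lit 3831, nat_lit 6051, nat_lit 10715]),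
  ([nat_lit 0, nat_lit 7799, nat_lit 9554, nat_lit 7039, nat_lit 6813, nat_lit 9218, nat_lit 6809, nat_lit 4167, nat_lit 7727, nat_lit 1562, nat_lit 10980, nat_lit 8931, nat_lit 2292, nat_lit 10020, nat_lit 11340, nat_lit 1153, nat_lit 9763, nat_lit 1939, nat_lit 2873, nat_lit 2153, nat_lit 4608, nat_lit 1605, nat_lit 1119, nat_lit 1916, nat_lit 1246, nat_lit 9392, nat_lit 2618, nat_lit 2199, nat_lit 3030, nat_lit 11037, nat_lit 11449, nat_lit 7103, nat_lit 8480, nat_lit 2811, nat_lit 5210, nat_lit 325, nat_lit 10738, nat_lit 3940, nat_lit 2109, nat_lit 5897, nat_lit 4354, nat_lit 6490, nat_lit 5119, nat_lit 4100, nat_lit 2582, nat_lit 5655, nat_lit 10114, nat_lit 10848, nat_lit 7243, nat_lit 5665, nat_lit 2095, nat_lit 11584, nat_lit 6736, nat_lit 8610, nat_lit 11141, nat_lit 2299, nat_lit 4551, nat_lit 10619, nat_lit 10739, nat_lit 2757, nat_lit 5184, nat_lit 4583, nat_lit 699, nat_lit 9089],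
   [nat_lit 0, nat_lit 0, nat_lit 114, nat_lit 9810, nat_lit 10900, nat_lit 4943, nat_lit 9796, nat_lit 3784, nat_lit 7783, nat_lit 1414, nat_lit 966, nat_lit 5668, nat_lit 3801, nat_lit 10983, nat_lit 11847],
   [nat_lit 0, nat_lit 8579, nat_lit 10471, nat_lit 2298, nat_lit 9667, nat_lit 378, nat_lit 4403, nat_lit 248, nat_lit 5341, nat_lit 8321, nat_lit 1831, nat_lit 931, nat_lit 4896, nat_lit 11250, nat_lit 2250]),
  ([nat_lit 0, nat_lit 4866, nat_lit 428, nat_lit 7431, nat_lit 11164, nat_lit 1562, nat_lit 5237, nat_lit 5243, nat_lit 5109, nat_lit 3639, nat_lit 4526, nat_lit 6986, nat_lit 10086, nat_lit 7766, nat_lit 3311, nat_lit 564, nat_lit 4178, nat_lit 6822, nat_lit 6640, nat_lit 9070, nat_lit 8210, nat_lit 4979, nat_lit 3649, nat_lit 11355, nat_lit 10646, nat_lit 3945, nat_lit 75, nat_lit 4, nat_lit 4625, nat_lit 8789, nat_lit 1458, nat_lit 7215, nat_lit 7023, nat_lit 3879, nat_lit 3208, nat_lit 9299, nat_lit 8313,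 nat_lit 4524, nat_lit 3278, nat_lit 8315, nat_lit 6097, nat_lit 10769, nat_lit 2030, nat_lit 3984, nat_lit 6137, nat_lit 221, nat_lit 10419, nat_lit 10912, nat_lit 802, nat_lit 9098, nat_lit 355, nat_lit 8428, nat_lit 1028, nat_lit 3614, nat_lit 8438, nat_lit 5607, nat_lit 3947, nat_lit 1289, nat_lit 884, nat_lit 1091, nat_lit 6266, nat_lit 3839, nat_lit 11007, nat_lit 9423],
   [nat_lit 0, nat_lit 0, nat_lit 8526, nat_lit 11445, nat_lit 4796, nat_lit 2624, nat_lit 8522, nat_lit 10991, nat_lit 4920, nat_lit 10079, nat_lit 11591, nat_lit 11118, nat_lit 3508, nat_lit 6001, nat_lit 3085],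
   [nat_lit 0, nat_lit 8174, nat_lit 7729, nat_lit 1155, nat_lit 4502, nat_lit 7635, nat_lit 10387, nat_lit 11044, nat_lit 4251, nat_lit 134, nat_lit 1246, nat_lit 8916, nat_lit 7238, nat_lit 6585, nat_lit 1317]),
  ([nat_lit 0, nat_lit 7743, nat_lit 10149, nat_lit 571, nat_lit 11158, nat_lit 927, nat_lit 2881, nat_lit 7341, nat_lit 2310, nat_lit 7676, nat_lit 10869, nat_lit 9904, nat_lit 3183, nat_lit 6554, nat_lit 5879, nat_lit 7111, nat_lit 9429, nat_lit 6662, nat_lit 3120, nat_lit 7650, nat_lit 5561, nat_lit 9590, nat_lit 6353, nat_lit 3623, nat_lit 8447, nat_lit 1767, nat_lit 10188, nat_lit 2610, nat_lit 7832, nat_lit 3766, nat_lit 647, nat_lit 1331, nat_lit 6524, nat_lit 7425, nat_lit 9249, nat_lit 1257, nat_lit 5570, nat_lit 9237, nat_lit 6746, nat_lit 4041, nat_lit 7259, nat_lit 7881, nat_lit 9381, nat_lit 2526, nat_lit 11014, nat_lit 8661, nat_lit 13, nat_lit 5977, nat_lit 6100, nat_lit 11314, nat_lit 9114, nat_lit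 6651, nat_lit 1183, nat_lit 4280, nat_lit 11432, nat_lit 5269, nat_lit 9394, nat_lit 2372, nat_lit 9574, nat_lit 1034, nat_lit 5752, nat_lit 9992, nat_lit 3818, nat_lit 10554],
   [nat_lit 0, nat_lit 0, nat_lit 7594, nat_lit 981, nat_lit 5995, nat_lit 7291, nat_lit 1278, nat_lit 4823, nat_lit 4392, nat_lit 2485, nat_lit 1089, nat_lit 8066, nat_lit 11633, nat_lit 4787, nat_lit 9597],
   [nat_lit 0, nat_lit 4198, nat_lit 10806, nat_lit 4644, nat_lit 3602, nat_lit 701, nat_lit 1260, nat_lit 6760, nat_lit 10464, nat_lit 9609, nat_lit 6742, nat_lit 905, nat_lit 9417, nat_lit 2276, nat_lit 8761]),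
  ([nat_lit 0, nat_lit 7828, nat_lit 9096, nat_lit 4230, nat_lit 10373, nat_lit 161, nat_lit 9684, nat_lit 9620, nat_lit 11013, nat_lit 2822, nat_lit 6041, nat_lit 1928, nat_lit 5449, nat_lit 6579, nat_lit 2106, nat_lit 11315, nat_lit 5175, nat_lit 7456, nat_lit 1840, nat_lit 7530, nat_lit 5767, nat_lit 2408, nat_lit 3878, nat_lit 7718, nat_lit 5398, nat_lit 103, nat_lit 4650, nat_lit 2319, nat_lit 10980, nat_lit 11690, nat_lit 6139, nat_lit 7188, nat_lit 3023, nat_lit 2551, nat_lit 1388, nat_lit 1890, nat_lit 6703, nat_lit 7988, nat_lit 2349, nat_lit 2576, nat_lit 1310, nat_lit 7683, nat_lit 2472, nat_lit 7317, nat_lit 4553, nat_lit 6726, nat_lit 4622, nat_lit 10118, nat_lit 3290, nat_lit 2726, nat_lit 3589, nat_lit 1625, nat_lit 1715, nat_lit 8357, nat_lit 3226, nat_lit 2649, nat_lit 6113, nat_lit 5035, nat_lit 4559, nat_lit 5730, nat_lit 234, nat_lit 3886, nat_lit 4236, nat_lit 7180],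
   [nat_lit 0, nat_lit 0, nat_lit 1052, nat_lit 6649, nat_lit 3488, nat_lit 387, nat_lit 7889, nat_lit 3026, nat_lit 1584, nat_lit 8394, nat_lit 8725, nat_lit 6649, nat_lit 8107, nat_lit 263, nat_lit 1501],
   [nat_lit 0, nat_lit 5170, nat_lit 7991, nat_lit 5338, nat_lit 6079, nat_lit 310, nat_lit 6889, nat_lit 5331, nat_lit 5777, nat_lit 8635, nat_lit 6620, nat_lit 1688, nat_lit 330, nat_lit 4970, nat_lit 4264]),
  ([nat_lit 0, nat_lit 6006, nat_lit 10715, nat_lit 3396, nat_lit 10247, nat_lit 10370, nat_lit 10021, nat_lit 486, nat_lit 3355, nat_lit 4759, nat_lit 814, nat_lit 7943, nat_lit 4475, nat_lit 5979, nat_lit 8837, nat_lit 6339, nat_lit 7209, nat_lit 9437, nat_lit 6836, nat_lit 3434, nat_lit 10633, nat_lit 9205, nat_lit 4200, nat_lit 6557, nat_lit 11430, nat_lit 4832, nat_lit 6980, nat_lit 2981, nat_lit 6605, nat_lit 10847, nat_lit 4368, nat_lit 1453, nat_lit 283, nat_lit 11181, nat_lit 2463, nat_lit 9588, nat_lit 4145,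 nat_lit 1885, nat_lit 1275, nat_lit 2747, nat_lit 10125, nat_lit 8184, nat_lit 8494, nat_lit 7655, nat_lit 2875, nat_lit 9130, nat_lit 826, nat_lit 11450, nat_lit 5439, nat_lit 2828, nat_lit 48, nat_lit 5837, nat_lit 3008, nat_lit 3813, nat_lit 6913, nat_lit 8413, nat_lit 6486, nat_lit 11210, nat_lit 8289, nat_lit 64, nat_lit 8188, nat_lit 10583, nat_lit 4995, nat_lit 3463],
   [nat_lit 0, nat_lit 0, nat_lit 5896, nat_lit 436, nat_lit 1090, nat_lit 10322, nat_lit 2152, nat_lit 9421, nat_lit 10334, nat_lit 3918, nat_lit 6619, nat_lit 5559, nat_lit 6403, nat_lit 602, nat_lit 8325],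
   [nat_lit 0, nat_lit 45, nat_lit 559, nat_lit 9065, nat_lit 2330, nat_lit 1955, nat_lit 8915, nat_lit 1477, nat_lit 2289, nat_lit 5524, nat_lit 5297, nat_lit 1753, nat_lit 309, nat_lit 4297, nat_lit 5808]),
  ([nat_lit 0, nat_lit 6172, nat_lit 10777, nat_lit 11778, nat_lit 1661, nat_lit 9219, nat_lit 7884, nat_lit 6968, nat_lit 1992, nat_lit 8194, nat_lit 890, nat_lit 4868, nat_lit 5388, nat_lit 783, nat_lit 4241, nat_lit 6546, nat_lit 3006, nat_lit 3055, nat_lit 8132, nat_lit 2302, nat_lit 4503, nat_lit 4762, nat_lit 9138, nat_lit 5565, nat_lit 5060, nat_lit 1481, nat_lit 6753, nat_lit 1533, nat_lit 2780, nat_lit 6579, nat_lit 1734, nat_lit 1263, nat_lit 11282, nat_lit 221, nat_lit 3870, nat_lit 3057, nat_lit 1386, nat_lit 9116, nat_lit 4047, nat_lit 2316, nat_lit 11024, nat_lit 3504, nat_lit 10038, nat_lit 1522, nat_lit 303, nat_lit 11205, nat_lit 10140, nat_lit 6997, nat_lit 8107, nat_lit 11616, nat_lit 2120, nat_lit 8100,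 nat_lit 10301, nat_lit 9104, nat_lit 3812, nat_lit 1501, nat_lit 9714, nat_lit 5226, nat_lit 4817, nat_lit 6024, nat_lit 3172, nat_lit 4184, nat_lit 9752, nat_lit 6544],
   [nat_lit 0, nat_lit 0, nat_lit 4184, nat_lit 7412, nat_lit 4687, nat_lit 8298, nat_lit 362, nat_lit 8743, nat_lit 7956, nat_lit 716, nat_lit 5651, nat_lit 10464, nat_lit 9518, nat_lit 11183, nat_lit 739],
   [nat_lit 0, nat_lit 1933, nat_lit 10174, nat_lit 11259, nat_lit 8260, nat_lit 3415, nat_lit 4198, nat_lit 4394, nat_lit 9919, nat_lit 6284, nat_lit 1145, nat_lit 8627, nat_lit 1494, nat_lit 4248, nat_lit 4403]),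
  ([nat_lit 0, nat_lit 11361, nat_lit 1710, nat_lit 9264, nat_lit 6790, nat_lit 9418, nat_lit 6643, nat_lit 3671, nat_lit 8279, nat_lit 4484, nat_lit 1850, nat_lit 7182, nat_lit 5860, nat_lit 3630, nat_lit 10284, nat_lit 10136, nat_lit 4513, nat_lit 1144, nat_lit 7292, nat_lit 6120, nat_lit 1484, nat_lit 10833, nat_lit 439, nat_lit 4359, nat_lit 9984, nat_lit 2678, nat_lit 5360, nat_lit 4922, nat_lit 9383, nat_lit 593, nat_lit 801, nat_lit 10635, nat_lit 7966, nat_lit 9537, nat_lit 5241, nat_lit 4886, nat_lit 3148, nat_lit 6801, nat_lit 3740, nat_lit 8552, nat_lit 488, nat_lit 9553, nat_lit 9118, nat_lit 8103, nat_lit 8506, nat_lit 6471, nat_lit 9864, nat_lit 10406, nat_lit 8041, nat_lit 3187, nat_lit 10147, nat_lit 6825, nat_lit 2189, nat_lit 8111, nat_lit 3652, nat_lit 4455, nat_lit 8845, nat_lit 11664, nat_lit 6809, nat_lit 7716, nat_lit 6193, nat_lit 10566, nat_lit 8657, nat_lit 6394],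
   [nat_lit 0, nat_lit 0, nat_lit 10566, nat_lit 2725, nat_lit 1199, nat_lit 8972, nat_lit 85, nat_lit 9897, nat_lit 10664, nat_lit 8964, nat_lit 10812, nat_lit 10137, nat_lit 10658, nat_lit 952, nat_lit 4473],
   [nat_lit 0, nat_lit 4819, nat_lit 2192, nat_lit 576, nat_lit 9160, nat_lit 9368, nat_lit 1117, nat_lit 11403, nat_lit 327, nat_lit 7055, nat_lit 3715, nat_lit 6719, nat_lit 4329, nat_lit 11500, nat_lit 4480]),
  ([nat_lit 0, nat_lit 11397, nat_lit 8903, nat_lit 9171, nat_lit 5406, nat_lit 6207, nat_lit 4995, nat_lit 8809, nat_lit 10539, nat_lit 3808, nat_lit 808, nat_lit 6502, nat_lit 9110, nat_lit 11604, nat_lit 2809, nat_lit 7972, nat_lit 8496, nat_lit 3441, nat_lit 11174, nat_lit 9352, nat_lit 9241, nat_lit 7981, nat_lit 500, nat_lit 11460, nat_lit 11669, nat_lit 7245, nat_lit 4075, nat_lit 9882, nat_lit 11201, nat_lit 9417, nat_lit 2482, nat_lit 6700, nat_lit 8694, nat_lit 8237, nat_lit 2045, nat_lit 8569, nat_lit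 1285, nat_lit 3497, nat_lit 4395, nat_lit 9605, nat_lit 637, nat_lit 2220, nat_lit 3186, nat_lit 5440, nat_lit 4627, nat_lit 1362, nat_lit 3332, nat_lit 11879, nat_lit 6479, nat_lit 9638, nat_lit 6063, nat_lit 412, nat_lit 301, nat_lit 8372, nat_lit 7786, nat_lit 11001, nat_lit 4120, nat_lit 9577, nat_lit 6429, nat_lit 236, nat_lit 6404, nat_lit 11114, nat_lit 6504, nat_lit 2844],
   [nat_lit 0, nat_lit 0, nat_lit 11114, nat_lit 6649, nat_lit 5777, nat_lit 9082, nat_lit 1450, nat_lit 9486, nat_lit 11388, nat_lit 6150, nat_lit 6225, nat_lit 2398, nat_lit 2758, nat_lit 4359, nat_lit 5717],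
   [nat_lit 0, nat_lit 1835, nat_lit 7341, nat_lit 9127, nat_lit 6698, nat_lit 11644, nat_lit 11367, nat_lit 3028, nat_lit 6976, nat_lit 1540, nat_lit 1173, nat_lit 9087, nat_lit 11038, nat_lit 8876, nat_lit 2342]),
  ([nat_lit 0, nat_lit 7583, nat_lit 10323, nat_lit 4218, nat_lit 5416, nat_lit 7556, nat_lit 10157, nat_lit 8219, nat_lit 8555, nat_lit 6054, nat_lit 7640, nat_lit 7670, nat_lit 10369, nat_lit 11771, nat_lit 491, nat_lit 9668, nat_lit 6684, nat_lit 8213, nat_lit 9338, nat_lit 11755, nat_lit 1993, nat_lit 7490, nat_lit 6312, nat_lit 3237, nat_lit 3562, nat_lit 9131, nat_lit 11636, nat_lit 8627, nat_lit 7927, nat_lit 5290, nat_lit 10410, nat_lit 4226, nat_lit 4112, nat_lit 3526, nat_lit 9562, nat_lit 9510, nat_lit 1642, nat_lit 11338, nat_lit 3956, nat_lit 5465, nat_lit 517, nat_lit 4054, nat_lit 2234, nat_lit 6998, nat_lit 1331, nat_lit 10476, nat_lit 1455, nat_lit 9422, nat_lit 1900, nat_lit 967, nat_lit 6652, nat_lit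 4609, nat_lit 5529, nat_lit 8461, nat_lit 3995, nat_lit 3898, nat_lit 10338, nat_lit 8753, nat_lit 5171, nat_lit 10141, nat_lit 2719, nat_lit 5328, nat_lit 10565, nat_lit 1831],
   [nat_lit 0, nat_lit 0, nat_lit 4129, nat_lit 10464, nat_lit 8611, nat_lit 7553, nat_lit 407, nat_lit 1781, nat_lit 5728, nat_lit 422, nat_lit 1238, nat_lit 3706, nat_lit 952, nat_lit 10488, nat_lit 8852],
   [nat_lit 0, nat_lit 8934, nat_lit 7481, nat_lit 5601, nat_lit 1222, nat_lit 1328, nat_lit 7758, nat_lit 10604, nat_lit 10464, nat_lit 2498, nat_lit 4875, nat_lit 10812, nat_lit 1920, nat_lit 9445, nat_lit 10173]),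
  ([nat_lit 0, nat_lit 3941, nat_lit 11169, nat_lit 9866, nat_lit 3222, nat_lit 7237, nat_lit 7094, nat_lit 7628, nat_lit 9763, nat_lit 359, nat_lit 7253, nat_lit 11463, nat_lit 10503, nat_lit 8507, nat_lit 9317, nat_lit 6051, nat_lit 3313, nat_lit 3298, nat_lit 11625, nat_lit 7824, nat_lit 6712, nat_lit 6477, nat_lit 3756, nat_lit 4743, nat_lit 6824, nat_lit 10480, nat_lit 9291, nat_lit 1773, nat_lit 368, nat_lit 3634, nat_lit 924, nat_lit 2959, nat_lit 11377, nat_lit 11691, nat_lit 10614, nat_lit 7277, nat_lit 10102, nat_lit 1625, nat_lit 2674, nat_lit 10825, nat_lit 4282, nat_lit 2293, nat_lit 7905, nat_lit 2397, nat_lit 10131, nat_lit 8333, nat_lit 4388, nat_lit 5101, nat_lit 1945, nat_lit 8790, nat_lit 8051, nat_lit 7802, nat_lit 1022, nat_lit 6091, nat_lit 7820, nat_lit 1765, nat_lit 2592, nat_lit 2451, nat_lit 7281, nat_lit 11643, nat_lit 3191, nat_lit 3880, nat_lit 6471, nat_lit 110],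
   [nat_lit 0, nat_lit 0, nat_lit 6169, nat_lit 3052, nat_lit 2071, nat_lit 6816, nat_lit 6685, nat_lit 10388, nat_lit 3406, nat_lit 11515, nat_lit 7435, nat_lit 7848, nat_lit 3960, nat_lit 3259, nat_lit 7297],
   [nat_lit 0, nat_lit 11247, nat_lit 5323, nat_lit 7965, nat_lit 5117, nat_lit 3170, nat_lit 11350, nat_lit 4859, nat_lit 4796, nat_lit 8656, nat_lit 6472, nat_lit 1094, nat_lit 9802, nat_lit 9346, nat_lit 7450]),
  ([nat_lit 0, nat_lit 9561, nat_lit 6556, nat_lit 2360, nat_lit 1434, nat_lit 2108, nat_lit 9691, nat_lit 741, nat_lit 1554, nat_lit 10271, nat_lit 4791, nat_lit 1179, nat_lit 3699, nat_lit 8339, nat_lit 2643, nat_lit 5303, nat_lit 8539, nat_lit 10554, nat_lit 8084, nat_lit 3442, nat_lit 257, nat_lit 8899, nat_lit 9597, nat_lit 7919, nat_lit 2361, nat_lit 1375, nat_lit 6390, nat_lit 4352, nat_lit 4484, nat_lit 6402, nat_lit 11799, nat_lit 9877, nat_lit 6555, nat_lit 5540, nat_lit 6664, nat_lit 8434, nat_lit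 5501, nat_lit 4250, nat_lit 2709, nat_lit 1355, nat_lit 10151, nat_lit 3423, nat_lit 3897, nat_lit 10235, nat_lit 4403, nat_lit 11439, nat_lit 7829, nat_lit 10331, nat_lit 2211, nat_lit 5130, nat_lit 10735, nat_lit 10394, nat_lit 6773, nat_lit 7814, nat_lit 7758, nat_lit 8188, nat_lit 826, nat_lit 5924, nat_lit 8369, nat_lit 2832, nat_lit 6870, nat_lit 5620, nat_lit 9923, nat_lit 1210],
   [nat_lit 0, nat_lit 0, nat_lit 3767, nat_lit 11663, nat_lit 872, nat_lit 9903, nat_lit 4538, nat_lit 5159, nat_lit 8799, nat_lit 9817, nat_lit 3741, nat_lit 9592, nat_lit 3666, nat_lit 2168, nat_lit 7019],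
   [nat_lit 0, nat_lit 10684, nat_lit 1873, nat_lit 4121, nat_lit 10180, nat_lit 2170, nat_lit 8220, nat_lit 7342, nat_lit 10791, nat_lit 8888, nat_lit 11569, nat_lit 698, nat_lit 239, nat_lit 6123, nat_lit 9683]),
  ([nat_lit 0, nat_lit 3677, nat_lit 5908, nat_lit 9676, nat_lit 1454, nat_lit 5242, nat_lit 11404, nat_lit 11660, nat_lit 6851, nat_lit 2991, nat_lit 797, nat_lit 3079, nat_lit 10468, nat_lit 2133, nat_lit 6073, nat_lit 10984, nat_lit 7204, nat_lit 6037, nat_lit 8118, nat_lit 11845, nat_lit 5926, nat_lit 11078, nat_lit 10321, nat_lit 3136, nat_lit 1407, nat_lit 10052, nat_lit 9849, nat_lit 2169, nat_lit 6220, nat_lit 11664, nat_lit 7054, nat_lit 10488, nat_lit 1860, nat_lit 2004, nat_lit 6656, nat_lit 2468, nat_lit 8940, nat_lit 7070, nat_lit 4665, nat_lit 8989, nat_lit 5878, nat_lit 2622, nat_lit 8751, nat_lit 4958, nat_lit 11436, nat_lit 11028, nat_lit 11487, nat_lit 1166, nat_lit 5697, nat_lit 7626, nat_lit 6899,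 nat_lit 40, nat_lit 4149, nat_lit 7447, nat_lit 9986, nat_lit 2811, nat_lit 9229, nat_lit 4167, nat_lit 8905, nat_lit 6619, nat_lit 2334, nat_lit 6365, nat_lit 7799, nat_lit 9539],
   [nat_lit 0, nat_lit 0, nat_lit 152, nat_lit 4469, nat_lit 11009, nat_lit 11314, nat_lit 1798, nat_lit 11113, nat_lit 5872, nat_lit 6427, nat_lit 8700, nat_lit 7848, nat_lit 9537, nat_lit 474, nat_lit 6858],
   [nat_lit 0, nat_lit 1011, nat_lit 8366, nat_lit 6879, nat_lit 6858, nat_lit 1485, nat_lit 11030, nat_lit 3528, nat_lit 9919, nat_lit 1212, nat_lit 6329, nat_lit 10579, nat_lit 533, nat_lit 10313, nat_lit 8777]),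
  ([nat_lit 0, nat_lit 2389, nat_lit 9674, nat_lit 11114, nat_lit 3507, nat_lit 8133, nat_lit 8369, nat_lit 4002, nat_lit 6629, nat_lit 9543, nat_lit 6964, nat_lit 6928, nat_lit 11341, nat_lit 8307, nat_lit 6256, nat_lit 868, nat_lit 4645, nat_lit 10026, nat_lit 5297, nat_lit 3770, nat_lit 7789, nat_lit 1585, nat_lit 993, nat_lit 2939, nat_lit 9089, nat_lit 2101, nat_lit 4218, nat_lit 4537, nat_lit 4723, nat_lit 2263, nat_lit 4512, nat_lit 2646, nat_lit 11154, nat_lit 7955, nat_lit 5268, nat_lit 8208, nat_lit 10303, nat_lit 9437, nat_lit 572, nat_lit 9792, nat_lit 4895, nat_lit 6602, nat_lit 393, nat_lit 911, nat_lit 6338, nat_lit 5501, nat_lit 10898, nat_lit 9905, nat_lit 3388, nat_lit 5336, nat_lit 9523, nat_lit 6372, nat_lit 11045, nat_lit 8900, nat_lit 1092, nat_lit 4631, nat_lit 500, nat_lit 9160, nat_lit 10668, nat_lit 562, nat_lit 1119, nat_lit 10000, nat_lit 10321, nat_lit 2359],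
   [nat_lit 0, nat_lit 0, nat_lit 5204, nat_lit 2616, nat_lit 10791, nat_lit 5913, nat_lit 8406, nat_lit 1220, nat_lit 1563, nat_lit 867, nat_lit 7714, nat_lit 9810, nat_lit 9169, nat_lit 429, nat_lit 6556],
   [nat_lit 0, nat_lit 3035, nat_lit 4408, nat_lit 6337, nat_lit 6556, nat_lit 4881, nat_lit 10572, nat_lit 10732, nat_lit 3488, nat_lit 7728, nat_lit 1889, nat_lit 1697, nat_lit 2928, nat_lit 1419, nat_lit 6911]),
  ([nat_lit 0, nat_lit 743, nat_lit 6480, nat_lit 960, nat_lit 4378, nat_lit 10407, nat_lit 5542, nat_lit 8421, nat_lit 331, nat_lit 5002, nat_lit 1027, nat_lit 1165, nat_lit 2070, nat_lit 9740, nat_lit 3741, nat_lit 633, nat_lit 3976, nat_lit 9091, nat_lit 5437, nat_lit 5350, nat_lit 3805, nat_lit 3825, nat_lit 2134, nat_lit 2595, nat_lit 2782, nat_lit 1847, nat_lit 7593, nat_lit 4390, nat_lit 3677, nat_lit 1226, nat_lit 6466, nat_lit 1738, nat_lit 4767, nat_lit 7129, nat_lit 3568, nat_lit 4179, nat_lit 6049,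 nat_lit 1448, nat_lit 5728, nat_lit 9988, nat_lit 6978, nat_lit 6375, nat_lit 4434, nat_lit 10369, nat_lit 7387, nat_lit 4655, nat_lit 1788, nat_lit 11535, nat_lit 2854, nat_lit 11228, nat_lit 9039, nat_lit 11217, nat_lit 7165, nat_lit 9447, nat_lit 7695, nat_lit 7990, nat_lit 6004, nat_lit 4490, nat_lit 6630, nat_lit 1806, nat_lit 1651, nat_lit 1270, nat_lit 5980, nat_lit 858],
   [nat_lit 0, nat_lit 0, nat_lit 11734, nat_lit 1853, nat_lit 218, nat_lit 7036, nat_lit 3420, nat_lit 3244, nat_lit 11830, nat_lit 2617, nat_lit 10033, nat_lit 9919, nat_lit 10396, nat_lit 2661, nat_lit 2591],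
   [nat_lit 0, nat_lit 2227, nat_lit 10825, nat_lit 9371, nat_lit 2591, nat_lit 10992, nat_lit 6998, nat_lit 10345, nat_lit 6431, nat_lit 6019, nat_lit 6620, nat_lit 7356, nat_lit 657, nat_lit 6496, nat_lit 11131]),
  ([nat_lit 0, nat_lit 2575, nat_lit 10232, nat_lit 5347, nat_lit 571, nat_lit 10636, nat_lit 10064, nat_lit 9802, nat_lit 10821, nat_lit 673, nat_lit 236, nat_lit 1707, nat_lit 7350, nat_lit 5797, nat_lit 9364, nat_lit 3167, nat_lit 3006, nat_lit 1420, nat_lit 175, nat_lit 122, nat_lit 3740, nat_lit 4762, nat_lit 11754, nat_lit 5129, nat_lit 9420, nat_lit 2680, nat_lit 104, nat_lit 4149, nat_lit 7576, nat_lit 11811, nat_lit 535, nat_lit 8348, nat_lit 2453, nat_lit 10576, nat_lit 7685, nat_lit 10578, nat_lit 9343, nat_lit 1486, nat_lit 886, nat_lit 9183, nat_lit 11242, nat_lit 8736, nat_lit 1645, nat_lit 1195, nat_lit 4227, nat_lit 7826, nat_lit 1529, nat_lit 3182, nat_lit 695, nat_lit 10199, nat_lit 8987, nat_lit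 4939, nat_lit 4633, nat_lit 1038, nat_lit 5338, nat_lit 10657, nat_lit 9496, nat_lit 10022, nat_lit 8632, nat_lit 6460, nat_lit 6660, nat_lit 5165, nat_lit 6264, nat_lit 8833],
   [nat_lit 0, nat_lit 0, nat_lit 1677, nat_lit 5777, nat_lit 7085, nat_lit 3502, nat_lit 2106, nat_lit 8634, nat_lit 980, nat_lit 7801, nat_lit 6414, nat_lit 9156, nat_lit 7338, nat_lit 8785, nat_lit 8478],
   [nat_lit 0, nat_lit 6838, nat_lit 1781, nat_lit 11804, nat_lit 9677, nat_lit 9083, nat_lit 10629, nat_lit 7337, nat_lit 11445, nat_lit 9881, nat_lit 6050, nat_lit 5139, nat_lit 11086, nat_lit 7518, nat_lit 8109]),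
  ([nat_lit 0, nat_lit 11408, nat_lit 434, nat_lit 2757, nat_lit 8568, nat_lit 11018, nat_lit 6078, nat_lit 9186, nat_lit 4411, nat_lit 3989, nat_lit 5655, nat_lit 6161, nat_lit 505, nat_lit 8972, nat_lit 6087, nat_lit 4283, nat_lit 6222, nat_lit 1433, nat_lit 9508, nat_lit 1450, nat_lit 1344, nat_lit 3670, nat_lit 10477, nat_lit 8207, nat_lit 9256, nat_lit 9461, nat_lit 5278, nat_lit 11555, nat_lit 911, nat_lit 8710, nat_lit 8049, nat_lit 5319, nat_lit 7124, nat_lit 7101, nat_lit 10285, nat_lit 3442, nat_lit 9245, nat_lit 1349, nat_lit 3926, nat_lit 3850, nat_lit 11634, nat_lit 5281, nat_lit 9282, nat_lit 10370, nat_lit 9682, nat_lit 791, nat_lit 8954, nat_lit 1856, nat_lit 11373, nat_lit 2656, nat_lit 5675, nat_lit 5377, nat_lit 11702, nat_lit 8806, nat_lit 11102, nat_lit 9495, nat_lit 6355, nat_lit 7271, nat_lit 6325, nat_lit 2044, nat_lit 3910, nat_lit 9925, nat_lit 7139, nat_lit 2601],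
   [nat_lit 0, nat_lit 0, nat_lit 5020, nat_lit 872, nat_lit 5123, nat_lit 5125, nat_lit 11777, nat_lit 6263, nat_lit 5481, nat_lit 7016, nat_lit 3579, nat_lit 9592, nat_lit 7962, nat_lit 10302, nat_lit 1398],
   [nat_lit 0, nat_lit 5695, nat_lit 9971, nat_lit 534, nat_lit 8483, nat_lit 9566, nat_lit 9273, nat_lit 5377, nat_lit 545, nat_lit 9026, nat_lit 1565, nat_lit 4845, nat_lit 7532, nat_lit 1074, nat_lit 4335]),
  ([nat_lit 0, nat_lit 3078, nat_lit 9670, nat_lit 6055, nat_lit 5710, nat_lit 10331, nat_lit 4938, nat_lit 6896, nat_lit 8584, nat_lit 1716, nat_lit 834, nat_lit 1483, nat_lit 10062, nat_lit 11427, nat_lit 4478, nat_lit 9652, nat_lit 6080, nat_lit 11148, nat_lit 11015, nat_lit 2201, nat_lit 2847, nat_lit 3802, nat_lit 11156, nat_lit 6273, nat_lit 5474, nat_lit 5109, nat_lit 2130, nat_lit 4757, nat_lit 4583, nat_lit 2570, nat_lit 8402, nat_lit 7507, nat_lit 768, nat_lit 7987, nat_lit 1858, nat_lit 6917, nat_lit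 4377, nat_lit 254, nat_lit 2538, nat_lit 2232, nat_lit 8434, nat_lit 6046, nat_lit 2716, nat_lit 1922, nat_lit 10769, nat_lit 8827, nat_lit 1447, nat_lit 2281, nat_lit 10547, nat_lit 1165, nat_lit 2997, nat_lit 3828, nat_lit 4038, nat_lit 3731, nat_lit 3458, nat_lit 186, nat_lit 3836, nat_lit 6044, nat_lit 7295, nat_lit 6503, nat_lit 2835, nat_lit 5870, nat_lit 7922, nat_lit 10722],
   [nat_lit 0, nat_lit 0, nat_lit 1619, nat_lit 3161, nat_lit 6431, nat_lit 9187, nat_lit 4710, nat_lit 6988, nat_lit 1298, nat_lit 4108, nat_lit 375, nat_lit 1962, nat_lit 4492, nat_lit 1958, nat_lit 2376],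
   [nat_lit 0, nat_lit 10065, nat_lit 43, nat_lit 5770, nat_lit 2376, nat_lit 2867, nat_lit 10479, nat_lit 6444, nat_lit 6649, nat_lit 4961, nat_lit 2294, nat_lit 4193, nat_lit 5675, nat_lit 7164, nat_lit 9695]),
  ([nat_lit 0, nat_lit 9416, nat_lit 10154, nat_lit 6377, nat_lit 1292, nat_lit 7281, nat_lit 3709, nat_lit 9555, nat_lit 275, nat_lit 9639, nat_lit 4634, nat_lit 8835, nat_lit 9496, nat_lit 5161, nat_lit 1834, nat_lit 11391, nat_lit 2921, nat_lit 1063, nat_lit 8889, nat_lit 7513, nat_lit 7542, nat_lit 2813, nat_lit 10953, nat_lit 4524, nat_lit 3946, nat_lit 8689, nat_lit 8438, nat_lit 5605, nat_lit 6045, nat_lit 11857, nat_lit 6739, nat_lit 4547, nat_lit 1031, nat_lit 7058, nat_lit 3647, nat_lit 2680, nat_lit 170, nat_lit 10388, nat_lit 11101, nat_lit 1719, nat_lit 4116, nat_lit 183, nat_lit 10156, nat_lit 3197, nat_lit 1306, nat_lit 5648, nat_lit 10001, nat_lit 247, nat_lit 7588, nat_lit 4238, nat_lit 4246, nat_lit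 10376, nat_lit 2884, nat_lit 11259, nat_lit 5259, nat_lit 879, nat_lit 7622, nat_lit 6049, nat_lit 9730, nat_lit 7260, nat_lit 8948, nat_lit 10522, nat_lit 10659, nat_lit 9447],
   [nat_lit 0, nat_lit 0, nat_lit 3546, nat_lit 8611, nat_lit 5995, nat_lit 9793, nat_lit 6007, nat_lit 3826, nat_lit 5895, nat_lit 9579, nat_lit 9854, nat_lit 2180, nat_lit 9059, nat_lit 4429, nat_lit 1633],
   [nat_lit 0, nat_lit 9853, nat_lit 7733, nat_lit 7778, nat_lit 4140, nat_lit 8178, nat_lit 5709, nat_lit 9831, nat_lit 436, nat_lit 5356, nat_lit 3756, nat_lit 6505, nat_lit 6719, nat_lit 11254, nat_lit 4736]),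
  ([nat_lit 0, nat_lit 777, nat_lit 260, nat_lit 636, nat_lit 576, nat_lit 4607, nat_lit 219, nat_lit 2531, nat_lit 564, nat_lit 1796, nat_lit 1036, nat_lit 8831, nat_lit 77, nat_lit 11276, nat_lit 1774, nat_lit 10228, nat_lit 7114, nat_lit 5550, nat_lit 2418, nat_lit 2577, nat_lit 11234, nat_lit 8059, nat_lit 8120, nat_lit 7939, nat_lit 7056, nat_lit 4168, nat_lit 3394, nat_lit 7391, nat_lit 3541, nat_lit 210, nat_lit 3409, nat_lit 10708, nat_lit 5830, nat_lit 3588, nat_lit 6702, nat_lit 312, nat_lit 4453, nat_lit 4153, nat_lit 6825, nat_lit 11691, nat_lit 11509, nat_lit 1369, nat_lit 6183, nat_lit 4699, nat_lit 6394, nat_lit 9985, nat_lit 4569, nat_lit 809, nat_lit 4891, nat_lit 4501, nat_lit 4431, nat_lit 4258, nat_lit 10408, nat_lit 11383, nat_lit 4478, nat_lit 7160, nat_lit 10534, nat_lit 3506, nat_lit 3970, nat_lit 7761, nat_lit 4872, nat_lit 8921, nat_lit 4752, nat_lit 3476],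
   [nat_lit 0, nat_lit 0, nat_lit 10556, nat_lit 10791, nat_lit 9919, nat_lit 6389, nat_lit 9814, nat_lit 8106, nat_lit 10794, nat_lit 2321, nat_lit 2885, nat_lit 4687, nat_lit 6871, nat_lit 5800, nat_lit 3451],
   [nat_lit 0, nat_lit 5864, nat_lit 652, nat_lit 9169, nat_lit 11299, nat_lit 5669, nat_lit 6481, nat_lit 116, nat_lit 8066, nat_lit 659, nat_lit 2778, nat_lit 11397, nat_lit 3584, nat_lit 2516, nat_lit 9027]),
  ([nat_lit 0, nat_lit 1030, nat_lit 1782, nat_lit 155, nat_lit 8883, nat_lit 6260, nat_lit 6162, nat_lit 1719, nat_lit 3500, nat_lit 1708, nat_lit 9294, nat_lit 116, nat_lit 11769, nat_lit 880, nat_lit 1740, nat_lit 9965, nat_lit 9094, nat_lit 568, nat_lit 9444, nat_lit 572, nat_lit 11742, nat_lit 2319, nat_lit 10871, nat_lit 7894, nat_lit 4858, nat_lit 418, nat_lit 3704, nat_lit 7611, nat_lit 1330, nat_lit 5095, nat_lit 1522, nat_lit 11427, nat_lit 3401, nat_lit 5582, nat_lit 6453, nat_lit 9267, nat_lit 6484,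 nat_lit 2600, nat_lit 5194, nat_lit 7837, nat_lit 11342, nat_lit 1249, nat_lit 8288, nat_lit 3966, nat_lit 6901, nat_lit 4918, nat_lit 3075, nat_lit 7464, nat_lit 6927, nat_lit 4254, nat_lit 6516, nat_lit 11088, nat_lit 7543, nat_lit 8285, nat_lit 10768, nat_lit 7947, nat_lit 10600, nat_lit 2461, nat_lit 706, nat_lit 9233, nat_lit 11275, nat_lit 10786, nat_lit 4969, nat_lit 6825],
   [nat_lit 0, nat_lit 0, nat_lit 10568, nat_lit 8066, nat_lit 5014, nat_lit 3668, nat_lit 8407, nat_lit 6571, nat_lit 501, nat_lit 8505, nat_lit 124, nat_lit 10464, nat_lit 4047, nat_lit 7765, nat_lit 7228],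
   [nat_lit 0, nat_lit 8752, nat_lit 3372, nat_lit 7185, nat_lit 6247, nat_lit 1475, nat_lit 1374, nat_lit 8472, nat_lit 4469, nat_lit 5522, nat_lit 4600, nat_lit 704, nat_lit 7748, nat_lit 3901, nat_lit 3636])]

/-- exponents of the octic monomials, by character -/
def OC : List (List (ℕ × ℕ)) := [[(0, 0), (0, 3), (0, 6), (1, 1), (1, 4), (1, 7), (2, 2), (2, 5), (3, 0), (3, 3), (4, 1), (4, 4), (5, 2), (6, 0), (7, 1)],
  [(0, 2), (0, 5), (0, 8), (1, 0), (1, 3), (1, 6), (2, 1), (2, 4), (3, 2), (3, 5), (4, 0), (4, 3), (5, 1), (6, 2), (7, 0)],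
  [(0, 1), (0, 4), (0, 7), (1, 2), (1, 5), (2, 0), (2, 3), (2, 6), (3, 1), (3, 4), (4, 2), (5, 0), (5, 3), (6, 1), (8, 0)]]

/-- approximate inverses of the evaluation matrices -/
def ND : List (List (List ℕ)) := [[[nat_lit 5215, nat_lit 1127, nat_lit 9619, nat_lit 9905, nat_lit 89, nat_lit 7226, nat_lit 6297, nat_lit 9320, nat_lit 1778, nat_lit 10013, nat_lit 7516, nat_lit 9168, nat_lit 280, nat_lit 9557, nat_lit 8047],
   [nat_lit 11744, nat_lit 93, nat_lit 11451, nat_lit 4696, nat_lit 4186, nat_lit 3810, nat_lit 11609, nat_lit 11215, nat_lit 165, nat_lit 3085, nat_lit 3281, nat_lit 1347, nat_lit 11156, nat_lit 10541, nat_lit 6669],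
   [nat_lit 5765, nat_lit 1706, nat_lit 9034, nat_lit 4068, nat_lit 11713, nat_lit 1337, nat_lit 3387, nat_lit 1443, nat_lit 24, nat_lit 10665, nat_lit 6062, nat_lit 3240, nat_lit 11835, nat_lit 9734, nat_lit 3154],
   [nat_lit 4949, nat_lit 866, nat_lit 6406, nat_lit 10917, nat_lit 4758, nat_lit 9631, nat_lit 3059, nat_lit 6263, nat_lit 10049, nat_lit 2969, nat_lit 6585, nat_lit 10029, nat_lit 10560, nat_lit 3367, nat_lit 4640],
   [nat_lit 2062, nat_lit 4604, nat_lit 3887, nat_lit 9046, nat_lit 4343, nat_lit 9641, nat_lit 10143, nat_lit 1709, nat_lit 5577, nat_lit 4211, nat_lit 4710, nat_lit 5046, nat_lit 2200, nat_lit 1469, nat_lit 2638],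
   [nat_lit 2301, nat_lit 9521, nat_lit 4373, nat_lit 11846, nat_lit 7471, nat_lit 7383, nat_lit 5333, nat_lit 9566, nat_lit 4336, nat_lit 9500, nat_lit 8326, nat_lit 4826, nat_lit 11709, nat_lit 4218, nat_lit 6220],
   [nat_lit 566, nat_lit 11457, nat_lit 4628, nat_lit 6506, nat_lit 7706, nat_lit 467, nat_lit 8270, nat_lit 10255, nat_lit 394, nat_lit 2782, nat_lit 6668, nat_lit 1960, nat_lit 6130, nat_lit 242, nat_lit 3255],
   [nat_lit 909, nat_lit 317, nat_lit 2974, nat_lit 1409, nat_lit 11527, nat_lit 3771, nat_lit 1683, nat_lit 4298, nat_lit 4286, nat_lit 6220, nat_lit 7160, nat_lit 11810, nat_lit 3975, nat_lit 11098, nat_lit 11730],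
   [nat_lit 7985, nat_lit 1651, nat_lit 539, nat_lit 863, nat_lit 5515, nat_lit 6218, nat_lit 5395, nat_lit 2519, nat_lit 10626, nat_lit 10976, nat_lit 5330, nat_lit 11842, nat_lit 1924, nat_lit 10714, nat_lit 1070],
   [nat_lit 9435, nat_lit 720, nat_lit 11175, nat_lit 8860, nat_lit 6849, nat_lit 5675, nat_lit 468, nat_lit 3919, nat_lit 1186, nat_lit 10723, nat_lit 9533, nat_lit 9363, nat_lit 4612, nat_lit 8961, nat_lit 3569],
   [nat_lit 9594, nat_lit 10761, nat_lit 5107, nat_lit 11094, nat_lit 7985, nat_lit 5536, nat_lit 11698, nat_lit 11804, nat_lit 10351, nat_lit 6016, nat_lit 4912, nat_lit 1531, nat_lit 11489, nat_lit 7134, nat_lit 3798],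
   [nat_lit 2616, nat_lit 545, nat_lit 11663, nat_lit 7303, nat_lit 2507, nat_lit 6104, nat_lit 2398, nat_lit 2071, nat_lit 436, nat_lit 4796, nat_lit 3924, nat_lit 8611, nat_lit 4360, nat_lit 7303, nat_lit 6649],
   [nat_lit 10325, nat_lit 9715, nat_lit 11794, nat_lit 4284, nat_lit 8082, nat_lit 1217, nat_lit 8304, nat_lit 4970, nat_lit 2349, nat_lit 775, nat_lit 8942, nat_lit 7010, nat_lit 5117, nat_lit 1663, nat_lit 10501],
   [nat_lit 1085, nat_lit 5852, nat_lit 4291, nat_lit 6600, nat_lit 2328, nat_lit 3491, nat_lit 2365, nat_lit 9403, nat_lit 8403, nat_lit 3708, nat_lit 5378, nat_lit 7454, nat_lit 3160, nat_lit 10941, nat_lit 8708],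
   [nat_lit 4365, nat_lit 7446, nat_lit 3448, nat_lit 9968, nat_lit 2250, nat_lit 6755, nat_lit 6682, nat_lit 5094, nat_lit 7184, nat_lit 4576, nat_lit 2579, nat_lit 5626, nat_lit 1418, nat_lit 8025, nat_lit 7751]],
  [[nat_lit 4337, nat_lit 5912, nat_lit 4103, nat_lit 3650, nat_lit 11368, nat_lit 1303, nat_lit 2331, nat_lit 6677, nat_lit 5937, nat_lit 6261, nat_lit 9518, nat_lit 2007, nat_lit 7307, nat_lit 3074, nat_lit 10489],
   [nat_lit 11877, nat_lit 6772, nat_lit 3576, nat_lit 5881, nat_lit 5484, nat_lit 2454, nat_lit 5372, nat_lit 10848, nat_lit 11288, nat_lit 5719, nat_lit 1134, nat_lit 8870, nat_lit 7934, nat_lit 6686, nat_lit 2554],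
   [nat_lit 8465, nat_lit 8032, nat_lit 7463, nat_lit 635, nat_lit 587, nat_lit 11636, nat_lit 1949, nat_lit 8239, nat_lit 5660, nat_lit 5622, nat_lit 4222, nat_lit 6020, nat_lit 7172, nat_lit 2168, nat_lit 9400],
   [nat_lit 8267, nat_lit 11559, nat_lit 11819, nat_lit 115, nat_lit 8047, nat_lit 129, nat_lit 4519, nat_lit 3267, nat_lit 1431, nat_lit 680, nat_lit 2803, nat_lit 2763, nat_lit 9031, nat_lit 10921, nat_lit 9383],
   [nat_lit 1056, nat_lit 2408, nat_lit 1184, nat_lit 7969, nat_lit 5848, nat_lit 6471, nat_lit 2280, nat_lit 9913, nat_lit 1227, nat_lit 9971, nat_lit 4080, nat_lit 1166, nat_lit 8579, nat_lit 805, nat_lit 11681],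
   [nat_lit 150, nat_lit 10593, nat_lit 1387, nat_lit 3621, nat_lit 3194, nat_lit 1061, nat_lit 1290, nat_lit 3367, nat_lit 2236, nat_lit 4028, nat_lit 8814, nat_lit 479, nat_lit 8547, nat_lit 1610, nat_lit 8974],
   [nat_lit 10859, nat_lit 4776, nat_lit 10494, nat_lit 8151, nat_lit 2910, nat_lit 4498, nat_lit 8847, nat_lit 7642, nat_lit 2560, nat_lit 3275, nat_lit 11787, nat_lit 9331, nat_lit 8893, nat_lit 8745, nat_lit 509],
   [nat_lit 1843, nat_lit 5267, nat_lit 9594, nat_lit 696, nat_lit 1175, nat_lit 2102, nat_lit 7544, nat_lit 6301, nat_lit 9363, nat_lit 1599, nat_lit 2072, nat_lit 10294, nat_lit 3812, nat_lit 2000, nat_lit 11508],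
   [nat_lit 9390, nat_lit 1361, nat_lit 11638, nat_lit 5470, nat_lit 10110, nat_lit 11003, nat_lit 8923, nat_lit 4895, nat_lit 11419, nat_lit 7099, nat_lit 7563, nat_lit 8120, nat_lit 7504, nat_lit 8354, nat_lit 9295],
   [nat_lit 1199, nat_lit 10137, nat_lit 10137, nat_lit 9156, nat_lit 9156, nat_lit 6540, nat_lit 5014, nat_lit 10355, nat_lit 3815, nat_lit 10682, nat_lit 218, nat_lit 5341, nat_lit 7194, nat_lit 4905, nat_lit 9919],
   [nat_lit 9814, nat_lit 10014, nat_lit 9286, nat_lit 9597, nat_lit 11520, nat_lit 3323, nat_lit 3675, nat_lit 10189, nat_lit 5280, nat_lit 9541, nat_lit 11292, nat_lit 6281, nat_lit 6672, nat_lit 9228, nat_lit 9109],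
   [nat_lit 1853, nat_lit 3052, nat_lit 11663, nat_lit 9374, nat_lit 1744, nat_lit 109, nat_lit 654, nat_lit 763, nat_lit 8938, nat_lit 1090, nat_lit 6540, nat_lit 7194, nat_lit 11772, nat_lit 2289, nat_lit 1308],
   [nat_lit 10066, nat_lit 10876, nat_lit 3851, nat_lit 4244, nat_lit 2511, nat_lit 4809, nat_lit 10551, nat_lit 1802, nat_lit 9067, nat_lit 8617, nat_lit 4705, nat_lit 3480, nat_lit 8884, nat_lit 7660, nat_lit 9091],
   [nat_lit 10355, nat_lit 7412, nat_lit 3052, nat_lit 5123, nat_lit 3379, nat_lit 1962, nat_lit 6758, nat_lit 4578, nat_lit 8938, nat_lit 3924, nat_lit 10573, nat_lit 10137, nat_lit 6104, nat_lit 5232, nat_lit 6431],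
   [nat_lit 11802, nat_lit 4364, nat_lit 9586, nat_lit 2926, nat_lit 3669, nat_lit 3831, nat_lit 1457, nat_lit 8892, nat_lit 687, nat_lit 6539, nat_lit 8826, nat_lit 3017, nat_lit 4478, nat_lit 11549, nat_lit 9512]],
  [[nat_lit 11823, nat_lit 3017, nat_lit 8158, nat_lit 2380, nat_lit 5573, nat_lit 2229, nat_lit 4851, nat_lit 10439, nat_lit 3845, nat_lit 6466, nat_lit 8318, nat_lit 410, nat_lit 10905, nat_lit 1353, nat_lit 1462],
   [nat_lit 625, nat_lit 5487, nat_lit 3316, nat_lit 4460, nat_lit 6002, nat_lit 1823, nat_lit 6949, nat_lit 3966, nat_lit 9498, nat_lit 4541, nat_lit 8083, nat_lit 6418, nat_lit 1910, nat_lit 7380, nat_lit 7598],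
   [nat_lit 9699, nat_lit 11752, nat_lit 146, nat_lit 11497, nat_lit 8, nat_lit 791, nat_lit 3753, nat_lit 3318, nat_lit 5218, nat_lit 11138, nat_lit 7447, nat_lit 11835, nat_lit 5920, nat_lit 1941, nat_lit 3685],
   [nat_lit 8080, nat_lit 1775, nat_lit 1594, nat_lit 399, nat_lit 7465, nat_lit 5363, nat_lit 761, nat_lit 11218, nat_lit 11216, nat_lit 7599, nat_lit 1826, nat_lit 10350, nat_lit 4122, nat_lit 6469, nat_lit 6251],
   [nat_lit 1320, nat_lit 5243, nat_lit 2612, nat_lit 9716, nat_lit 11724, nat_lit 1576, nat_lit 11599, nat_lit 2110, nat_lit 6079, nat_lit 10998, nat_lit 6003, nat_lit 11067, nat_lit 123, nat_lit 3396, nat_lit 8628],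
   [nat_lit 9363, nat_lit 7956, nat_lit 2765, nat_lit 11404, nat_lit 11271, nat_lit 4187, nat_lit 2929, nat_lit 11273, nat_lit 5591, nat_lit 1309, nat_lit 4389, nat_lit 2581, nat_lit 1277, nat_lit 1356, nat_lit 5062],
   [nat_lit 2677, nat_lit 5406, nat_lit 1324, nat_lit 11167, nat_lit 10002, nat_lit 11681, nat_lit 1782, nat_lit 3223, nat_lit 10891, nat_lit 4840, nat_lit 5200, nat_lit 8597, nat_lit 1034, nat_lit 6690, nat_lit 804],
   [nat_lit 5123, nat_lit 4360, nat_lit 8720, nat_lit 3706, nat_lit 4796, nat_lit 8175, nat_lit 7521, nat_lit 6649, nat_lit 6540, nat_lit 1962, nat_lit 654, nat_lit 1199, nat_lit 11118, nat_lit 6976, nat_lit 5559],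
   [nat_lit 6274, nat_lit 4316, nat_lit 4158, nat_lit 6044, nat_lit 9239, nat_lit 8956, nat_lit 9739, nat_lit 6493, nat_lit 3806, nat_lit 1134, nat_lit 1494, nat_lit 7725, nat_lit 6266, nat_lit 6908, nat_lit 7017],
   [nat_lit 8829, nat_lit 436, nat_lit 11772, nat_lit 5014, nat_lit 1744, nat_lit 3924, nat_lit 981, nat_lit 4905, nat_lit 8720, nat_lit 5014, nat_lit 6649, nat_lit 2507, nat_lit 7521, nat_lit 7739, nat_lit 1962],
   [nat_lit 369, nat_lit 8050, nat_lit 8161, nat_lit 5121, nat_lit 8334, nat_lit 11729, nat_lit 11875, nat_lit 7494, nat_lit 11630, nat_lit 3177, nat_lit 1990, nat_lit 10776, nat_lit 2120, nat_lit 4801, nat_lit 8834],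
   [nat_lit 2720, nat_lit 11068, nat_lit 5161, nat_lit 11030, nat_lit 10593, nat_lit 9989, nat_lit 9328, nat_lit 10584, nat_lit 6614, nat_lit 10841, nat_lit 1886, nat_lit 9259, nat_lit 1284, nat_lit 7196, nat_lit 3817],
   [nat_lit 8938, nat_lit 3597, nat_lit 7303, nat_lit 8066, nat_lit 11118, nat_lit 8611, nat_lit 436, nat_lit 4687, nat_lit 6976, nat_lit 10573, nat_lit 5886, nat_lit 4578, nat_lit 2289, nat_lit 8611, nat_lit 3706],
   [nat_lit 7872, nat_lit 2529, nat_lit 1191, nat_lit 4935, nat_lit 10477, nat_lit 8929, nat_lit 2379, nat_lit 8035, nat_lit 7253, nat_lit 9025, nat_lit 6447, nat_lit 9381, nat_lit 7222, nat_lit 4285, nat_lit 361],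
   [nat_lit 10009, nat_lit 3843, nat_lit 8581, nat_lit 11503, nat_lit 2910, nat_lit 10621, nat_lit 2899, nat_lit 10593, nat_lit 10767, nat_lit 10654, nat_lit 10960, nat_lit 8174, nat_lit 650, nat_lit 836, nat_lit 7703]]]

end Pool.Agent.W500.Curve
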