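import Pool.Agent.W500.CurveSol

/-! Octics through the triple points. -/

set_option autoImplicit false
set_option maxRecDepth 100000

namespace Pool.Agent.W500.Curve

open Finset

/-- exponents of octic monomials, by character -/
def oc (χ c : ℕ) : ℕ × ℕ := (OC.getD χ []).getD c (0, 0)
def NN (χ r q : ℕ) : ℕ := ((ND.getD χ []).getD r []).getD q 0

theorem octN : ∀ χ < 3, ∀ r < 15, ∀ c < 15,
    (∑ q ∈ range 15, NN χ r q * (xa q ^ (oc χ c).1 * ya q ^ (oc χ c).2)) % P2
      = if r = c then 109 else 0 := by decide +kernel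

/-- all exponent pairs of degree at most 8 -/
def P8 : Finset (ℕ × ℕ) := ((range 9) ×ˢ (range 9)).filter (fun e => e.1 + e.2 ≤ 8)

theorem oc_image : ∀ χ : Fin 3, (univ : Finset (Fin 15)).image (fun c : Fin 15 => oc (χ : ℕ) (c : ℕ))
    = P8.filter (fun e : ℕ × ℕ => (e.1 + 2 * e.2) % 3 = (χ : ℕ)) := by decide +kernel

theorem oc_inj : ∀ χ : Fin 3, ∀ c d : Fin 15, oc χ c = oc χ d → c = d := by decide +kernel

section
variable (x y : ℕ → ℤ_[109]) 

/-- evaluation matrix -/
noncomputable def Ev (χ : ℕ) : Matrix (Fin 15) (Fin 15) ℤ_[109] :=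
  fun q c => x q ^ (oc χ c).1 * y q ^ (oc χ c).2

theorem Ev_det (hx : ∀ q, (109 : ℤ_[109]) ^ 2 ∣ x q - xa q)
    (hy : ∀ q, (109 : ℤ_[109]) ^ 2 ∣ y q - ya q) (χ : ℕ) (hχ : χ < 3) : (Ev x y χ).det ≠ 0 := by
  let N : Matrix (Fin 15) (Fin 15) ℤ_[109] := fun r q => (NN χ r q : ℤ_[109])
  have key : ∀ r c : Fin 15, (109 : ℤ_[109]) ^ 2 ∣ (N * Ev x y χ) r c - if r = c then 109 else 0 := by
    intro r c
    have h := dvd_of_modEq (R := ℤ_[109]) (show _ ≡ _ [MOD P2] from
      (show (∑ q ∈ range 15, NN χ r q * (xa q ^ (oc χ c).1 * ya q ^ (oc χ c).2)) ≡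
        (if (r : ℕ) = c then 109 else 0) [MOD P2] from by
          unfold Nat.ModEq
          rw [octN χ hχ r r.2 c c.2]
          split_ifs <;> rfl))
    have h3 : ((P2 : ℕ) : ℤ_[109]) = 109 ^ 2 := by
      simp [P2]; norm_num
    rw [h3] at h
    have hq : ∀ q, (Ideal.Quotient.mk (Ideal.span {(109 : ℤ_[109]) ^ 2}) (x q))
        = (Ideal.Quotient.mk (Ideal.span {(109 : ℤ_[109]) ^ 2}) (xa q : ℤ_[109])) := by
      intro q
      rw [Ideal.Quotient.eq, Ideal.mem_span_singleton]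
      exact hx q
    have hq' : ∀ q, (Ideal.Quotient.mk (Ideal.span {(109 : ℤ_[109]) ^ 2}) (y q))
        = (Ideal.Quotient.mk (Ideal.span {(109 : ℤ_[109]) ^ 2}) (ya q : ℤ_[109])) := by
      intro q
      rw [Ideal.Quotient.eq, Ideal.mem_span_singleton]
      exact hy q
    rw [← Ideal.mem_span_singleton, ← Ideal.Quotient.eq] at h ⊢
    have e1 : (if r = c then (109 : ℤ_[109]) else 0) = (((if (r : ℕ) = c then 109 else 0 : ℕ)) : ℤ_[109]) := by
      by_cases hrc : r = c
      · simp [hrc]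
      · have : (r : ℕ) ≠ c := fun h => hrc (Fin.ext h)
        simp [hrc, this]
    rw [e1, ← h]
    rw [Matrix.mul_apply, Finset.sum_range]
    simp only [N, Ev, map_sum, map_mul, map_pow, hq, hq', Nat.cast_sum, Nat.cast_mul, Nat.cast_pow]
  choose S hS using key
  have hNE : N * Ev x y χ = (109 : ℤ_[109]) • (1 + (109 : ℤ_[109]) • (Matrix.of S)) := by
    ext1 r c
    have := hS r c
    rw [sub_eq_iff_eq_add] at this
    rw [this]
    simp only [Matrix.smul_apply, Matrix.add_apply, Matrix.one_apply, Matrix.of_apply, smul_eq_mul]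
    split_ifs <;> ring
  have hdet : (1 + (109 : ℤ_[109]) • (Matrix.of S) : Matrix (Fin 15) (Fin 15) ℤ_[109]).det ≠ 0 := by
    intro h0
    have h1 := congrArg (PadicInt.toZMod (p := 109)) h0
    rw [RingHom.map_det, map_zero] at h1
    have h2 : (PadicInt.toZMod (p := 109)).mapMatrix
        (1 + (109 : ℤ_[109]) • (Matrix.of S) : Matrix (Fin 15) (Fin 15) ℤ_[109]) = 1 := by
      ext1 r c
      have h109 : (PadicInt.toZMod (p := 109)) (109 : ℤ_[109]) = 0 := by
        have := map_natCast (PadicInt.toZMod (p := 109)) 109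
        push_cast at this
        rw [this]; rfl
      simp only [RingHom.mapMatrix_apply, Matrix.map_apply, Matrix.add_apply, Matrix.smul_apply,
        smul_eq_mul, map_add, map_mul, h109, zero_mul, add_zero, Matrix.one_apply]
      split_ifs <;> simp
    rw [h2, Matrix.det_one] at h1
    exact one_ne_zero h1
  intro h0
  have h1 := congrArg Matrix.det hNE
  rw [Matrix.det_mul, h0, mul_zero, Matrix.det_smul] at h1
  have h109 : (109 : ℤ_[109]) ≠ 0 := by
    have := Nat.cast_ne_zero (R := ℤ_[109]).mpr (by norm_num : (109 : ℕ) ≠ 0)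
    simpa using this
  exact (mul_ne_zero (pow_ne_zero _ h109) hdet) h1.symm

end

section field
variable {K : Type*} [Field K] [CharZero K] 

/-- splitting by characters -/
lemma split3 (w A0 A1 A2 : K) (hw : w ^ 2 + w + 1 = 0) (h0 : A0 + A1 + A2 = 0)
    (h1 : A0 + w * A1 + w ^ 2 * A2 = 0) (h2 : A0 + w ^ 2 * A1 + w * A2 = 0) :
    A0 = 0 ∧ A1 = 0 ∧ A2 = 0 := by
  have e3 : (3 : K) ≠ 0 := by norm_num
  have hw3 : w ^ 3 = 1 := by linear_combination (w - 1) * hw
  have a0 : (3 : K) * A0 = 0 := by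
    linear_combination h0 + h1 + h2 - (A1 + A2) * hw
  have a1 : (3 : K) * A1 = 0 := by
    linear_combination h0 + w ^ 2 * h1 + w * h2 - A0 * hw - 2 * A1 * hw3 - A2 * hw - A2 * w * hw3
  have a2 : (3 : K) * A2 = 0 := by
    linear_combination h0 + w * h1 + w ^ 2 * h2 - A0 * hw - 2 * A2 * hw3 - A1 * hw - A1 * w * hw3
  exact ⟨(mul_eq_zero.mp a0).resolve_left e3, (mul_eq_zero.mp a1).resolve_left e3,
    (mul_eq_zero.mp a2).resolve_left e3⟩

end field

end Pool.Agent.W500.Curve
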