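import Pool.Agent.W500.Newton
import Pool.Agent.W500.CurveCheck

/-! The exact 109-adic curve with 45 triple points. -/

set_option autoImplicit false
set_option maxRecDepth 100000

namespace Pool.Agent.W500.Curve

open Finset

section taylor
variable {R : Type*} [CommRing R]

lemma mul_taylor (t a a1 a2 b b1 b2 : R) :
    (a + t * a1 + t ^ 2 * a2) * (b + t * b1 + t ^ 2 * b2)
      = a * b + t * (a1 * b + a * b1) + t ^ 2 * (a2 * b + a1 * b1 + a * b2 +
        t * (a2 * b1 + a1 * b2) + t ^ 2 * (a2 * b2)) := by ring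

lemma pow_taylor (x h t : R) (n : ℕ) :
    ∃ e, (x + t * h) ^ n = x ^ n + t * (n * x ^ (n - 1) * h) + t ^ 2 * e := by
  obtain ⟨k, hk⟩ := Polynomial.powAddExpansion x (t * h) n
  exact ⟨k * h ^ 2, by rw [hk]; ring⟩

lemma mon_taylor (m a b : ℕ) (c x y g xi eta t : R) :
    ∃ e, (c + t * g) * mon m a b (x + t * xi) (y + t * eta) = c * mon m a b x y
      + t * (mon m a b x y * g + (c * monX m a b x y) * xi + (c * monY m a b x y) * eta)
      + t ^ 2 * e := by
  obtain ⟨e1, h1⟩ := pow_taylor x xi t (ti m - a)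
  obtain ⟨e2, h2⟩ := pow_taylor y eta t (tj m - b)
  have h3 := mul_taylor t (x ^ (ti m - a)) (((ti m - a : ℕ) : R) * x ^ (ti m - a - 1) * xi) e1
    (y ^ (tj m - b)) (((tj m - b : ℕ) : R) * y ^ (tj m - b - 1) * eta) e2
  set w : R := (((ti m).choose a * (tj m).choose b : ℕ) : R) with hw
  set E := (e1 * y ^ (tj m - b) + ((ti m - a : ℕ) : R) * x ^ (ti m - a - 1) * xi *
    (((tj m - b : ℕ) : R) * y ^ (tj m - b - 1) * eta) + x ^ (ti m - a) * e2 +
    t * (e1 * (((tj m - b : ℕ) : R) * y ^ (tj m - b - 1) * eta) +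
      ((ti m - a : ℕ) : R) * x ^ (ti m - a - 1) * xi * e2) + t ^ 2 * (e1 * e2)) with hE
  refine ⟨w * (c * E + g * (((ti m - a : ℕ) : R) * x ^ (ti m - a - 1) * xi * y ^ (tj m - b) +
    x ^ (ti m - a) * (((tj m - b : ℕ) : R) * y ^ (tj m - b - 1) * eta)) + t * (g * E)), ?_⟩
  have e0 : mon m a b (x + t * xi) (y + t * eta)
      = w * ((x + t * xi) ^ (ti m - a) * (y + t * eta) ^ (tj m - b)) := by
    rw [mon]; ring
  have e1' : mon m a b x y = w * (x ^ (ti m - a) * y ^ (tj m - b)) := by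
    rw [mon]; ring
  have eX : monX m a b x y = w * ((ti m - a : ℕ) : R) * (x ^ (ti m - a - 1) * y ^ (tj m - b)) := by
    rw [monX, hw]; push_cast; ring
  have eY : monY m a b x y = w * ((tj m - b : ℕ) : R) * (x ^ (ti m - a) * y ^ (tj m - b - 1)) := by
    rw [monY, hw]; push_cast; ring
  rw [e0, e1', eX, eY, h1, h2, h3]
  ring

lemma jet_taylor (a b : ℕ) (c g : ℕ → R) (x y xi eta t : R) :
    ∃ e, jet (fun m => c m + t * g m) (x + t * xi) (y + t * eta) a b = jet c x y a b
      + t * ((∑ m ∈ range 64, mon m a b x y * g m) + jetX c x y a b * xi + jetY c x y a b * eta)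
      + t ^ 2 * e := by
  have h := fun m => mon_taylor m a b (c m) x y (g m) xi eta t
  choose e he using h
  refine ⟨∑ m ∈ range 64, e m, ?_⟩
  unfold jet jetX jetY
  rw [Finset.sum_congr rfl fun m _ => he m]
  simp only [Finset.sum_add_distrib, Finset.mul_sum, Finset.sum_mul, mul_add]

end taylor

/-- The system of equations. -/
noncomputable def curveSys (R : Type*) [CommRing R] : TaylorSys R (ℕ ⊕ ℕ ⊕ ℕ) (Fin 90) where
  f u r := jet (fun m => u (.inl m)) (u (.inr (.inl (r / 6)))) (u (.inr (.inr (r / 6))))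
    (JA (r % 6)) (JB (r % 6))
  D u r := (∑ m ∈ range 64, mon m (JA (r % 6)) (JB (r % 6)) (u (.inr (.inl (r / 6))))
        (u (.inr (.inr (r / 6)))) • (LinearMap.proj (Sum.inl m) : (ℕ ⊕ ℕ ⊕ ℕ → R) →ₗ[R] R))
    + jetX (fun m => u (.inl m)) (u (.inr (.inl (r / 6)))) (u (.inr (.inr (r / 6))))
      (JA (r % 6)) (JB (r % 6)) • (LinearMap.proj (.inr (.inl ((r : ℕ) / 6))))
    + jetY (fun m => u (.inl m)) (u (.inr (.inl (r / 6)))) (u (.inr (.inr (r / 6))))
      (JA (r % 6)) (JB (r % 6)) • (LinearMap.proj (.inr (.inr ((r : ℕ) / 6))))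
  taylor x h t r := by
    obtain ⟨e, he⟩ := jet_taylor (JA (r % 6)) (JB (r % 6)) (fun m => x (.inl m))
      (fun m => h (.inl m)) (x (.inr (.inl (r / 6)))) (x (.inr (.inr (r / 6))))
      (h (.inr (.inl (r / 6)))) (h (.inr (.inr (r / 6)))) t
    refine ⟨e, ?_⟩
    simp only [Pi.add_apply, Pi.smul_apply, smul_eq_mul, LinearMap.add_apply, LinearMap.smul_apply,
      LinearMap.sum_apply, LinearMap.proj_apply]
    exact he
  cong x y t hxy r h := by
    have hq : ∀ i, Ideal.Quotient.mk (Ideal.span {t}) (x i) = Ideal.Quotient.mk (Ideal.span {t}) (y i) := by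
      intro i
      rw [Ideal.Quotient.eq, Ideal.mem_span_singleton]
      exact hxy i
    rw [← Ideal.mem_span_singleton, ← Ideal.Quotient.eq]
    simp only [smul_eq_mul, LinearMap.add_apply, LinearMap.smul_apply,
      LinearMap.sum_apply, LinearMap.proj_apply, jetX, jetY, mon, monX, monY, map_add, map_mul,
      map_sum, map_pow, map_natCast, hq]

theorem dvd_of_modEq {R : Type*} [CommRing R] {n a b : ℕ} (h : a ≡ b [MOD n]) :
    (n : R) ∣ (a : R) - (b : R) := by
  have h1 := (Nat.modEq_iff_dvd.mp h.symm)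
  have h2 := map_dvd (Int.castRingHom R) h1
  simpa using h2

instance fact109 : Fact (Nat.Prime 109) := ⟨by norm_num⟩

instance : IsAdicComplete (Ideal.span {(109 : ℤ_[109])}) ℤ_[109] := by
  have h := PadicInt.maximalIdeal_eq_span_p (p := 109)
  have h2 : (IsLocalRing.maximalIdeal ℤ_[109]) = Ideal.span {(109 : ℤ_[109])} := by
    rw [h]; norm_num
  rw [← h2]; infer_instance

/-- the approximate solution -/
def ap (R : Type*) [CommRing R] : ℕ ⊕ ℕ ⊕ ℕ → R :=
  Sum.elim (fun m => (tc m : R)) (Sum.elim (fun q => (xa q : R)) (fun q => (ya q : R)))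

def Mv (R : Type*) [CommRing R] (c : Fin 90) : ℕ ⊕ ℕ ⊕ ℕ → R :=
  Sum.elim (fun m => (MC c m : R)) (Sum.elim (fun q => (MX c q : R)) (fun q => (MY c q : R)))

theorem exists_sol : ∃ (c x y : ℕ → ℤ_[109]),
    (∀ q < 15, ∀ s < 6, jet c (x q) (y q) (JA s) (JB s) = 0) ∧
    (∀ m, (109 : ℤ_[109]) ^ 2 ∣ c m - tc m) ∧ (∀ q, (109 : ℤ_[109]) ^ 2 ∣ x q - xa q) ∧
    (∀ q, (109 : ℤ_[109]) ^ 2 ∣ y q - ya q) := by
  have key := (curveSys ℤ_[109]).newton (109 : ℤ_[109]) (ap ℤ_[109]) ?_ (Mv ℤ_[109]) ?_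
  · obtain ⟨u, hu, hu2⟩ := key
    refine ⟨fun m => u (.inl m), fun q => u (.inr (.inl q)), fun q => u (.inr (.inr q)), ?_,
      fun m => hu2 (.inl m), fun m => hu2 (.inr (.inl m)), fun m => hu2 (.inr (.inr m))⟩
    intro q hq s hs
    have := hu ⟨6 * q + s, by omega⟩
    simp only [curveSys] at this
    rwa [show (6 * q + s) / 6 = q by omega, show (6 * q + s) % 6 = s by omega] at this
  · intro r
    have h := resid r r.2
    have h2 := (Nat.cast_dvd_cast (α := ℤ_[109]) h)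
    have h3 : ((P3 : ℕ) : ℤ_[109]) = 109 ^ 3 := by
      simp [P3]; norm_num
    rw [h3] at h2
    convert h2 using 1
    simp only [curveSys, ap, Sum.elim_inl, Sum.elim_inr, jet, mon]
    push_cast
    rfl
  · intro r c
    have h := dvd_of_modEq (R := ℤ_[109]) (jacM r c r.2 c.2)
    have h3 : ((P2 : ℕ) : ℤ_[109]) = 109 ^ 2 := by
      simp [P2]; norm_num
    rw [h3] at h
    convert h using 1
    simp only [curveSys, ap, Mv, LinearMap.add_apply, LinearMap.smul_apply,
      LinearMap.sum_apply, LinearMap.proj_apply, smul_eq_mul, Sum.elim_inl, Sum.elim_inr, jetX, jetY,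
      mon, monX, monY]
    push_cast
    congr 1
    by_cases hrc : r = c
    · simp [hrc]
    · have : (r : ℕ) ≠ c := fun h => hrc (Fin.ext h)
      simp [hrc, this]

end Pool.Agent.W500.Curve
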