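import Mathlib

/-! Newton iteration for a system of equations whose Jacobian is only invertible up to one factor
`p`, over a ring complete for the `p`-adic topology. -/

set_option autoImplicit false

namespace Pool.Agent.W500

open Finset

variable {R : Type*} [CommRing R]

/-- A family of functions with its first order Taylor expansion. -/
structure TaylorSys (R : Type*) [CommRing R] (ι κ : Type*) where
  f : (ι → R) → κ → R
  D : (ι → R) → κ → ((ι → R) →ₗ[R] R)
  taylor : ∀ (x h : ι → R) (t : R) (j : κ), ∃ e : R,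
    f (x + t • h) j = f x j + t * D x j h + t ^ 2 * e
  cong : ∀ (x y : ι → R) (t : R), (∀ i, t ∣ x i - y i) → ∀ (j : κ) (h : ι → R),
    t ∣ D x j h - D y j h

section
variable {ι κ : Type*} [Fintype κ] [DecidableEq κ]

/-- one step -/
lemma TaylorSys.step (S : TaylorSys R ι κ) (p : R) (a : ι → R) (M : κ → ι → R)
    (hM : ∀ j c, p ^ 2 ∣ S.D a j (M c) - if j = c then p else 0)
    (x : ι → R) (hx : ∀ i, p ^ 2 ∣ x i - a i) (k : ℕ) (hf : ∀ j, p ^ (k + 3) ∣ S.f x j) :
    ∃ y : ι → R, (∀ i, p ^ (k + 2) ∣ y i - x i) ∧ ∀ j, p ^ (k + 4) ∣ S.f y j := by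
  classical
  choose g hg using hf
  have hM' : ∀ j c, p ^ 2 ∣ S.D x j (M c) - if j = c then p else 0 := by
    intro j c
    have h1 := S.cong x a (p ^ 2) hx j (M c)
    have := dvd_add h1 (hM j c)
    simpa using this
  choose E hE using hM'
  set h : ι → R := ∑ c, (-(g c)) • M c with hh
  refine ⟨x + (p ^ (k + 2)) • h, ?_, ?_⟩
  · intro i
    simp
  · intro j
    obtain ⟨e, he⟩ := S.taylor x h (p ^ (k + 2)) j
    have hD : S.D x j h = -(p * g j) - p ^ 2 * ∑ c, g c * E j c := by
      rw [hh, map_sum]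
      have : ∀ c, S.D x j ((-(g c)) • M c)
          = -(g c * (if j = c then p else 0)) - p ^ 2 * (g c * E j c) := by
        intro c
        rw [map_smul, smul_eq_mul]
        have := hE j c
        rw [sub_eq_iff_eq_add] at this
        rw [this]; ring
      rw [Finset.sum_congr rfl (fun c _ => this c), Finset.sum_sub_distrib, ← Finset.mul_sum]
      simp [Finset.sum_neg_distrib, mul_comm]
    rw [he, hD, hg j]
    refine ⟨-(∑ c, g c * E j c) + p ^ k * e, ?_⟩
    ring

/-- Newton iteration. -/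
theorem TaylorSys.newton (S : TaylorSys R ι κ) (p : R) [IsAdicComplete (Ideal.span {p}) R]
    (a : ι → R) (ha : ∀ j, p ^ 3 ∣ S.f a j) (M : κ → ι → R)
    (hM : ∀ j c, p ^ 2 ∣ S.D a j (M c) - if j = c then p else 0) :
    ∃ x : ι → R, (∀ j, S.f x j = 0) ∧ ∀ i, p ^ 2 ∣ x i - a i := by
  classical
  -- the sequence
  let T : ℕ → Type _ := fun k => {x : ι → R // (∀ i, p ^ 2 ∣ x i - a i) ∧ ∀ j, p ^ (k + 3) ∣ S.f x j}
  let nxt : ∀ k, T k → T (k + 1) := fun k x =>
    ⟨(S.step p a M hM x.1 x.2.1 k x.2.2).choose, by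
      have h := (S.step p a M hM x.1 x.2.1 k x.2.2).choose_spec
      refine ⟨fun i => ?_, h.2⟩
      have h1 : p ^ 2 ∣ _ := (pow_dvd_pow p (by omega : 2 ≤ k + 2)).trans (h.1 i)
      have := dvd_add h1 (x.2.1 i)
      simpa using this⟩
  have hnxt : ∀ k (x : T k) i, p ^ (k + 2) ∣ (nxt k x).1 i - x.1 i := fun k x =>
    (S.step p a M hM x.1 x.2.1 k x.2.2).choose_spec.1
  let s : ∀ k, T k := fun k => Nat.rec ⟨a, fun i => by simp, by simpa using ha⟩ (fun k x => nxt k x) k
  have hs : ∀ k i, p ^ (k + 2) ∣ (s (k + 1)).1 i - (s k).1 i := fun k i => hnxt k (s k) i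
  have hcau : ∀ i (m n : ℕ), m ≤ n → p ^ (m + 2) ∣ (s n).1 i - (s m).1 i := by
    intro i m n hmn
    induction n, hmn using Nat.le_induction with
    | base => simp
    | succ n hmn ih =>
      have h1 : p ^ (m + 2) ∣ (s (n + 1)).1 i - (s n).1 i :=
        (pow_dvd_pow p (by omega)).trans (hs n i)
      have := dvd_add h1 ih
      simpa using this
  have hlim : ∀ i, ∃ L : R, ∀ n, p ^ n ∣ (s n).1 i - L := by
    intro i
    obtain ⟨L, hL⟩ := IsPrecomplete.prec' (I := Ideal.span {p}) (M := R) (fun n => (s n).1 i) (by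
      intro m n hmn
      rw [SModEq.sub_mem, smul_eq_mul, Ideal.mul_top, Ideal.span_singleton_pow,
        Ideal.mem_span_singleton]
      have h1 := (pow_dvd_pow p (by omega : m ≤ m + 2)).trans (hcau i m n hmn)
      rw [← neg_sub]
      exact (dvd_neg.mpr h1))
    refine ⟨L, fun n => ?_⟩
    have := hL n
    rwa [SModEq.sub_mem, smul_eq_mul, Ideal.mul_top, Ideal.span_singleton_pow,
        Ideal.mem_span_singleton] at this
  choose L hL using hlim
  refine ⟨L, ?_, ?_⟩
  · intro j
    apply IsHausdorff.haus (I := Ideal.span {p}) (M := R) inferInstance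
    intro n
    rw [SModEq.sub_mem, smul_eq_mul, Ideal.mul_top, Ideal.span_singleton_pow,
        Ideal.mem_span_singleton, sub_zero]
    have h1 : ∀ i, ∃ e, L i = (s n).1 i + p ^ n * e := by
      intro i
      obtain ⟨e, he⟩ := hL i n
      exact ⟨-e, by linear_combination -he⟩
    choose h hh using h1
    have h2 : L = (s n).1 + (p ^ n) • h := by
      funext i
      simp [hh i]
    obtain ⟨e, he⟩ := S.taylor (s n).1 h (p ^ n) j
    rw [h2, he]
    have h3 : p ^ n ∣ S.f (s n).1 j := (pow_dvd_pow p (by omega)).trans ((s n).2.2 j)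
    refine dvd_add (dvd_add h3 (Dvd.intro _ rfl)) ?_
    exact Dvd.dvd.mul_right (dvd_pow_self _ two_ne_zero) _
  · intro i
    have h1 := hL i 2
    have h2 := (s 2).2.1 i
    have := dvd_sub h2 h1
    simpa using this

end

end Pool.Agent.W500
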